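import Pool.Agent.H300R2.NB.Defs

/-!
S8 of the project NB: from arithmetic progressions to Fourier coefficients near rationals.
-/

namespace Pool.Agent.H300R2.NB

open Finset Polynomial
open Pool.Agent.H469R2.NK (e norm_e e_add)
open Pool.Agent.H442R2.EHI (nint lis)
open Pool.Agent.H300R2.BH

private lemma apf_e_int (m : ℤ) : e m = 1 := by
  unfold e
  rw [Complex.exp_eq_one_iff]
  exact ⟨m, by push_cast; ring⟩

private lemma apf_e_sub (t : ℝ) : ‖e t - 1‖ ≤ 2 * Real.pi * |t| := by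
  have h := Complex.norm_exp_I_mul_ofReal_sub_one (2 * Real.pi * t)
  unfold e
  rw [mul_comm] at h
  rw [h, norm_mul]
  have h2 : 2 * Real.pi * t / 2 = Real.pi * t := by ring
  rw [h2]
  have h3 := Real.abs_sin_le_abs (x := Real.pi * t)
  rw [abs_mul, abs_of_pos Real.pi_pos] at h3
  simp only [Real.norm_eq_abs, abs_two]
  linarith

private lemma apf_ps (g u : ℕ → ℂ) (N : ℕ) : ∑ n ∈ Icc 1 N, g n * u n =
    (∑ n ∈ Icc 1 N, g n) * u N - ∑ n ∈ range N, (∑ m ∈ Icc 1 n, g m) * (u (n + 1) - u n) := by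
  induction N with
  | zero => simp
  | succ N ih =>
    rw [Finset.sum_Icc_succ_top (by omega), Finset.sum_Icc_succ_top (by omega), ih,
      Finset.sum_range_succ]
    ring

private lemma apf_bd (g : ℕ → ℂ) (N : ℕ) (B δ : ℝ)
    (h : ∀ n ≤ N, ‖∑ m ∈ Icc 1 n, g m‖ ≤ B) :
    ‖∑ n ∈ Icc 1 N, g n * e (n * δ)‖ ≤ B * (1 + N * (2 * Real.pi * |δ|)) := by
  have hB : 0 ≤ B := (norm_nonneg _).trans (h 0 (Nat.zero_le _))
  rw [apf_ps g (fun n => e (n * δ)) N]
  refine (norm_sub_le _ _).trans ?_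
  have h1 : ‖(∑ n ∈ Icc 1 N, g n) * e (N * δ)‖ ≤ B := by
    rw [norm_mul, norm_e, mul_one]
    exact h N le_rfl
  have h2 : ‖∑ n ∈ range N, (∑ m ∈ Icc 1 n, g m) *
      (e (((n + 1 : ℕ) : ℝ) * δ) - e ((n : ℝ) * δ))‖ ≤ N * (B * (2 * Real.pi * |δ|)) := by
    refine (norm_sum_le _ _).trans ?_
    have h3 : ∀ n ∈ range N, ‖(∑ m ∈ Icc 1 n, g m) *
        (e (((n + 1 : ℕ) : ℝ) * δ) - e ((n : ℝ) * δ))‖ ≤ B * (2 * Real.pi * |δ|) := by
      intro n hn
      rw [norm_mul]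
      have h4 : e (((n + 1 : ℕ) : ℝ) * δ) - e ((n : ℝ) * δ) = e ((n : ℝ) * δ) * (e δ - 1) := by
        rw [show ((n + 1 : ℕ) : ℝ) * δ = (n : ℝ) * δ + δ by push_cast; ring, e_add]
        ring
      rw [h4, norm_mul, norm_e, one_mul]
      exact mul_le_mul (h n (mem_range.1 hn).le) (apf_e_sub δ) (norm_nonneg _) hB
    refine (Finset.sum_le_sum h3).trans (le_of_eq ?_)
    rw [Finset.sum_const, card_range, nsmul_eq_mul]
  calc _ ≤ B + N * (B * (2 * Real.pi * |δ|)) := add_le_add h1 h2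
    _ = _ := by ring

private lemma apf_split (f : ℕ → ℂ) (x q : ℕ) (hq : 1 ≤ q) (b : ℤ) (β : ℝ) :
    ∑ n ∈ Icc 1 x, f n * e (n * β) = ∑ c ∈ range q, e ((c : ℝ) * (b / q)) *
      ∑ n ∈ Icc 1 x, (if n % q = c then f n else 0) * e (n * (β - b / q)) := by
  simp only [Finset.mul_sum]
  rw [Finset.sum_comm]
  refine Finset.sum_congr rfl fun n _ => ?_
  rw [Finset.sum_eq_single (n % q)]
  · rw [if_pos rfl]
    have hq0 : (q : ℝ) ≠ 0 := by
      have : (0 : ℝ) < q := by exact_mod_cast hq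
      exact this.ne'
    have hn : (n : ℝ) = (q : ℝ) * ((n / q : ℕ) : ℝ) + ((n % q : ℕ) : ℝ) := by
      exact_mod_cast (Nat.div_add_mod n q).symm
    have h1 : (n : ℝ) * β = (((n % q : ℕ) : ℝ) * (b / q) + n * (β - b / q)) +
        (((((n / q : ℕ) : ℤ) * b : ℤ)) : ℝ) := by
      have h2 : (n : ℝ) * (b / q) = ((n / q : ℕ) : ℝ) * b + ((n % q : ℕ) : ℝ) * (b / q) := by
        conv_lhs => rw [hn]
        field_simp
      rw [Int.cast_mul, Int.cast_natCast]
      linear_combination h2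
    rw [h1, e_add, apf_e_int, mul_one, e_add]
    ring
  · intro c _ hc
    rw [if_neg (fun h => hc h.symm)]
    ring
  · intro h
    exact absurd (mem_range.2 (Nat.mod_lt n hq)) h

/-- S8. From arithmetic progressions to Fourier coefficients near rationals. -/
theorem ap_fourier (E1 E3 : ℕ) : ∃ W x0 : ℕ, ∀ x : ℕ, x0 ≤ x → ∀ f : ℕ → ℂ,
    (∀ q : ℕ, 1 ≤ q → (q : ℝ) ≤ Real.log x ^ E1 → ∀ c : ℕ, c < q → ∀ y : ℕ, y ≤ x →
      ‖∑ m ∈ (Icc 1 y).filter (fun m => m % q = c), f m‖ ≤ x / Real.log x ^ W) →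
    FourierHyp f x E1 E3 := by
  refine ⟨E1 + 3 * E3 + 1, ⌈Real.exp 8⌉₊, fun x hx f hf q hq hqL b _ β hβ => ?_⟩
  have hx' : Real.exp 8 ≤ (x : ℝ) := (Nat.le_ceil _).trans (by exact_mod_cast hx)
  have hx0 : (0 : ℝ) < x := (Real.exp_pos 8).trans_le hx'
  set L := Real.log x with hL
  have hL8 : 8 ≤ L := by
    rw [hL, Real.le_log_iff_exp_le hx0]
    exact hx'
  have hL0 : 0 < L := by linarith
  set B : ℝ := x / L ^ (E1 + 3 * E3 + 1) with hB
  set δ : ℝ := β - b / q with hδ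
  have hB0 : 0 ≤ B := by positivity
  rw [apf_split f x q hq b β]
  have h1 : ∀ c ∈ range q, ‖e ((c : ℝ) * (b / q)) *
      ∑ n ∈ Icc 1 x, (if n % q = c then f n else 0) * e (n * δ)‖ ≤
      B * (1 + x * (2 * Real.pi * |δ|)) := by
    intro c hc
    rw [norm_mul, norm_e, one_mul]
    refine apf_bd _ x B δ fun n hn => ?_
    rw [← Finset.sum_filter]
    exact hf q hq hqL c (mem_range.1 hc) n hn
  refine (norm_sum_le _ _).trans ((Finset.sum_le_sum h1).trans ?_)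
  rw [Finset.sum_const, card_range, nsmul_eq_mul]
  have h2 : (x : ℝ) * |δ| ≤ L ^ E3 := by
    rw [le_div_iff₀ hx0] at hβ
    rw [mul_comm]
    exact hβ
  have h3 : 1 ≤ L ^ E3 := one_le_pow₀ (by linarith)
  have h4 : 1 + (x : ℝ) * (2 * Real.pi * |δ|) ≤ 8 * L ^ E3 := by
    have hp : Real.pi < 3.15 := Real.pi_lt_d2
    have hp0 := Real.pi_pos
    have h5 : (x : ℝ) * (2 * Real.pi * |δ|) ≤ 2 * Real.pi * L ^ E3 := by
      calc (x : ℝ) * (2 * Real.pi * |δ|) = 2 * Real.pi * (x * |δ|) := by ring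
        _ ≤ 2 * Real.pi * L ^ E3 := mul_le_mul_of_nonneg_left h2 (by positivity)
    nlinarith
  have h6 : B = x / (L ^ E1 * L ^ E3 * L ^ (2 * E3) * L) := by
    rw [hB]
    congr 1
    rw [← pow_add, ← pow_add, ← pow_succ]
    congr 1
    ring
  calc (q : ℝ) * (B * (1 + x * (2 * Real.pi * |δ|))) ≤ L ^ E1 * (B * (8 * L ^ E3)) := by
        apply mul_le_mul hqL _ (by positivity) (by positivity)
        exact mul_le_mul_of_nonneg_left h4 hB0
    _ = x / L ^ (2 * E3) * (8 / L) := by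
        rw [h6]
        field_simp
    _ ≤ x / L ^ (2 * E3) * 1 := by
        apply mul_le_mul_of_nonneg_left _ (by positivity)
        rw [div_le_one hL0]
        exact hL8
    _ = x / L ^ (2 * E3) := mul_one _

end Pool.Agent.H300R2.NB
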