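import Pool.Agent.H300R2.NB.AbelLog

/-!
NB, task S23: sums over `n` with all values in an interval.
-/

namespace Pool.Agent.H300R2.NB

open Finset Polynomial

namespace TaskS23

/-- the indicator of `t < m` -/
noncomputable def hs (t m : ℤ) : ℝ := if t < m then 1 else 0

theorem hs_mono (t : ℤ) : Monotone (hs t) := by
  intro a b hab
  unfold hs
  split_ifs with h1 h2
  · exact le_rfl
  · omega
  · exact zero_le_one
  · exact le_rfl

theorem hs_nonneg (t m : ℤ) : 0 ≤ hs t m := by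
  unfold hs
  split_ifs
  · exact zero_le_one
  · exact le_rfl

theorem hs_le (t m : ℤ) : hs t m ≤ 1 := by
  unfold hs
  split_ifs
  · exact le_rfl
  · exact zero_le_one

theorem prod_var1 {ι : Type*} [DecidableEq ι] (s : Finset ι) (N : Finset ℕ) (g : ι → ℕ → ℝ)
    (A : ℝ) (h0 : ∀ i n, 0 ≤ g i n) (h2 : ∀ i n, g i n ≤ 1)
    (hv : ∀ i, ∑ n ∈ N, |g i n - g i (n + 1)| ≤ A) :
    ∑ n ∈ N, |∏ i ∈ s, g i n - ∏ i ∈ s, g i (n + 1)| ≤ A * s.card := by
  induction s using Finset.induction_on with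
  | empty => simp
  | insert j s hj ih =>
    have hp : ∀ n, 0 ≤ ∏ i ∈ s, g i n ∧ ∏ i ∈ s, g i n ≤ 1 := by
      intro n
      exact ⟨prod_nonneg fun i _ => h0 i n, prod_le_one (fun i _ => h0 i n) (fun i _ => h2 i n)⟩
    have h1 : ∀ n ∈ N, |∏ i ∈ insert j s, g i n - ∏ i ∈ insert j s, g i (n + 1)| ≤
        1 * |∏ i ∈ s, g i n - ∏ i ∈ s, g i (n + 1)| + 1 * |g j n - g j (n + 1)| := by
      intro n _
      rw [prod_insert hj, prod_insert hj]
      have e1 : g j n * ∏ i ∈ s, g i n - g j (n + 1) * ∏ i ∈ s, g i (n + 1) =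
          g j n * (∏ i ∈ s, g i n - ∏ i ∈ s, g i (n + 1)) +
          (∏ i ∈ s, g i (n + 1)) * (g j n - g j (n + 1)) := by ring
      rw [e1]
      refine (abs_add_le _ _).trans ?_
      rw [abs_mul, abs_mul, abs_of_nonneg (h0 j n), abs_of_nonneg (hp (n + 1)).1]
      exact add_le_add (mul_le_mul_of_nonneg_right (h2 j n) (abs_nonneg _))
        (mul_le_mul_of_nonneg_right (hp (n + 1)).2 (abs_nonneg _))
    refine (sum_le_sum h1).trans ?_
    rw [sum_add_distrib, ← mul_sum, ← mul_sum, card_insert_of_notMem hj]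
    have h3 := hv j
    push_cast
    linarith

end TaskS23

open TaskS13 TaskS23 in
/-- S23. Sums over `n` with all values in an interval. -/
theorem abel_ind {r : ℕ} (D K : ℕ) (y1 y2 : ℤ) (F : Fin r → ℤ[X])
    (hF : ∀ i, (F i).natDegree ≤ D) (c : ℕ → ℝ) (δ : ℝ)
    (hc : ∀ y ≤ K, |∑ n ∈ Icc 1 y, c n| ≤ δ) :
    |∑ n ∈ (Icc 1 K).filter (fun n : ℕ => ∀ i,
      y1 < (F i).eval (n : ℤ) ∧ (F i).eval (n : ℤ) ≤ y2), c n| ≤ (1 + 2 * r * D) * δ := by
  have hδ : 0 ≤ δ := (abs_nonneg _).trans (hc 0 (Nat.zero_le _))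
  set g : Fin r → ℕ → ℝ := fun i n =>
    if y1 < (F i).eval (n : ℤ) ∧ (F i).eval (n : ℤ) ≤ y2 then 1 else 0 with hg
  have h0 : ∀ i n, 0 ≤ g i n := by
    intro i n
    rw [hg]
    dsimp only
    split_ifs
    · exact zero_le_one
    · exact le_rfl
  have h1 : ∀ i n, g i n ≤ 1 := by
    intro i n
    rw [hg]
    dsimp only
    split_ifs
    · exact le_rfl
    · exact zero_le_one
  have hv : ∀ i, ∑ n ∈ Icc 1 K, |g i n - g i (n + 1)| ≤ 2 * D := by
    intro i
    by_cases hy : y1 ≤ y2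
    · have hgi : ∀ n : ℕ, g i n = hs y1 ((F i).eval (n : ℤ)) - hs y2 ((F i).eval (n : ℤ)) := by
        intro n
        rw [hg]
        unfold hs
        dsimp only
        split_ifs with a1 a2 a3 a4 a5 <;> first | omega | norm_num
      have m1 := mono_var (F i) D K (hF i) (hs y1) (hs_mono y1) 1 (hs_nonneg y1) (hs_le y1)
      have m2 := mono_var (F i) D K (hF i) (hs y2) (hs_mono y2) 1 (hs_nonneg y2) (hs_le y2)
      have m3 : ∑ n ∈ Icc 1 K, |g i n - g i (n + 1)| ≤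
          ∑ n ∈ Icc 1 K, |hs y1 ((F i).eval (n : ℤ)) - hs y1 ((F i).eval ((n + 1 : ℕ) : ℤ))| +
          ∑ n ∈ Icc 1 K, |hs y2 ((F i).eval (n : ℤ)) - hs y2 ((F i).eval ((n + 1 : ℕ) : ℤ))| := by
        rw [← sum_add_distrib]
        refine sum_le_sum fun n _ => ?_
        rw [hgi, hgi]
        rw [show hs y1 (eval (n : ℤ) (F i)) - hs y2 (eval (n : ℤ) (F i)) -
          (hs y1 (eval ((n + 1 : ℕ) : ℤ) (F i)) - hs y2 (eval ((n + 1 : ℕ) : ℤ) (F i))) =
          (hs y1 (eval (n : ℤ) (F i)) - hs y1 (eval ((n + 1 : ℕ) : ℤ) (F i))) -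
          (hs y2 (eval (n : ℤ) (F i)) - hs y2 (eval ((n + 1 : ℕ) : ℤ) (F i))) by ring]
        exact abs_sub _ _
      linarith
    · have hgi : ∀ n : ℕ, g i n = 0 := by
        intro n
        rw [hg]
        dsimp only
        rw [if_neg (by omega)]
      simp only [hgi, sub_self, abs_zero, sum_const_zero]
      positivity
  have hpv := prod_var1 (univ : Finset (Fin r)) (Icc 1 K) g (2 * D) h0 h1 hv
  rw [card_univ, Fintype.card_fin] at hpv
  have hpb : |∏ i, g i (K + 1)| ≤ 1 := by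
    rw [abs_of_nonneg (prod_nonneg fun i _ => h0 i _)]
    exact prod_le_one (fun i _ => h0 i _) (fun i _ => h1 i _)
  have hsum : ∑ n ∈ (Icc 1 K).filter (fun n : ℕ => ∀ i,
      y1 < (F i).eval (n : ℤ) ∧ (F i).eval (n : ℤ) ≤ y2), c n =
      ∑ n ∈ Icc 1 K, c n * (fun n => ∏ i, g i n) n := by
    rw [sum_filter]
    refine sum_congr rfl fun n _ => ?_
    by_cases h : ∀ i, y1 < (F i).eval (n : ℤ) ∧ (F i).eval (n : ℤ) ≤ y2
    · rw [if_pos h]
      have : (fun n => ∏ i, g i n) n = 1 := by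
        refine prod_eq_one ?_
        intro i _
        rw [hg]
        dsimp only
        rw [if_pos (h i)]
      rw [this, mul_one]
    · rw [if_neg h]
      rw [not_forall] at h
      obtain ⟨i, hi⟩ := h
      have : (fun n => ∏ i, g i n) n = 0 := by
        refine prod_eq_zero (mem_univ i) ?_
        rw [hg]
        dsimp only
        rw [if_neg hi]
      rw [this, mul_zero]
  rw [hsum, abel]
  refine (abs_add_le _ _).trans ?_
  have p1 : |(∑ n ∈ Icc 1 K, c n) * (fun n => ∏ i, g i n) (K + 1)| ≤ δ * 1 := by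
    rw [abs_mul]
    exact mul_le_mul (hc K le_rfl) hpb (abs_nonneg _) hδ
  have p2 : |∑ n ∈ Icc 1 K, (∑ m ∈ Icc 1 n, c m) * ((fun n => ∏ i, g i n) n -
      (fun n => ∏ i, g i n) (n + 1))| ≤ δ * (2 * D * r) := by
    refine (abs_sum_le_sum_abs _ _).trans ?_
    refine le_trans ?_ (mul_le_mul_of_nonneg_left hpv hδ)
    rw [mul_sum]
    refine sum_le_sum fun n hn => ?_
    rw [abs_mul]
    exact mul_le_mul_of_nonneg_right (hc n (mem_Icc.mp hn).2) (abs_nonneg _)
  calc _ ≤ δ * 1 + δ * (2 * D * r) := add_le_add p1 p2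
    _ = (1 + 2 * r * D) * δ := by ring

end Pool.Agent.H300R2.NB
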