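import Pool.Agent.H300R2.NB.Defs

/-!
NB, task S13: partial summation with products of `1/log` of polynomials.
-/

namespace Pool.Agent.H300R2.NB

open Finset Polynomial

namespace TaskS13

theorem sum_step (w : ℤ → ℝ) (a b : ℤ) (h : a ≤ b) :
    ∑ t ∈ Ico a b, (w (t + 1) - w t) = w b - w a := by
  induction b, h using Int.leInduction with
  | base => simp
  | succ b hb ih =>
    have h1 : Ico a (b + 1) = insert b (Ico a b) := by
      ext t
      simp only [mem_Ico, mem_insert]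
      omega
    rw [h1, sum_insert (by simp), ih]
    ring

/-- a polynomial of degree at most `D` crosses a level at most `D` times -/
theorem crossing (F : ℤ[X]) (D K : ℕ) (hF : F.natDegree ≤ D) (t : ℤ) :
    ((Icc 1 K).filter (fun n : ℕ =>
      min (F.eval (n : ℤ)) (F.eval ((n + 1 : ℕ) : ℤ)) ≤ t ∧
        t < max (F.eval (n : ℤ)) (F.eval ((n + 1 : ℕ) : ℤ)))).card ≤ D := by
  set P : ℝ[X] := F.map (Int.castRingHom ℝ) - C ((t : ℝ) + 1 / 2) with hP
  have hev : ∀ n : ℤ, P.eval (n : ℝ) = ((F.eval n : ℤ) : ℝ) - ((t : ℝ) + 1 / 2) := by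
    intro n
    rw [hP, eval_sub, eval_C]
    congr 1
    have h1 := Polynomial.eval_intCast_map (Int.castRingHom ℝ) F n
    simpa using h1
  have hP0 : P ≠ 0 := by
    intro h0
    have h1 := hev 0
    rw [h0, eval_zero] at h1
    have h2 : ((2 * F.eval 0 : ℤ) : ℝ) = ((2 * t + 1 : ℤ) : ℝ) := by
      push_cast
      linarith
    have h3 : 2 * F.eval 0 = 2 * t + 1 := by exact_mod_cast h2
    omega
  have hdeg : P.natDegree ≤ D := by
    refine (natDegree_sub_le _ _).trans ?_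
    rw [natDegree_C]
    exact max_le (natDegree_map_le.trans hF) (Nat.zero_le _)
  have hsub : (Icc 1 K).filter (fun n : ℕ =>
      min (F.eval (n : ℤ)) (F.eval ((n + 1 : ℕ) : ℤ)) ≤ t ∧
        t < max (F.eval (n : ℤ)) (F.eval ((n + 1 : ℕ) : ℤ))) ⊆
      P.roots.toFinset.image (fun ξ : ℝ => ⌊ξ⌋₊) := by
    intro n hn
    obtain ⟨-, h1, h2⟩ := mem_filter.mp hn
    have hcont : ContinuousOn (fun y => P.eval y) (Set.Icc (n : ℝ) ((n : ℝ) + 1)) :=
      P.continuous.continuousOn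
    have e1 : P.eval (n : ℝ) = ((F.eval (n : ℤ) : ℤ) : ℝ) - ((t : ℝ) + 1 / 2) := by
      have := hev (n : ℤ)
      rwa [Int.cast_natCast] at this
    have e2 : P.eval ((n : ℝ) + 1) =
        ((F.eval ((n + 1 : ℕ) : ℤ) : ℤ) : ℝ) - ((t : ℝ) + 1 / 2) := by
      have := hev ((n + 1 : ℕ) : ℤ)
      rwa [Int.cast_natCast, Nat.cast_add, Nat.cast_one] at this
    have hroot : ∃ ξ ∈ Set.Ioo (n : ℝ) ((n : ℝ) + 1), P.eval ξ = 0 := by
      rcases le_total (F.eval (n : ℤ)) (F.eval ((n + 1 : ℕ) : ℤ)) with hle | hle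
      · rw [min_eq_left hle] at h1
        rw [max_eq_right hle] at h2
        have h1' : ((F.eval (n : ℤ) : ℤ) : ℝ) ≤ t := by exact_mod_cast h1
        have h2' : (t : ℝ) + 1 ≤ ((F.eval ((n + 1 : ℕ) : ℤ) : ℤ) : ℝ) := by exact_mod_cast h2
        have h3 : P.eval (n : ℝ) < 0 := by rw [e1]; linarith
        have h4 : 0 < P.eval ((n : ℝ) + 1) := by rw [e2]; linarith
        exact intermediate_value_Ioo (by linarith) hcont ⟨h3, h4⟩
      · rw [min_eq_right hle] at h1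
        rw [max_eq_left hle] at h2
        have h1' : ((F.eval ((n + 1 : ℕ) : ℤ) : ℤ) : ℝ) ≤ t := by exact_mod_cast h1
        have h2' : (t : ℝ) + 1 ≤ ((F.eval (n : ℤ) : ℤ) : ℝ) := by exact_mod_cast h2
        have h3 : P.eval ((n : ℝ) + 1) < 0 := by rw [e2]; linarith
        have h4 : 0 < P.eval (n : ℝ) := by rw [e1]; linarith
        exact intermediate_value_Ioo' (by linarith) hcont ⟨h3, h4⟩
    obtain ⟨ξ, ⟨hξ1, hξ2⟩, hξ⟩ := hroot
    refine mem_image.mpr ⟨ξ, ?_, ?_⟩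
    · rw [Multiset.mem_toFinset, mem_roots hP0]
      exact hξ
    · have hξ0 : 0 ≤ ξ := le_trans (Nat.cast_nonneg n) hξ1.le
      exact (Nat.floor_eq_iff hξ0).mpr ⟨hξ1.le, hξ2⟩
  calc _ ≤ (P.roots.toFinset.image (fun ξ : ℝ => ⌊ξ⌋₊)).card := card_le_card hsub
    _ ≤ P.roots.toFinset.card := card_image_le
    _ ≤ Multiset.card P.roots := Multiset.toFinset_card_le _
    _ ≤ P.natDegree := card_roots' _
    _ ≤ D := hdeg

theorem mono_var (F : ℤ[X]) (D K : ℕ) (hF : F.natDegree ≤ D) (w : ℤ → ℝ) (hw : Monotone w)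
    (W : ℝ) (h0 : ∀ t, 0 ≤ w t) (hW : ∀ t, w t ≤ W) :
    ∑ n ∈ Icc 1 K, |w (F.eval (n : ℤ)) - w (F.eval ((n + 1 : ℕ) : ℤ))| ≤ D * W := by
  set a : ℕ → ℤ := fun n => F.eval (n : ℤ) with ha
  set B : ℤ := ∑ n ∈ Icc 1 (K + 1), |a n| with hBdef
  have hB : ∀ n ∈ Icc 1 (K + 1), |a n| ≤ B := fun n hn =>
    single_le_sum (f := fun n => |a n|) (fun i _ => abs_nonneg _) hn
  have hB0 : 0 ≤ B := sum_nonneg fun i _ => abs_nonneg _
  have h1 : ∀ n ∈ Icc 1 K, |w (a n) - w (a (n + 1))| = ∑ t ∈ Ico (-B) B,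
      if (min (a n) (a (n + 1)) ≤ t ∧ t < max (a n) (a (n + 1))) then (w (t + 1) - w t) else 0 := by
    intro n hn
    obtain ⟨hn1, hn2⟩ := mem_Icc.mp hn
    have b1 := abs_le.mp (hB n (mem_Icc.mpr ⟨hn1, by omega⟩))
    have b2 := abs_le.mp (hB (n + 1) (mem_Icc.mpr ⟨by omega, by omega⟩))
    rw [← sum_filter]
    have h2 : (Ico (-B) B).filter (fun t => min (a n) (a (n + 1)) ≤ t ∧
        t < max (a n) (a (n + 1))) = Ico (min (a n) (a (n + 1))) (max (a n) (a (n + 1))) := by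
      ext t
      simp only [mem_filter, mem_Ico]
      constructor
      · rintro ⟨-, h⟩
        exact h
      · rintro ⟨h3, h4⟩
        refine ⟨⟨?_, ?_⟩, h3, h4⟩
        · exact le_trans (le_min b1.1 b2.1) h3
        · exact lt_of_lt_of_le h4 (max_le b1.2 b2.2)
    rw [h2, sum_step _ _ _ min_le_max]
    rcases le_total (a n) (a (n + 1)) with h | h
    · rw [min_eq_left h, max_eq_right h, abs_sub_comm, abs_of_nonneg (sub_nonneg.mpr (hw h))]
    · rw [min_eq_right h, max_eq_left h, abs_of_nonneg (sub_nonneg.mpr (hw h))]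
  rw [show ∑ n ∈ Icc 1 K, |w (F.eval (n : ℤ)) - w (F.eval ((n + 1 : ℕ) : ℤ))| =
    ∑ n ∈ Icc 1 K, |w (a n) - w (a (n + 1))| from rfl, sum_congr rfl h1, sum_comm]
  calc _ ≤ ∑ t ∈ Ico (-B) B, (D : ℝ) * (w (t + 1) - w t) := by
        refine sum_le_sum fun t _ => ?_
        rw [← sum_filter, sum_const, nsmul_eq_mul]
        refine mul_le_mul_of_nonneg_right ?_ (sub_nonneg.mpr (hw (by omega)))
        exact_mod_cast crossing F D K hF t
    _ = D * (w B - w (-B)) := by rw [← mul_sum, sum_step _ _ _ (by omega)]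
    _ ≤ D * W := by
        refine mul_le_mul_of_nonneg_left ?_ (Nat.cast_nonneg _)
        have := hW B
        have := h0 (-B)
        linarith

/-- the step function -/
noncomputable def uu (m : ℤ) : ℝ := if 2 ≤ m then 1 / Real.log 2 else 0

/-- the difference -/
noncomputable def vv (x : ℕ) (m : ℤ) : ℝ := uu m - lg x m

theorem log2_pos : 0 < Real.log 2 := Real.log_pos (by norm_num)

theorem inv_log2 : 1 / Real.log 2 ≤ 3 / 2 := by
  rw [div_le_iff₀ log2_pos]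
  have := Real.log_two_gt_d9
  linarith

theorem uu_mono : Monotone uu := by
  intro a b hab
  unfold uu
  have := one_div_pos.mpr log2_pos
  split_ifs with h1 h2
  · exact le_rfl
  · omega
  · exact this.le
  · exact le_rfl

theorem lg_of (x : ℕ) {m : ℤ} (h : 2 ≤ m) (h' : m ≤ x) : lg x m = 1 / Real.log m := by
  unfold lg
  rw [if_pos ⟨h, h'⟩]

theorem lg_nonneg (x : ℕ) (m : ℤ) : 0 ≤ lg x m := by
  unfold lg
  split_ifs with h
  · have : (1 : ℝ) ≤ (m : ℝ) := by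
      have : (1 : ℤ) ≤ m := by omega
      exact_mod_cast this
    exact one_div_nonneg.mpr (Real.log_nonneg this)
  · exact le_rfl

theorem inv_log_anti {a b : ℤ} (ha : 2 ≤ a) (hab : a ≤ b) :
    1 / Real.log b ≤ 1 / Real.log a := by
  have h1 : (2 : ℝ) ≤ (a : ℝ) := by exact_mod_cast ha
  have h2 : (a : ℝ) ≤ (b : ℝ) := by exact_mod_cast hab
  have h3 : 0 < Real.log a := Real.log_pos (by linarith)
  exact one_div_le_one_div_of_le h3 (Real.log_le_log (by linarith) h2)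

theorem inv_log_le2 {b : ℤ} (hb : 2 ≤ b) : 1 / Real.log b ≤ 1 / Real.log 2 := by
  have := inv_log_anti (a := 2) le_rfl hb
  simpa using this

theorem lg_le (x : ℕ) (m : ℤ) : lg x m ≤ 1 / Real.log 2 := by
  unfold lg
  split_ifs with h
  · exact inv_log_le2 h.1
  · exact (one_div_pos.mpr log2_pos).le

theorem lg_le_uu (x : ℕ) (m : ℤ) : lg x m ≤ uu m := by
  unfold uu
  split_ifs with h
  · exact lg_le x m
  · unfold lg
    rw [if_neg (by omega)]

theorem vv_mono (x : ℕ) : Monotone (vv x) := by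
  intro a b hab
  unfold vv
  by_cases ha : 2 ≤ a
  · have hb : 2 ≤ b := le_trans ha hab
    have e1 : uu a = 1 / Real.log 2 := if_pos ha
    have e2 : uu b = 1 / Real.log 2 := if_pos hb
    rw [e1, e2]
    have : lg x b ≤ lg x a := by
      by_cases hbx : b ≤ x
      · rw [lg_of x hb hbx, lg_of x ha (le_trans hab hbx)]
        exact inv_log_anti ha hab
      · have : lg x b = 0 := by
          unfold lg
          rw [if_neg (fun h => hbx h.2)]
        rw [this]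
        exact lg_nonneg x a
    linarith
  · have e1 : uu a = 0 := if_neg ha
    have e2 : lg x a = 0 := by
      unfold lg
      rw [if_neg (fun h => ha h.1)]
    rw [e1, e2, sub_zero]
    exact sub_nonneg.mpr (lg_le_uu x b)

theorem lg_var (x : ℕ) (F : ℤ[X]) (D K : ℕ) (hF : F.natDegree ≤ D) :
    ∑ n ∈ Icc 1 K, |lg x (F.eval (n : ℤ)) - lg x (F.eval ((n + 1 : ℕ) : ℤ))| ≤ 3 * D := by
  have hu := mono_var F D K hF uu uu_mono (1 / Real.log 2)
    (fun t => le_trans (lg_nonneg 0 t) (lg_le_uu 0 t))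
    (fun t => by
      unfold uu
      split_ifs
      · exact le_rfl
      · exact (one_div_pos.mpr log2_pos).le)
  have hv := mono_var F D K hF (vv x) (vv_mono x) (1 / Real.log 2)
    (fun t => sub_nonneg.mpr (lg_le_uu x t))
    (fun t => by
      unfold vv
      have h1 := lg_nonneg x t
      have h2 : uu t ≤ 1 / Real.log 2 := by
        unfold uu
        split_ifs
        · exact le_rfl
        · exact (one_div_pos.mpr log2_pos).le
      linarith)
  have h1 : ∑ n ∈ Icc 1 K, |lg x (F.eval (n : ℤ)) - lg x (F.eval ((n + 1 : ℕ) : ℤ))| ≤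
      ∑ n ∈ Icc 1 K, |uu (F.eval (n : ℤ)) - uu (F.eval ((n + 1 : ℕ) : ℤ))| +
      ∑ n ∈ Icc 1 K, |vv x (F.eval (n : ℤ)) - vv x (F.eval ((n + 1 : ℕ) : ℤ))| := by
    rw [← sum_add_distrib]
    refine sum_le_sum fun n _ => ?_
    have e1 : lg x (F.eval (n : ℤ)) - lg x (F.eval ((n + 1 : ℕ) : ℤ)) =
        (uu (F.eval (n : ℤ)) - uu (F.eval ((n + 1 : ℕ) : ℤ))) -
        (vv x (F.eval (n : ℤ)) - vv x (F.eval ((n + 1 : ℕ) : ℤ))) := by
      unfold vv
      ring
    rw [e1]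
    exact abs_sub _ _
  have h2 : (D : ℝ) * (1 / Real.log 2) ≤ D * (3 / 2) :=
    mul_le_mul_of_nonneg_left inv_log2 (Nat.cast_nonneg _)
  linarith

theorem prod_var {ι : Type*} [DecidableEq ι] (s : Finset ι) (N : Finset ℕ) (g : ι → ℕ → ℝ)
    (A : ℝ) (hA : 0 ≤ A) (h0 : ∀ i n, 0 ≤ g i n) (h2 : ∀ i n, g i n ≤ 2)
    (hv : ∀ i, ∑ n ∈ N, |g i n - g i (n + 1)| ≤ A) :
    ∑ n ∈ N, |∏ i ∈ s, g i n - ∏ i ∈ s, g i (n + 1)| ≤ A * s.card * 2 ^ s.card := by
  induction s using Finset.induction_on with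
  | empty => simp
  | insert j s hj ih =>
    have hp : ∀ n, 0 ≤ ∏ i ∈ s, g i n ∧ ∏ i ∈ s, g i n ≤ 2 ^ s.card := by
      intro n
      refine ⟨prod_nonneg fun i _ => h0 i n, ?_⟩
      rw [← prod_const]
      exact prod_le_prod (fun i _ => h0 i n) (fun i _ => h2 i n)
    have h1 : ∀ n ∈ N, |∏ i ∈ insert j s, g i n - ∏ i ∈ insert j s, g i (n + 1)| ≤
        2 * |∏ i ∈ s, g i n - ∏ i ∈ s, g i (n + 1)| + 2 ^ s.card * |g j n - g j (n + 1)| := by
      intro n _
      rw [prod_insert hj, prod_insert hj]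
      have e1 : g j n * ∏ i ∈ s, g i n - g j (n + 1) * ∏ i ∈ s, g i (n + 1) =
          g j n * (∏ i ∈ s, g i n - ∏ i ∈ s, g i (n + 1)) +
          (∏ i ∈ s, g i (n + 1)) * (g j n - g j (n + 1)) := by ring
      rw [e1]
      refine (abs_add_le _ _).trans ?_
      rw [abs_mul, abs_mul, abs_of_nonneg (h0 j n), abs_of_nonneg (hp (n + 1)).1]
      exact add_le_add (mul_le_mul_of_nonneg_right (h2 j n) (abs_nonneg _))
        (mul_le_mul_of_nonneg_right (hp (n + 1)).2 (abs_nonneg _))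
    refine (sum_le_sum h1).trans ?_
    rw [sum_add_distrib, ← mul_sum, ← mul_sum, card_insert_of_notMem hj]
    have h3 := hv j
    have h4 : (0 : ℝ) < 2 ^ s.card := by positivity
    have h5 := mul_le_mul_of_nonneg_left h3 h4.le
    have h6 : A * ((s.card + 1 : ℕ) : ℝ) * 2 ^ (s.card + 1) =
        2 * (A * s.card * 2 ^ s.card) + 2 * (A * 2 ^ s.card) := by
      push_cast
      ring
    rw [h6]
    have h7 : 0 ≤ A * 2 ^ s.card := by positivity
    linarith

theorem abel (c G : ℕ → ℝ) (K : ℕ) :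
    ∑ n ∈ Icc 1 K, c n * G n = (∑ n ∈ Icc 1 K, c n) * G (K + 1) +
      ∑ n ∈ Icc 1 K, (∑ m ∈ Icc 1 n, c m) * (G n - G (n + 1)) := by
  induction K with
  | zero => simp
  | succ K ih =>
    rw [sum_Icc_succ_top (by omega), sum_Icc_succ_top (by omega) c,
      sum_Icc_succ_top (by omega) (fun n => (∑ m ∈ Icc 1 n, c m) * (G n - G (n + 1))), ih,
      sum_Icc_succ_top (by omega) c]
    ring

end TaskS13

open TaskS13 in
/-- S13. Partial summation with products of `1/log` of polynomials. -/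
theorem abel_log {r : ℕ} (D x K : ℕ) (F : Fin r → ℤ[X]) (hF : ∀ i, (F i).natDegree ≤ D)
    (c : ℕ → ℝ) (δ : ℝ) (hc : ∀ y ≤ K, |∑ n ∈ Icc 1 y, c n| ≤ δ) :
    |∑ n ∈ Icc 1 K, c n * ∏ i, lg x ((F i).eval (n : ℤ))| ≤ (2 + 3 * r * D) * 2 ^ r * δ := by
  set g : Fin r → ℕ → ℝ := fun i n => lg x ((F i).eval (n : ℤ)) with hg
  have hδ : 0 ≤ δ := (abs_nonneg _).trans (hc 0 (Nat.zero_le _))
  have h0 : ∀ i n, 0 ≤ g i n := fun i n => lg_nonneg x _
  have h2 : ∀ i n, g i n ≤ 2 := by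
    intro i n
    have h3 := lg_le x ((F i).eval (n : ℤ))
    have h4 := inv_log2
    show lg x ((F i).eval (n : ℤ)) ≤ 2
    linarith
  have hv : ∀ i, ∑ n ∈ Icc 1 K, |g i n - g i (n + 1)| ≤ 3 * D := fun i =>
    lg_var x (F i) D K (hF i)
  have hpv := prod_var (univ : Finset (Fin r)) (Icc 1 K) g (3 * D) (by positivity) h0 h2 hv
  rw [card_univ, Fintype.card_fin] at hpv
  have hpb : |∏ i, g i (K + 1)| ≤ 2 ^ r := by
    rw [abs_of_nonneg (prod_nonneg fun i _ => h0 i _)]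
    calc ∏ i, g i (K + 1) ≤ ∏ _i : Fin r, (2 : ℝ) :=
          prod_le_prod (fun i _ => h0 i _) (fun i _ => h2 i _)
      _ = 2 ^ r := by rw [prod_const, card_univ, Fintype.card_fin]
  rw [show ∑ n ∈ Icc 1 K, c n * ∏ i, lg x ((F i).eval (n : ℤ)) =
    ∑ n ∈ Icc 1 K, c n * (fun n => ∏ i, g i n) n from rfl, abel]
  refine (abs_add_le _ _).trans ?_
  have p1 : |(∑ n ∈ Icc 1 K, c n) * (fun n => ∏ i, g i n) (K + 1)| ≤ δ * 2 ^ r := by
    rw [abs_mul]
    exact mul_le_mul (hc K le_rfl) hpb (abs_nonneg _) hδ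
  have p2 : |∑ n ∈ Icc 1 K, (∑ m ∈ Icc 1 n, c m) * ((fun n => ∏ i, g i n) n -
      (fun n => ∏ i, g i n) (n + 1))| ≤ δ * (3 * D * r * 2 ^ r) := by
    refine (abs_sum_le_sum_abs _ _).trans ?_
    refine le_trans ?_ (mul_le_mul_of_nonneg_left hpv hδ)
    rw [mul_sum]
    refine sum_le_sum fun n hn => ?_
    rw [abs_mul]
    exact mul_le_mul_of_nonneg_right (hc n (mem_Icc.mp hn).2) (abs_nonneg _)
  have p3 : 0 ≤ δ * 2 ^ r := by positivity
  calc _ ≤ δ * 2 ^ r + δ * (3 * D * r * 2 ^ r) := add_le_add p1 p2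
    _ ≤ (2 + 3 * r * D) * 2 ^ r * δ := by nlinarith [p3]

end Pool.Agent.H300R2.NB
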