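import Pool.Agent.H300R2.NB.Defs

/-!
S14 (helper959): the difference between primes and model satisfies the hypotheses of `star`.
The statements of S6, S7, S8, S9 (`lz_ap`, `ip_ap`, `ap_fourier`, `Vi_upper`) are explicit
hypotheses.
-/

namespace Pool.Agent.H300R2.NB

open Finset Polynomial
open Pool.Agent.H469R2.NK (e)
open Pool.Agent.H442R2.EHI (nint lis)
open Pool.Agent.H300R2.BH

private theorem s14_large : ∃ x1 : ℕ, ∀ x : ℕ, x1 ≤ x → 2 ≤ Real.log x ∧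
    1 + 2 * Real.log (Real.log x) ^ 2 ≤ Real.log x := by
  have h1 : ∀ᶠ y : ℝ in Filter.atTop, ‖Real.log y ^ 2‖ ≤ (1 / 4) * ‖y‖ :=
    (Asymptotics.isLittleO_iff.1 (Real.isLittleO_pow_log_id_atTop (n := 2))) (by norm_num)
  rw [Filter.eventually_atTop] at h1
  obtain ⟨y0, hy0⟩ := h1
  refine ⟨Nat.ceil (Real.exp (max y0 2)), fun x hx => ?_⟩
  have hx1 : Real.exp (max y0 2) ≤ (x : ℝ) := (Nat.le_ceil _).trans (by exact_mod_cast hx)
  have hL : max y0 2 ≤ Real.log x := by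
    have := Real.log_le_log (Real.exp_pos _) hx1
    rwa [Real.log_exp] at this
  have hL1 : y0 ≤ Real.log x := le_trans (le_max_left _ _) hL
  have hL2 : 2 ≤ Real.log x := le_trans (le_max_right _ _) hL
  have h2 := hy0 _ hL1
  rw [Real.norm_of_nonneg (sq_nonneg _), Real.norm_of_nonneg (by linarith)] at h2
  exact ⟨hL2, by linarith⟩

/-- S14. The difference between primes and model satisfies the hypotheses of `star`. -/
theorem dz_ok_of
    (lz_ap : ∀ (E1 E W : ℕ), ∃ x0 : ℕ, ∀ x : ℕ, x0 ≤ x → ∀ z : ℕ,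
      ⌊Real.log x ^ E1⌋₊ ≤ z → (z : ℝ) ≤ Real.log x ^ E → ∀ q : ℕ, 1 ≤ q →
      (q : ℝ) ≤ Real.log x ^ E1 → ∀ c : ℕ, c < q → ∀ y : ℕ, y ≤ x →
      |∑ m ∈ (Icc 1 y).filter (fun m => m % q = c), lz x z m -
        (if c.Coprime q then lis y / (Nat.totient q : ℝ) else 0)| ≤ x / Real.log x ^ W)
    (ip_ap : ∀ (E1 W : ℕ), ∃ x0 : ℕ, ∀ x : ℕ, x0 ≤ x → ∀ q : ℕ, 1 ≤ q →
      (q : ℝ) ≤ Real.log x ^ E1 → ∀ c : ℕ, c < q → ∀ y : ℕ, y ≤ x →
      |∑ m ∈ (Icc 1 y).filter (fun m => m % q = c), ip x m -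
        (if c.Coprime q then lis y / (Nat.totient q : ℝ) else 0)| ≤ x / Real.log x ^ W)
    (ap_fourier : ∀ (E1 E3 : ℕ), ∃ W x0 : ℕ, ∀ x : ℕ, x0 ≤ x → ∀ f : ℕ → ℂ,
      (∀ q : ℕ, 1 ≤ q → (q : ℝ) ≤ Real.log x ^ E1 → ∀ c : ℕ, c < q → ∀ y : ℕ, y ≤ x →
        ‖∑ m ∈ (Icc 1 y).filter (fun m => m % q = c), f m‖ ≤ x / Real.log x ^ W) →
      FourierHyp f x E1 E3)
    (Vi_upper : ∀ (E : ℕ), ∃ x0 : ℕ, ∀ x : ℕ, x0 ≤ x → ∀ z : ℕ, (z : ℝ) ≤ Real.log x ^ E →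
      1 ≤ Vi z ∧ Vi z ≤ Real.log (Real.log x) ^ 2 ∧ (∀ m : ℤ, 0 ≤ lz x z m) ∧
      (∀ m : ℤ, lz x z m ≤ 2 * Real.log (Real.log x) ^ 2))
    (E1 E3 E : ℕ) : ∃ x0 : ℕ, ∀ x : ℕ, x0 ≤ x → ∀ z : ℕ,
    ⌊Real.log x ^ E1⌋₊ ≤ z → (z : ℝ) ≤ Real.log x ^ E →
    FourierHyp (dz x z) x E1 E3 ∧ ∑ n ∈ Icc 1 x, ‖dz x z n‖ ^ 2 ≤ x * Real.log x ^ 2 := by
  obtain ⟨W, xa, ha⟩ := ap_fourier E1 E3
  obtain ⟨xb, hb⟩ := ip_ap E1 (W + 1)
  obtain ⟨xc, hc⟩ := lz_ap E1 E (W + 1)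
  obtain ⟨xd, hd⟩ := Vi_upper E
  obtain ⟨x1, hx1⟩ := s14_large
  refine ⟨max xa (max xb (max xc (max xd x1))), fun x hx z hz1 hz2 => ?_⟩
  have hxa : xa ≤ x := le_trans (le_max_left _ _) hx
  have hx' := le_trans (le_max_right _ _) hx
  have hxb : xb ≤ x := le_trans (le_max_left _ _) hx'
  have hx'' := le_trans (le_max_right _ _) hx'
  have hxc : xc ≤ x := le_trans (le_max_left _ _) hx''
  have hx''' := le_trans (le_max_right _ _) hx''
  have hxd : xd ≤ x := le_trans (le_max_left _ _) hx'''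
  have hxe : x1 ≤ x := le_trans (le_max_right _ _) hx'''
  obtain ⟨hL2, hLL⟩ := hx1 x hxe
  have hL0 : 0 < Real.log x := by linarith
  obtain ⟨_, _, hlz0, hlz1⟩ := hd x hxd z hz2
  refine ⟨?_, ?_⟩
  · apply ha x hxa
    intro q hq hqL c hcq y hy
    have e1 := hb x hxb q hq hqL c hcq y hy
    have e2 := hc x hxc z hz1 hz2 q hq hqL c hcq y hy
    have e3 : ∑ m ∈ (Icc 1 y).filter (fun m => m % q = c), dz x z m =
        (((∑ m ∈ (Icc 1 y).filter (fun m => m % q = c), ip x m -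
            (if c.Coprime q then lis y / (Nat.totient q : ℝ) else 0)) -
          (∑ m ∈ (Icc 1 y).filter (fun m => m % q = c), lz x z m -
            (if c.Coprime q then lis y / (Nat.totient q : ℝ) else 0)) : ℝ) : ℂ) := by
      unfold dz
      rw [← Complex.ofReal_sum, Finset.sum_sub_distrib]
      congr 1
      ring
    rw [e3, Complex.norm_real, Real.norm_eq_abs]
    refine (abs_sub _ _).trans ?_
    refine (add_le_add e1 e2).trans ?_
    rw [← add_div, div_le_div_iff₀ (by positivity) (by positivity), pow_succ]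
    have hx0 : (0 : ℝ) ≤ (x : ℝ) := Nat.cast_nonneg _
    have hLW : (0 : ℝ) ≤ Real.log x ^ W := by positivity
    nlinarith [mul_nonneg hx0 hLW]
  · have key : ∀ n : ℕ, ‖dz x z n‖ ^ 2 ≤ Real.log x ^ 2 := by
      intro n
      apply pow_le_pow_left₀ (norm_nonneg _)
      unfold dz
      rw [Complex.norm_real, Real.norm_eq_abs]
      have h1 : 0 ≤ ip x n ∧ ip x n ≤ 1 := by
        unfold ip
        split_ifs <;> norm_num
      have h2 := hlz0 n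
      have h3 := hlz1 n
      rw [abs_le]
      constructor <;> linarith [h1.1, h1.2]
    calc ∑ n ∈ Icc 1 x, ‖dz x z n‖ ^ 2 ≤ ∑ _n ∈ Icc 1 x, Real.log x ^ 2 :=
          Finset.sum_le_sum fun n _ => key n
      _ = x * Real.log x ^ 2 := by
          rw [Finset.sum_const, Nat.card_Icc, nsmul_eq_mul, Nat.add_sub_cancel]

end Pool.Agent.H300R2.NB
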