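import Pool.Agent.H300R2.NB.Defs
import Pool.Agent.H442R2.EHI.Fourier

/-!
S7 of the NB project (helper300), by helper473: primes in arithmetic progressions.
-/

namespace Pool.Agent.H300R2.NB

open Finset Polynomial
open Pool.Agent.H469R2.NK (e)
open Pool.Agent.H442R2.EHI (nint lis)
open Pool.Agent.H300R2.BH

namespace IpAPx

lemma sum_ip (x q c y : ℕ) (hc : c < q) (hyx : y ≤ x) :
    ∑ m ∈ (Icc 1 y).filter (fun m => m % q = c), ip x m = H343E.piAP y q c := by
  have h1 : ∀ m ∈ (Icc 1 y).filter (fun m => m % q = c), ip x m = if m.Prime then (1 : ℝ) else 0 := by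
    intro m hm
    have h2 := (mem_Icc.1 (mem_filter.1 hm).1).2
    unfold ip
    have h3 : (m : ℤ) ≤ (x : ℤ) := by exact_mod_cast h2.trans hyx
    simp [h3]
  rw [sum_congr rfl h1, sum_ite, sum_const_zero, add_zero, sum_const, nsmul_eq_mul, mul_one,
    filter_filter]
  unfold H343E.piAP
  congr 2
  apply filter_congr
  intro m _
  unfold Nat.ModEq
  rw [Nat.mod_eq_of_lt hc]
  exact and_comm

lemma lis_nonneg (y : ℕ) : 0 ≤ lis y :=
  sum_nonneg fun n _ => one_div_nonneg.2 (Real.log_natCast_nonneg n)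

lemma lis_le (y : ℕ) : lis y ≤ 2 * y := by
  unfold lis
  have h1 : ∀ n ∈ Icc 2 y, 1 / Real.log n ≤ 2 := by
    intro n hn
    have h2 : (2 : ℝ) ≤ n := by exact_mod_cast (mem_Icc.1 hn).1
    have h3 : Real.log 2 ≤ Real.log n := Real.log_le_log (by norm_num) h2
    have h4 := Real.log_two_gt_d9
    rw [div_le_iff₀ (by linarith)]
    linarith
  refine (sum_le_sum h1).trans ?_
  rw [sum_const, nsmul_eq_mul, Nat.card_Icc]
  have h5 : ((y + 1 - 2 : ℕ) : ℝ) ≤ y := by
    have : y + 1 - 2 ≤ y := by omega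
    exact_mod_cast this
  linarith

lemma piAP_nonneg (y q c : ℕ) : 0 ≤ H343E.piAP y q c := Nat.cast_nonneg _

lemma piAP_le (y q c : ℕ) : H343E.piAP y q c ≤ y := by
  unfold H343E.piAP
  have h1 := card_filter_le (Icc 1 y) (fun p => p.Prime ∧ p ≡ c [MOD q])
  rw [Nat.card_Icc, Nat.add_sub_cancel] at h1
  exact_mod_cast h1

end IpAPx

open IpAPx in
/-- S7. Primes in arithmetic progressions. -/
theorem ip_ap (E1 W : ℕ) : ∃ x0 : ℕ, ∀ x : ℕ, x0 ≤ x → ∀ q : ℕ, 1 ≤ q →
    (q : ℝ) ≤ Real.log x ^ E1 → ∀ c : ℕ, c < q → ∀ y : ℕ, y ≤ x →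
    |∑ m ∈ (Icc 1 y).filter (fun m => m % q = c), ip x m -
      (if c.Coprime q then lis y / (Nat.totient q : ℝ) else 0)| ≤ x / Real.log x ^ W := by
  obtain ⟨C7, hC7⟩ := Pool.Agent.H442R2.EHI.pnt_err (W + 1)
  obtain ⟨y0, hsw⟩ := Pool.Agent.H442R2.EHI.Four8.sw (W + 1) (E1 + 1)
  obtain ⟨x1, hx1⟩ := Pool.Agent.H442R2.EHI.Four8.ev_log (W + 1) 1
  obtain ⟨x3, hx3⟩ := Pool.Agent.H442R2.EHI.Four8.ev_L (3 + (1 + |C7|) * 2 ^ (W + 1) + 2 * 2 ^ E1)
  refine ⟨max x1 (max x3 (max (y0 ^ 2) 4)), ?_⟩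
  intro x hx q hq1 hqL c hcq y hyx
  have hxx1 : x1 ≤ x := le_trans (le_max_left _ _) hx
  have hxx3 : x3 ≤ x := le_trans (le_trans (le_max_left _ _) (le_max_right _ _)) hx
  have hxx4 : y0 ^ 2 ≤ x :=
    le_trans (le_trans (le_trans (le_max_left _ _) (le_max_right _ _)) (le_max_right _ _)) hx
  have hxx5 : 4 ≤ x :=
    le_trans (le_trans (le_trans (le_max_right _ _) (le_max_right _ _)) (le_max_right _ _)) hx
  have hxR : (4 : ℝ) ≤ x := by exact_mod_cast hxx5
  have hx0 : (0 : ℝ) < x := by linarith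
  rw [sum_ip x q c y hcq hyx]
  set L : ℝ := Real.log x with hL
  have hA := hx1 x hxx1
  have hc := hx3 x hxx3
  rw [← hL] at hA hc
  rw [one_mul] at hA
  set c0 : ℝ := (1 + |C7|) * 2 ^ (W + 1) with hc0
  have hc00 : 0 < c0 := by positivity
  have h2E : (0 : ℝ) < 2 ^ E1 := by positivity
  have hL3 : 3 ≤ L := by linarith
  have hL0 : 0 < L := by linarith
  have hL1 : 1 ≤ L := by linarith
  have hLc : c0 ≤ L := by linarith
  have hL2E : 2 ^ E1 * 2 ≤ L := by linarith
  have hsqx : √(x : ℝ) ≤ x := by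
    rw [Real.sqrt_le_left (by positivity)]
    nlinarith
  have hsqx0 : 0 < √(x : ℝ) := Real.sqrt_pos.2 hx0
  have hsq2 : √(x : ℝ) * √(x : ℝ) = x := Real.mul_self_sqrt hx0.le
  have hφ : (1 : ℝ) ≤ Nat.totient q := by exact_mod_cast Nat.totient_pos.2 hq1
  split_ifs with hcop
  · rcases le_or_gt (y : ℝ) (x / L ^ (W + 1)) with hy | hy
    · -- short sums
      have h1 : 0 ≤ lis y / (Nat.totient q : ℝ) := div_nonneg (lis_nonneg y) (by linarith)
      have h2 : lis y / (Nat.totient q : ℝ) ≤ 2 * y :=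
        (div_le_self (lis_nonneg y) hφ).trans (lis_le y)
      have h3 := piAP_nonneg y q c
      have h4 := piAP_le y q c
      have h5 : |H343E.piAP y q c - lis y / (Nat.totient q : ℝ)| ≤ 3 * y := by
        rw [abs_le]; constructor <;> linarith
      refine h5.trans ?_
      calc 3 * (y : ℝ) ≤ L * (x / L ^ (W + 1)) := by gcongr
        _ = x / L ^ W := by field_simp; ring
    · have hysq : √(x : ℝ) ≤ y := by
        refine le_trans ?_ hy.le
        rw [le_div_iff₀ (by positivity)]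
        calc √(x : ℝ) * L ^ (W + 1) ≤ √(x : ℝ) * √(x : ℝ) := by gcongr
          _ = x := hsq2
      have hyy0 : y0 ≤ y := by
        have h1 : (y0 : ℝ) ≤ √(x : ℝ) := by
          apply Real.le_sqrt_of_sq_le
          exact_mod_cast hxx4
        exact_mod_cast h1.trans hysq
      have hy2 : 2 ≤ y := by
        have h1 : (2 : ℝ) ≤ √(x : ℝ) := by
          apply Real.le_sqrt_of_sq_le
          linarith
        exact_mod_cast h1.trans hysq
      have hyR : (2 : ℝ) ≤ y := by exact_mod_cast hy2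
      have hlogy : L / 2 ≤ Real.log y := by
        have h1 := Real.log_le_log hsqx0 hysq
        rw [Real.log_sqrt hx0.le] at h1
        exact h1
      have hlogy0 : 0 < Real.log y := by linarith
      have hqlog : (q : ℝ) ≤ Real.log y ^ (E1 + 1) := by
        calc (q : ℝ) ≤ L ^ E1 := hqL
          _ = (2 * (L / 2)) ^ E1 := by ring_nf
          _ ≤ (2 * Real.log y) ^ E1 := by gcongr
          _ = 2 ^ E1 * Real.log y ^ E1 := mul_pow _ _ _
          _ ≤ Real.log y * Real.log y ^ E1 := by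
              apply mul_le_mul_of_nonneg_right _ (by positivity)
              linarith
          _ = Real.log y ^ (E1 + 1) := by ring
      have hP := hsw y hyy0 q hq1 hqlog c hcq hcop
      have h7 := hC7 y hy2
      have hpi : H343E.pi1 y = (((Icc 1 y).filter (fun p : ℕ => p.Prime)).card : ℝ) := rfl
      rw [← hpi] at h7
      set δ : ℝ := y / Real.log y ^ (W + 1) with hδ
      have hδ0 : 0 ≤ δ := by positivity
      have h8 : |H343E.pi1 y / (Nat.totient q : ℝ) - lis y / (Nat.totient q : ℝ)| ≤ |C7| * δ := by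
        rw [← sub_div, abs_div, abs_of_pos (by linarith : (0 : ℝ) < Nat.totient q)]
        refine (div_le_self (abs_nonneg _) hφ).trans (h7.trans ?_)
        rw [mul_div_assoc]
        exact mul_le_mul_of_nonneg_right (le_abs_self _) hδ0
      have h9 : |H343E.piAP y q c - lis y / (Nat.totient q : ℝ)| ≤ (1 + |C7|) * δ := by
        have h10 := abs_sub_le (H343E.piAP y q c) (H343E.pi1 y / (Nat.totient q : ℝ))
          (lis y / (Nat.totient q : ℝ))
        linarith
      refine h9.trans ?_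
      have h11 : δ ≤ 2 ^ (W + 1) * (x / L ^ (W + 1)) := by
        have h12 : (L / 2) ^ (W + 1) ≤ Real.log y ^ (W + 1) := by gcongr
        calc δ ≤ x / (L / 2) ^ (W + 1) := by
              rw [hδ]
              apply div_le_div₀ hx0.le (by exact_mod_cast hyx) (by positivity) h12
          _ = 2 ^ (W + 1) * (x / L ^ (W + 1)) := by
              rw [div_pow]
              field_simp
      calc (1 + |C7|) * δ ≤ (1 + |C7|) * (2 ^ (W + 1) * (x / L ^ (W + 1))) := by gcongr
        _ = c0 * (x / L ^ (W + 1)) := by rw [hc0]; ring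
        _ ≤ L * (x / L ^ (W + 1)) := by gcongr
        _ = x / L ^ W := by field_simp; ring
  · rw [sub_zero, abs_of_nonneg (piAP_nonneg y q c)]
    refine (Pool.Agent.H442R2.EHI.Four8.piAP_noncop y q c hcq hcop).trans ?_
    rw [le_div_iff₀ (by positivity), one_mul]
    calc L ^ W ≤ L ^ (W + 1) := pow_le_pow_right₀ hL1 (by omega)
      _ ≤ √(x : ℝ) := hA
      _ ≤ x := hsqx

end Pool.Agent.H300R2.NB
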