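import Mathlib

/-!
Elementary asymptotic inequalities.
-/

namespace Pool.Agent.H300R2.NB

lemma log_gt_one {x : ℕ} (hx : 3 ≤ x) : 1 < Real.log x := by
  have h3 : (3 : ℝ) ≤ x := by exact_mod_cast hx
  have h4 : Real.log 3 ≤ Real.log x := Real.log_le_log (by norm_num) h3
  have h5 : (1 : ℝ) < Real.log 3 := by
    rw [Real.lt_log_iff_exp_lt (by norm_num)]
    have := Real.exp_one_lt_d9
    linarith
  linarith

/-- `x ↦ log x` tends to infinity (naturals) -/
lemma ev_log_ge (M : ℝ) : ∃ x0 : ℕ, ∀ x : ℕ, x0 ≤ x → M ≤ Real.log x := by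
  refine ⟨⌈Real.exp M⌉₊ + 1, fun x hx => ?_⟩
  have h1 : Real.exp M ≤ x := (Nat.le_ceil _).trans (by exact_mod_cast (by omega : ⌈Real.exp M⌉₊ ≤ x))
  have h2 : (0 : ℝ) < x := (Real.exp_pos M).trans_le h1
  exact (Real.le_log_iff_exp_le h2).2 h1

lemma ev_loglog_pow (C : ℕ) : ∃ x0 : ℕ, ∀ x : ℕ, x0 ≤ x →
    2 * Real.log (Real.log x) ^ C ≤ Real.log x := by
  have h1 : Filter.Tendsto (fun y : ℝ => Real.log y ^ C / y) Filter.atTop (nhds 0) := by
    have := (Real.isLittleO_pow_log_id_atTop (n := C)).tendsto_div_nhds_zero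
    simpa using this
  have h2 := (h1.comp (Real.tendsto_log_atTop.comp tendsto_natCast_atTop_atTop)).eventually
    (gt_mem_nhds (show (0 : ℝ) < 1 / 2 by norm_num))
  rw [Filter.eventually_atTop] at h2
  obtain ⟨x1, h3⟩ := h2
  refine ⟨max x1 3, fun x hx => ?_⟩
  have h4 := h3 x ((le_max_left _ _).trans hx)
  have hL := log_gt_one ((le_max_right _ _).trans hx)
  simp only [Function.comp] at h4
  rw [div_lt_iff₀ (by linarith)] at h4
  linarith

end Pool.Agent.H300R2.NB
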