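import Pool.Agent.H300R2.NB.Defs

/-!
# S20: tails of singular series of linear forms (helper298)
-/

namespace Pool.Agent.H300R2.NB

open Finset Polynomial

namespace TailLin

lemma lin_sol_unique {p : ℕ} (hp : p.Prime) {a b : ℤ} (hab : ¬ ((p : ℤ) ∣ a ∧ (p : ℤ) ∣ b))
    {n n' : ℕ} (hn : n < p) (hn' : n' < p) (h : (p : ℤ) ∣ a * n + b) (h' : (p : ℤ) ∣ a * n' + b) :
    n = n' := by
  have hp' : Prime (p : ℤ) := Nat.prime_iff_prime_int.1 hp
  have h1 : (p : ℤ) ∣ a * ((n : ℤ) - n') := by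
    have := dvd_sub h h'
    have e : a * (n : ℤ) + b - (a * n' + b) = a * ((n : ℤ) - n') := by ring
    rwa [e] at this
  rcases hp'.dvd_or_dvd h1 with h2 | h2
  · exfalso
    apply hab
    refine ⟨h2, ?_⟩
    have := dvd_sub h (h2.mul_right (n : ℤ))
    have e : a * (n : ℤ) + b - a * n = b := by ring
    rwa [e] at this
  · have h3 : (n : ℤ) - n' = 0 := Int.eq_zero_of_abs_lt_dvd h2 (by rw [abs_lt]; constructor <;> omega)
    omega

lemma lin_sol_exists {p : ℕ} (hp : p.Prime) {a b : ℤ} (ha : ¬ (p : ℤ) ∣ a) :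
    ∃ n : ℕ, n < p ∧ (p : ℤ) ∣ a * n + b := by
  have := Fact.mk hp
  have ha' : (a : ZMod p) ≠ 0 := fun h => ha ((ZMod.intCast_zmod_eq_zero_iff_dvd a p).1 h)
  refine ⟨((-(b : ZMod p)) / (a : ZMod p)).val, ZMod.val_lt _, ?_⟩
  rw [← ZMod.intCast_zmod_eq_zero_iff_dvd]
  push_cast
  rw [ZMod.natCast_val, ZMod.cast_id]
  field_simp
  ring

lemma eval_lin (a b : ℤ) (n : ℕ) :
    (Polynomial.C a * X + Polynomial.C b).eval (n : ℤ) = a * n + b := by
  simp

lemma om_le {r : ℕ} {p : ℕ} (hp : p.Prime) (a b : Fin r → ℤ)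
    (hab : ∀ i, ¬ ((p : ℤ) ∣ a i ∧ (p : ℤ) ∣ b i)) :
    om (fun i => Polynomial.C (a i) * X + Polynomial.C (b i)) p ≤ r := by
  classical
  unfold om
  have h1 : ((range p).filter (fun n : ℕ => ∃ i, (p : ℤ) ∣
      (Polynomial.C (a i) * X + Polynomial.C (b i)).eval (n : ℤ))) ⊆
      (Finset.univ : Finset (Fin r)).biUnion
        (fun i => (range p).filter (fun n : ℕ => (p : ℤ) ∣ a i * n + b i)) := by
    intro n hn
    rw [Finset.mem_filter] at hn
    obtain ⟨hn, i, hi⟩ := hn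
    rw [eval_lin] at hi
    rw [Finset.mem_biUnion]
    exact ⟨i, Finset.mem_univ _, Finset.mem_filter.2 ⟨hn, hi⟩⟩
  refine (Finset.card_le_card h1).trans (Finset.card_biUnion_le.trans ?_)
  calc ∑ i : Fin r, ((range p).filter (fun n : ℕ => (p : ℤ) ∣ a i * n + b i)).card
      ≤ ∑ _i : Fin r, 1 := by
        apply Finset.sum_le_sum
        intro i _
        rw [Finset.card_le_one]
        intro n hn n' hn'
        rw [Finset.mem_filter, Finset.mem_range] at hn hn'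
        exact lin_sol_unique hp (hab i) hn.1 hn'.1 hn.2 hn'.2
    _ = r := by simp

lemma le_om {r : ℕ} {p : ℕ} (hp : p.Prime) (a b : Fin r → ℤ)
    (ha : ∀ i, ¬ (p : ℤ) ∣ a i) (hD : ∀ i k, i ≠ k → ¬ (p : ℤ) ∣ a i * b k - a k * b i) :
    r ≤ om (fun i => Polynomial.C (a i) * X + Polynomial.C (b i)) p := by
  classical
  choose n hn hdvd using fun i => lin_sol_exists hp (b := b i) (ha i)
  unfold om
  have h1 := Finset.card_le_card_of_injOn (s := (Finset.univ : Finset (Fin r)))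
    (t := ((range p).filter (fun n : ℕ => ∃ i, (p : ℤ) ∣
      (Polynomial.C (a i) * X + Polynomial.C (b i)).eval (n : ℤ)))) n (by
      intro i _
      rw [Finset.mem_coe, Finset.mem_filter]
      exact ⟨Finset.mem_range.2 (hn i), i, by rw [eval_lin]; exact hdvd i⟩) (by
      intro i _ k _ hik
      by_contra hne
      apply hD i k hne
      have h2 := hdvd i
      have h3 := hdvd k
      rw [← hik] at h3
      have h4 := dvd_sub (h3.mul_left (a i)) (h2.mul_left (a k))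
      have e : a i * (a k * (n i : ℤ) + b k) - a k * (a i * (n i : ℤ) + b i) =
          a i * b k - a k * b i := by ring
      rwa [e] at h4)
  simpa using h1

lemma card_primes_dvd (m : ℤ) (hm : m ≠ 0) (S : Finset ℕ) {M : ℝ} (hM : (|m| : ℝ) ≤ M) :
    (((S.filter (fun p : ℕ => p.Prime ∧ (p : ℤ) ∣ m)).card : ℝ)) ≤ 2 * Real.log M := by
  set T := S.filter (fun p : ℕ => p.Prime ∧ (p : ℤ) ∣ m) with hT
  have hsub : T ⊆ m.natAbs.primeFactors := by
    intro p hp
    rw [hT, Finset.mem_filter] at hp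
    rw [Nat.mem_primeFactors]
    exact ⟨hp.2.1, Int.natCast_dvd.1 hp.2.2, Int.natAbs_ne_zero.2 hm⟩
  have h1 : 2 ^ T.card ≤ ∏ p ∈ T, p := by
    apply Finset.pow_card_le_prod
    intro p hp
    rw [hT, Finset.mem_filter] at hp
    exact hp.2.1.two_le
  have h2 : ∏ p ∈ T, p ≤ ∏ p ∈ m.natAbs.primeFactors, p :=
    Finset.prod_le_prod_of_subset_of_one_le' hsub fun p hp _ => (Nat.prime_of_mem_primeFactors hp).one_le
  have h3 : ∏ p ∈ m.natAbs.primeFactors, p ≤ m.natAbs :=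
    Nat.le_of_dvd (Int.natAbs_pos.2 hm) (Nat.prod_primeFactors_dvd _)
  have h4 : (2 : ℝ) ^ T.card ≤ M := by
    have h5 : (2 : ℕ) ^ T.card ≤ m.natAbs := h1.trans (h2.trans h3)
    have h6 : ((2 ^ T.card : ℕ) : ℝ) ≤ (m.natAbs : ℝ) := by exact_mod_cast h5
    rw [Nat.cast_pow, Nat.cast_two] at h6
    refine h6.trans (le_trans (le_of_eq ?_) hM)
    rw [Nat.cast_natAbs, Int.cast_abs]
  have h5 : (T.card : ℝ) * Real.log 2 ≤ Real.log M := by
    rw [← Real.log_pow]
    exact Real.log_le_log (by positivity) h4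
  have h6 : (1 : ℝ) / 2 ≤ Real.log 2 := by
    have := Real.log_two_gt_d9
    linarith
  have h7 : (0 : ℝ) ≤ T.card := by positivity
  nlinarith

/-- the factor: crude bound -/
lemma fac_crude (r o : ℕ) (ho : o ≤ r) (t : ℝ) (ht : 0 < t) (hrt : r * t ≤ 1 / 2) (ht1 : t ≤ 1 / 2) :
    |(1 - t)⁻¹ ^ r * (1 - o * t) - 1| ≤ 2 * (r * t) := by
  have hor : (o : ℝ) ≤ r := by exact_mod_cast ho
  have ho0 : (0 : ℝ) ≤ o := by positivity
  have h1t : 0 < 1 - t := by linarith
  have h1 : 1 ≤ (1 - t)⁻¹ ^ r := one_le_pow₀ ((one_le_inv₀ h1t).2 (by linarith))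
  have h2 : 1 - r * t ≤ (1 - t) ^ r := by
    have := one_add_mul_le_pow (a := -t) (by linarith) r
    rw [← sub_eq_add_neg] at this
    linarith
  have h3 : (1 - t)⁻¹ ^ r ≤ 1 + 2 * (r * t) := by
    rw [inv_pow]
    have h4 : ((1 - t) ^ r)⁻¹ ≤ (1 - r * t)⁻¹ := inv_anti₀ (by linarith) h2
    refine h4.trans ?_
    rw [inv_le_iff_one_le_mul₀ (by linarith)]
    have : 0 ≤ (r : ℝ) * t := by positivity
    nlinarith
  have hot : (o : ℝ) * t ≤ r * t := mul_le_mul_of_nonneg_right hor ht.le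
  have hot0 : 0 ≤ (o : ℝ) * t := by positivity
  rw [abs_le]
  constructor
  · nlinarith
  · nlinarith

/-- the factor: good primes -/
lemma fac_good (r : ℕ) (t : ℝ) (ht : 0 < t) (hrt : r * t ≤ 1 / 2) (ht1 : t ≤ 1 / 2) :
    |(1 - t)⁻¹ ^ r * (1 - r * t) - 1| ≤ (r * t) ^ 2 := by
  have h1t : 0 < 1 - t := by linarith
  have h2 : 1 - r * t ≤ (1 - t) ^ r := by
    have := one_add_mul_le_pow (a := -t) (by linarith) r
    rw [← sub_eq_add_neg] at this
    linarith
  have h3 : (1 - t)⁻¹ ^ r * (1 - r * t) ≤ 1 := by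
    rw [inv_pow, inv_mul_le_iff₀ (by positivity), mul_one]
    exact h2
  have h4 : 1 + r * t ≤ (1 - t)⁻¹ ^ r := by
    have h5 : 1 + r * t ≤ (1 + t) ^ r := one_add_mul_le_pow (by linarith) r
    refine h5.trans (pow_le_pow_left₀ (by linarith) ?_ r)
    rw [← one_div, le_div_iff₀ h1t]
    nlinarith
  rw [abs_le]
  constructor
  · nlinarith
  · nlinarith [sq_nonneg ((r : ℝ) * t)]

/-- tail of `∑ 1/n²` -/
lemma tail_sq (z : ℕ) (hz : 1 ≤ z) (N : ℕ) (hN : z ≤ N) :
    ∑ n ∈ Ioc z N, (1 / (n : ℝ)) ^ 2 ≤ (1 : ℝ) / z - 1 / N := by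
  induction N, hN using Nat.le_induction with
  | base => simp
  | succ N hN ih =>
    rw [Finset.sum_Ioc_succ_top hN]
    have hN0 : (0 : ℝ) < N := by exact_mod_cast (by omega : 0 < N)
    have h1 : (1 / ((N + 1 : ℕ) : ℝ)) ^ 2 ≤ 1 / N - 1 / ((N + 1 : ℕ) : ℝ) := by
      push_cast
      rw [div_sub_div _ _ hN0.ne' (by positivity), div_pow, div_le_div_iff₀ (by positivity) (by positivity)]
      ring_nf
      nlinarith
    linarith


end TailLin

/-- S20. Tails of singular series of linear forms. -/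
theorem tail_lin (r C U : ℕ) : ∃ Z x0 : ℕ, ∀ x : ℕ, x0 ≤ x → ∀ z : ℕ,
    Real.log x ^ Z ≤ z → ∀ a b : Fin r → ℤ, (∀ i, a i ≠ 0) →
    (∀ i k, i ≠ k → a i * b k ≠ a k * b i) →
    (∀ i, ∀ q : ℕ, q.Prime → z < q → ¬ ((q : ℤ) ∣ a i ∧ (q : ℤ) ∣ b i)) →
    (∀ i, |a i| ≤ (x : ℤ) ^ C ∧ |b i| ≤ (x : ℤ) ^ C) → ∀ N : ℕ, z ≤ N →
    |∏ p ∈ (Ioc z N).filter Nat.Prime, ((1 - 1 / (p : ℝ))⁻¹ ^ r *
      (1 - (om (fun i => Polynomial.C (a i) * X + Polynomial.C (b i)) p : ℝ) / p)) - 1| ≤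
      1 / Real.log x ^ U := by
  classical
  set c : ℝ := (r : ℝ) ^ 2 + 2 * r * ((r + r ^ 2) * (2 + 4 * C)) with hc
  have hc0 : 0 ≤ c := by positivity
  refine ⟨U + 2, ⌈Real.exp (2 * c + 2 * r + 2)⌉₊, ?_⟩
  intro x hx z hz a b ha hab hq hsz N hN
  set L := Real.log x with hL
  have hxe : Real.exp (2 * c + 2 * r + 2) ≤ x := (Nat.le_ceil _).trans (by exact_mod_cast hx)
  have hx0 : (0 : ℝ) < x := lt_of_lt_of_le (Real.exp_pos _) hxe
  have hLbig : 2 * c + 2 * r + 2 ≤ L := by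
    rw [hL, Real.le_log_iff_exp_le hx0]
    exact hxe
  have hr0 : (0 : ℝ) ≤ r := by positivity
  have hL1 : 1 ≤ L := by linarith
  have hzL : L ≤ z := (le_self_pow₀ hL1 (by omega)).trans hz
  have hz2 : (2 : ℝ) * r + 2 ≤ z := by linarith
  have hz0 : (0 : ℝ) < z := by linarith
  have hz1 : 1 ≤ z := by
    have : (1 : ℝ) ≤ z := by linarith
    exact_mod_cast this
  set S := (Ioc z N).filter Nat.Prime with hS
  -- the bad primes
  let bad : ℕ → Prop := fun p => (∃ i, (p : ℤ) ∣ a i) ∨ ∃ i k, i ≠ k ∧ (p : ℤ) ∣ a i * b k - a k * b i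
  set f : ℕ → ℝ := fun p => (1 - 1 / (p : ℝ))⁻¹ ^ r *
      (1 - (om (fun i => Polynomial.C (a i) * X + Polynomial.C (b i)) p : ℝ) / p) with hf
  have hfb : ∀ p ∈ S, |f p - 1| ≤ (r : ℝ) ^ 2 * (1 / (p : ℝ)) ^ 2 +
      (if bad p then 2 * (r : ℝ) / z else 0) := by
    intro p hp
    rw [hS, Finset.mem_filter, Finset.mem_Ioc] at hp
    obtain ⟨⟨hp1, hp2⟩, hp3⟩ := hp
    have hpz : (z : ℝ) < p := by exact_mod_cast hp1
    have hp0 : (0 : ℝ) < p := by linarith
    have ht : 0 < 1 / (p : ℝ) := by positivity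
    have hrt : r * (1 / (p : ℝ)) ≤ 1 / 2 := by
      rw [mul_one_div, div_le_div_iff₀ hp0 (by norm_num)]
      linarith
    have ht1 : 1 / (p : ℝ) ≤ 1 / 2 := one_div_le_one_div_of_le (by norm_num) (by linarith)
    have hom := TailLin.om_le hp3 a b (fun i => hq i p hp3 hp1)
    have hfe : f p = (1 - 1 / (p : ℝ))⁻¹ ^ r *
        (1 - (om (fun i => Polynomial.C (a i) * X + Polynomial.C (b i)) p : ℝ) * (1 / p)) := by
      rw [hf]; simp only [mul_one_div]
    rw [hfe]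
    by_cases hbad : bad p
    · rw [if_pos hbad]
      have h1 := TailLin.fac_crude r _ hom (1 / (p : ℝ)) ht hrt ht1
      have h2 : 2 * (r * (1 / (p : ℝ))) ≤ 2 * r / z := by
        rw [mul_one_div, ← mul_div_assoc]
        exact div_le_div_of_nonneg_left (by positivity) hz0 hpz.le
      have h3 : 0 ≤ (r : ℝ) ^ 2 * (1 / (p : ℝ)) ^ 2 := by positivity
      linarith
    · rw [if_neg hbad, add_zero]
      have hr : om (fun i => Polynomial.C (a i) * X + Polynomial.C (b i)) p = r := by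
        apply le_antisymm hom
        apply TailLin.le_om hp3
        · intro i hi
          exact hbad (Or.inl ⟨i, hi⟩)
        · intro i k hik hi
          exact hbad (Or.inr ⟨i, k, hik, hi⟩)
      rw [hr]
      have h1 := TailLin.fac_good r (1 / (p : ℝ)) ht hrt ht1
      rw [mul_pow] at h1
      exact h1
  -- number of bad primes
  have hxC : ∀ i, (|a i| : ℝ) ≤ 2 * (x : ℝ) ^ (2 * C) := by
    intro i
    have h1 : ((|a i| : ℤ) : ℝ) ≤ (((x : ℤ) ^ C : ℤ) : ℝ) := by exact_mod_cast (hsz i).1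
    push_cast at h1
    have hx1 : (1 : ℝ) ≤ x := by
      have := Real.add_one_le_exp (2 * c + 2 * r + 2)
      linarith
    have h2 : (x : ℝ) ^ C ≤ (x : ℝ) ^ (2 * C) := pow_le_pow_right₀ hx1 (by omega)
    have h3 : (0 : ℝ) ≤ (x : ℝ) ^ (2 * C) := by positivity
    linarith
  have hxD : ∀ i k, (|((a i * b k - a k * b i : ℤ))| : ℝ) ≤ 2 * (x : ℝ) ^ (2 * C) := by
    intro i k
    have h1 : ∀ i, |(a i : ℝ)| ≤ (x : ℝ) ^ C := fun i => by
      have : ((|a i| : ℤ) : ℝ) ≤ (((x : ℤ) ^ C : ℤ) : ℝ) := by exact_mod_cast (hsz i).1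
      push_cast at this
      exact this
    have h2 : ∀ i, |(b i : ℝ)| ≤ (x : ℝ) ^ C := fun i => by
      have : ((|b i| : ℤ) : ℝ) ≤ (((x : ℤ) ^ C : ℤ) : ℝ) := by exact_mod_cast (hsz i).2
      push_cast at this
      exact this
    push_cast
    have h3 : |(a i : ℝ) * b k - a k * b i| ≤ |(a i : ℝ) * b k| + |(a k : ℝ) * b i| := abs_sub _ _
    rw [abs_mul, abs_mul] at h3
    have h4 : |(a i : ℝ)| * |(b k : ℝ)| ≤ (x : ℝ) ^ C * (x : ℝ) ^ C :=
      mul_le_mul (h1 i) (h2 k) (abs_nonneg _) (by positivity)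
    have h5 : |(a k : ℝ)| * |(b i : ℝ)| ≤ (x : ℝ) ^ C * (x : ℝ) ^ C :=
      mul_le_mul (h1 k) (h2 i) (abs_nonneg _) (by positivity)
    have h6 : (x : ℝ) ^ (2 * C) = (x : ℝ) ^ C * (x : ℝ) ^ C := by rw [two_mul, pow_add]
    rw [h6]
    linarith
  have hlog : 2 * Real.log (2 * (x : ℝ) ^ (2 * C)) ≤ (2 + 4 * C) * L := by
    rw [Real.log_mul (by norm_num) (by positivity), Real.log_pow]
    have h1 : Real.log 2 ≤ 1 := by
      have := Real.log_two_lt_d9
      linarith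
    push_cast
    nlinarith
  have hcount : ((S.filter bad).card : ℝ) ≤ (r + r ^ 2) * ((2 + 4 * C) * L) := by
    have hsub : S.filter bad ⊆
        ((Finset.univ : Finset (Fin r)).biUnion
          (fun i => S.filter (fun p : ℕ => p.Prime ∧ (p : ℤ) ∣ a i))) ∪
        (((Finset.univ : Finset (Fin r × Fin r)).filter (fun ik => ik.1 ≠ ik.2)).biUnion
          (fun ik => S.filter (fun p : ℕ => p.Prime ∧
            (p : ℤ) ∣ a ik.1 * b ik.2 - a ik.2 * b ik.1))) := by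
      intro p hp
      rw [Finset.mem_filter] at hp
      have hpr : p.Prime := (Finset.mem_filter.1 hp.1).2
      rw [Finset.mem_union, Finset.mem_biUnion, Finset.mem_biUnion]
      rcases hp.2 with ⟨i, hi⟩ | ⟨i, k, hik, hi⟩
      · exact Or.inl ⟨i, Finset.mem_univ _, Finset.mem_filter.2 ⟨hp.1, hpr, hi⟩⟩
      · exact Or.inr ⟨(i, k), Finset.mem_filter.2 ⟨Finset.mem_univ _, hik⟩,
          Finset.mem_filter.2 ⟨hp.1, hpr, hi⟩⟩
    have h1 : (S.filter bad).card ≤
        ∑ i : Fin r, (S.filter (fun p : ℕ => p.Prime ∧ (p : ℤ) ∣ a i)).card +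
        ∑ ik ∈ (Finset.univ : Finset (Fin r × Fin r)).filter (fun ik => ik.1 ≠ ik.2),
          (S.filter (fun p : ℕ => p.Prime ∧ (p : ℤ) ∣ a ik.1 * b ik.2 - a ik.2 * b ik.1)).card :=
      (Finset.card_le_card hsub).trans ((Finset.card_union_le _ _).trans
        (Nat.add_le_add Finset.card_biUnion_le Finset.card_biUnion_le))
    have h2 : ((S.filter bad).card : ℝ) ≤
        ∑ i : Fin r, ((S.filter (fun p : ℕ => p.Prime ∧ (p : ℤ) ∣ a i)).card : ℝ) +
        ∑ ik ∈ (Finset.univ : Finset (Fin r × Fin r)).filter (fun ik => ik.1 ≠ ik.2),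
          ((S.filter (fun p : ℕ => p.Prime ∧
            (p : ℤ) ∣ a ik.1 * b ik.2 - a ik.2 * b ik.1)).card : ℝ) := by
      exact_mod_cast h1
    have h3 : ∑ i : Fin r, ((S.filter (fun p : ℕ => p.Prime ∧ (p : ℤ) ∣ a i)).card : ℝ) ≤
        r * ((2 + 4 * C) * L) := by
      calc _ ≤ ∑ _i : Fin r, (2 + 4 * C) * L := by
            apply Finset.sum_le_sum
            intro i _
            exact (TailLin.card_primes_dvd (a i) (ha i) S (hxC i)).trans hlog
        _ = _ := by simp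
    have h4 : ∑ ik ∈ (Finset.univ : Finset (Fin r × Fin r)).filter (fun ik => ik.1 ≠ ik.2),
          ((S.filter (fun p : ℕ => p.Prime ∧
            (p : ℤ) ∣ a ik.1 * b ik.2 - a ik.2 * b ik.1)).card : ℝ) ≤
        r ^ 2 * ((2 + 4 * C) * L) := by
      calc _ ≤ ∑ _ik ∈ (Finset.univ : Finset (Fin r × Fin r)).filter (fun ik => ik.1 ≠ ik.2),
            (2 + 4 * C) * L := by
            apply Finset.sum_le_sum
            intro ik hik
            rw [Finset.mem_filter] at hik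
            exact (TailLin.card_primes_dvd _ (sub_ne_zero.2 (hab ik.1 ik.2 hik.2)) S
              (hxD ik.1 ik.2)).trans hlog
        _ = (((Finset.univ : Finset (Fin r × Fin r)).filter (fun ik => ik.1 ≠ ik.2)).card : ℝ) *
            ((2 + 4 * C) * L) := by rw [Finset.sum_const, nsmul_eq_mul]
        _ ≤ _ := by
            apply mul_le_mul_of_nonneg_right _ (by positivity)
            have h5 := Finset.card_filter_le (Finset.univ : Finset (Fin r × Fin r))
              (fun ik => ik.1 ≠ ik.2)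
            rw [Finset.card_univ, Fintype.card_prod, Fintype.card_fin, ← sq] at h5
            exact_mod_cast h5
    linarith
  -- the sum
  have hsum : ∑ p ∈ S, |f p - 1| ≤ c / z * L := by
    calc ∑ p ∈ S, |f p - 1| ≤ ∑ p ∈ S, ((r : ℝ) ^ 2 * (1 / (p : ℝ)) ^ 2 +
          (if bad p then 2 * (r : ℝ) / z else 0)) := Finset.sum_le_sum hfb
      _ = (r : ℝ) ^ 2 * ∑ p ∈ S, (1 / (p : ℝ)) ^ 2 + ((S.filter bad).card : ℝ) * (2 * r / z) := by
          rw [Finset.sum_add_distrib, ← Finset.mul_sum, ← Finset.sum_filter, Finset.sum_const,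
            nsmul_eq_mul]
      _ ≤ (r : ℝ) ^ 2 * (1 / z) + ((r + r ^ 2) * ((2 + 4 * C) * L)) * (2 * r / z) := by
          have h1 : ∑ p ∈ S, (1 / (p : ℝ)) ^ 2 ≤ (1 : ℝ) / z := by
            have h2 : ∑ p ∈ S, (1 / (p : ℝ)) ^ 2 ≤ ∑ n ∈ Ioc z N, (1 / (n : ℝ)) ^ 2 :=
              Finset.sum_le_sum_of_subset_of_nonneg (Finset.filter_subset _ _)
                (fun _ _ _ => by positivity)
            have h3 := TailLin.tail_sq z hz1 N hN
            have h4 : (0 : ℝ) ≤ 1 / N := by positivity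
            linarith
          have h5 : 0 ≤ 2 * (r : ℝ) / z := by positivity
          exact add_le_add (mul_le_mul_of_nonneg_left h1 (by positivity))
            (mul_le_mul_of_nonneg_right hcount h5)
      _ ≤ c / z * L := by
          have h1 : (r : ℝ) ^ 2 * (1 / z) ≤ (r : ℝ) ^ 2 * (1 / z) * L :=
            le_mul_of_one_le_right (by positivity) hL1
          have h2 : c / z * L = (r : ℝ) ^ 2 * (1 / z) * L +
              ((r + r ^ 2) * ((2 + 4 * C) * L)) * (2 * r / z) := by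
            rw [hc]; ring
          linarith
  have hsmall : c / z * L ≤ c / L ^ (U + 1) := by
    have hLp : 0 < L := by linarith
    rw [div_mul_eq_mul_div, div_le_div_iff₀ hz0 (by positivity)]
    have h1 : c * L * L ^ (U + 1) = c * L ^ (U + 2) := by ring
    rw [h1]
    exact mul_le_mul_of_nonneg_left hz hc0
  have hLU : 0 < L ^ U := by positivity
  have hT1 : c / L ^ (U + 1) ≤ 1 / (2 * L ^ U) := by
    rw [div_le_div_iff₀ (by positivity) (by positivity)]
    have : c * (2 * L ^ U) ≤ L * L ^ U := by nlinarith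
    calc c * (2 * L ^ U) ≤ L * L ^ U := this
      _ = 1 * L ^ (U + 1) := by ring
  have hT : ∑ p ∈ S, |f p - 1| ≤ 1 / (2 * L ^ U) := hsum.trans (hsmall.trans hT1)
  have hT0 : 0 ≤ ∑ p ∈ S, |f p - 1| := Finset.sum_nonneg fun _ _ => abs_nonneg _
  have hLU1 : 1 ≤ L ^ U := one_le_pow₀ hL1
  have hT2 : ∑ p ∈ S, |f p - 1| ≤ 1 := by
    refine hT.trans ?_
    rw [div_le_one (by positivity)]
    linarith
  have hprod := Finset.norm_prod_one_add_sub_one_le S (fun p => f p - 1)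
  simp only [add_sub_cancel, Real.norm_eq_abs] at hprod
  have hexp := Real.abs_exp_sub_one_le (x := ∑ p ∈ S, |f p - 1|) (by rwa [abs_of_nonneg hT0])
  rw [abs_of_nonneg hT0] at hexp
  calc |∏ p ∈ S, f p - 1| ≤ Real.exp (∑ p ∈ S, |f p - 1|) - 1 := hprod
    _ ≤ 2 * ∑ p ∈ S, |f p - 1| := (le_abs_self _).trans hexp
    _ ≤ 2 * (1 / (2 * L ^ U)) := by linarith
    _ = 1 / L ^ U := by field_simp

end Pool.Agent.H300R2.NB
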