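import Pool.Agent.H300R2.NB.EvalMainI
import Pool.Agent.H300R2.NB.EvLog
import Pool.Agent.H300R2.NB.TailLin

/-!
The sieve model in arithmetic progressions, from the evaluation of the main term.
-/

namespace Pool.Agent.H300R2.NB

open Finset Polynomial
open Pool.Agent.H442R2.EHI (lis)

namespace LzQ

/-- reindexing an arithmetic progression -/
lemma reindex (f : ℤ → ℝ) (hf : ∀ m ≤ 0, f m = 0) (q c y : ℕ) (hq : 1 ≤ q) (hc : c < q)
    (hcy : c ≤ y) :
    ∑ m ∈ (Icc 1 y).filter (fun m => m % q = c), f m =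
      ∑ k ∈ Icc 1 ((y - c) / q + 1), f (q * k + ((c : ℤ) - q)) := by
  classical
  have h1 : ∑ m ∈ (Icc 1 y).filter (fun m => m % q = c), f m =
      ∑ m ∈ (Icc 0 y).filter (fun m => m % q = c), f m := by
    refine sum_subset ?_ ?_
    · intro m hm
      rw [mem_filter, mem_Icc] at hm ⊢
      exact ⟨⟨Nat.zero_le _, hm.1.2⟩, hm.2⟩
    · intro m hm hm'
      rw [mem_filter, mem_Icc] at hm hm'
      have : m = 0 := by
        by_contra hne
        exact hm' ⟨⟨by omega, hm.1.2⟩, hm.2⟩
      subst this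
      exact hf _ (by simp)
  rw [h1]
  symm
  refine sum_bij (fun k _ => q * (k - 1) + c) ?_ ?_ ?_ ?_
  · intro k hk
    rw [mem_Icc] at hk
    rw [mem_filter, mem_Icc]
    have h2 : k - 1 ≤ (y - c) / q := by omega
    have h3 : (k - 1) * q ≤ y - c := (Nat.le_div_iff_mul_le (by omega)).1 h2
    refine ⟨⟨Nat.zero_le _, ?_⟩, ?_⟩
    · rw [mul_comm]
      omega
    · rw [Nat.mul_add_mod]
      exact Nat.mod_eq_of_lt hc
  · intro k hk k' hk' h
    rw [mem_Icc] at hk hk'
    have h2 : q * (k - 1) = q * (k' - 1) := by omega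
    have h3 := Nat.eq_of_mul_eq_mul_left (by omega) h2
    omega
  · intro m hm
    rw [mem_filter, mem_Icc] at hm
    refine ⟨m / q + 1, ?_, ?_⟩
    · rw [mem_Icc]
      refine ⟨Nat.le_add_left _ _, ?_⟩
      have h2 : m / q ≤ (y - c) / q := by
        rw [Nat.le_div_iff_mul_le (by omega)]
        have h3 := Nat.div_add_mod m q
        rw [hm.2] at h3
        rw [mul_comm]
        omega
      omega
    · have h3 := Nat.div_add_mod m q
      rw [hm.2] at h3
      simpa using h3
  · intro k hk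
    rw [mem_Icc] at hk
    congr 1
    obtain ⟨l, rfl⟩ : ∃ l, k = l + 1 := ⟨k - 1, by omega⟩
    rw [Nat.add_sub_cancel]
    push_cast
    ring

/-- `∑ 1/log` over an arithmetic progression -/
lemma lg_ap (x y q c : ℕ) (hy : y ≤ x) (hq : 1 ≤ q) (hc : c < q) :
    |∑ m ∈ (Icc 1 y).filter (fun m => m % q = c), lg x m - lis y / q| ≤ 10 := by
  have hq0 : (0 : ℝ) < q := by exact_mod_cast (by omega : 0 < q)
  have hG : ∀ i : Fin 1, ((fun _ => X : Fin 1 → ℤ[X]) i).natDegree ≤ 1 := by
    intro i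
    simp
  have key := abel_log 1 x y (fun _ : Fin 1 => (X : ℤ[X])) hG
    (fun m => (if m % q = c then (1 : ℝ) else 0) - 1 / q) 1 (by
      intro t ht
      rw [sum_sub_distrib, ← sum_filter, sum_const, sum_const, nsmul_eq_mul, nsmul_eq_mul, mul_one,
        Nat.card_Icc, Nat.add_sub_cancel]
      have h2 := EC.count_ap t q c (by omega) hc
      rw [mul_one_div]
      exact h2)
  have e1 : ∑ m ∈ Icc 1 y, ((if m % q = c then (1 : ℝ) else 0) - 1 / q) *
      ∏ _i : Fin 1, lg x ((X : ℤ[X]).eval (m : ℤ)) =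
      ∑ m ∈ (Icc 1 y).filter (fun m => m % q = c), lg x m - lis y / q := by
    simp only [eval_X, prod_const, card_univ, Fintype.card_fin, pow_one, sub_mul, ite_mul,
      one_mul, zero_mul]
    rw [sum_sub_distrib, ← sum_filter, ← mul_sum]
    congr 1
    have e2 : ∑ m ∈ Icc 1 y, lg x m = lis y := by
      unfold lis
      rw [← sum_subset (s₁ := Icc 2 y) (s₂ := Icc 1 y)]
      · refine sum_congr rfl fun m hm => ?_
        rw [mem_Icc] at hm
        unfold lg
        rw [if_pos ⟨by exact_mod_cast hm.1, by exact_mod_cast hm.2.trans hy⟩]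
        norm_cast
      · exact Icc_subset_Icc_left (by norm_num)
      · intro m hm hm'
        rw [mem_Icc] at hm hm'
        unfold lg
        rw [if_neg]
        intro h3
        have : (2 : ℤ) ≤ m := h3.1
        omega
    rw [e2]
    ring
  rw [e1] at key
  refine key.trans (le_of_eq ?_)
  norm_num

/-- the Euler product of a linear form -/
lemma prod_om (z q c : ℕ) (hq : 1 ≤ q) (hqz : q ≤ z) (hcop : c.Coprime q) :
    Vi z * ∏ p ∈ (Icc 1 z).filter Nat.Prime, (1 - (om (fun _ : Fin 1 =>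
      Polynomial.C (q : ℤ) * X + Polynomial.C ((c : ℤ) - q)) p : ℝ) / p) =
      q / (Nat.totient q : ℝ) := by
  have hom : ∀ p : ℕ, p.Prime → om (fun _ : Fin 1 =>
      Polynomial.C (q : ℤ) * X + Polynomial.C ((c : ℤ) - q)) p = if p ∣ q then 0 else 1 := by
    intro p hp
    have hncop : ¬ ((p : ℤ) ∣ (q : ℤ) ∧ (p : ℤ) ∣ ((c : ℤ) - q)) := by
      rintro ⟨h1, h2⟩
      have h3 : (p : ℤ) ∣ c := by
        have := dvd_add h2 h1
        simpa using this
      have h4 : p ∣ Nat.gcd c q := Nat.dvd_gcd (by exact_mod_cast h3) (by exact_mod_cast h1)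
      rw [hcop] at h4
      exact hp.one_lt.ne' (Nat.dvd_one.1 h4)
    by_cases hd : p ∣ q
    · rw [if_pos hd]
      unfold om
      rw [card_eq_zero, filter_eq_empty_iff]
      rintro n _ ⟨_, h1⟩
      rw [TailLin.eval_lin] at h1
      have h2 : (p : ℤ) ∣ (q : ℤ) := by exact_mod_cast hd
      apply hncop
      refine ⟨h2, ?_⟩
      have := dvd_sub h1 (h2.mul_right (n : ℤ))
      simpa using this
    · rw [if_neg hd]
      apply le_antisymm
      · exact TailLin.om_le hp (fun _ => (q : ℤ)) (fun _ => (c : ℤ) - q) (fun _ => hncop)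
      · exact TailLin.le_om hp (fun _ => (q : ℤ)) (fun _ => (c : ℤ) - q)
          (fun _ h => hd (by exact_mod_cast h)) (fun i k hik => absurd (Subsingleton.elim i k) hik)
  have h1 : ∏ p ∈ (Icc 1 z).filter Nat.Prime, (1 - (om (fun _ : Fin 1 =>
      Polynomial.C (q : ℤ) * X + Polynomial.C ((c : ℤ) - q)) p : ℝ) / p) =
      ∏ p ∈ (Icc 1 z).filter Nat.Prime, (if p ∣ q then (1 : ℝ) else 1 - 1 / p) := by
    refine prod_congr rfl fun p hp => ?_
    rw [mem_filter] at hp
    rw [hom p hp.2]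
    split_ifs <;> simp
  rw [h1]
  unfold Vi
  rw [← prod_mul_distrib]
  have h2 : ∏ p ∈ (Icc 1 z).filter Nat.Prime,
      ((1 - 1 / (p : ℝ))⁻¹ * (if p ∣ q then (1 : ℝ) else 1 - 1 / p)) =
      ∏ p ∈ (Icc 1 z).filter Nat.Prime, (if p ∣ q then (1 - 1 / (p : ℝ))⁻¹ else 1) := by
    refine prod_congr rfl fun p hp => ?_
    rw [mem_filter] at hp
    split_ifs
    · rw [mul_one]
    · refine inv_mul_cancel₀ ?_
      have : (2 : ℝ) ≤ p := by exact_mod_cast hp.2.two_le
      have h3 : 1 / (p : ℝ) ≤ 1 / 2 := one_div_le_one_div_of_le (by norm_num) this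
      linarith
  rw [h2, ← prod_filter]
  have h3 : ((Icc 1 z).filter Nat.Prime).filter (fun p => p ∣ q) = q.primeFactors := by
    ext p
    rw [mem_filter, mem_filter, mem_Icc, Nat.mem_primeFactors]
    constructor
    · rintro ⟨⟨_, h4⟩, h5⟩
      exact ⟨h4, h5, by omega⟩
    · rintro ⟨h4, h5, _⟩
      exact ⟨⟨⟨h4.one_lt.le, (Nat.le_of_dvd hq h5).trans hqz⟩, h4⟩, h5⟩
  rw [h3, prod_inv_distrib]
  have h4 : (Nat.totient q : ℝ) = q * ∏ p ∈ q.primeFactors, (1 - 1 / (p : ℝ)) := by
    have := Nat.totient_eq_mul_prod_factors q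
    have h5 : ((Nat.totient q : ℚ) : ℝ) = ((q * ∏ p ∈ q.primeFactors, (1 - (p : ℚ)⁻¹) : ℚ) : ℝ) := by
      rw [this]
    push_cast at h5
    simpa [one_div] using h5
  rw [h4]
  have hq0 : (q : ℝ) ≠ 0 := by
    have : (0 : ℝ) < q := by exact_mod_cast hq
    exact this.ne'
  rw [div_mul_eq_div_div, div_self hq0, one_div]

/-- `exp((log log x)^3) (log x)^N` is small -/
lemma ev_small (N : ℕ) : ∃ x0 : ℕ, ∀ x : ℕ, x0 ≤ x →
    Real.exp (Real.log (Real.log x) ^ 3) * Real.log x ^ N ≤ x := by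
  obtain ⟨x1, h1⟩ := ev_loglog_pow 3
  obtain ⟨x2, h2⟩ := ev_loglog_pow 1
  obtain ⟨x3, h3⟩ := ev_loglog_pow 2
  obtain ⟨x4, h4⟩ := ev_log_ge (Real.exp (N + 1))
  refine ⟨max (max x1 x2) (max (max x3 x4) 3), fun x hx => ?_⟩
  simp only [max_le_iff] at hx
  obtain ⟨⟨hx1, hx2⟩, ⟨hx3, hx4⟩, hx5⟩ := hx
  have hL := log_gt_one hx5
  have hL0 : 0 < Real.log x := by linarith
  set L := Real.log x with hLd
  have e1 : (N : ℝ) + 1 ≤ Real.log L := (Real.le_log_iff_exp_le hL0).2 (h4 x hx4)
  have hN : (0 : ℝ) ≤ N := Nat.cast_nonneg N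
  have e2 : (N : ℝ) * Real.log L ≤ Real.log L ^ 2 := by nlinarith
  have hx0 : (0 : ℝ) < x := by exact_mod_cast (by omega : 0 < x)
  calc Real.exp (Real.log L ^ 3) * L ^ N
      = Real.exp (Real.log L ^ 3 + N * Real.log L) := by
        rw [Real.exp_add]
        congr 1
        rw [mul_comm, Real.exp_mul, Real.exp_log hL0, Real.rpow_natCast]
    _ ≤ Real.exp L := by
        apply Real.exp_le_exp.2
        have := h1 x hx1
        have := h3 x hx3
        linarith
    _ = x := by rw [hLd, Real.exp_log hx0]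

end LzQ

open LzQ

/-- S6. The sieve model in arithmetic progressions. -/
theorem lz_ap (E1 E W : ℕ) : ∃ x0 : ℕ, ∀ x : ℕ, x0 ≤ x → ∀ z : ℕ,
    ⌊Real.log x ^ E1⌋₊ ≤ z → (z : ℝ) ≤ Real.log x ^ E → ∀ q : ℕ, 1 ≤ q →
    (q : ℝ) ≤ Real.log x ^ E1 → ∀ c : ℕ, c < q → ∀ y : ℕ, y ≤ x →
    |∑ m ∈ (Icc 1 y).filter (fun m => m % q = c), lz x z m -
      (if c.Coprime q then lis y / (Nat.totient q : ℝ) else 0)| ≤ x / Real.log x ^ W := by
  obtain ⟨x1, h1⟩ := eval_main 1 1 E (W + 1)
  obtain ⟨x2, h2⟩ := Vi_upper E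
  obtain ⟨x3, h3⟩ := ev_small (2 * E1 + W + 4)
  obtain ⟨x4, h4⟩ := ev_loglog_pow 2
  obtain ⟨x5, h5⟩ := ev_log_ge 40
  refine ⟨max (max x1 x2) (max (max x3 x4) (max x5 3)), ?_⟩
  intro x hx z hz1 hz2 q hq hqL c hc y hy
  simp only [max_le_iff] at hx
  obtain ⟨⟨hx1, hx2⟩, ⟨hx3, hx4⟩, hx5, hx6⟩ := hx
  have hL := log_gt_one hx6
  have hL0 : 0 < Real.log x := by linarith
  have hL40 := h5 x hx5
  have hVi := h2 x hx2 z hz2
  have hsm := h3 x hx3
  have hll := h4 x hx4
  have hqz : q ≤ z := by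
    refine le_trans ?_ hz1
    exact Nat.le_floor hqL
  have hx0 : (0 : ℝ) < x := by exact_mod_cast (by omega : 0 < x)
  by_cases hcop : c.Coprime q
  swap
  · rw [if_neg hcop, sub_zero]
    have e1 : ∀ m ∈ (Icc 1 y).filter (fun m => m % q = c), lz x z m = 0 := by
      intro m hm
      rw [mem_filter] at hm
      unfold lz
      rw [if_neg]
      rintro ⟨_, _, h6⟩
      have h7 : Nat.gcd c q ≠ 1 := hcop
      have h8 := Nat.minFac_prime h7
      have h9 : (Nat.gcd c q).minFac ∣ c := (Nat.minFac_dvd _).trans (Nat.gcd_dvd_left _ _)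
      have h10 : (Nat.gcd c q).minFac ∣ q := (Nat.minFac_dvd _).trans (Nat.gcd_dvd_right _ _)
      refine h6 _ h8 ((Nat.le_of_dvd (by omega) h10).trans hqz) ?_
      have h11 : (Nat.gcd c q).minFac ∣ m := by
        have h12 := Nat.div_add_mod m q
        rw [hm.2] at h12
        rw [← h12]
        exact dvd_add (h10.mul_right _) h9
      exact_mod_cast h11
    rw [sum_congr rfl e1, sum_const_zero, abs_zero]
    positivity
  rw [if_pos hcop]
  have htot : (1 : ℝ) ≤ Nat.totient q := by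
    exact_mod_cast Nat.totient_pos.2 (by omega)
  have hqR : (1 : ℝ) ≤ q := by exact_mod_cast hq
  have hlg := lg_ap x y q c hy hq hc
  have hlgb : ∀ m : ℤ, 0 ≤ lg x m ∧ lg x m ≤ 2 := by
    intro m
    unfold lg
    split_ifs with h6
    · have h7 : (2 : ℝ) ≤ m := by exact_mod_cast h6.1
      have h8 : Real.log 2 ≤ Real.log m := Real.log_le_log (by norm_num) h7
      have h9 := Real.log_two_gt_d9
      refine ⟨by positivity, ?_⟩
      rw [div_le_iff₀ (by linarith)]
      linarith
    · exact ⟨le_rfl, by norm_num⟩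
  -- the case of very short progressions
  by_cases hshort : (y : ℝ) < Real.exp (Real.log (Real.log x) ^ 3) * (2 * q)
  · set M : ℝ := Real.exp (Real.log (Real.log x) ^ 3) with hM
    have hM0 : 0 < M := Real.exp_pos _
    have e1 : |∑ m ∈ (Icc 1 y).filter (fun m => m % q = c), lz x z m| ≤ y * Real.log x := by
      have e2 : ∀ m ∈ (Icc 1 y).filter (fun m => m % q = c), |lz x z m| ≤ Real.log x := by
        intro m _
        rw [abs_of_nonneg (hVi.2.2.1 m)]
        exact (hVi.2.2.2 m).trans hll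
      refine (abs_sum_le_sum_abs _ _).trans ((sum_le_sum e2).trans ?_)
      rw [sum_const, nsmul_eq_mul]
      refine mul_le_mul_of_nonneg_right ?_ hL0.le
      have := card_filter_le (Icc 1 y) (fun m => m % q = c)
      rw [Nat.card_Icc, Nat.add_sub_cancel] at this
      exact_mod_cast this
    have e3 : |lis y / (Nat.totient q : ℝ)| ≤ 2 * y := by
      have e4 : 0 ≤ lis y ∧ lis y ≤ 2 * y := by
        unfold lis
        constructor
        · refine sum_nonneg fun m hm => ?_
          rw [mem_Icc] at hm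
          have : (1 : ℝ) ≤ m := by exact_mod_cast (by omega : 1 ≤ m)
          exact div_nonneg zero_le_one (Real.log_nonneg this)
        · calc ∑ n ∈ Icc 2 y, 1 / Real.log n ≤ ∑ _n ∈ Icc 2 y, (2 : ℝ) := by
                refine sum_le_sum fun m hm => ?_
                rw [mem_Icc] at hm
                have h7 : (2 : ℝ) ≤ m := by exact_mod_cast hm.1
                have h8 : Real.log 2 ≤ Real.log m := Real.log_le_log (by norm_num) h7
                have h9 := Real.log_two_gt_d9
                rw [div_le_iff₀ (by linarith)]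
                linarith
            _ = ((Icc 2 y).card : ℝ) * 2 := by rw [sum_const, nsmul_eq_mul]
            _ ≤ y * 2 := by
                refine mul_le_mul_of_nonneg_right ?_ (by norm_num)
                rw [Nat.card_Icc]
                exact_mod_cast (by omega : y + 1 - 2 ≤ y)
            _ = 2 * y := by ring
      rw [abs_of_nonneg (div_nonneg e4.1 (by linarith)), div_le_iff₀ (by linarith)]
      have : (0 : ℝ) ≤ y := Nat.cast_nonneg y
      nlinarith [e4.2]
    have e5 : |∑ m ∈ (Icc 1 y).filter (fun m => m % q = c), lz x z m -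
        lis y / (Nat.totient q : ℝ)| ≤ y * Real.log x + 2 * y := by
      have := abs_sub (∑ m ∈ (Icc 1 y).filter (fun m => m % q = c), lz x z m)
        (lis y / (Nat.totient q : ℝ))
      linarith
    refine e5.trans ?_
    rw [le_div_iff₀ (by positivity)]
    have e6 : (y : ℝ) * Real.log x + 2 * y ≤ (M * (2 * Real.log x ^ E1)) * (2 * Real.log x) := by
      have e7 : (y : ℝ) ≤ M * (2 * Real.log x ^ E1) :=
        hshort.le.trans (by gcongr)
      calc (y : ℝ) * Real.log x + 2 * y = y * (Real.log x + 2) := by ring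
        _ ≤ (M * (2 * Real.log x ^ E1)) * (2 * Real.log x) := by
            refine mul_le_mul e7 (by linarith) (by linarith) (by positivity)
    calc ((y : ℝ) * Real.log x + 2 * y) * Real.log x ^ W
        ≤ ((M * (2 * Real.log x ^ E1)) * (2 * Real.log x)) * Real.log x ^ W := by gcongr
      _ = 4 * (M * Real.log x ^ (E1 + W + 1)) := by rw [pow_add, pow_add]; ring
      _ ≤ Real.log x * (M * Real.log x ^ (E1 + W + 1)) := by
          refine mul_le_mul_of_nonneg_right (by linarith) (by positivity)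
      _ = M * Real.log x ^ (E1 + W + 2) := by ring
      _ ≤ M * Real.log x ^ (2 * E1 + W + 4) := by
          refine mul_le_mul_of_nonneg_left (pow_le_pow_right₀ hL.le (by omega)) hM0.le
      _ ≤ x := hsm
  push Not at hshort
  -- long progressions
  have hy0 : (c : ℝ) ≤ y := by
    have e1 : (c : ℝ) ≤ q := by exact_mod_cast hc.le
    have e2 : (1 : ℝ) ≤ Real.exp (Real.log (Real.log x) ^ 3) :=
      Real.one_le_exp (pow_nonneg (Real.log_nonneg hL.le) 3)
    nlinarith
  have hcy : c ≤ y := by exact_mod_cast hy0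
  set k0 : ℕ := (y - c) / q + 1 with hk0
  have hk1 : (k0 : ℝ) ≤ 2 * x := by
    have e1 : (y - c) / q ≤ y := (Nat.div_le_self _ _).trans (Nat.sub_le _ _)
    have e2 : k0 ≤ x + 1 := by omega
    have e3 : (k0 : ℝ) ≤ x + 1 := by exact_mod_cast e2
    have e4 : (1 : ℝ) ≤ x := by exact_mod_cast (by omega : 1 ≤ x)
    linarith
  have hk2 : Real.exp (Real.log (Real.log x) ^ 3) ≤ k0 := by
    have e1 : (y : ℝ) ≤ q * k0 + c := by
      have e2 : y ≤ q * k0 + c := by
        have e3 := Nat.div_add_mod (y - c) q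
        have e4 := Nat.mod_lt (y - c) (by omega : q > 0)
        have e5 : q * k0 = q * ((y - c) / q) + q := by rw [hk0]; ring
        omega
      exact_mod_cast e2
    have e6 : (c : ℝ) ≤ q := by exact_mod_cast hc.le
    have e7 : Real.exp (Real.log (Real.log x) ^ 3) * (2 * q) ≤ q * k0 + q := by linarith
    have e2 : (1 : ℝ) ≤ Real.exp (Real.log (Real.log x) ^ 3) :=
      Real.one_le_exp (pow_nonneg (Real.log_nonneg hL.le) 3)
    have e8 : q * (Real.exp (Real.log (Real.log x) ^ 3) * 2) ≤ q * ((k0 : ℝ) + 1) := by linarith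
    have e9 := le_of_mul_le_mul_left e8 (by linarith)
    linarith
  have hlz0 : ∀ m : ℤ, m ≤ 0 → lz x z m = 0 := by
    intro m hm
    unfold lz
    rw [if_neg]
    rintro ⟨h6, _⟩
    omega
  have hlg0 : ∀ m : ℤ, m ≤ 0 → lg x m = 0 := by
    intro m hm
    unfold lg
    rw [if_neg]
    rintro ⟨h6, _⟩
    omega
  have r1 := reindex (lz x z) hlz0 q c y hq hc hcy
  have r2 := reindex (lg x) hlg0 q c y hq hc hcy
  have hmain := h1 x hx1 z hz2 k0 hk2
    (fun _ : Fin 1 => Polynomial.C (q : ℤ) * X + Polynomial.C ((c : ℤ) - q))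
    (fun _ => natDegree_linear_le)
  simp only [TailLin.eval_lin, prod_const, card_univ, Fintype.card_fin, pow_one] at hmain
  rw [← r1, ← r2, prod_om z q c hq hqz hcop] at hmain
  have e1 : |(q : ℝ) / Nat.totient q * ∑ m ∈ (Icc 1 y).filter (fun m => m % q = c), lg x m -
      lis y / Nat.totient q| ≤ 10 * q := by
    have e2 : (q : ℝ) / Nat.totient q * ∑ m ∈ (Icc 1 y).filter (fun m => m % q = c), lg x m -
      lis y / Nat.totient q = (q : ℝ) / Nat.totient q *
        (∑ m ∈ (Icc 1 y).filter (fun m => m % q = c), lg x m - lis y / q) := by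
      field_simp
    rw [e2, abs_mul, abs_of_nonneg (by positivity)]
    have e3 : (q : ℝ) / Nat.totient q ≤ q := div_le_self (by linarith) htot
    calc (q : ℝ) / Nat.totient q * |∑ m ∈ (Icc 1 y).filter (fun m => m % q = c), lg x m - lis y / q|
        ≤ q * 10 := mul_le_mul e3 hlg (abs_nonneg _) (by linarith)
      _ = 10 * q := by ring
  have e4 : |∑ m ∈ (Icc 1 y).filter (fun m => m % q = c), lz x z m -
      lis y / (Nat.totient q : ℝ)| ≤ k0 / Real.log x ^ (W + 1) + 10 * q :=
    (abs_sub_le _ _ _).trans (add_le_add hmain e1)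
  refine e4.trans ?_
  have e5 : (k0 : ℝ) / Real.log x ^ (W + 1) ≤ 1 / 2 * (x / Real.log x ^ W) := by
    rw [pow_succ, div_mul_eq_div_div, div_le_iff₀ hL0, div_le_iff₀ (by positivity)]
    have e6 : 1 / 2 * (x / Real.log x ^ W) * Real.log x * Real.log x ^ W =
        1 / 2 * x * Real.log x := by
      field_simp
    rw [e6]
    nlinarith
  have e7 : 10 * (q : ℝ) ≤ 1 / 2 * (x / Real.log x ^ W) := by
    rw [← mul_div_assoc, le_div_iff₀ (by positivity)]
    have e8 : (1 : ℝ) ≤ Real.exp (Real.log (Real.log x) ^ 3) :=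
      Real.one_le_exp (pow_nonneg (Real.log_nonneg hL.le) 3)
    have e9 : (0 : ℝ) < Real.log x ^ (E1 + W) := by positivity
    calc 10 * (q : ℝ) * Real.log x ^ W ≤ 10 * Real.log x ^ E1 * Real.log x ^ W := by gcongr
      _ = 10 * Real.log x ^ (E1 + W) := by rw [pow_add]; ring
      _ ≤ 1 / 2 * Real.log x * Real.log x ^ (E1 + W) := by
          refine mul_le_mul_of_nonneg_right (by linarith) e9.le
      _ = 1 / 2 * Real.log x ^ (E1 + W + 1) := by ring
      _ ≤ 1 / 2 * (Real.exp (Real.log (Real.log x) ^ 3) * Real.log x ^ (2 * E1 + W + 4)) := by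
          have e10 : Real.log x ^ (E1 + W + 1) ≤ Real.log x ^ (2 * E1 + W + 4) :=
            pow_le_pow_right₀ hL.le (by omega)
          have e11 : (0 : ℝ) < Real.log x ^ (2 * E1 + W + 4) := by positivity
          nlinarith
      _ ≤ 1 / 2 * x := by linarith
  linarith

end Pool.Agent.H300R2.NB
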