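import Pool.Agent.H300R2.NB.Defs

/-!
Second moment for tuples of functions (`master`), deduced from the statements `star`, `Vi_upper`,
`telescope` and `dz_ok`, which are explicit hypotheses of `master_of`.
-/

namespace Pool.Agent.H300R2.NB

open Finset Polynomial
open Pool.Agent.H469R2.NK (e)
open Pool.Agent.H442R2.EHI (nint lis)
open Pool.Agent.H300R2.BH

lemma mst_large (r : ℕ) : ∃ x0 : ℕ, ∀ x : ℕ, x0 ≤ x → 1 ≤ Real.log (Real.log x) ∧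
    1 ≤ Real.log x ∧
    (r : ℝ) ^ 2 * (2 * Real.log (Real.log x) ^ 2) ^ (2 * r) ≤ Real.log x ^ 2 := by
  have h1 : ∀ᶠ t : ℝ in Filter.atTop, 1 ≤ Real.log t :=
    Real.tendsto_log_atTop.eventually_ge_atTop 1
  have h2 : ∀ᶠ t : ℝ in Filter.atTop, ‖Real.log t ^ (4 * r)‖ ≤ 1 * ‖id t‖ :=
    (Real.isLittleO_pow_log_id_atTop (n := 4 * r)).bound one_pos
  have h3 : ∀ᶠ t : ℝ in Filter.atTop, max 1 ((r : ℝ) ^ 2 * 4 ^ r) ≤ t :=
    Filter.eventually_ge_atTop _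
  have h4 : Filter.Tendsto (fun x : ℕ => Real.log (x : ℝ)) Filter.atTop Filter.atTop :=
    Real.tendsto_log_atTop.comp tendsto_natCast_atTop_atTop
  have h5 := h4.eventually (h1.and (h2.and h3))
  obtain ⟨x0, hx0⟩ := Filter.eventually_atTop.mp h5
  refine ⟨x0, fun x hx => ?_⟩
  obtain ⟨ha, hb, hc⟩ := hx0 x hx
  have hc1 : 1 ≤ Real.log x := le_trans (le_max_left _ _) hc
  have hc2 : (r : ℝ) ^ 2 * 4 ^ r ≤ Real.log x := le_trans (le_max_right _ _) hc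
  refine ⟨ha, hc1, ?_⟩
  have hb' : Real.log (Real.log x) ^ (4 * r) ≤ Real.log x := by
    have h6 : |Real.log (Real.log x) ^ (4 * r)| ≤ |Real.log x| := by
      simpa using hb
    calc Real.log (Real.log x) ^ (4 * r) ≤ |Real.log (Real.log x) ^ (4 * r)| := le_abs_self _
      _ ≤ |Real.log x| := h6
      _ = Real.log x := abs_of_nonneg (by linarith)
  have h7 : (2 * Real.log (Real.log x) ^ 2) ^ (2 * r) =
      4 ^ r * Real.log (Real.log x) ^ (4 * r) := by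
    rw [mul_pow, ← pow_mul, pow_mul (2 : ℝ) 2 r]
    norm_num
    congr 1
    ring
  rw [h7, ← mul_assoc, sq (Real.log (x : ℝ))]
  have h8 : 0 ≤ Real.log (Real.log x) ^ (4 * r) := pow_nonneg (by linarith) _
  exact mul_le_mul hc2 hb' h8 (by linarith)

lemma mst_fz (x z : ℕ) (m : ℤ) : fz (dz x z) m = ((ip x m - lz x z m : ℝ) : ℂ) := by
  unfold fz
  split_ifs with h
  · unfold dz
    rw [Int.toNat_of_nonneg (by omega)]
  · have h1 : ip x m = 0 := by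
      unfold ip
      rw [if_neg]
      rintro ⟨_, h2⟩
      have : m.toNat = 0 := by omega
      rw [this] at h2
      exact Nat.not_prime_zero h2
    have h2 : lz x z m = 0 := by
      unfold lz
      rw [if_neg]
      rintro ⟨h3, _⟩
      omega
    rw [h1, h2]
    simp

lemma mst_zero (x z n : ℕ) (hn : x < n) : dz x z n = 0 := by
  have h1 : ip x n = 0 := by
    unfold ip
    rw [if_neg]
    rintro ⟨h2, _⟩
    omega
  have h2 : lz x z n = 0 := by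
    unfold lz
    rw [if_neg]
    rintro ⟨_, h3, _⟩
    omega
  unfold dz
  rw [h1, h2]
  simp

lemma mst_ip (x : ℕ) (m : ℤ) : |ip x m| ≤ 1 := by
  unfold ip
  split_ifs <;> simp

/-- the statement of `star` -/
def StarStmt : Prop := ∀ (j : ℕ) (_ : 1 ≤ j) (E0 U : ℕ), ∃ E1 E3 B x0 : ℕ, ∀ x : ℕ, x0 ≤ x →
    ∀ f : ℕ → ℂ, (∀ n, x < n → f n = 0) → FourierHyp f x E1 E3 →
    ∑ n ∈ Icc 1 x, ‖f n‖ ^ 2 ≤ x * Real.log x ^ 2 →
    ∀ K A : ℕ, Real.log x ^ B ≤ K → Real.log x ^ B ≤ A →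
    (x : ℝ) ≤ A * (K : ℝ) ^ j * Real.log x ^ E0 →
    ∀ (A0 : ℤ) (T : ℕ → ℤ) (Bs : Finset ℤ) (W : ℕ → ℂ), (∀ n, ‖W n‖ ≤ 1) →
    ∑ a ∈ Ioc A0 (A0 + A), ∑ b ∈ Bs,
      ‖∑ n ∈ Icc 1 K, W n * fz f (T n + a * (n : ℤ) ^ j + b)‖ ^ 2 ≤
    A * (K : ℝ) ^ 2 * x / Real.log x ^ U

/-- the statement of `Vi_upper` -/
def ViStmt : Prop := ∀ (E : ℕ), ∃ x0 : ℕ, ∀ x : ℕ, x0 ≤ x → ∀ z : ℕ, (z : ℝ) ≤ Real.log x ^ E →
    1 ≤ Vi z ∧ Vi z ≤ Real.log (Real.log x) ^ 2 ∧ (∀ m : ℤ, 0 ≤ lz x z m) ∧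
    (∀ m : ℤ, lz x z m ≤ 2 * Real.log (Real.log x) ^ 2)

/-- the statement of `telescope` -/
def TeleStmt : Prop := ∀ {r : ℕ} {P : Fin r → Type} (B : ∀ i, Finset (P i)) (K : ℕ)
    (φ γ : ∀ i, P i → ℕ → ℝ) (L M : ℝ) (_ : 1 ≤ L)
    (_ : ∀ i, ∀ p ∈ B i, ∀ n, |φ i p n| ≤ L) (_ : ∀ i, ∀ p ∈ B i, ∀ n, |γ i p n| ≤ L)
    (_ : ∀ i, ∀ W : ℕ → ℂ, (∀ n, ‖W n‖ ≤ 1) →
      ∑ p ∈ B i, ‖∑ n ∈ Icc 1 K, W n * ((φ i p n - γ i p n : ℝ) : ℂ)‖ ^ 2 ≤ (B i).card * M)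
    (w : ℕ → ℂ) (_ : ∀ n, ‖w n‖ ≤ 1),
    ∑ p ∈ Fintype.piFinset B, ‖∑ n ∈ Icc 1 K, w n *
      ((∏ i, φ i (p i) n - ∏ i, γ i (p i) n : ℝ) : ℂ)‖ ^ 2 ≤
    (r : ℝ) ^ 2 * L ^ (2 * r) * (∏ i, ((B i).card : ℝ)) * M

/-- the statement of `dz_ok` -/
def DzStmt : Prop := ∀ (E1 E3 E : ℕ), ∃ x0 : ℕ, ∀ x : ℕ, x0 ≤ x → ∀ z : ℕ,
    ⌊Real.log x ^ E1⌋₊ ≤ z → (z : ℝ) ≤ Real.log x ^ E →
    FourierHyp (dz x z) x E1 E3 ∧ ∑ n ∈ Icc 1 x, ‖dz x z n‖ ^ 2 ≤ x * Real.log x ^ 2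

/-- S15. Second moment for tuples, from the statements of `star`, `Vi_upper`, `telescope`,
`dz_ok`. -/
theorem master_of (hstar : StarStmt) (hVi : ViStmt) (htele : TeleStmt) (hdz : DzStmt)
    (r J E0 U : ℕ) : ∃ B Z : ℕ, ∀ E : ℕ, ∃ x0 : ℕ, ∀ x : ℕ, x0 ≤ x → ∀ z : ℕ,
    ⌊Real.log x ^ Z⌋₊ ≤ z → (z : ℝ) ≤ Real.log x ^ E → ∀ K : ℕ, Real.log x ^ B ≤ K →
    ∀ j : Fin r → ℕ, (∀ i, 1 ≤ j i ∧ j i ≤ J) → ∀ A X : Fin r → ℕ,
    (∀ i, Real.log x ^ B ≤ A i ∧ (x : ℝ) ≤ A i * (K : ℝ) ^ (j i) * Real.log x ^ E0 ∧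
      (x : ℝ) ≤ X i * Real.log x ^ E0) →
    ∀ (A0 B0 : Fin r → ℤ) (T : Fin r → ℕ → ℤ) (w : ℕ → ℂ), (∀ n, ‖w n‖ ≤ 1) →
    ∑ p ∈ Fintype.piFinset (fun i => Ioc (A0 i) (A0 i + A i) ×ˢ Ioc (B0 i) (B0 i + X i)),
      ‖∑ n ∈ Icc 1 K, w n * ((∏ i, ip x (T i n + (p i).1 * (n : ℤ) ^ (j i) + (p i).2) -
        ∏ i, lz x z (T i n + (p i).1 * (n : ℤ) ^ (j i) + (p i).2) : ℝ) : ℂ)‖ ^ 2 ≤
    (∏ i, ((A i : ℝ) * X i)) * (K : ℝ) ^ 2 / Real.log x ^ U := by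
  have hs : ∀ j : ℕ, ∃ E1 E3 B x0 : ℕ, 1 ≤ j → ∀ x : ℕ, x0 ≤ x →
    ∀ f : ℕ → ℂ, (∀ n, x < n → f n = 0) → FourierHyp f x E1 E3 →
    ∑ n ∈ Icc 1 x, ‖f n‖ ^ 2 ≤ x * Real.log x ^ 2 →
    ∀ K A : ℕ, Real.log x ^ B ≤ K → Real.log x ^ B ≤ A →
    (x : ℝ) ≤ A * (K : ℝ) ^ j * Real.log x ^ E0 →
    ∀ (A0 : ℤ) (T : ℕ → ℤ) (Bs : Finset ℤ) (W : ℕ → ℂ), (∀ n, ‖W n‖ ≤ 1) →
    ∑ a ∈ Ioc A0 (A0 + A), ∑ b ∈ Bs,
      ‖∑ n ∈ Icc 1 K, W n * fz f (T n + a * (n : ℤ) ^ j + b)‖ ^ 2 ≤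
    A * (K : ℝ) ^ 2 * x / Real.log x ^ (U + E0 + 2) := by
    intro j
    by_cases hj : 1 ≤ j
    · obtain ⟨E1, E3, B, x0, h⟩ := hstar j hj E0 (U + E0 + 2)
      exact ⟨E1, E3, B, x0, fun _ => h⟩
    · exact ⟨0, 0, 0, 0, fun h => absurd h hj⟩
  choose E1 E3 Bf x0f hst using hs
  refine ⟨(range (J + 1)).sup Bf, (range (J + 1)).sup E1, fun E => ?_⟩
  have hd : ∀ j : ℕ, ∃ x0 : ℕ, ∀ x : ℕ, x0 ≤ x → ∀ z : ℕ,
    ⌊Real.log x ^ (E1 j)⌋₊ ≤ z → (z : ℝ) ≤ Real.log x ^ E →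
    FourierHyp (dz x z) x (E1 j) (E3 j) ∧ ∑ n ∈ Icc 1 x, ‖dz x z n‖ ^ 2 ≤ x * Real.log x ^ 2 :=
    fun j => hdz (E1 j) (E3 j) E
  choose x1f hdz' using hd
  obtain ⟨x2, hx2⟩ := hVi E
  obtain ⟨x3, hx3⟩ := mst_large r
  refine ⟨max (max ((range (J + 1)).sup x0f) ((range (J + 1)).sup x1f)) (max x2 x3),
    fun x hx z hz hzE K hK j hj A X hAX A0 B0 T w hw => ?_⟩
  have hxa : (range (J + 1)).sup x0f ≤ x :=
    le_trans (le_trans (le_max_left _ _) (le_max_left _ _)) hx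
  have hxb : (range (J + 1)).sup x1f ≤ x :=
    le_trans (le_trans (le_max_right _ _) (le_max_left _ _)) hx
  have hxc : x2 ≤ x := le_trans (le_trans (le_max_left _ _) (le_max_right _ _)) hx
  have hxd : x3 ≤ x := le_trans (le_trans (le_max_right _ _) (le_max_right _ _)) hx
  obtain ⟨hll, hl1, hlr⟩ := hx3 x hxd
  obtain ⟨hV1, hV2, hz0, hzu⟩ := hx2 x hxc z hzE
  have hmem : ∀ i, j i ∈ range (J + 1) := fun i => by
    have := (hj i).2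
    exact Finset.mem_range.mpr (by omega)
  have hl0 : 0 < Real.log (x : ℝ) := by linarith
  set L : ℝ := Real.log (x : ℝ) with hL
  have hL' : 1 ≤ 2 * Real.log L ^ 2 := by nlinarith
  have key := htele (r := r) (P := fun _ => ℤ × ℤ)
    (fun i => Ioc (A0 i) (A0 i + A i) ×ˢ Ioc (B0 i) (B0 i + X i)) K
    (fun i p n => ip x (T i n + p.1 * (n : ℤ) ^ (j i) + p.2))
    (fun i p n => lz x z (T i n + p.1 * (n : ℤ) ^ (j i) + p.2))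
    (2 * Real.log L ^ 2) ((K : ℝ) ^ 2 * L ^ E0 / L ^ (U + E0 + 2)) hL'
    (fun i p _ n => le_trans (mst_ip x _) hL')
    (fun i p _ n => by
      rw [abs_of_nonneg (hz0 _)]
      exact hzu _)
    (fun i W hW => by
      have hx0i : x0f (j i) ≤ x := le_trans (Finset.le_sup (f := x0f) (hmem i)) hxa
      have hx1i : x1f (j i) ≤ x := le_trans (Finset.le_sup (f := x1f) (hmem i)) hxb
      have hBi : Bf (j i) ≤ (range (J + 1)).sup Bf := Finset.le_sup (f := Bf) (hmem i)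
      have hEi : E1 (j i) ≤ (range (J + 1)).sup E1 := Finset.le_sup (f := E1) (hmem i)
      have hBp : L ^ (Bf (j i)) ≤ L ^ ((range (J + 1)).sup Bf) := pow_le_pow_right₀ hl1 hBi
      have hEp : L ^ (E1 (j i)) ≤ L ^ ((range (J + 1)).sup E1) := pow_le_pow_right₀ hl1 hEi
      obtain ⟨hF, hS⟩ := hdz' (j i) x hx1i z (le_trans (Nat.floor_le_floor hEp) hz) hzE
      obtain ⟨hA1, hA2, hA3⟩ := hAX i
      have h := hst (j i) (hj i).1 x hx0i (dz x z) (fun n hn => mst_zero x z n hn) hF hS K (A i)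
        (le_trans hBp hK) (le_trans hBp hA1) hA2 (A0 i) (T i) (Ioc (B0 i) (B0 i + X i)) W hW
      rw [Finset.sum_product, Finset.card_product, Int.card_Ioc, Int.card_Ioc]
      have hc1 : (A0 i + (A i : ℤ) - A0 i).toNat = A i := by
        rw [add_sub_cancel_left, Int.toNat_natCast]
      have hc2 : (B0 i + (X i : ℤ) - B0 i).toNat = X i := by
        rw [add_sub_cancel_left, Int.toNat_natCast]
      rw [hc1, hc2]
      have hLp : 0 < L ^ (U + E0 + 2) := pow_pos hl0 _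
      calc ∑ a ∈ Ioc (A0 i) (A0 i + A i), ∑ b ∈ Ioc (B0 i) (B0 i + X i),
            ‖∑ n ∈ Icc 1 K, W n * ((ip x (T i n + a * (n : ℤ) ^ (j i) + b) -
              lz x z (T i n + a * (n : ℤ) ^ (j i) + b) : ℝ) : ℂ)‖ ^ 2
          = ∑ a ∈ Ioc (A0 i) (A0 i + A i), ∑ b ∈ Ioc (B0 i) (B0 i + X i),
            ‖∑ n ∈ Icc 1 K, W n * fz (dz x z) (T i n + a * (n : ℤ) ^ (j i) + b)‖ ^ 2 := by
            refine Finset.sum_congr rfl (fun a _ => Finset.sum_congr rfl (fun b _ => ?_))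
            congr 2
            refine Finset.sum_congr rfl (fun n _ => ?_)
            rw [mst_fz]
        _ ≤ A i * (K : ℝ) ^ 2 * x / L ^ (U + E0 + 2) := h
        _ ≤ A i * (K : ℝ) ^ 2 * (X i * L ^ E0) / L ^ (U + E0 + 2) := by
            apply div_le_div_of_nonneg_right _ hLp.le
            exact mul_le_mul_of_nonneg_left hA3 (by positivity)
        _ = ((A i * X i : ℕ) : ℝ) * ((K : ℝ) ^ 2 * L ^ E0 / L ^ (U + E0 + 2)) := by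
            push_cast
            ring)
    w hw
  refine le_trans key ?_
  have hcard : ∀ i, (((Ioc (A0 i) (A0 i + A i) ×ˢ Ioc (B0 i) (B0 i + X i)).card : ℕ) : ℝ) =
      (A i : ℝ) * X i := by
    intro i
    rw [Finset.card_product, Int.card_Ioc, Int.card_Ioc]
    have hc1 : (A0 i + (A i : ℤ) - A0 i).toNat = A i := by
      rw [add_sub_cancel_left, Int.toNat_natCast]
    have hc2 : (B0 i + (X i : ℤ) - B0 i).toNat = X i := by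
      rw [add_sub_cancel_left, Int.toNat_natCast]
    rw [hc1, hc2]
    push_cast
    ring
  have hprod : (∏ i, (((Ioc (A0 i) (A0 i + A i) ×ˢ Ioc (B0 i) (B0 i + X i)).card : ℕ) : ℝ)) =
      ∏ i, ((A i : ℝ) * X i) := Finset.prod_congr rfl (fun i _ => hcard i)
  rw [hprod]
  have hP0 : 0 ≤ ∏ i, ((A i : ℝ) * X i) := Finset.prod_nonneg (fun i _ => by positivity)
  have hLp : 0 < L ^ (U + E0 + 2) := pow_pos hl0 _
  have hLU : 0 < L ^ U := pow_pos hl0 _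
  have hM0 : 0 ≤ (K : ℝ) ^ 2 * L ^ E0 / L ^ (U + E0 + 2) := by positivity
  calc (r : ℝ) ^ 2 * (2 * Real.log L ^ 2) ^ (2 * r) * (∏ i, ((A i : ℝ) * X i)) *
        ((K : ℝ) ^ 2 * L ^ E0 / L ^ (U + E0 + 2))
      ≤ L ^ 2 * (∏ i, ((A i : ℝ) * X i)) * ((K : ℝ) ^ 2 * L ^ E0 / L ^ (U + E0 + 2)) := by
        apply mul_le_mul_of_nonneg_right _ hM0
        exact mul_le_mul_of_nonneg_right hlr hP0
    _ = (∏ i, ((A i : ℝ) * X i)) * (K : ℝ) ^ 2 / L ^ U := by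
        rw [pow_add, pow_add]
        field_simp

end Pool.Agent.H300R2.NB
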