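import Pool.Agent.H300R2.NB.Defs

/-!
Task S2 (helper578): Parseval.
-/

namespace Pool.Agent.H300R2.NB

open Finset Polynomial
open Pool.Agent.H469R2.NK (e norm_e e_add conj_e e_zero)
open Pool.Agent.H442R2.EHI (nint lis sum_e_range e_add_int)
open Pool.Agent.H300R2.BH

namespace TaskS2

lemma e_sub_one (δ : ℝ) : ‖e δ - 1‖ = 2 * |Real.sin (Real.pi * δ)| := by
  have h2 : e δ = Complex.exp (Complex.I * ((2 * Real.pi * δ : ℝ) : ℂ)) := by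
    unfold e; rw [mul_comm]
  rw [h2, Complex.norm_exp_I_mul_ofReal_sub_one, Real.norm_eq_abs, abs_mul, abs_of_pos (by norm_num : (0:ℝ) < 2)]
  congr 3
  ring

lemma e_lower (θ : ℝ) : 4 * nint θ ≤ ‖e θ - 1‖ := by
  unfold nint
  set δ := θ - round θ with hδ
  have hθ : e θ = e δ := by
    have : θ = δ + ((round θ : ℤ) : ℝ) := by rw [hδ]; ring
    rw [this, e_add_int]
  rw [hθ, e_sub_one]
  have h1 : |δ| ≤ 1 / 2 := abs_sub_round θ
  have h2 : |Real.sin (Real.pi * δ)| = Real.sin (Real.pi * |δ|) := by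
    have hp : 0 ≤ Real.sin (Real.pi * |δ|) := by
      apply Real.sin_nonneg_of_nonneg_of_le_pi (by positivity)
      nlinarith [Real.pi_pos]
    rcases le_total 0 δ with h | h
    · rw [abs_of_nonneg h] at hp ⊢
      exact abs_of_nonneg hp
    · rw [abs_of_nonpos h] at hp ⊢
      have : Real.sin (Real.pi * δ) = -Real.sin (Real.pi * -δ) := by
        rw [← Real.sin_neg]; congr 1; ring
      rw [this, abs_neg, abs_of_nonneg hp]
  rw [h2]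
  have h3 := Real.mul_le_sin (x := Real.pi * |δ|) (by positivity) (by nlinarith [Real.pi_pos])
  have h4 : 2 / Real.pi * (Real.pi * |δ|) = 2 * |δ| := by
    field_simp
  rw [h4] at h3
  linarith

lemma sum_ioc (f : ℤ → ℂ) (A0 : ℤ) (A : ℕ) :
    ∑ a ∈ Ioc A0 (A0 + A), f a = ∑ i ∈ range A, f (A0 + 1 + i) := by
  refine Finset.sum_bij' (i := fun a _ => (a - A0 - 1).toNat) (j := fun i _ => A0 + 1 + (i : ℤ))
    ?_ ?_ ?_ ?_ ?_
  · intro a ha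
    rw [mem_Ioc] at ha
    rw [mem_range]
    omega
  · intro i hi
    rw [mem_range] at hi
    rw [mem_Ioc]
    omega
  · intro a ha
    rw [mem_Ioc] at ha
    show A0 + 1 + ((a - A0 - 1).toNat : ℤ) = a
    omega
  · intro i hi
    show (A0 + 1 + (i : ℤ) - A0 - 1).toNat = i
    omega
  · intro a ha
    rw [mem_Ioc] at ha
    congr 1
    show a = A0 + 1 + ((a - A0 - 1).toNat : ℤ)
    omega

lemma tel (A0 : ℤ) (A : ℕ) (θ : ℝ) :
    (∑ i ∈ range A, e (((A0 + 1 + i : ℤ) : ℝ) * θ)) * (e θ - 1) =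
      e (((A0 + 1 + A : ℤ) : ℝ) * θ) - e (((A0 + 1 : ℤ) : ℝ) * θ) := by
  induction A with
  | zero => simp
  | succ A ih =>
    rw [sum_range_succ, add_mul, ih, mul_sub, ← e_add, mul_one]
    have : ((A0 + 1 + A : ℤ) : ℝ) * θ + θ = ((A0 + 1 + (A + 1 : ℕ) : ℤ) : ℝ) * θ := by
      push_cast; ring
    rw [this]
    ring

lemma geo (A : ℕ) (A0 : ℤ) (θ : ℝ) :
    ‖∑ a ∈ Ioc A0 (A0 + A), e ((a : ℝ) * θ)‖ ≤ mn A (nint θ) := by
  unfold mn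
  split_ifs with h
  · refine (norm_sum_le _ _).trans ?_
    rw [sum_congr rfl (fun a _ => norm_e _), sum_const, Int.card_Ioc, nsmul_eq_mul, mul_one]
    simp
  · rw [not_le] at h
    have hn : 0 < nint θ := by
      by_contra hc
      rw [not_lt] at hc
      have h0 : nint θ = 0 := le_antisymm hc (abs_nonneg _)
      rw [h0] at h
      simp at h
      linarith
    rw [sum_ioc (fun a => e ((a : ℝ) * θ))]
    have h1 := congrArg norm (tel A0 A θ)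
    rw [norm_mul] at h1
    have h2 : ‖e (((A0 + 1 + A : ℤ) : ℝ) * θ) - e (((A0 + 1 : ℤ) : ℝ) * θ)‖ ≤ 2 := by
      refine (norm_sub_le _ _).trans ?_
      rw [norm_e, norm_e]; norm_num
    rw [le_div_iff₀ (by positivity)]
    have h3 := e_lower θ
    have h4 := norm_nonneg (∑ i ∈ range A, e (((A0 + 1 + i : ℤ) : ℝ) * θ))
    nlinarith

lemma sumS (j K A N h : ℕ) (A0 : ℤ) (T : ℕ → ℤ) (W : ℕ → ℂ) (hW : ∀ n, ‖W n‖ ≤ 1) :
    ∑ a ∈ Ioc A0 (A0 + A), ‖∑ n ∈ Icc 1 K, W n *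
      e (-(((T n + a * (n : ℤ) ^ j : ℤ) : ℝ) * h / N))‖ ^ 2 ≤ MM j K A ((h : ℝ) / N) := by
  have key : ((∑ a ∈ Ioc A0 (A0 + A), ‖∑ n ∈ Icc 1 K, W n *
      e (-(((T n + a * (n : ℤ) ^ j : ℤ) : ℝ) * h / N))‖ ^ 2 : ℝ) : ℂ) =
      ∑ n ∈ Icc 1 K, ∑ n' ∈ Icc 1 K, (W n * (starRingEnd ℂ) (W n') *
        e (-(((T n - T n' : ℤ) : ℝ) * h / N))) * ∑ a ∈ Ioc A0 (A0 + A), e ((a : ℝ) *
          (((((n' ^ j : ℕ) : ℤ) - ((n ^ j : ℕ) : ℤ) : ℤ) : ℝ) * ((h : ℝ) / N))) := by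
    have e0 : ∀ a ∈ Ioc A0 (A0 + (A : ℤ)), (((‖∑ n ∈ Icc 1 K, W n *
      e (-(((T n + a * (n : ℤ) ^ j : ℤ) : ℝ) * h / N))‖ ^ 2 : ℝ)) : ℂ) =
        ∑ n ∈ Icc 1 K, ∑ n' ∈ Icc 1 K, (W n * (starRingEnd ℂ) (W n') *
        e (-(((T n - T n' : ℤ) : ℝ) * h / N))) * e ((a : ℝ) *
          (((((n' ^ j : ℕ) : ℤ) - ((n ^ j : ℕ) : ℤ) : ℤ) : ℝ) * ((h : ℝ) / N))) := by
      intro a _
      have h1 : ∀ z : ℂ, (((‖z‖ ^ 2 : ℝ)) : ℂ) = z * (starRingEnd ℂ) z := by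
        intro z
        rw [Complex.mul_conj, Complex.normSq_eq_norm_sq]
      rw [h1, map_sum, sum_mul_sum]
      refine sum_congr rfl fun n _ => sum_congr rfl fun n' _ => ?_
      rw [map_mul, conj_e]
      have h2 : e (-(((T n - T n' : ℤ) : ℝ) * h / N)) * e ((a : ℝ) *
          (((((n' ^ j : ℕ) : ℤ) - ((n ^ j : ℕ) : ℤ) : ℤ) : ℝ) * ((h : ℝ) / N))) =
          e (-(((T n + a * (n : ℤ) ^ j : ℤ) : ℝ) * h / N)) *
          e (-(-(((T n' + a * (n' : ℤ) ^ j : ℤ) : ℝ) * h / N))) := by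
        rw [← e_add, ← e_add]
        congr 1
        push_cast
        ring
      calc _ = (W n * (starRingEnd ℂ) (W n')) * (e (-(((T n + a * (n : ℤ) ^ j : ℤ) : ℝ) * h / N)) *
          e (-(-(((T n' + a * (n' : ℤ) ^ j : ℤ) : ℝ) * h / N)))) := by ring
        _ = _ := by rw [← h2]; ring
    rw [Complex.ofReal_sum, sum_congr rfl e0, sum_comm]
    refine sum_congr rfl fun n _ => ?_
    rw [sum_comm]
    refine sum_congr rfl fun n' _ => ?_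
    rw [mul_sum]
  have hnn : 0 ≤ ∑ a ∈ Ioc A0 (A0 + (A : ℤ)), ‖∑ n ∈ Icc 1 K, W n *
      e (-(((T n + a * (n : ℤ) ^ j : ℤ) : ℝ) * h / N))‖ ^ 2 :=
    sum_nonneg fun a _ => by positivity
  rw [← abs_of_nonneg hnn, ← Real.norm_eq_abs, ← Complex.norm_real, key]
  unfold MM
  rw [sum_comm (s := Icc 1 K) (t := Icc 1 K) (f := fun n n' =>
    mn A (nint (((((n ^ j : ℕ) : ℤ) - ((n' ^ j : ℕ) : ℤ) : ℤ) : ℝ) * ((h : ℝ) / N))))]
  refine (norm_sum_le _ _).trans (sum_le_sum fun n _ => (norm_sum_le _ _).trans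
    (sum_le_sum fun n' _ => ?_))
  rw [norm_mul, norm_mul, norm_mul, norm_e, mul_one, RCLike.norm_conj]
  have hg := geo A A0 (((((n' ^ j : ℕ) : ℤ) - ((n ^ j : ℕ) : ℤ) : ℤ) : ℝ) * ((h : ℝ) / N))
  refine le_trans ?_ hg
  have h3 : ‖W n‖ * ‖W n'‖ ≤ 1 := mul_le_one₀ (hW n) (norm_nonneg _) (hW n')
  calc _ ≤ 1 * ‖∑ a ∈ Ioc A0 (A0 + (A : ℤ)), e ((a : ℝ) *
          (((((n' ^ j : ℕ) : ℤ) - ((n ^ j : ℕ) : ℤ) : ℤ) : ℝ) * ((h : ℝ) / N)))‖ :=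
        mul_le_mul_of_nonneg_right h3 (norm_nonneg _)
    _ = _ := one_mul _

/-- orthogonality -/
lemma orth (N : ℕ) (hN : 1 ≤ N) (c : ℕ → ℂ) :
    ∑ r ∈ range N, ‖∑ h ∈ range N, c h * e (-((((r : ℕ) : ℤ) : ℝ) * h / N))‖ ^ 2 =
      N * ∑ h ∈ range N, ‖c h‖ ^ 2 := by
  have h1 : ∀ z : ℂ, (((‖z‖ ^ 2 : ℝ)) : ℂ) = z * (starRingEnd ℂ) z := by
    intro z
    rw [Complex.mul_conj, Complex.normSq_eq_norm_sq]
  have key : ((∑ r ∈ range N, ‖∑ h ∈ range N, c h * e (-((((r : ℕ) : ℤ) : ℝ) * h / N))‖ ^ 2 : ℝ) : ℂ) =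
      ((N * ∑ h ∈ range N, ‖c h‖ ^ 2 : ℝ) : ℂ) := by
    have e0 : ∀ r ∈ range N, (((‖∑ h ∈ range N, c h * e (-((((r : ℕ) : ℤ) : ℝ) * h / N))‖ ^ 2 : ℝ)) : ℂ) =
        ∑ h ∈ range N, ∑ h' ∈ range N, (c h * (starRingEnd ℂ) (c h')) *
          e ((((h' : ℤ) - (h : ℤ) : ℤ) : ℝ) * r / N) := by
      intro r _
      rw [h1, map_sum, sum_mul_sum]
      refine sum_congr rfl fun h _ => sum_congr rfl fun h' _ => ?_
      rw [map_mul, conj_e]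
      have h2 : e ((((h' : ℤ) - (h : ℤ) : ℤ) : ℝ) * r / N) =
          e (-((((r : ℕ) : ℤ) : ℝ) * h / N)) * e (-(-((((r : ℕ) : ℤ) : ℝ) * h' / N))) := by
        rw [← e_add]
        congr 1
        push_cast
        ring
      rw [h2]
      ring
    rw [Complex.ofReal_sum, sum_congr rfl e0, sum_comm, Complex.ofReal_mul, Complex.ofReal_sum,
      Complex.ofReal_natCast, mul_sum]
    refine sum_congr rfl fun h hh => ?_
    rw [sum_comm, sum_eq_single h]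
    · rw [← mul_sum, sum_e_range N hN, if_pos (by simp), ← h1]
      ring
    · intro h' hh' hne
      rw [← mul_sum, sum_e_range N hN, if_neg, mul_zero]
      rw [mem_range] at hh hh'
      rintro ⟨t, ht⟩
      have hNz : (0:ℤ) < N := by exact_mod_cast hN
      rcases lt_trichotomy t 0 with h0 | h0 | h0
      · have : (N:ℤ) * t ≤ -N := by nlinarith
        omega
      · rw [h0, mul_zero] at ht
        apply hne; omega
      · have : (N:ℤ) ≤ N * t := by nlinarith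
        omega
    · intro h0; exact absurd hh h0
  exact_mod_cast key

lemma pv (N : ℕ) (hN : 1 ≤ N) (c : ℕ → ℂ) (Bs : Finset ℤ)
    (hB : ∀ b ∈ Bs, ∀ b' ∈ Bs, (N : ℤ) ∣ b - b' → b = b') :
    ∑ b ∈ Bs, ‖∑ h ∈ range N, c h * e (-((b : ℝ) * h / N))‖ ^ 2 ≤
      N * ∑ h ∈ range N, ‖c h‖ ^ 2 := by
  have hNz : (0:ℤ) < N := by exact_mod_cast hN
  have hN0 : (N : ℝ) ≠ 0 := by positivity
  rw [← orth N hN c]
  have hper : ∀ b ∈ Bs, ‖∑ h ∈ range N, c h * e (-((b : ℝ) * h / N))‖ ^ 2 =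
      (fun r : ℕ => ‖∑ h ∈ range N, c h * e (-((((r : ℕ) : ℤ) : ℝ) * h / N))‖ ^ 2)
        ((b % N).toNat) := by
    intro b _
    show _ = ‖∑ h ∈ range N, c h * e (-(((((b % N).toNat : ℕ) : ℤ) : ℝ) * h / N))‖ ^ 2
    have hb : (((b % N).toNat : ℕ) : ℤ) = b % N := Int.toNat_of_nonneg (Int.emod_nonneg _ hNz.ne')
    rw [hb]
    congr 2
    refine sum_congr rfl fun h _ => ?_
    congr 1
    have hdm : (b : ℝ) = ((b % N : ℤ) : ℝ) + (N : ℝ) * ((b / N : ℤ) : ℝ) := by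
      have := Int.emod_add_mul_ediv b N
      exact_mod_cast congrArg (fun z : ℤ => (z : ℝ)) this.symm
    have : -((b : ℝ) * h / N) = -(((b % N : ℤ) : ℝ) * h / N) + ((-((b / N) * h) : ℤ) : ℝ) := by
      rw [hdm]
      push_cast
      field_simp
      ring
    rw [this, e_add_int]
  rw [sum_congr rfl hper]
  have hinj : Set.InjOn (fun b : ℤ => (b % N).toNat) (Bs : Set ℤ) := by
    intro b hb b' hb' heq
    apply hB b hb b' hb'
    have e1 : (((b % N).toNat : ℕ) : ℤ) = b % N := Int.toNat_of_nonneg (Int.emod_nonneg _ hNz.ne')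
    have e2 : (((b' % N).toNat : ℕ) : ℤ) = b' % N := Int.toNat_of_nonneg (Int.emod_nonneg _ hNz.ne')
    have e3 : b % N = b' % N := by
      rw [← e1, ← e2]
      exact_mod_cast heq
    exact Int.dvd_of_emod_eq_zero (Int.emod_eq_emod_iff_emod_sub_eq_zero.1 e3)
  rw [← sum_image (f := fun r : ℕ => ‖∑ h ∈ range N, c h * e (-((((r : ℕ) : ℤ) : ℝ) * h / N))‖ ^ 2)
    hinj]
  apply sum_le_sum_of_subset_of_nonneg
  · intro r hr
    rw [mem_image] at hr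
    obtain ⟨b, _, rfl⟩ := hr
    rw [mem_range]
    have := Int.emod_lt_of_pos b hNz
    have := Int.emod_nonneg b hNz.ne'
    omega
  · intros; positivity

end TaskS2

open TaskS2

/-- S2. Parseval. -/
theorem pars (j : ℕ) (f : ℕ → ℂ) (x : ℕ) (hf : ∀ n, x < n → f n = 0) (K A : ℕ) (A0 : ℤ)
    (T : ℕ → ℤ) (Bs : Finset ℤ) (W : ℕ → ℂ) (hW : ∀ n, ‖W n‖ ≤ 1) : ∃ N0 : ℕ, ∀ N : ℕ, N0 ≤ N →
    ∑ a ∈ Ioc A0 (A0 + A), ∑ b ∈ Bs,
      ‖∑ n ∈ Icc 1 K, W n * fz f (T n + a * (n : ℤ) ^ j + b)‖ ^ 2 ≤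
    N * ∑ h ∈ range N, ‖chf f x N h‖ ^ 2 * MM j K A ((h : ℝ) / N) := by
  refine ⟨x + 2 + ∑ n ∈ Icc 1 K, ∑ a ∈ Ioc A0 (A0 + A), ∑ b ∈ Bs,
    (T n + a * (n : ℤ) ^ j + b).natAbs + ∑ b ∈ Bs, ∑ b' ∈ Bs, (b - b').natAbs, ?_⟩
  intro N hN
  have hN1 : 1 ≤ N := by omega
  have hNz : (0:ℤ) < N := by exact_mod_cast hN1
  have hm : ∀ n ∈ Icc 1 K, ∀ a ∈ Ioc A0 (A0 + (A : ℤ)), ∀ b ∈ Bs,
      (x : ℤ) - N < T n + a * (n : ℤ) ^ j + b ∧ T n + a * (n : ℤ) ^ j + b ≤ N := by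
    intro n hn a ha b hb
    have h1 : (T n + a * (n : ℤ) ^ j + b).natAbs ≤ ∑ b ∈ Bs, (T n + a * (n : ℤ) ^ j + b).natAbs :=
      single_le_sum (f := fun b => (T n + a * (n : ℤ) ^ j + b).natAbs) (fun _ _ => Nat.zero_le _) hb
    have h2 : ∑ b ∈ Bs, (T n + a * (n : ℤ) ^ j + b).natAbs ≤
        ∑ a ∈ Ioc A0 (A0 + A), ∑ b ∈ Bs, (T n + a * (n : ℤ) ^ j + b).natAbs :=
      single_le_sum (f := fun a => ∑ b ∈ Bs, (T n + a * (n : ℤ) ^ j + b).natAbs)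
        (fun _ _ => Nat.zero_le _) ha
    have h3 : ∑ a ∈ Ioc A0 (A0 + A), ∑ b ∈ Bs, (T n + a * (n : ℤ) ^ j + b).natAbs ≤
        ∑ n ∈ Icc 1 K, ∑ a ∈ Ioc A0 (A0 + A), ∑ b ∈ Bs, (T n + a * (n : ℤ) ^ j + b).natAbs :=
      single_le_sum (f := fun n => ∑ a ∈ Ioc A0 (A0 + A), ∑ b ∈ Bs,
        (T n + a * (n : ℤ) ^ j + b).natAbs) (fun _ _ => Nat.zero_le _) hn
    generalize T n + a * (n : ℤ) ^ j + b = m at *
    omega
  have hB : ∀ b ∈ Bs, ∀ b' ∈ Bs, (N : ℤ) ∣ b - b' → b = b' := by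
    intro b hb b' hb' hd
    have h1 : (b - b').natAbs ≤ ∑ b' ∈ Bs, (b - b').natAbs :=
      single_le_sum (f := fun b' => (b - b').natAbs) (fun _ _ => Nat.zero_le _) hb'
    have h2 : ∑ b' ∈ Bs, (b - b').natAbs ≤ ∑ b ∈ Bs, ∑ b' ∈ Bs, (b - b').natAbs :=
      single_le_sum (f := fun b => ∑ b' ∈ Bs, (b - b').natAbs) (fun _ _ => Nat.zero_le _) hb
    have h3 : (b - b').natAbs < N := by omega
    by_contra hne
    have h4 : 0 < (b - b').natAbs := by omega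
    have h5 : N ∣ (b - b').natAbs := by
      have := Int.natAbs_dvd_natAbs.2 hd
      simpa using this
    have := Nat.le_of_dvd h4 h5
    omega
  have hrew : ∀ a ∈ Ioc A0 (A0 + (A : ℤ)), ∀ b ∈ Bs,
      ∑ n ∈ Icc 1 K, W n * fz f (T n + a * (n : ℤ) ^ j + b) =
      ∑ h ∈ range N, (chf f x N h * ∑ n ∈ Icc 1 K, W n *
        e (-(((T n + a * (n : ℤ) ^ j : ℤ) : ℝ) * h / N))) * e (-((b : ℝ) * h / N)) := by
    intro a ha b hb
    have e1 : ∀ n ∈ Icc 1 K, W n * fz f (T n + a * (n : ℤ) ^ j + b) =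
        ∑ h ∈ range N, (chf f x N h * (W n *
        e (-(((T n + a * (n : ℤ) ^ j : ℤ) : ℝ) * h / N)))) * e (-((b : ℝ) * h / N)) := by
      intro n hn
      obtain ⟨m1, m2⟩ := hm n hn a ha b hb
      rw [← ch_inv f x N hf hN1 _ m1 m2, mul_sum]
      refine sum_congr rfl fun h _ => ?_
      have : e (-((((T n + a * (n : ℤ) ^ j + b : ℤ)) : ℝ) * h / N)) =
          e (-(((T n + a * (n : ℤ) ^ j : ℤ) : ℝ) * h / N)) * e (-((b : ℝ) * h / N)) := by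
        rw [← e_add]
        congr 1
        push_cast
        ring
      rw [this]
      ring
    rw [sum_congr rfl e1, sum_comm]
    refine sum_congr rfl fun h _ => ?_
    rw [← sum_mul, ← mul_sum]
  calc ∑ a ∈ Ioc A0 (A0 + A), ∑ b ∈ Bs,
      ‖∑ n ∈ Icc 1 K, W n * fz f (T n + a * (n : ℤ) ^ j + b)‖ ^ 2
      = ∑ a ∈ Ioc A0 (A0 + A), ∑ b ∈ Bs, ‖∑ h ∈ range N, (chf f x N h * ∑ n ∈ Icc 1 K, W n *
        e (-(((T n + a * (n : ℤ) ^ j : ℤ) : ℝ) * h / N))) * e (-((b : ℝ) * h / N))‖ ^ 2 := by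
        refine sum_congr rfl fun a ha => sum_congr rfl fun b hb => ?_
        rw [hrew a ha b hb]
    _ ≤ ∑ a ∈ Ioc A0 (A0 + (A : ℤ)), N * ∑ h ∈ range N, ‖chf f x N h * ∑ n ∈ Icc 1 K, W n *
        e (-(((T n + a * (n : ℤ) ^ j : ℤ) : ℝ) * h / N))‖ ^ 2 := by
        refine sum_le_sum fun a _ => ?_
        exact pv N hN1 (fun h => chf f x N h * ∑ n ∈ Icc 1 K, W n *
          e (-(((T n + a * (n : ℤ) ^ j : ℤ) : ℝ) * h / N))) Bs hB
    _ = N * ∑ h ∈ range N, ‖chf f x N h‖ ^ 2 * ∑ a ∈ Ioc A0 (A0 + (A : ℤ)), ‖∑ n ∈ Icc 1 K, W n *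
        e (-(((T n + a * (n : ℤ) ^ j : ℤ) : ℝ) * h / N))‖ ^ 2 := by
        rw [← mul_sum, sum_comm]
        congr 1
        refine sum_congr rfl fun h _ => ?_
        rw [mul_sum]
        refine sum_congr rfl fun a _ => ?_
        rw [norm_mul, mul_pow]
    _ ≤ _ := by
        apply mul_le_mul_of_nonneg_left _ (Nat.cast_nonneg N)
        refine sum_le_sum fun h _ => ?_
        apply mul_le_mul_of_nonneg_left _ (by positivity)
        exact sumS j K A N h A0 T W hW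

end Pool.Agent.H300R2.NB
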