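import Pool.Agent.H300R2.NB.Defs

/-!
S3. Second moment with arbitrary weights (from the statements S1 and S2).
-/

namespace Pool.Agent.H300R2.NB

open Finset Polynomial Filter
open Pool.Agent.H469R2.NK (e)
open Pool.Agent.H442R2.EHI (nint lis evt_log_pow evt_log_ge)
open Pool.Agent.H300R2.BH

lemma star_nint_nonneg (t : ℝ) : 0 ≤ nint t := abs_nonneg _

lemma star_mn_nonneg {A t : ℝ} (hA : 0 ≤ A) (ht : 0 ≤ t) : 0 ≤ mn A t := by
  unfold mn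
  split_ifs
  · exact hA
  · positivity

lemma star_mn_le {A t : ℝ} (_hA : 0 ≤ A) (ht : 0 ≤ t) : mn A t ≤ A := by
  unfold mn
  split_ifs with h
  · exact le_rfl
  · push Not at h
    have ht' : 0 < 2 * t := by
      by_contra hcon
      have : 2 * t = 0 := by linarith
      rw [this, mul_zero] at h
      linarith
    rw [div_le_iff₀ ht']
    exact h.le

lemma star_MM_nonneg (j K : ℕ) {A : ℝ} (hA : 0 ≤ A) (α : ℝ) : 0 ≤ MM j K A α :=
  sum_nonneg fun _ _ => sum_nonneg fun _ _ => star_mn_nonneg hA (star_nint_nonneg _)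

lemma star_MM_le (j K : ℕ) {A : ℝ} (hA : 0 ≤ A) (α : ℝ) : MM j K A α ≤ A * (K : ℝ) ^ 2 := by
  unfold MM
  calc _ ≤ ∑ n ∈ Icc 1 K, ∑ n' ∈ Icc 1 K, A :=
        sum_le_sum fun _ _ => sum_le_sum fun _ _ => star_mn_le hA (star_nint_nonneg _)
    _ = A * (K : ℝ) ^ 2 := by
        rw [sum_const, sum_const, Nat.card_Icc, nsmul_eq_mul, nsmul_eq_mul]
        push_cast
        ring

/-- number of `h` near a point -/
lemma star_count1 (N : ℕ) (c δ : ℝ) (hδ : 0 ≤ δ) (hN : 1 ≤ N) :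
    (((range N).filter (fun h : ℕ => |(h : ℝ) / N - c| ≤ δ)).card : ℝ) ≤ 2 * δ * N + 1 := by
  have hN0 : (0 : ℝ) < N := by exact_mod_cast hN
  have h1 : ((range N).filter (fun h : ℕ => |(h : ℝ) / N - c| ≤ δ)).card ≤
      (Icc ⌈(N : ℝ) * (c - δ)⌉ ⌊(N : ℝ) * (c + δ)⌋).card := by
    refine card_le_card_of_injOn (fun h : ℕ => (h : ℤ)) ?_ ?_
    · intro h hh
      have hh' := (mem_filter.1 (mem_coe.1 hh)).2
      rw [abs_le] at hh'
      rw [mem_coe, mem_Icc, Int.ceil_le, Int.le_floor]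
      have e1 : (h : ℝ) = N * ((h : ℝ) / N) := by field_simp
      constructor
      · push_cast
        rw [e1]
        exact mul_le_mul_of_nonneg_left (by linarith) hN0.le
      · push_cast
        rw [e1]
        exact mul_le_mul_of_nonneg_left (by linarith) hN0.le
    · intro a _ b _ hab
      have hab' : ((a : ℕ) : ℤ) = ((b : ℕ) : ℤ) := hab
      exact_mod_cast hab'
  have h2 : ((Icc ⌈(N : ℝ) * (c - δ)⌉ ⌊(N : ℝ) * (c + δ)⌋).card : ℝ) ≤ 2 * δ * N + 1 := by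
    rw [Int.card_Icc]
    have h3 := Int.floor_le ((N : ℝ) * (c + δ))
    have h4 := Int.le_ceil ((N : ℝ) * (c - δ))
    have h5 : (((⌊(N : ℝ) * (c + δ)⌋ + 1 - ⌈(N : ℝ) * (c - δ)⌉).toNat : ℤ) : ℝ) ≤ 2 * δ * N + 1 := by
      rw [Int.toNat_eq_max]
      push_cast
      refine max_le ?_ (by positivity)
      nlinarith
    exact_mod_cast h5
  exact (by exact_mod_cast h1 : _ ≤ _).trans h2

/-- number of `h` near fractions with small denominators -/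
lemma star_count2 (N Q : ℕ) (δ : ℝ) (hδ : 0 ≤ δ) (hδ1 : δ ≤ 1) (hN : 1 ≤ N) (hQ : 1 ≤ Q)
    (S : Finset ℕ) (hS : ∀ h ∈ S, h < N ∧ ∃ q : ℕ, 1 ≤ q ∧ q ≤ Q ∧ ∃ b : ℤ,
      |(h : ℝ) / N - (b : ℝ) / (q : ℝ)| ≤ δ) :
    (S.card : ℝ) ≤ 4 * (Q : ℝ) ^ 2 * (2 * δ * N + 1) := by
  classical
  have hN0 : (0 : ℝ) < N := by exact_mod_cast hN
  have h1 : S ⊆ (Icc 1 Q ×ˢ Icc (-(Q : ℤ)) (2 * Q)).biUnion (fun z =>
      (range N).filter (fun h : ℕ => |(h : ℝ) / N - (z.2 : ℝ) / (z.1 : ℝ)| ≤ δ)) := by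
    intro h hh
    obtain ⟨hN', q, hq1, hq2, b, hb⟩ := hS h hh
    rw [mem_biUnion]
    refine ⟨(q, b), ?_, mem_filter.2 ⟨mem_range.2 hN', hb⟩⟩
    have hq0 : (0 : ℝ) < q := by exact_mod_cast hq1
    have hb' := abs_le.1 (hb.trans hδ1)
    have h0 : 0 ≤ (h : ℝ) / N := by positivity
    have h1 : (h : ℝ) / N ≤ 1 := by
      rw [div_le_one hN0]
      exact_mod_cast hN'.le
    have h2 : (b : ℝ) / q ≤ 2 := by linarith
    have h3 : -1 ≤ (b : ℝ) / q := by linarith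
    rw [div_le_iff₀ hq0] at h2
    rw [le_div_iff₀ hq0] at h3
    have h2' : b ≤ 2 * q := by exact_mod_cast h2
    have h3' : -(q : ℤ) ≤ b := by
      have : (-(q : ℤ) : ℝ) ≤ b := by push_cast; linarith
      exact_mod_cast this
    rw [mem_product, mem_Icc, mem_Icc]
    exact ⟨⟨hq1, hq2⟩, by omega, by omega⟩
  have h2 : (S.card : ℝ) ≤ ∑ z ∈ Icc 1 Q ×ˢ Icc (-(Q : ℤ)) (2 * Q),
      (((range N).filter (fun h : ℕ => |(h : ℝ) / N - (z.2 : ℝ) / (z.1 : ℝ)| ≤ δ)).card : ℝ) := by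
    have := (card_le_card h1).trans card_biUnion_le
    exact_mod_cast this
  refine h2.trans ((sum_le_card_nsmul _ _ (2 * δ * N + 1) fun z _ => star_count1 N _ δ hδ hN).trans ?_)
  rw [nsmul_eq_mul, card_product, Nat.card_Icc, Int.card_Icc]
  refine mul_le_mul_of_nonneg_right ?_ (by positivity)
  have e1 : (2 * (Q : ℤ) + 1 - -(Q : ℤ)).toNat = 3 * Q + 1 := by omega
  rw [e1, Nat.add_sub_cancel]
  have : Q * (3 * Q + 1) ≤ 4 * Q ^ 2 := by nlinarith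
  exact_mod_cast this

/-- the Fourier coefficient near a fraction -/
lemma star_fourier {f : ℕ → ℂ} {x E1 E3 : ℕ} (hf : FourierHyp f x E1 E3) {q : ℕ} (hq : 1 ≤ q)
    (hqL : (q : ℝ) ≤ Real.log x ^ E1) (b : ℤ) {N h : ℕ} (hN : 1 ≤ N)
    (hb : |(h : ℝ) / N - (b : ℝ) / (q : ℝ)| ≤ Real.log x ^ E3 / x) :
    ‖chf f x N h‖ ≤ x / Real.log x ^ (2 * E3) / N := by
  have hN0 : (0 : ℝ) < N := by exact_mod_cast hN
  have hq0 : (q : ℤ) ≠ 0 := by exact_mod_cast (by omega : q ≠ 0)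
  -- reduce the fraction
  set g : ℕ := Int.gcd b q with hg
  have hg0 : 0 < g := Int.gcd_pos_of_ne_zero_right _ hq0
  obtain ⟨q', hq'⟩ : g ∣ q := by
    have : (g : ℤ) ∣ (q : ℤ) := Int.gcd_dvd_right _ _
    exact_mod_cast this
  obtain ⟨b', hb'⟩ : (g : ℤ) ∣ b := Int.gcd_dvd_left _ _
  have hq'1 : 1 ≤ q' := by
    rcases Nat.eq_zero_or_pos q' with h | h
    · rw [h, mul_zero] at hq'
      omega
    · exact h
  have hcop : IsCoprime b' (q' : ℤ) := by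
    rw [Int.isCoprime_iff_gcd_eq_one]
    have h1 : Int.gcd ((g : ℤ) * b') ((g : ℤ) * (q' : ℤ)) = g * Int.gcd b' q' := by
      rw [Int.gcd_mul_left, Int.natAbs_natCast]
    have h2 : Int.gcd ((g : ℤ) * b') ((g : ℤ) * (q' : ℤ)) = g := by
      rw [← hb', ← Nat.cast_mul, ← hq']
    rw [h2] at h1
    have : g * 1 = g * Int.gcd b' q' := by rw [mul_one]; exact h1
    exact (Nat.eq_of_mul_eq_mul_left hg0 this).symm
  have hqle : q' ≤ q := by
    rw [hq']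
    exact Nat.le_mul_of_pos_left q' hg0
  have hfrac : (b : ℝ) / (q : ℝ) = (b' : ℝ) / (q' : ℝ) := by
    rw [hb', hq']
    push_cast
    have : (g : ℝ) ≠ 0 := by exact_mod_cast hg0.ne'
    rw [mul_div_mul_left _ _ this]
  rw [hfrac] at hb
  have h3 := hf q' hq'1 ((by exact_mod_cast hqle : (q' : ℝ) ≤ q).trans hqL) b' hcop _ hb
  have hc : (N : ℝ) * ‖chf f x N h‖ = ‖∑ n ∈ Icc 1 x, f n * e ((n : ℝ) * ((h : ℝ) / N))‖ := by
    unfold chf
    rw [norm_mul, norm_div, norm_one, Complex.norm_natCast, ← mul_assoc,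
      mul_one_div_cancel hN0.ne', one_mul]
    simp
  rw [← hc] at h3
  rw [le_div_iff₀ hN0, mul_comm]
  exact h3

/-- minor and major arcs -/
lemma star_split (x N K A j E1 E3 Q : ℕ) (M0 δ : ℝ) (f : ℕ → ℂ) (hN : x + 1 ≤ N)
    (hF : FourierHyp f x E1 E3) (hQ : 1 ≤ Q) (hQL : (Q : ℝ) ≤ Real.log x ^ E1)
    (hM0 : 0 ≤ M0) (hδ0 : 0 ≤ δ) (hδ1 : δ ≤ 1) (hδ3 : δ ≤ Real.log x ^ E3 / x)
    (hmaj : ∀ h : ℕ, h < N → M0 < MM j K A ((h : ℝ) / N) → ∃ q : ℕ, 1 ≤ q ∧ q ≤ Q ∧ ∃ b : ℤ,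
      |(h : ℝ) / N - (b : ℝ) / (q : ℝ)| ≤ δ) :
    (N : ℝ) * ∑ h ∈ range N, ‖chf f x N h‖ ^ 2 * MM j K A ((h : ℝ) / N) ≤
      M0 * ∑ n ∈ Icc 1 x, ‖f n‖ ^ 2 +
      N * (4 * (Q : ℝ) ^ 2 * (2 * δ * N + 1) *
        ((x / Real.log x ^ (2 * E3) / N) ^ 2 * (A * (K : ℝ) ^ 2))) := by
  classical
  have hN0 : (0 : ℝ) ≤ N := Nat.cast_nonneg N
  have hA : (0 : ℝ) ≤ A := Nat.cast_nonneg A
  rw [← sum_filter_add_sum_filter_not (range N) (fun h : ℕ => M0 < MM j K A ((h : ℝ) / N)),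
    mul_add, add_comm]
  refine add_le_add ?_ ?_
  · rw [← ch_parseval f x N hN, ← mul_assoc, mul_comm M0, mul_assoc]
    refine mul_le_mul_of_nonneg_left ?_ hN0
    calc _ ≤ ∑ h ∈ (range N).filter (fun h : ℕ => ¬ M0 < MM j K A ((h : ℝ) / N)),
          ‖chf f x N h‖ ^ 2 * M0 := by
          refine sum_le_sum fun h hh => ?_
          exact mul_le_mul_of_nonneg_left (not_lt.1 (mem_filter.1 hh).2) (by positivity)
      _ ≤ ∑ h ∈ range N, ‖chf f x N h‖ ^ 2 * M0 :=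
          sum_le_sum_of_subset_of_nonneg (filter_subset _ _) fun _ _ _ => by positivity
      _ = M0 * ∑ h ∈ range N, ‖chf f x N h‖ ^ 2 := by
          rw [mul_sum]
          exact sum_congr rfl fun _ _ => mul_comm _ _
  · refine mul_le_mul_of_nonneg_left ?_ hN0
    have hcard := star_count2 N Q δ hδ0 hδ1 (by omega) hQ
      ((range N).filter (fun h : ℕ => M0 < MM j K A ((h : ℝ) / N))) (fun h hh => by
        have h1 := mem_range.1 (mem_filter.1 hh).1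
        exact ⟨h1, hmaj h h1 (mem_filter.1 hh).2⟩)
    refine (sum_le_card_nsmul _ _ ((x / Real.log x ^ (2 * E3) / N) ^ 2 * (A * (K : ℝ) ^ 2))
      fun h hh => ?_).trans ?_
    · obtain ⟨q, hq1, hq2, b, hb⟩ := hmaj h (mem_range.1 (mem_filter.1 hh).1) (mem_filter.1 hh).2
      have h1 := star_fourier hF hq1 ((by exact_mod_cast hq2 : (q : ℝ) ≤ Q).trans hQL) b
        (N := N) (h := h) (by omega) (hb.trans hδ3)
      exact mul_le_mul (pow_le_pow_left₀ (norm_nonneg _) h1 2) (star_MM_le j K hA _)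
        (star_MM_nonneg j K hA _) (by positivity)
    · rw [nsmul_eq_mul]
      exact mul_le_mul_of_nonneg_right hcard (by positivity)

/-- final arithmetic -/
lemma star_arith (L x N A K Q : ℝ) (E' E0 U E3 : ℕ) (hL : 24 ≤ L) (hx : 1 ≤ x) (hN : x ≤ N)
    (hA : 0 ≤ A) (hQ0 : 0 ≤ Q) (hQ : Q ≤ L ^ E') (hE3 : 3 * E' + E0 + U + 2 ≤ 4 * E3) (S : ℝ)
    (hS : S ≤ x * L ^ 2) :
    A * K ^ 2 / L ^ (U + 3) * S + N * (4 * Q ^ 2 * (2 * (L ^ (E' + E0) / x) * N + 1) *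
        ((x / L ^ (2 * E3) / N) ^ 2 * (A * K ^ 2))) ≤ A * K ^ 2 * x / L ^ U := by
  have hL0 : 0 < L := by linarith
  have hx0 : 0 < x := by linarith
  have hN0 : 0 < N := by linarith
  have hAK : 0 ≤ A * K ^ 2 := by positivity
  have hL1 : 1 ≤ L := by linarith
  have t1 : A * K ^ 2 / L ^ (U + 3) * S ≤ A * K ^ 2 * x / L ^ (U + 1) := by
    calc A * K ^ 2 / L ^ (U + 3) * S ≤ A * K ^ 2 / L ^ (U + 3) * (x * L ^ 2) :=
          mul_le_mul_of_nonneg_left hS (by positivity)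
      _ = A * K ^ 2 * x / L ^ (U + 1) := by
          field_simp
          ring
  have t2 : N * (4 * Q ^ 2 * (2 * (L ^ (E' + E0) / x) * N + 1) *
        ((x / L ^ (2 * E3) / N) ^ 2 * (A * K ^ 2))) ≤ A * K ^ 2 * x / L ^ (U + 1) := by
    have h1 : 1 ≤ L ^ (E' + E0) / x * N := by
      rw [div_mul_eq_mul_div, one_le_div hx0]
      calc x ≤ N := hN
        _ = 1 * N := (one_mul N).symm
        _ ≤ _ := mul_le_mul_of_nonneg_right (one_le_pow₀ hL1) hN0.le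
    have h2 : Q ^ 2 ≤ (L ^ E') ^ 2 := pow_le_pow_left₀ hQ0 hQ 2
    have h3 : N * (4 * Q ^ 2 * (2 * (L ^ (E' + E0) / x) * N + 1) *
        ((x / L ^ (2 * E3) / N) ^ 2 * (A * K ^ 2))) ≤
        N * (4 * (L ^ E') ^ 2 * (3 * (L ^ (E' + E0) / x * N)) *
        ((x / L ^ (2 * E3) / N) ^ 2 * (A * K ^ 2))) := by
      refine mul_le_mul_of_nonneg_left ?_ hN0.le
      refine mul_le_mul_of_nonneg_right ?_ (by positivity)
      refine mul_le_mul (by linarith) (by nlinarith) (by positivity) (by positivity)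
    have h4 : N * (4 * (L ^ E') ^ 2 * (3 * (L ^ (E' + E0) / x * N)) *
        ((x / L ^ (2 * E3) / N) ^ 2 * (A * K ^ 2))) =
        12 * (A * K ^ 2 * x) * L ^ (3 * E' + E0) / L ^ (4 * E3) := by
      have e1 : L ^ (3 * E' + E0) = (L ^ E') ^ 2 * L ^ (E' + E0) := by
        rw [← pow_mul, ← pow_add]
        congr 1
        ring
      have e2 : L ^ (4 * E3) = (L ^ (2 * E3)) ^ 2 := by
        rw [← pow_mul]
        congr 1
        ring
      rw [e1, e2]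
      field_simp
      ring
    refine h3.trans (h4.le.trans ?_)
    have h5 : 12 * L ^ (3 * E' + E0) * L ^ (U + 1) ≤ L ^ (4 * E3) := by
      calc 12 * L ^ (3 * E' + E0) * L ^ (U + 1) ≤ L * L ^ (3 * E' + E0) * L ^ (U + 1) := by
            refine mul_le_mul_of_nonneg_right ?_ (by positivity)
            exact mul_le_mul_of_nonneg_right (by linarith) (by positivity)
        _ = L ^ (3 * E' + E0 + U + 2) := by ring
        _ ≤ L ^ (4 * E3) := pow_le_pow_right₀ hL1 hE3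
    rw [div_le_div_iff₀ (by positivity) (by positivity)]
    calc 12 * (A * K ^ 2 * x) * L ^ (3 * E' + E0) * L ^ (U + 1)
        = (A * K ^ 2 * x) * (12 * L ^ (3 * E' + E0) * L ^ (U + 1)) := by ring
      _ ≤ (A * K ^ 2 * x) * L ^ (4 * E3) :=
          mul_le_mul_of_nonneg_left h5 (by positivity)
  calc _ ≤ A * K ^ 2 * x / L ^ (U + 1) + A * K ^ 2 * x / L ^ (U + 1) := add_le_add t1 t2
    _ = A * K ^ 2 * x * 2 / L ^ (U + 1) := by ring
    _ ≤ A * K ^ 2 * x * L / L ^ (U + 1) := by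
        refine div_le_div_of_nonneg_right ?_ (by positivity)
        exact mul_le_mul_of_nonneg_left (by linarith) (by positivity)
    _ = A * K ^ 2 * x / L ^ U := by
        rw [div_eq_div_iff (by positivity) (by positivity)]
        ring

/-- S3. Second moment with arbitrary weights; `arcs` and `pars` are the statements S1 and S2. -/
theorem star
    (arcs : ∀ (j : ℕ) (_ : 1 ≤ j) (U : ℕ), ∃ (E : ℕ) (L0 : ℝ), ∀ L : ℝ, L0 ≤ L →
      ∀ (K : ℕ) (A α : ℝ), L ^ E ≤ K → L ^ E ≤ A → A * (K : ℝ) ^ 2 / L ^ U < MM j K A α →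
      ∃ q : ℕ, 1 ≤ q ∧ (q : ℝ) ≤ L ^ E ∧ ∃ b : ℤ,
        |α - (b : ℝ) / (q : ℝ)| ≤ L ^ E / (A * (K : ℝ) ^ j))
    (pars : ∀ (j : ℕ) (f : ℕ → ℂ) (x : ℕ) (_ : ∀ n, x < n → f n = 0) (K A : ℕ) (A0 : ℤ)
      (T : ℕ → ℤ) (Bs : Finset ℤ) (W : ℕ → ℂ) (_ : ∀ n, ‖W n‖ ≤ 1), ∃ N0 : ℕ, ∀ N : ℕ, N0 ≤ N →
      ∑ a ∈ Ioc A0 (A0 + A), ∑ b ∈ Bs,
        ‖∑ n ∈ Icc 1 K, W n * fz f (T n + a * (n : ℤ) ^ j + b)‖ ^ 2 ≤
      N * ∑ h ∈ range N, ‖chf f x N h‖ ^ 2 * MM j K A ((h : ℝ) / N))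
    (j : ℕ) (hj : 1 ≤ j) (E0 U : ℕ) : ∃ E1 E3 B x0 : ℕ, ∀ x : ℕ, x0 ≤ x →
    ∀ f : ℕ → ℂ, (∀ n, x < n → f n = 0) → FourierHyp f x E1 E3 →
    ∑ n ∈ Icc 1 x, ‖f n‖ ^ 2 ≤ x * Real.log x ^ 2 →
    ∀ K A : ℕ, Real.log x ^ B ≤ K → Real.log x ^ B ≤ A →
    (x : ℝ) ≤ A * (K : ℝ) ^ j * Real.log x ^ E0 →
    ∀ (A0 : ℤ) (T : ℕ → ℤ) (Bs : Finset ℤ) (W : ℕ → ℂ), (∀ n, ‖W n‖ ≤ 1) →
    ∑ a ∈ Ioc A0 (A0 + A), ∑ b ∈ Bs,
      ‖∑ n ∈ Icc 1 K, W n * fz f (T n + a * (n : ℤ) ^ j + b)‖ ^ 2 ≤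
    A * (K : ℝ) ^ 2 * x / Real.log x ^ U := by
  obtain ⟨E', L0, harcs⟩ := arcs j hj (U + 3)
  have hev : ∀ᶠ x : ℕ in atTop, 1 ≤ x ∧ L0 ≤ Real.log x ∧ 24 ≤ Real.log x ∧
      Real.log x ^ (E' + E0) ≤ x := by
    filter_upwards [eventually_ge_atTop 1, evt_log_ge L0, evt_log_ge 24,
      evt_log_pow (E' + E0) 1 one_pos] with x h1 h2 h3 h4
    exact ⟨h1, h2, h3, by simpa using h4⟩
  obtain ⟨x0, hx0⟩ := eventually_atTop.1 hev
  refine ⟨E', 3 * E' + E0 + U + 2, E', x0, fun x hx f hf hF hS K A hK hA hxAK A0 T Bs W hW => ?_⟩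
  obtain ⟨h1, h2, h3, h4⟩ := hx0 x hx
  have hx1 : (1 : ℝ) ≤ x := by exact_mod_cast h1
  have hxp : (0 : ℝ) < x := by linarith
  have hL1 : 1 ≤ Real.log x := by linarith
  have hL0 : 0 < Real.log x := by linarith
  obtain ⟨N0, hN0⟩ := pars j f x hf K A A0 T Bs W hW
  refine (hN0 (max N0 (x + 1)) (le_max_left _ _)).trans ?_
  set N : ℕ := max N0 (x + 1) with hN
  have hNx : x + 1 ≤ N := le_max_right _ _
  have hNx' : (x : ℝ) ≤ N := by exact_mod_cast (by omega : x ≤ N)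
  have hQ1 : 1 ≤ ⌊Real.log x ^ E'⌋₊ := by
    rw [Nat.one_le_floor_iff]
    exact one_le_pow₀ hL1
  have hQL : ((⌊Real.log x ^ E'⌋₊ : ℕ) : ℝ) ≤ Real.log x ^ E' := Nat.floor_le (by positivity)
  have hAK : 0 < (A : ℝ) * (K : ℝ) ^ j := by
    by_contra hcon
    have h5 : (A : ℝ) * (K : ℝ) ^ j = 0 := le_antisymm (not_lt.1 hcon) (by positivity)
    rw [h5, zero_mul] at hxAK
    linarith
  refine (star_split x N K A j E' (3 * E' + E0 + U + 2) ⌊Real.log x ^ E'⌋₊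
    (A * (K : ℝ) ^ 2 / Real.log x ^ (U + 3)) (Real.log x ^ (E' + E0) / x) f hNx hF hQ1 hQL
    (by positivity) (by positivity) ?_ ?_ ?_).trans ?_
  · rw [div_le_one hxp]
    exact h4
  · exact div_le_div_of_nonneg_right (pow_le_pow_right₀ hL1 (by omega)) hxp.le
  · intro h _ hM
    obtain ⟨q, hq1, hq2, b, hb⟩ := harcs (Real.log x) h2 K A ((h : ℝ) / N) hK hA hM
    refine ⟨q, hq1, Nat.le_floor hq2, b, hb.trans ?_⟩
    rw [div_le_div_iff₀ hAK hxp, pow_add]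
    calc Real.log x ^ E' * x ≤ Real.log x ^ E' * (A * (K : ℝ) ^ j * Real.log x ^ E0) :=
          mul_le_mul_of_nonneg_left hxAK (by positivity)
      _ = Real.log x ^ E' * Real.log x ^ E0 * (A * (K : ℝ) ^ j) := by ring
  · exact star_arith (Real.log x) x N A K _ E' E0 U (3 * E' + E0 + U + 2) h3 hx1 hNx'
      (Nat.cast_nonneg A) (Nat.cast_nonneg _) hQL (by omega) _ hS

end Pool.Agent.H300R2.NB
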