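import Mathlib

/-!
# NB, task S10: telescoping
-/

namespace Pool.Agent.H300R2.NB

open Finset

theorem S10_swap {r : ℕ} {P : Fin r → Type} (B : ∀ i, Finset (P i)) (i : Fin r)
    (F : (∀ j, P j) → ℝ) :
    ((B i).card : ℝ) * ∑ p ∈ Fintype.piFinset B, F p =
      ∑ p ∈ Fintype.piFinset B, ∑ q ∈ B i, F (Function.update p i q) := by
  classical
  rw [← sum_product (s := Fintype.piFinset B) (t := B i)
    (f := fun x => F (Function.update x.1 i x.2))]
  have h1 : ∑ x ∈ Fintype.piFinset B ×ˢ B i, F (Function.update x.1 i x.2) =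
      ∑ x ∈ Fintype.piFinset B ×ˢ B i, F x.1 := by
    refine sum_nbij' (fun x => (Function.update x.1 i x.2, x.1 i))
      (fun x => (Function.update x.1 i x.2, x.1 i)) ?_ ?_ ?_ ?_ ?_
    · intro x hx
      rw [mem_product, Fintype.mem_piFinset] at hx ⊢
      refine ⟨fun j => ?_, hx.1 i⟩
      show Function.update x.1 i x.2 j ∈ B j
      by_cases hj : j = i
      · subst hj
        rw [Function.update_self]
        exact hx.2
      · rw [Function.update_of_ne hj]
        exact hx.1 j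
    · intro x hx
      rw [mem_product, Fintype.mem_piFinset] at hx ⊢
      refine ⟨fun j => ?_, hx.1 i⟩
      show Function.update x.1 i x.2 j ∈ B j
      by_cases hj : j = i
      · subst hj
        rw [Function.update_self]
        exact hx.2
      · rw [Function.update_of_ne hj]
        exact hx.1 j
    · intro x _
      ext1
      · simp
      · simp
    · intro x _
      ext1
      · simp
      · simp
    · intro x _
      rfl
  rw [h1, sum_product]
  simp only [sum_const, nsmul_eq_mul]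
  rw [mul_sum]

/-- S10. Telescoping. -/
theorem telescope {r : ℕ} {P : Fin r → Type} (B : ∀ i, Finset (P i)) (K : ℕ)
    (φ γ : ∀ i, P i → ℕ → ℝ) (L M : ℝ) (hL : 1 ≤ L)
    (hφ : ∀ i, ∀ p ∈ B i, ∀ n, |φ i p n| ≤ L) (hγ : ∀ i, ∀ p ∈ B i, ∀ n, |γ i p n| ≤ L)
    (hM : ∀ i, ∀ W : ℕ → ℂ, (∀ n, ‖W n‖ ≤ 1) →
      ∑ p ∈ B i, ‖∑ n ∈ Icc 1 K, W n * ((φ i p n - γ i p n : ℝ) : ℂ)‖ ^ 2 ≤ (B i).card * M)
    (w : ℕ → ℂ) (hw : ∀ n, ‖w n‖ ≤ 1) :
    ∑ p ∈ Fintype.piFinset B, ‖∑ n ∈ Icc 1 K, w n *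
      ((∏ i, φ i (p i) n - ∏ i, γ i (p i) n : ℝ) : ℂ)‖ ^ 2 ≤
    (r : ℝ) ^ 2 * L ^ (2 * r) * (∏ i, ((B i).card : ℝ)) * M := by
  classical
  have hL0 : 0 < L := by linarith
  obtain ⟨c, hc⟩ : ∃ c : (i : Fin r) → (∀ j, P j) → ℕ → ℝ, ∀ i p n, c i p n =
      (∏ j ∈ univ.filter (fun j => j < i), φ j (p j) n) *
        ∏ j ∈ univ.filter (fun j => i < j), γ j (p j) n := ⟨_, fun _ _ _ => rfl⟩
  have htel : ∀ (p : ∀ j, P j) (n : ℕ), ∏ i, φ i (p i) n - ∏ i, γ i (p i) n =
      ∑ i, (φ i (p i) n - γ i (p i) n) * c i p n := by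
    intro p n
    have h1 := prod_add_ordered (univ : Finset (Fin r)) (fun i => γ i (p i) n)
      (fun i => φ i (p i) n - γ i (p i) n)
    simp only [add_sub_cancel] at h1
    rw [h1, add_sub_cancel_left]
    refine sum_congr rfl fun i _ => ?_
    rw [hc, mul_assoc]
  have hprod : ∀ (s : Finset (Fin r)) (f : Fin r → ℝ), (∀ j ∈ s, |f j| ≤ L) →
      |∏ j ∈ s, f j| ≤ L ^ s.card := by
    intro s f hf
    rw [abs_prod]
    exact (prod_le_prod (fun j _ => abs_nonneg _) hf).trans (by rw [prod_const])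
  have hcb : ∀ i p, p ∈ Fintype.piFinset B → ∀ n, |c i p n| ≤ L ^ r := by
    intro i p hp n
    rw [Fintype.mem_piFinset] at hp
    rw [hc, abs_mul]
    have h1 := hprod (univ.filter (fun j => j < i)) (fun j => φ j (p j) n)
      fun j _ => hφ j _ (hp j) n
    have h2 := hprod (univ.filter (fun j => i < j)) (fun j => γ j (p j) n)
      fun j _ => hγ j _ (hp j) n
    calc _ ≤ L ^ (univ.filter (fun j => j < i)).card * L ^ (univ.filter (fun j => i < j)).card :=
          mul_le_mul h1 h2 (abs_nonneg _) (pow_nonneg hL0.le _)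
      _ = L ^ ((univ.filter (fun j => j < i)).card + (univ.filter (fun j => i < j)).card) := by
          rw [pow_add]
      _ ≤ L ^ r := by
          refine pow_le_pow_right₀ hL ?_
          rw [← card_union_of_disjoint]
          · refine (card_le_univ _).trans ?_
            rw [Fintype.card_fin]
          · rw [disjoint_filter]
            intro j _ h1 h2
            exact absurd h1 (not_lt.2 h2.le)
  have hcu : ∀ i p (q : P i) n, c i (Function.update p i q) n = c i p n := by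
    intro i p q n
    rw [hc, hc]
    congr 1
    · refine prod_congr rfl fun j hj => ?_
      rw [mem_filter] at hj
      rw [Function.update_of_ne hj.2.ne]
    · refine prod_congr rfl fun j hj => ?_
      rw [mem_filter] at hj
      rw [Function.update_of_ne hj.2.ne']
  obtain ⟨S, hS⟩ : ∃ S : (i : Fin r) → (∀ j, P j) → ℂ, ∀ i p, S i p = ∑ n ∈ Icc 1 K, w n *
      (((φ i (p i) n - γ i (p i) n) * c i p n : ℝ) : ℂ) := ⟨_, fun _ _ => rfl⟩
  have hcard : ((Fintype.piFinset B).card : ℝ) = ∏ i, ((B i).card : ℝ) := by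
    rw [Fintype.card_piFinset]
    push_cast
    rfl
  have hLr : (0 : ℝ) < L ^ r := pow_pos hL0 _
  have hi : ∀ i, ∑ p ∈ Fintype.piFinset B, ‖S i p‖ ^ 2 ≤
      L ^ (2 * r) * (∏ i, ((B i).card : ℝ)) * M := by
    intro i
    rcases Finset.eq_empty_or_nonempty (B i) with he | hne
    · have h1 : Fintype.piFinset B = ∅ := by
        rw [Finset.eq_empty_iff_forall_notMem]
        intro p hp
        rw [Fintype.mem_piFinset] at hp
        have := hp i
        rw [he] at this
        exact absurd this (notMem_empty _)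
      rw [← hcard, h1]
      simp
    · have hB : (0 : ℝ) < (B i).card := by exact_mod_cast hne.card_pos
      have h1 := S10_swap B i (fun p => ‖S i p‖ ^ 2)
      have h2 : ∀ p ∈ Fintype.piFinset B, ∑ q ∈ B i, ‖S i (Function.update p i q)‖ ^ 2 ≤
          L ^ (2 * r) * ((B i).card * M) := by
        intro p hp
        have h3 := hM i (fun n => w n * ((c i p n / L ^ r : ℝ) : ℂ)) (by
          intro n
          rw [norm_mul, Complex.norm_real, Real.norm_eq_abs, abs_div, abs_of_pos hLr]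
          exact mul_le_one₀ (hw n) (by positivity) ((div_le_one hLr).2 (hcb i p hp n)))
        refine le_trans (le_of_eq ?_) (mul_le_mul_of_nonneg_left h3 (by positivity))
        rw [mul_sum]
        refine sum_congr rfl fun q _ => ?_
        have h4 : S i (Function.update p i q) = ((L ^ r : ℝ) : ℂ) * ∑ n ∈ Icc 1 K,
            w n * ((c i p n / L ^ r : ℝ) : ℂ) * ((φ i q n - γ i q n : ℝ) : ℂ) := by
          rw [hS, mul_sum]
          refine sum_congr rfl fun n _ => ?_
          rw [hcu, Function.update_self]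
          have h5 : (φ i q n - γ i q n) * c i p n =
              L ^ r * ((c i p n / L ^ r) * (φ i q n - γ i q n)) := by
            field_simp
          rw [h5]
          push_cast
          ring
        rw [h4, norm_mul, Complex.norm_real, Real.norm_eq_abs, abs_of_pos hLr, mul_pow,
          ← pow_mul, mul_comm r 2]
      have h5 : ((B i).card : ℝ) * ∑ p ∈ Fintype.piFinset B, ‖S i p‖ ^ 2 ≤
          ((B i).card : ℝ) * (L ^ (2 * r) * (∏ i, ((B i).card : ℝ)) * M) := by
        rw [h1]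
        refine (sum_le_sum h2).trans (le_of_eq ?_)
        rw [sum_const, nsmul_eq_mul, hcard]
        ring
      exact le_of_mul_le_mul_left h5 hB
  have hp : ∀ p : ∀ j, P j, ‖∑ n ∈ Icc 1 K, w n *
      ((∏ i, φ i (p i) n - ∏ i, γ i (p i) n : ℝ) : ℂ)‖ ^ 2 ≤ (r : ℝ) * ∑ i, ‖S i p‖ ^ 2 := by
    intro p
    have h1 : ∑ n ∈ Icc 1 K, w n * ((∏ i, φ i (p i) n - ∏ i, γ i (p i) n : ℝ) : ℂ) =
        ∑ i, S i p := by
      simp only [hS]
      rw [sum_comm]
      refine sum_congr rfl fun n _ => ?_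
      rw [htel, Complex.ofReal_sum, mul_sum]
    rw [h1]
    have h2 : ‖∑ i, S i p‖ ^ 2 ≤ (∑ i, ‖S i p‖) ^ 2 :=
      pow_le_pow_left₀ (norm_nonneg _) (norm_sum_le _ _) 2
    have h3 := sq_sum_le_card_mul_sum_sq (s := (univ : Finset (Fin r))) (f := fun i => ‖S i p‖)
    rw [card_univ, Fintype.card_fin] at h3
    exact h2.trans h3
  calc ∑ p ∈ Fintype.piFinset B, ‖∑ n ∈ Icc 1 K, w n *
      ((∏ i, φ i (p i) n - ∏ i, γ i (p i) n : ℝ) : ℂ)‖ ^ 2
      ≤ ∑ p ∈ Fintype.piFinset B, (r : ℝ) * ∑ i, ‖S i p‖ ^ 2 := sum_le_sum fun p _ => hp p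
    _ = (r : ℝ) * ∑ i, ∑ p ∈ Fintype.piFinset B, ‖S i p‖ ^ 2 := by
        rw [← mul_sum, sum_comm]
    _ ≤ (r : ℝ) * ∑ _i : Fin r, L ^ (2 * r) * (∏ i, ((B i).card : ℝ)) * M := by
        refine mul_le_mul_of_nonneg_left (sum_le_sum fun i _ => hi i) (Nat.cast_nonneg _)
    _ = (r : ℝ) ^ 2 * L ^ (2 * r) * (∏ i, ((B i).card : ℝ)) * M := by
        rw [sum_const, card_univ, Fintype.card_fin, nsmul_eq_mul]
        ring

end Pool.Agent.H300R2.NB
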