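import Pool.Agent.H300R2.NB.Defs
import Pool.Agent.Helper256.KM.Mertens

set_option autoImplicit false

/-! Project NB (helper300), task S9: upper bound for the Euler product. -/

namespace Pool.Agent.H300R2.NB

open Finset

namespace ViUaux

theorem factor_one_le {p : ℕ} (hp : 2 ≤ p) : (1 : ℝ) ≤ (1 - 1 / (p : ℝ))⁻¹ := by
  have hp' : (2 : ℝ) ≤ p := by exact_mod_cast hp
  have h1 : 1 / (p : ℝ) ≤ 1 / 2 := one_div_le_one_div_of_le (by norm_num) hp'
  have h2 : 0 < 1 / (p : ℝ) := by positivity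
  exact (one_le_inv₀ (by linarith)).2 (by linarith)

theorem factor_le {p : ℕ} (hp : 2 ≤ p) :
    (1 - 1 / (p : ℝ))⁻¹ ≤ Real.exp (1 / (p : ℝ) + 2 * (1 / (p : ℝ) ^ 2)) := by
  have hp' : (2 : ℝ) ≤ p := by exact_mod_cast hp
  have hp0 : (0 : ℝ) < p := by linarith
  have hp1 : (0 : ℝ) < p - 1 := by linarith
  have h1 : (1 - 1 / (p : ℝ))⁻¹ = 1 / ((p : ℝ) - 1) + 1 := by
    field_simp
    ring
  have h2 : 1 / ((p : ℝ) - 1) ≤ 1 / (p : ℝ) + 2 * (1 / (p : ℝ) ^ 2) := by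
    have h3 : 1 / (p : ℝ) + 2 * (1 / (p : ℝ) ^ 2) - 1 / ((p : ℝ) - 1) =
        (p - 2) / (p ^ 2 * (p - 1)) := by
      field_simp
      ring
    have h4 : 0 ≤ ((p : ℝ) - 2) / (p ^ 2 * (p - 1)) :=
      div_nonneg (by linarith) (by positivity)
    linarith
  rw [h1]
  exact (Real.add_one_le_exp _).trans (Real.exp_le_exp.2 h2)

theorem mem_two {z p : ℕ} (hp : p ∈ (Icc 1 z).filter Nat.Prime) : 2 ≤ p :=
  (Finset.mem_filter.1 hp).2.two_le

theorem one_le_Vi (z : ℕ) : 1 ≤ Vi z := by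
  unfold Vi
  have h := Finset.prod_le_prod (s := (Icc 1 z).filter Nat.Prime) (f := fun _ => (1 : ℝ))
    (g := fun p : ℕ => (1 - 1 / (p : ℝ))⁻¹) (fun _ _ => zero_le_one)
    (fun p hp => factor_one_le (mem_two hp))
  simpa using h

theorem Vi_mono {z w : ℕ} (h : z ≤ w) : Vi z ≤ Vi w := by
  unfold Vi
  refine Finset.prod_le_prod_of_subset_of_one_le ?_ ?_ ?_
  · exact Finset.filter_subset_filter _ (Finset.Icc_subset_Icc_right h)
  · intro p hp
    exact zero_le_one.trans (factor_one_le (mem_two hp))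
  · intro p hp _
    exact factor_one_le (mem_two hp)

theorem Vi_le_exp (z : ℕ) :
    Vi z ≤ Real.exp (∑ p ∈ (Icc 1 z).filter Nat.Prime, 1 / (p : ℝ) +
      2 * ∑' n : ℕ, 1 / (n : ℝ) ^ 2) := by
  have hsum : Summable (fun n : ℕ => 1 / (n : ℝ) ^ 2) :=
    Real.summable_one_div_nat_pow.2 (by norm_num)
  have h1 : Vi z ≤ ∏ p ∈ (Icc 1 z).filter Nat.Prime,
      Real.exp (1 / (p : ℝ) + 2 * (1 / (p : ℝ) ^ 2)) := by
    unfold Vi
    exact Finset.prod_le_prod
      (fun p hp => zero_le_one.trans (factor_one_le (mem_two hp)))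
      (fun p hp => factor_le (mem_two hp))
  rw [← Real.exp_sum, Finset.sum_add_distrib, ← Finset.mul_sum] at h1
  refine h1.trans (Real.exp_le_exp.2 ?_)
  have h2 : ∑ p ∈ (Icc 1 z).filter Nat.Prime, 1 / (p : ℝ) ^ 2 ≤
      ∑' n : ℕ, 1 / (n : ℝ) ^ 2 :=
    hsum.sum_le_tsum _ (fun n _ => by positivity)
  linarith

theorem Vi_le_log : ∃ A : ℝ, 0 < A ∧ ∀ z : ℕ, Vi z ≤ A * Real.log (max z 3 : ℕ) := by
  obtain ⟨C, hC⟩ := Pool.Agent.Helper256.KM.mertens_inv
  refine ⟨Real.exp (C + 2 * ∑' n : ℕ, 1 / (n : ℝ) ^ 2), Real.exp_pos _, fun z => ?_⟩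
  have h1 : Vi z ≤ Vi (max z 3) := Vi_mono (le_max_left _ _)
  have h2 := Vi_le_exp (max z 3)
  have h3 := hC (max z 3) (le_max_right _ _)
  have h4 := (abs_le.1 h3).2
  have hlog : 0 < Real.log ((max z 3 : ℕ) : ℝ) := by
    apply Real.log_pos
    have : (3 : ℕ) ≤ max z 3 := le_max_right _ _
    have h' : (3 : ℝ) ≤ ((max z 3 : ℕ) : ℝ) := by exact_mod_cast this
    linarith
  have h5 : Real.exp (∑ p ∈ (Icc 1 (max z 3)).filter Nat.Prime, 1 / (p : ℝ) +
      2 * ∑' n : ℕ, 1 / (n : ℝ) ^ 2) ≤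
      Real.exp ((C + 2 * ∑' n : ℕ, 1 / (n : ℝ) ^ 2) +
        Real.log (Real.log ((max z 3 : ℕ) : ℝ))) := by
    apply Real.exp_le_exp.2
    linarith
  have h6 : Real.exp ((C + 2 * ∑' n : ℕ, 1 / (n : ℝ) ^ 2) +
      Real.log (Real.log ((max z 3 : ℕ) : ℝ))) =
      Real.exp (C + 2 * ∑' n : ℕ, 1 / (n : ℝ) ^ 2) * Real.log ((max z 3 : ℕ) : ℝ) := by
    rw [Real.exp_add _ (Real.log _), Real.exp_log hlog]
  exact h1.trans (h2.trans (h5.trans h6.le))

end ViUaux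

open ViUaux in
theorem Vi_upper (E : ℕ) : ∃ x0 : ℕ, ∀ x : ℕ, x0 ≤ x → ∀ z : ℕ,
    (z : ℝ) ≤ Real.log x ^ E → 1 ≤ Vi z ∧ Vi z ≤ Real.log (Real.log x) ^ 2 ∧
      (∀ m : ℤ, 0 ≤ lz x z m) ∧ (∀ m : ℤ, lz x z m ≤ 2 * Real.log (Real.log x) ^ 2) := by
  obtain ⟨A, hA, hV⟩ := Vi_le_log
  have htend : Filter.Tendsto (fun x : ℕ => Real.log (Real.log (x : ℝ)))
      Filter.atTop Filter.atTop :=
    Real.tendsto_log_atTop.comp (Real.tendsto_log_atTop.comp tendsto_natCast_atTop_atTop)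
  obtain ⟨x0, hx0⟩ := Filter.eventually_atTop.1
    (htend.eventually_ge_atTop (max 1 (A * (E + 2))))
  obtain ⟨x1, hx1⟩ := Filter.eventually_atTop.1
    ((Real.tendsto_log_atTop.comp tendsto_natCast_atTop_atTop).eventually_ge_atTop
      (1 : ℝ) : ∀ᶠ x : ℕ in Filter.atTop, (1 : ℝ) ≤ (Real.log ∘ Nat.cast) x)
  refine ⟨max x0 x1, fun x hx z hz => ?_⟩
  have hxa := hx0 x (le_trans (le_max_left _ _) hx)
  have hxb : (1 : ℝ) ≤ Real.log x := hx1 x (le_trans (le_max_right _ _) hx)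
  have hL1 : 1 ≤ Real.log (Real.log x) := le_trans (le_max_left _ _) hxa
  have hL2 : A * (E + 2) ≤ Real.log (Real.log x) := le_trans (le_max_right _ _) hxa
  have hone := one_le_Vi z
  have hmax : Real.log ((max z 3 : ℕ) : ℝ) ≤ (E + 2) * Real.log (Real.log x) := by
    have h3 : Real.log 3 ≤ 2 := by
      have := Real.log_le_sub_one_of_pos (show (0 : ℝ) < 3 by norm_num)
      linarith
    rcases le_total z 3 with h | h
    · rw [max_eq_right h]
      have : Real.log ((3 : ℕ) : ℝ) ≤ 2 := by simpa using h3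
      nlinarith [(Nat.cast_nonneg E : (0 : ℝ) ≤ E)]
    · rw [max_eq_left h]
      have hz0 : (0 : ℝ) < z := by
        have : 0 < z := by omega
        exact_mod_cast this
      have h4 : Real.log (z : ℝ) ≤ Real.log (Real.log x ^ E) := Real.log_le_log hz0 hz
      rw [Real.log_pow] at h4
      nlinarith [(Nat.cast_nonneg E : (0 : ℝ) ≤ E)]
  have hup : Vi z ≤ Real.log (Real.log x) ^ 2 := by
    calc Vi z ≤ A * Real.log ((max z 3 : ℕ) : ℝ) := hV z
      _ ≤ A * ((E + 2) * Real.log (Real.log x)) := by gcongr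
      _ = (A * (E + 2)) * Real.log (Real.log x) := by ring
      _ ≤ Real.log (Real.log x) * Real.log (Real.log x) := by gcongr
      _ = Real.log (Real.log x) ^ 2 := by ring
  refine ⟨hone, hup, fun m => ?_, fun m => ?_⟩
  · unfold lz
    split_ifs with h
    · have hm : (2 : ℝ) ≤ (m : ℝ) := by exact_mod_cast h.1
      exact div_nonneg (by linarith) (Real.log_nonneg (by linarith))
    · exact le_rfl
  · unfold lz
    split_ifs with h
    · have hm : (2 : ℝ) ≤ (m : ℝ) := by exact_mod_cast h.1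
      have hl2 : (1 : ℝ) / 2 ≤ Real.log 2 := by
        have := Real.log_two_gt_d9
        linarith
      have hlm : (1 : ℝ) / 2 ≤ Real.log (m : ℝ) :=
        hl2.trans (Real.log_le_log (by norm_num) hm)
      rw [div_le_iff₀ (by linarith)]
      have h0 : (0 : ℝ) ≤ Real.log (Real.log x) ^ 2 := by positivity
      nlinarith
    · positivity

end Pool.Agent.H300R2.NB
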