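import Pool.Agent.H300R2.NB.Arcs
import Pool.Agent.H300R2.NB.Pars
import Pool.Agent.H300R2.NB.Star
import Pool.Agent.H300R2.NB.IpAP
import Pool.Agent.H300R2.NB.APF
import Pool.Agent.H300R2.NB.ViU
import Pool.Agent.H300R2.NB.Tele
import Pool.Agent.H300R2.NB.DzOk
import Pool.Agent.H300R2.NB.Master
import Pool.Agent.H300R2.NB.LzAPq

/-!
The second moment, assembled.
-/

namespace Pool.Agent.H300R2.NB

open Finset
open Pool.Agent.H300R2.BH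

theorem star_all : StarStmt := fun j hj E0 U =>
  star (fun j hj U => arcs j hj U) (fun j f x hf K A A0 T Bs W hW => pars j f x hf K A A0 T Bs W hW)
    j hj E0 U

theorem dz_all : DzStmt := fun E1 E3 E =>
  dz_ok_of (fun E1 E W => lz_ap E1 E W) (fun E1 W => ip_ap E1 W)
    (fun E1 E3 => ap_fourier E1 E3) (fun E => Vi_upper E) E1 E3 E

theorem master (r J E0 U : ℕ) : ∃ B Z : ℕ, ∀ E : ℕ, ∃ x0 : ℕ, ∀ x : ℕ, x0 ≤ x → ∀ z : ℕ,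
    ⌊Real.log x ^ Z⌋₊ ≤ z → (z : ℝ) ≤ Real.log x ^ E → ∀ K : ℕ, Real.log x ^ B ≤ K →
    ∀ j : Fin r → ℕ, (∀ i, 1 ≤ j i ∧ j i ≤ J) → ∀ A X : Fin r → ℕ,
    (∀ i, Real.log x ^ B ≤ A i ∧ (x : ℝ) ≤ A i * (K : ℝ) ^ (j i) * Real.log x ^ E0 ∧
      (x : ℝ) ≤ X i * Real.log x ^ E0) →
    ∀ (A0 B0 : Fin r → ℤ) (T : Fin r → ℕ → ℤ) (w : ℕ → ℂ), (∀ n, ‖w n‖ ≤ 1) →
    ∑ p ∈ Fintype.piFinset (fun i => Ioc (A0 i) (A0 i + A i) ×ˢ Ioc (B0 i) (B0 i + X i)),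
      ‖∑ n ∈ Icc 1 K, w n * ((∏ i, ip x (T i n + (p i).1 * (n : ℤ) ^ (j i) + (p i).2) -
        ∏ i, lz x z (T i n + (p i).1 * (n : ℤ) ^ (j i) + (p i).2) : ℝ) : ℂ)‖ ^ 2 ≤
    (∏ i, ((A i : ℝ) * X i)) * (K : ℝ) ^ 2 / Real.log x ^ U :=
  master_of star_all (fun E => Vi_upper E)
    (fun B K φ γ L M hL hφ hγ hM w hw => telescope B K φ γ L M hL hφ hγ hM w hw) dz_all r J E0 U

end Pool.Agent.H300R2.NB
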