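import Pool.Agent.H300R2.NB.Defs
import Pool.Agent.H724R2.BH_Count

/-!
S1: major arcs for the bilinear sum.
-/

namespace Pool.Agent.H300R2.NB

open Finset
open Pool.Agent.H442R2.EHI (nint)

namespace ArcsH

/-- the phase of a pair -/
noncomputable def xx (j : ℕ) (kk : ℕ × ℕ) : ℤ := ((kk.1 ^ j : ℕ) : ℤ) - ((kk.2 ^ j : ℕ) : ℤ)

/-- good pairs -/
noncomputable def gd (j K1 K : ℕ) (Δ α : ℝ) : Finset (ℕ × ℕ) :=
  (Ioc K1 K ×ˢ Ioc K1 K).filter (fun kk : ℕ × ℕ => nint ((xx j kk : ℝ) * α) ≤ Δ)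

lemma nint_nonneg (t : ℝ) : 0 ≤ nint t := abs_nonneg _

lemma mn_le_A (A t : ℝ) (ht : 0 ≤ t) : mn A t ≤ A := by
  unfold mn
  split_ifs with h
  · exact le_rfl
  · have h1 : 1 < A * (2 * t) := not_le.1 h
    have h2 : 0 < 2 * t := by
      by_contra hc
      have : 2 * t = 0 := le_antisymm (not_lt.1 hc) (by linarith)
      rw [this, mul_zero] at h1
      linarith
    rw [div_le_iff₀ h2]
    linarith

lemma mn_le_D (A t Δ : ℝ) (hA : 0 ≤ A) (hΔ : 0 < Δ) (ht : Δ < t) : mn A t ≤ 1 / (2 * Δ) := by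
  unfold mn
  have h0 : 0 < 2 * Δ := by linarith
  have h1 : 0 < 2 * t := by linarith
  split_ifs with h
  · rw [le_div_iff₀ h0]
    have : A * (2 * Δ) ≤ A * (2 * t) := mul_le_mul_of_nonneg_left (by linarith) hA
    linarith
  · exact one_div_le_one_div_of_le h0 (by linarith)

/-- splitting of the bilinear sum -/
lemma MM_le (j K K1 : ℕ) (A α Δ : ℝ) (hA : 0 ≤ A) (hΔ : 0 < Δ) :
    MM j K A α ≤ 2 * A * K * K1 + A * (gd j K1 K Δ α).card + K ^ 2 * (1 / (2 * Δ)) := by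
  classical
  have hpt : ∀ n ∈ Icc 1 K, ∀ n' ∈ Icc 1 K,
      mn A (nint (((((n ^ j : ℕ) : ℤ) - ((n' ^ j : ℕ) : ℤ) : ℤ) : ℝ) * α)) ≤
        (if n ≤ K1 then A else 0) + (if n' ≤ K1 then A else 0) +
          (if (n, n') ∈ gd j K1 K Δ α then A else 0) + 1 / (2 * Δ) := by
    intro n hn n' hn'
    have hD : 0 ≤ 1 / (2 * Δ) := by positivity
    have hle := mn_le_A A (nint (((((n ^ j : ℕ) : ℤ) - ((n' ^ j : ℕ) : ℤ) : ℤ) : ℝ) * α))
      (nint_nonneg _)
    have z1 : (0 : ℝ) ≤ if n ≤ K1 then A else 0 := by split_ifs <;> linarith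
    have z2 : (0 : ℝ) ≤ if n' ≤ K1 then A else 0 := by split_ifs <;> linarith
    have z3 : (0 : ℝ) ≤ if (n, n') ∈ gd j K1 K Δ α then A else 0 := by split_ifs <;> linarith
    by_cases h1 : n ≤ K1
    · rw [if_pos h1]; linarith
    by_cases h2 : n' ≤ K1
    · rw [if_pos h2]; linarith
    by_cases h3 : (n, n') ∈ gd j K1 K Δ α
    · rw [if_pos h3]; linarith
    · have h4 : Δ < nint (((((n ^ j : ℕ) : ℤ) - ((n' ^ j : ℕ) : ℤ) : ℤ) : ℝ) * α) := by
        by_contra hc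
        apply h3
        unfold gd
        rw [mem_filter, mem_product, mem_Ioc, mem_Ioc]
        rw [mem_Icc] at hn hn'
        exact ⟨⟨⟨not_le.1 h1, hn.2⟩, ⟨not_le.1 h2, hn'.2⟩⟩, not_lt.1 hc⟩
      have h5 := mn_le_D A _ Δ hA hΔ h4
      linarith
  have hc1 : ((Icc 1 K).card : ℝ) = K := by simp
  have hc2 : (((Icc 1 K).filter (fun n => n ≤ K1)).card : ℝ) ≤ K1 := by
    have : (Icc 1 K).filter (fun n => n ≤ K1) ⊆ Icc 1 K1 := by
      intro n hn
      rw [mem_filter, mem_Icc] at hn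
      rw [mem_Icc]
      exact ⟨hn.1.1, hn.2⟩
    have h := card_le_card this
    rw [Nat.card_Icc] at h
    have h' : ((Icc 1 K).filter (fun n => n ≤ K1)).card ≤ K1 := by omega
    exact_mod_cast h'
  have s1 : ∑ n ∈ Icc 1 K, (if n ≤ K1 then A else 0) ≤ A * K1 := by
    rw [← sum_filter, sum_const, nsmul_eq_mul, mul_comm]
    exact mul_le_mul_of_nonneg_left hc2 hA
  have s3 : ∑ n ∈ Icc 1 K, ∑ n' ∈ Icc 1 K, (if (n, n') ∈ gd j K1 K Δ α then A else 0) =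
      A * (gd j K1 K Δ α).card := by
    rw [← sum_product' (Icc 1 K) (Icc 1 K) (fun n n' => if (n, n') ∈ gd j K1 K Δ α then A else 0)]
    have : ∀ x : ℕ × ℕ, (if (x.1, x.2) ∈ gd j K1 K Δ α then A else 0) =
        if x ∈ gd j K1 K Δ α then A else 0 := fun x => rfl
    simp only [this]
    rw [← sum_filter, sum_const, nsmul_eq_mul, mul_comm]
    congr 2
    have : (Icc 1 K ×ˢ Icc 1 K).filter (fun x => x ∈ gd j K1 K Δ α) = gd j K1 K Δ α := by
      ext x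
      rw [mem_filter]
      refine ⟨fun h => h.2, fun h => ⟨?_, h⟩⟩
      unfold gd at h
      rw [mem_filter, mem_product, mem_Ioc, mem_Ioc] at h
      rw [mem_product, mem_Icc, mem_Icc]
      omega
    rw [this]
  calc MM j K A α ≤ ∑ n ∈ Icc 1 K, ∑ n' ∈ Icc 1 K, ((if n ≤ K1 then A else 0) +
          (if n' ≤ K1 then A else 0) + (if (n, n') ∈ gd j K1 K Δ α then A else 0) +
            1 / (2 * Δ)) := by
        unfold MM
        exact sum_le_sum fun n hn => sum_le_sum fun n' hn' => hpt n hn n' hn'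
    _ = K * ∑ n ∈ Icc 1 K, (if n ≤ K1 then A else 0) +
        K * ∑ n ∈ Icc 1 K, (if n ≤ K1 then A else 0) +
        A * (gd j K1 K Δ α).card + K ^ 2 * (1 / (2 * Δ)) := by
        simp only [sum_add_distrib, sum_const, nsmul_eq_mul, hc1, s3]
        rw [← mul_sum]
        ring
    _ ≤ K * (A * K1) + K * (A * K1) + A * (gd j K1 K Δ α).card + K ^ 2 * (1 / (2 * Δ)) := by
        have hK0 : (0 : ℝ) ≤ K := Nat.cast_nonneg _
        have := mul_le_mul_of_nonneg_left s1 hK0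
        linarith
    _ = 2 * A * K * K1 + A * (gd j K1 K Δ α).card + K ^ 2 * (1 / (2 * Δ)) := by ring

lemma pow_sub_ge (j : ℕ) (hj : 1 ≤ j) (a b P : ℝ) (hP : 0 ≤ P) (hPa : P ≤ a) (hab : a ≤ b) :
    (b - a) * P ^ (j - 1) ≤ b ^ j - a ^ j := by
  obtain ⟨i, rfl⟩ : ∃ i, j = i + 1 := ⟨j - 1, by omega⟩
  rw [Nat.add_sub_cancel, pow_succ, pow_succ]
  have ha : 0 ≤ a := hP.trans hPa
  have h1 : P ^ i ≤ a ^ i := pow_le_pow_left₀ hP hPa i
  have h2 : a ^ i ≤ b ^ i := pow_le_pow_left₀ ha hab i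
  have h3 : (b - a) * P ^ i ≤ (b - a) * a ^ i := mul_le_mul_of_nonneg_left h1 (by linarith)
  have h4 : a ^ i * b ≤ b ^ i * b := mul_le_mul_of_nonneg_right h2 (by linarith)
  nlinarith

/-- counting the `k` with `k^j β` in a short interval -/
lemma count_short (j : ℕ) (hj : 1 ≤ j) (K1 : ℕ) (hK1 : 1 ≤ K1) (β Δ : ℝ) (hβ : β ≠ 0)
    (hΔ : 0 ≤ Δ) (T : Finset ℕ) (hT : ∀ k ∈ T, K1 < k)
    (h : ∀ k ∈ T, ∀ k' ∈ T, |((k : ℝ) ^ j - (k' : ℝ) ^ j) * β| ≤ 2 * Δ) :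
    (T.card : ℝ) ≤ 2 * Δ / (|β| * (K1 : ℝ) ^ (j - 1)) + 1 := by
  have hβ0 : 0 < |β| := abs_pos.2 hβ
  have hK0 : (0 : ℝ) < K1 := by exact_mod_cast hK1
  have hP : 0 < |β| * (K1 : ℝ) ^ (j - 1) := by positivity
  rcases T.eq_empty_or_nonempty with hE | hE
  · rw [hE, card_empty]
    have : 0 ≤ 2 * Δ / (|β| * (K1 : ℝ) ^ (j - 1)) := by positivity
    push_cast
    linarith
  have hb := T.max'_mem hE
  have ha := T.min'_mem hE
  set b := T.max' hE with hbd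
  set a := T.min' hE with had
  have hab : a ≤ b := T.min'_le _ hb
  have hsub : T ⊆ Icc a b := fun k hk => mem_Icc.2 ⟨T.min'_le k hk, T.le_max' k hk⟩
  have hc := card_le_card hsub
  rw [Nat.card_Icc] at hc
  have hc' : (T.card : ℝ) ≤ (b : ℝ) - a + 1 := by
    have : T.card + a ≤ b + 1 := by omega
    have h2 : (T.card : ℝ) + a ≤ b + 1 := by exact_mod_cast this
    linarith
  have hab' : (a : ℝ) ≤ b := by exact_mod_cast hab
  have h1 := pow_sub_ge j hj (a : ℝ) (b : ℝ) (K1 : ℝ) hK0.le (by exact_mod_cast (hT a ha).le) hab'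
  have h2 := h b hb a ha
  rw [abs_mul] at h2
  have h3 : (0 : ℝ) ≤ (b : ℝ) ^ j - (a : ℝ) ^ j := by
    have := pow_le_pow_left₀ (Nat.cast_nonneg a) hab' j
    linarith
  rw [abs_of_nonneg h3] at h2
  have h4 : ((b : ℝ) - a) * (K1 : ℝ) ^ (j - 1) * |β| ≤ 2 * Δ :=
    (mul_le_mul_of_nonneg_right h1 hβ0.le).trans h2
  have h5 : (b : ℝ) - a ≤ 2 * Δ / (|β| * (K1 : ℝ) ^ (j - 1)) := by
    rw [le_div_iff₀ hP]
    linarith
  linarith

/-- counting good pairs when `α` is close to a rational -/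
lemma count_gd (j : ℕ) (hj : 1 ≤ j) (K1 K : ℕ) (hK1 : 1 ≤ K1) (Δ α : ℝ) (hΔ : 0 ≤ Δ) (q : ℕ)
    (hq : 1 ≤ q) (b : ℤ) (hβ : α - (b : ℝ) / q ≠ 0) (Y : ℝ)
    (hY : (q : ℝ) * (K ^ j * |α - (b : ℝ) / q| + Δ) ≤ Y) :
    ((gd j K1 K Δ α).card : ℝ) ≤
      (2 * Δ / (|α - (b : ℝ) / q| * (K1 : ℝ) ^ (j - 1)) + 1) * (K * (2 * Y + 1)) := by
  classical
  set β : ℝ := α - (b : ℝ) / q with hβd
  have hβ0 : 0 < |β| := abs_pos.2 hβ
  have hK0 : (0 : ℝ) < K1 := by exact_mod_cast hK1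
  have hq0 : (0 : ℝ) < q := by exact_mod_cast hq
  set X : ℝ := 2 * Δ / (|β| * (K1 : ℝ) ^ (j - 1)) + 1 with hX
  have hX0 : 0 ≤ X := by positivity
  have hY0 : 0 ≤ Y := le_trans (by positivity) hY
  -- the integer attached to a pair
  let mm : ℕ × ℕ → ℤ := fun kk => (q : ℤ) * round ((xx j kk : ℝ) * α) - xx j kk * b
  have hmm : ∀ kk, |(xx j kk : ℝ) * β - (mm kk : ℝ) / q| = nint ((xx j kk : ℝ) * α) := by
    intro kk
    unfold nint
    congr 1
    simp only [mm]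
    push_cast
    rw [hβd]
    field_simp
    ring
  have hxx : ∀ kk ∈ gd j K1 K Δ α, |(xx j kk : ℝ)| ≤ (K : ℝ) ^ j := by
    intro kk hk
    unfold gd at hk
    rw [mem_filter, mem_product, mem_Ioc, mem_Ioc] at hk
    have e1 : (kk.1 : ℝ) ^ j ≤ (K : ℝ) ^ j :=
      pow_le_pow_left₀ (Nat.cast_nonneg _) (by exact_mod_cast hk.1.1.2) j
    have e2 : (kk.2 : ℝ) ^ j ≤ (K : ℝ) ^ j :=
      pow_le_pow_left₀ (Nat.cast_nonneg _) (by exact_mod_cast hk.1.2.2) j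
    have e3 : (0 : ℝ) ≤ (kk.1 : ℝ) ^ j := by positivity
    have e4 : (0 : ℝ) ≤ (kk.2 : ℝ) ^ j := by positivity
    unfold xx
    push_cast
    rw [abs_le]
    constructor <;> linarith
  have hgood : ∀ kk ∈ gd j K1 K Δ α, nint ((xx j kk : ℝ) * α) ≤ Δ := by
    intro kk hk
    unfold gd at hk
    exact (mem_filter.1 hk).2
  -- range of the map
  set B : ℤ := ⌊Y⌋ with hB
  have hB0 : 0 ≤ B := Int.floor_nonneg.2 hY0
  have hmaps : ∀ kk ∈ gd j K1 K Δ α, ((kk.2, mm kk) : ℕ × ℤ) ∈ Icc 1 K ×ˢ Icc (-B) B := by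
    intro kk hk
    rw [mem_product, mem_Icc, mem_Icc]
    have hk' := hk
    unfold gd at hk'
    rw [mem_filter, mem_product, mem_Ioc, mem_Ioc] at hk'
    refine ⟨⟨by omega, hk'.1.2.2⟩, ?_⟩
    have h1 := hmm kk
    have h2 := hgood kk hk
    have h3 := hxx kk hk
    have h4 : |(mm kk : ℝ) / q| ≤ K ^ j * |β| + Δ := by
      have e1 : (mm kk : ℝ) / q = (xx j kk : ℝ) * β - ((xx j kk : ℝ) * β - (mm kk : ℝ) / q) := by
        ring
      rw [e1]
      refine (abs_sub _ _).trans ?_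
      rw [h1, abs_mul]
      have := mul_le_mul_of_nonneg_right h3 hβ0.le
      linarith
    have h5 : |(mm kk : ℝ)| ≤ Y := by
      rw [abs_div, abs_of_pos hq0, div_le_iff₀ hq0] at h4
      refine le_trans ?_ hY
      linarith
    rw [abs_le] at h5
    constructor
    · have : -(mm kk) ≤ B := Int.le_floor.2 (by push_cast; linarith [h5.1])
      omega
    · exact Int.le_floor.2 h5.2
  have hfib : ∀ c ∈ Icc 1 K ×ˢ Icc (-B) B,
      ((gd j K1 K Δ α).filter (fun kk => ((kk.2, mm kk) : ℕ × ℤ) = c)).card ≤ ⌊X⌋₊ := by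
    intro c _
    rw [Nat.le_floor_iff hX0]
    set S := (gd j K1 K Δ α).filter (fun kk => ((kk.2, mm kk) : ℕ × ℤ) = c) with hS
    have hinj : Set.InjOn Prod.fst (S : Set (ℕ × ℕ)) := by
      intro u hu v hv huv
      rw [mem_coe, hS, mem_filter] at hu hv
      have e1 : u.2 = c.1 := congrArg Prod.fst hu.2
      have e2 : v.2 = c.1 := congrArg Prod.fst hv.2
      exact Prod.ext huv (e1.trans e2.symm)
    rw [← card_image_of_injOn hinj]
    refine count_short j hj K1 hK1 β Δ hβ hΔ _ ?_ ?_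
    · intro k hk
      rw [mem_image] at hk
      obtain ⟨u, hu, rfl⟩ := hk
      rw [hS, mem_filter] at hu
      have := hu.1
      unfold gd at this
      rw [mem_filter, mem_product, mem_Ioc, mem_Ioc] at this
      exact this.1.1.1
    · intro k hk k' hk'
      rw [mem_image] at hk hk'
      obtain ⟨u, hu, rfl⟩ := hk
      obtain ⟨v, hv, rfl⟩ := hk'
      rw [hS, mem_filter] at hu hv
      have e1 : u.2 = v.2 := (congrArg Prod.fst hu.2).trans (congrArg Prod.fst hv.2).symm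
      have e2 : mm u = mm v := (congrArg Prod.snd hu.2).trans (congrArg Prod.snd hv.2).symm
      have h1 : |(xx j u : ℝ) * β - (mm u : ℝ) / q| ≤ Δ := (hmm u).trans_le (hgood u hu.1)
      have h2 : |(xx j v : ℝ) * β - (mm v : ℝ) / q| ≤ Δ := (hmm v).trans_le (hgood v hv.1)
      have h3 : ((u.1 : ℝ) ^ j - (v.1 : ℝ) ^ j) * β =
          ((xx j u : ℝ) * β - (mm u : ℝ) / q) - ((xx j v : ℝ) * β - (mm v : ℝ) / q) := by
        rw [e2]
        unfold xx
        rw [e1]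
        push_cast
        ring
      rw [h3]
      refine (abs_sub _ _).trans ?_
      linarith
  have hcard := card_le_mul_card_image_of_maps_to (f := fun kk => ((kk.2, mm kk) : ℕ × ℤ))
    (s := gd j K1 K Δ α) (t := Icc 1 K ×ˢ Icc (-B) B) hmaps ⌊X⌋₊ hfib
  have hct : ((Icc 1 K ×ˢ Icc (-B) B).card : ℝ) ≤ K * (2 * Y + 1) := by
    rw [card_product, Nat.card_Icc, Int.card_Icc, Nat.add_sub_cancel]
    push_cast
    have e2 : (((B + 1 - -B).toNat : ℕ) : ℝ) ≤ 2 * Y + 1 := by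
      have h1 : (((B + 1 - -B).toNat : ℕ) : ℤ) = 2 * B + 1 := by omega
      have h2 : (((B + 1 - -B).toNat : ℕ) : ℝ) = 2 * (B : ℝ) + 1 := by exact_mod_cast h1
      rw [h2]
      have : (B : ℝ) ≤ Y := Int.floor_le Y
      linarith
    have e3 : (0 : ℝ) ≤ K := Nat.cast_nonneg _
    exact mul_le_mul_of_nonneg_left e2 e3
  calc ((gd j K1 K Δ α).card : ℝ) ≤ ((⌊X⌋₊ * (Icc 1 K ×ˢ Icc (-B) B).card : ℕ) : ℝ) := by
        exact_mod_cast hcard
    _ = (⌊X⌋₊ : ℝ) * ((Icc 1 K ×ˢ Icc (-B) B).card : ℝ) := by push_cast; ring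
    _ ≤ X * (K * (2 * Y + 1)) :=
        mul_le_mul (Nat.floor_le hX0) hct (Nat.cast_nonneg _) hX0

end ArcsH

open ArcsH

/-- S1. Major arcs for the bilinear sum. -/
theorem arcs (j : ℕ) (hj : 1 ≤ j) (U : ℕ) : ∃ (E : ℕ) (L0 : ℝ), ∀ L : ℝ, L0 ≤ L →
    ∀ (K : ℕ) (A α : ℝ), L ^ E ≤ K → L ^ E ≤ A → A * (K : ℝ) ^ 2 / L ^ U < MM j K A α →
    ∃ q : ℕ, 1 ≤ q ∧ (q : ℝ) ≤ L ^ E ∧ ∃ b : ℤ, |α - (b : ℝ) / (q : ℝ)| ≤ L ^ E / (A * (K : ℝ) ^ j) := by
  obtain ⟨E', L0', hcount⟩ := Pool.Agent.H724R2.BH.count_inv j hj (U + 1) (U + 3)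
  refine ⟨2 * E' + 2 * U + 4 + (U + 3) * (j - 1), max L0' 20, ?_⟩
  intro L hL K A α hK hA hMM
  set E : ℕ := 2 * E' + 2 * U + 4 + (U + 3) * (j - 1) with hE
  have hL0' : L0' ≤ L := (le_max_left _ _).trans hL
  have hL20 : (20 : ℝ) ≤ L := (le_max_right _ _).trans hL
  have hL1 : (1 : ℝ) ≤ L := by linarith
  have hL0 : (0 : ℝ) < L := by linarith
  have hpm : ∀ {m n : ℕ}, m ≤ n → L ^ m ≤ L ^ n := fun h => pow_le_pow_right₀ hL1 h
  have hK0 : (0 : ℝ) < K := lt_of_lt_of_le (by positivity) hK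
  have hA0 : (0 : ℝ) < A := lt_of_lt_of_le (by positivity) hA
  -- choice of K1
  set K1 : ℕ := ⌊(K : ℝ) / L ^ (U + 2)⌋₊ with hK1d
  have hK1le : (K1 : ℝ) ≤ K / L ^ (U + 2) := Nat.floor_le (by positivity)
  have hK1ge : (K : ℝ) / L ^ (U + 2) < K1 + 1 := Nat.lt_floor_add_one _
  have hK1one : 1 ≤ K1 := by
    rw [hK1d, Nat.one_le_floor_iff, le_div_iff₀ (by positivity), one_mul]
    refine (hpm ?_).trans hK
    omega
  have hK1K : K1 ≤ K := by
    have : (K1 : ℝ) ≤ K := by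
      refine hK1le.trans ?_
      rw [div_le_iff₀ (by positivity)]
      have : (1 : ℝ) ≤ L ^ (U + 2) := one_le_pow₀ hL1
      nlinarith
    exact_mod_cast this
  have hK1r : (1 : ℝ) ≤ K1 := by exact_mod_cast hK1one
  have hKK1 : (K : ℝ) ≤ K1 * L ^ (U + 3) := by
    rw [div_lt_iff₀ (by positivity)] at hK1ge
    have e1 : ((K1 : ℝ) + 1) * L ^ (U + 2) ≤ (K1 * L) * L ^ (U + 2) := by
      apply mul_le_mul_of_nonneg_right _ (by positivity)
      nlinarith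
    have e2 : ((K1 : ℝ) * L) * L ^ (U + 2) = K1 * L ^ (U + 3) := by ring
    linarith
  -- choice of Δ
  set Δ : ℝ := L ^ (U + 1) / A with hΔd
  have hΔ0 : 0 < Δ := by positivity
  have hΔE : Δ * L ^ E' ≤ 1 := by
    rw [hΔd, div_mul_eq_mul_div, div_le_one hA0, ← pow_add]
    refine (hpm ?_).trans hA
    omega
  have hΔ1 : Δ ≤ 1 := by
    refine le_trans ?_ hΔE
    exact le_mul_of_one_le_right hΔ0.le (one_le_pow₀ hL1)
  -- many good pairs
  set G : ℝ := ((gd j K1 K Δ α).card : ℝ) with hG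
  have hsplit := MM_le j K K1 A α Δ hA0.le hΔ0
  have hLU : 0 < L ^ U := by positivity
  have hG1 : (K : ℝ) ^ 2 / L ^ (U + 1) < G := by
    have a1 : 2 * A * K * K1 ≤ A * K ^ 2 / (4 * L ^ U) := by
      have b1 : 2 * A * K * K1 ≤ 2 * A * K * (K / L ^ (U + 2)) :=
        mul_le_mul_of_nonneg_left hK1le (by positivity)
      refine b1.trans ?_
      rw [le_div_iff₀ (by positivity)]
      have b2 : 2 * A * K * (K / L ^ (U + 2)) * (4 * L ^ U) = A * K ^ 2 * (8 / L ^ 2) := by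
        rw [pow_add]
        field_simp
        ring
      rw [b2]
      have b3 : 8 / L ^ 2 ≤ 1 := by
        rw [div_le_one (by positivity)]
        nlinarith
      have b4 : 0 ≤ A * (K : ℝ) ^ 2 := by positivity
      nlinarith
    have a2 : (K : ℝ) ^ 2 * (1 / (2 * Δ)) ≤ A * K ^ 2 / (4 * L ^ U) := by
      rw [hΔd]
      rw [le_div_iff₀ (by positivity)]
      have b2 : (K : ℝ) ^ 2 * (1 / (2 * (L ^ (U + 1) / A))) * (4 * L ^ U) =
          A * K ^ 2 * (2 / L) := by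
        rw [pow_add]
        field_simp
        ring
      rw [b2]
      have b3 : 2 / L ≤ 1 := by
        rw [div_le_one (by positivity)]
        linarith
      have b4 : 0 ≤ A * (K : ℝ) ^ 2 := by positivity
      nlinarith
    have a3 : A * (K : ℝ) ^ 2 / L ^ U < A * K ^ 2 / (4 * L ^ U) + A * G +
        A * K ^ 2 / (4 * L ^ U) := by
      refine hMM.trans_le (hsplit.trans ?_)
      linarith
    have a4 : A * (K : ℝ) ^ 2 / (4 * L ^ U) = A * ((K : ℝ) ^ 2 / L ^ U) / 4 := by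
      field_simp
    have a5 : A * (K : ℝ) ^ 2 / L ^ U = A * ((K : ℝ) ^ 2 / L ^ U) := by
      field_simp
    rw [a4, a5] at a3
    have a6 : A * ((K : ℝ) ^ 2 / L ^ U / 2) < A * G := by linarith
    have a7 : (K : ℝ) ^ 2 / L ^ U / 2 < G := lt_of_mul_lt_mul_left a6 hA0.le
    refine lt_of_le_of_lt ?_ a7
    rw [div_div, pow_succ]
    apply div_le_div_of_nonneg_left (by positivity) (by positivity)
    exact mul_le_mul_of_nonneg_left (by linarith) hLU.le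
  have hKnat : 1 ≤ K := by
    have : (0 : ℝ) < K := hK0
    exact_mod_cast this
  obtain ⟨q, hq1, hqE, b, hb⟩ := hcount L hL0' K K1 hKnat hK1K hKK1 Δ α hΔ0.le hΔE hG1
  refine ⟨q, hq1, hqE.trans (hpm (by omega)), b, ?_⟩
  by_cases hβ : α - (b : ℝ) / q = 0
  · rw [hβ, abs_zero]
    positivity
  -- refine
  have hβ0 : 0 < |α - (b : ℝ) / q| := abs_pos.2 hβ
  have hY : (q : ℝ) * (K ^ j * |α - (b : ℝ) / q| + Δ) ≤ 2 * L ^ (2 * E') := by
    have e1 : (K : ℝ) ^ j * |α - (b : ℝ) / q| ≤ L ^ E' := by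
      have := mul_le_mul_of_nonneg_left hb (show (0 : ℝ) ≤ (K : ℝ) ^ j by positivity)
      refine this.trans (le_of_eq ?_)
      field_simp
    have e2 : (1 : ℝ) ≤ L ^ E' := one_le_pow₀ hL1
    have e3 : (K : ℝ) ^ j * |α - (b : ℝ) / q| + Δ ≤ 2 * L ^ E' := by linarith
    calc (q : ℝ) * (K ^ j * |α - (b : ℝ) / q| + Δ) ≤ L ^ E' * (2 * L ^ E') :=
          mul_le_mul hqE e3 (by positivity) (by positivity)
      _ = 2 * L ^ (2 * E') := by rw [two_mul E', pow_add]; ring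
  have hc := count_gd j hj K1 K hK1one Δ α hΔ0.le q hq1 b hβ _ hY
  set β : ℝ := |α - (b : ℝ) / q| with hβd
  set Y : ℝ := L ^ (2 * E') with hYd
  have hY1 : (1 : ℝ) ≤ Y := one_le_pow₀ hL1
  set P : ℝ := (K1 : ℝ) ^ (j - 1) with hPd
  have hP0 : 0 < P := by positivity
  have hc2 : (K : ℝ) ^ 2 / L ^ (U + 1) < (2 * Δ / (β * P) + 1) * (K * (5 * Y)) := by
    refine (hG1.trans_le hc).trans_le ?_
    apply mul_le_mul_of_nonneg_left _ (by positivity)
    apply mul_le_mul_of_nonneg_left _ hK0.le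
    linarith
  have hc3 : (K : ℝ) / L ^ (U + 1) < (2 * Δ / (β * P) + 1) * (5 * Y) := by
    have e1 : (K : ℝ) ^ 2 / L ^ (U + 1) = K * (K / L ^ (U + 1)) := by ring
    have e2 : (2 * Δ / (β * P) + 1) * (K * (5 * Y)) = K * ((2 * Δ / (β * P) + 1) * (5 * Y)) := by
      ring
    rw [e1, e2] at hc2
    exact lt_of_mul_lt_mul_left hc2 hK0.le
  have hc4 : 10 * Y ≤ (K : ℝ) / L ^ (U + 1) := by
    rw [le_div_iff₀ (by positivity)]
    refine le_trans ?_ hK
    calc 10 * Y * L ^ (U + 1) ≤ L * Y * L ^ (U + 1) := by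
          apply mul_le_mul_of_nonneg_right _ (by positivity)
          exact mul_le_mul_of_nonneg_right (by linarith) (by positivity)
      _ = L ^ (1 + 2 * E' + (U + 1)) := by rw [hYd]; ring
      _ ≤ L ^ E := hpm (by omega)
  have hc5 : (K : ℝ) / L ^ (U + 1) < 20 * Y * Δ / (β * P) := by
    have e1 : (2 * Δ / (β * P) + 1) * (5 * Y) = 10 * Y * Δ / (β * P) + 5 * Y := by ring
    have e2 : 20 * Y * Δ / (β * P) = 2 * (10 * Y * Δ / (β * P)) := by ring
    rw [e1] at hc3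
    rw [e2]
    linarith
  have hc6 : (K : ℝ) * (β * P) < 20 * Y * Δ * L ^ (U + 1) := by
    rw [div_lt_div_iff₀ (by positivity) (by positivity)] at hc5
    exact hc5
  have hc7 : (A : ℝ) * K * β * P ≤ 20 * Y * L ^ (2 * U + 2) := by
    have e1 : A * Δ = L ^ (U + 1) := by rw [hΔd, mul_comm, div_mul_cancel₀ _ hA0.ne']
    have e2 : A * (K * (β * P)) ≤ A * (20 * Y * Δ * L ^ (U + 1)) :=
      mul_le_mul_of_nonneg_left hc6.le hA0.le
    have e3 : A * (20 * Y * Δ * L ^ (U + 1)) = 20 * Y * (A * Δ) * L ^ (U + 1) := by ring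
    rw [e3, e1] at e2
    have e4 : 20 * Y * L ^ (U + 1) * L ^ (U + 1) = 20 * Y * L ^ (2 * U + 2) := by
      rw [show 2 * U + 2 = (U + 1) + (U + 1) by ring, pow_add]; ring
    linarith
  have hc8 : (K : ℝ) ^ (j - 1) ≤ P * L ^ ((U + 3) * (j - 1)) := by
    rw [hPd, pow_mul, ← mul_pow]
    exact pow_le_pow_left₀ hK0.le hKK1 _
  rw [le_div_iff₀ (by positivity)]
  obtain ⟨i, rfl⟩ : ∃ i, j = i + 1 := ⟨j - 1, by omega⟩
  rw [Nat.add_sub_cancel] at hc8 hE
  calc β * (A * (K : ℝ) ^ (i + 1)) = (A * K * β) * (K : ℝ) ^ i := by rw [pow_succ]; ring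
    _ ≤ (A * K * β) * (P * L ^ ((U + 3) * i)) :=
        mul_le_mul_of_nonneg_left hc8 (by positivity)
    _ = (A * K * β * P) * L ^ ((U + 3) * i) := by ring
    _ ≤ (20 * Y * L ^ (2 * U + 2)) * L ^ ((U + 3) * i) :=
        mul_le_mul_of_nonneg_right hc7 (by positivity)
    _ ≤ (L * Y * L ^ (2 * U + 2)) * L ^ ((U + 3) * i) := by
        apply mul_le_mul_of_nonneg_right _ (by positivity)
        apply mul_le_mul_of_nonneg_right _ (by positivity)
        exact mul_le_mul_of_nonneg_right hL20 (by positivity)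
    _ = L ^ (1 + 2 * E' + (2 * U + 2) + (U + 3) * i) := by
        rw [hYd]; ring
    _ ≤ L ^ E := by
        apply hpm
        rw [hE]
        omega

end Pool.Agent.H300R2.NB
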