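import Pool.Agent.H300R2.NB.Defs
import Pool.Agent.H20R2.EN.FLem

/-!
S22: fundamental lemma for sieved values of polynomials in short ranges.
-/

namespace Pool.Agent.H300R2.NB

open Finset Polynomial

namespace EvalShort

lemma Ico_count (M : ℕ) (P : ℕ → Prop) [DecidablePred P] (hP : ∀ n, P (n + M) ↔ P n) (t : ℕ) :
    ((Ico 1 (1 + M * t)).filter P).card = t * ((range M).filter P).card := by
  have hper : Function.Periodic P M := fun n => propext (hP n)
  induction t with
  | zero => simp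
  | succ t ih =>
    have h1 : Ico 1 (1 + M * (t + 1)) = Ico 1 (1 + M * t) ∪ Ico (1 + M * t) (1 + M * t + M) := by
      rw [Finset.Ico_union_Ico_eq_Ico (Nat.le_add_right _ _) (Nat.le_add_right _ _)]
      congr 1
      ring
    rw [h1, filter_union, card_union_of_disjoint
      (disjoint_filter_filter (Ico_disjoint_Ico_consecutive _ _ _)), ih,
      Nat.filter_Ico_card_eq_of_periodic _ _ _ hper, Nat.count_eq_card_filter_range]
    ring

lemma count_periodic (M : ℕ) (hM : 0 < M) (P : ℕ → Prop) [DecidablePred P]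
    (hP : ∀ n, P (n + M) ↔ P n) (y : ℕ) :
    |(((Icc 1 y).filter P).card : ℝ) - y * ((((range M).filter P).card : ℝ) / M)| ≤
      ((range M).filter P).card := by
  set N := ((range M).filter P).card with hN
  set t := y / M with ht
  have h1 : t * N ≤ ((Icc 1 y).filter P).card := by
    rw [hN, ← Ico_count M P hP t]
    apply card_le_card
    apply filter_subset_filter
    intro n hn
    rw [mem_Ico] at hn
    rw [mem_Icc]
    have h2 : M * t ≤ y := Nat.mul_div_le y M
    omega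
  have h2 : ((Icc 1 y).filter P).card ≤ (t + 1) * N := by
    rw [hN, ← Ico_count M P hP (t + 1)]
    apply card_le_card
    apply filter_subset_filter
    intro n hn
    rw [mem_Icc] at hn
    rw [mem_Ico]
    have h3 : y < M * (t + 1) := Nat.lt_mul_div_succ y hM
    omega
  have hM0 : (0 : ℝ) < M := by exact_mod_cast hM
  have h3 : (t : ℝ) * M ≤ y := by
    have : t * M ≤ y := Nat.div_mul_le_self y M
    exact_mod_cast this
  have h4 : (y : ℝ) ≤ (t + 1) * M := by
    have : y < M * (t + 1) := Nat.lt_mul_div_succ y hM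
    have h5 : y ≤ (t + 1) * M := by rw [mul_comm]; exact this.le
    exact_mod_cast h5
  have h1' : (t : ℝ) * N ≤ ((Icc 1 y).filter P).card := by exact_mod_cast h1
  have h2' : (((Icc 1 y).filter P).card : ℝ) ≤ (t + 1) * N := by exact_mod_cast h2
  have hN0 : (0 : ℝ) ≤ (N : ℝ) / M := by positivity
  have h5 : (t : ℝ) * N ≤ y * ((N : ℝ) / M) := by
    calc (t : ℝ) * N = (t * M) * ((N : ℝ) / M) := by field_simp
      _ ≤ _ := mul_le_mul_of_nonneg_right h3 hN0
  have h6 : y * ((N : ℝ) / M) ≤ (t + 1) * N := by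
    calc y * ((N : ℝ) / M) ≤ ((t + 1) * M) * ((N : ℝ) / M) := mul_le_mul_of_nonneg_right h4 hN0
      _ = (t + 1) * N := by field_simp
  rw [abs_le]
  constructor <;> nlinarith

lemma card_crt {m n : ℕ} (h : m.Coprime n) (hm : 0 < m) (hn : 0 < n) (P P1 P2 : ℕ → Prop)
    [DecidablePred P] [DecidablePred P1] [DecidablePred P2]
    (hP : ∀ a, P a ↔ (P1 (a % m) ∧ P2 (a % n))) :
    ((range (m * n)).filter P).card = ((range m).filter P1).card * ((range n).filter P2).card := by
  rw [← card_product]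
  apply Finset.card_bij (fun a _ => (a % m, a % n))
  · intro a ha
    obtain ⟨_, h2⟩ := mem_filter.mp ha
    obtain ⟨h3, h4⟩ := (hP a).mp h2
    exact mem_product.mpr ⟨mem_filter.mpr ⟨mem_range.mpr (Nat.mod_lt _ hm), h3⟩,
      mem_filter.mpr ⟨mem_range.mpr (Nat.mod_lt _ hn), h4⟩⟩
  · intro a ha b hb hab
    have ha1 := mem_range.mp (mem_filter.mp ha).1
    have hb1 := mem_range.mp (mem_filter.mp hb).1
    simp only [Prod.mk.injEq] at hab
    have h1 : a ≡ b [MOD m * n] := (Nat.modEq_and_modEq_iff_modEq_mul h).mp ⟨hab.1, hab.2⟩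
    exact Nat.ModEq.eq_of_lt_of_lt h1 ha1 hb1
  · rintro ⟨u, v⟩ huv
    obtain ⟨hu, hv⟩ := mem_product.mp huv
    obtain ⟨hu1, hu2⟩ := mem_filter.mp hu
    obtain ⟨hv1, hv2⟩ := mem_filter.mp hv
    obtain ⟨k, hk1, hk2⟩ := Nat.chineseRemainder h u v
    have e1 : k % (m * n) % m = u := by
      rw [Nat.mod_mul_right_mod]
      have := hk1
      unfold Nat.ModEq at this
      rw [this, Nat.mod_eq_of_lt (mem_range.mp hu1)]
    have e2 : k % (m * n) % n = v := by
      rw [Nat.mod_mul_left_mod]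
      have := hk2
      unfold Nat.ModEq at this
      rw [this, Nat.mod_eq_of_lt (mem_range.mp hv1)]
    refine ⟨k % (m * n), mem_filter.mpr ⟨mem_range.mpr (Nat.mod_lt _ (Nat.mul_pos hm hn)), ?_⟩, ?_⟩
    · rw [hP, e1, e2]
      exact ⟨hu2, hv2⟩
    · simp only [e1, e2]

open Classical in
lemma crt_prod (R : ℕ → ℕ → Prop) (Q : Finset ℕ) (hQ : ∀ p ∈ Q, p.Prime) :
    ((range (∏ p ∈ Q, p)).filter (fun c => ∀ p ∈ Q, R p (c % p))).card =
      ∏ p ∈ Q, ((range p).filter (R p)).card := by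
  induction Q using Finset.induction_on with
  | empty => simp
  | insert p T hp ih =>
    have hT' : ∀ q ∈ T, q.Prime := fun q hq => hQ q (mem_insert_of_mem hq)
    have hpp := hQ p (mem_insert_self _ _)
    rw [prod_insert hp, prod_insert hp, ← ih hT']
    apply card_crt
    · apply Nat.Coprime.prod_right
      intro q hq
      exact (Nat.coprime_primes hpp (hT' q hq)).mpr (fun h => hp (h ▸ hq))
    · exact hpp.pos
    · exact prod_pos fun q hq => (hT' q hq).pos
    · intro a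
      constructor
      · intro h
        refine ⟨h p (mem_insert_self _ _), fun q hq => ?_⟩
        rw [Nat.mod_mod_of_dvd _ (dvd_prod_of_mem _ hq)]
        exact h q (mem_insert_of_mem hq)
      · rintro ⟨h1, h2⟩ q hq
        rcases mem_insert.1 hq with rfl | hq
        · exact h1
        · have h3 := h2 q hq
          rw [Nat.mod_mod_of_dvd _ (dvd_prod_of_mem _ hq)] at h3
          exact h3

open Classical in
lemma int_count (R : ℕ → ℕ → Prop) (Q : Finset ℕ) (hQ : ∀ p ∈ Q, p.Prime) (y : ℕ) :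
    |(((Icc 1 y).filter (fun n => ∀ p ∈ Q, R p (n % p))).card : ℝ) -
      y * ∏ p ∈ Q, ((((range p).filter (R p)).card : ℝ) / p)| ≤
      ∏ p ∈ Q, (((range p).filter (R p)).card : ℝ) := by
  have hM : 0 < ∏ p ∈ Q, p := prod_pos fun q hq => (hQ q hq).pos
  have h := count_periodic (∏ p ∈ Q, p) hM (fun n => ∀ p ∈ Q, R p (n % p)) (by
    intro n
    refine forall₂_congr fun p hp => ?_
    obtain ⟨c, hc⟩ := dvd_prod_of_mem (fun p => p) hp
    rw [show n + ∏ p ∈ Q, p = n + p * c by rw [← hc], Nat.add_mul_mod_self_left]) y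
  rw [crt_prod R Q hQ] at h
  rw [prod_div_distrib]
  push_cast at h
  exact h

lemma dvd_congr (G : ℤ[X]) (p n : ℕ) :
    ((p : ℤ) ∣ G.eval (((n % p : ℕ)) : ℤ)) ↔ ((p : ℤ) ∣ G.eval (n : ℤ)) := by
  have h1 : (p : ℤ) ∣ (n : ℤ) - ((n % p : ℕ) : ℤ) :=
    (Nat.modEq_iff_dvd).mp (Nat.mod_modEq n p)
  have h2 : (p : ℤ) ∣ G.eval (n : ℤ) - G.eval ((n % p : ℕ) : ℤ) :=
    h1.trans (Polynomial.sub_dvd_eval_sub _ _ _)
  constructor
  · intro h3
    have := dvd_add h2 h3
    rwa [sub_add_cancel] at this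
  · intro h3
    have := dvd_sub h3 h2
    rwa [sub_sub_cancel] at this

theorem roots_le (g : ℤ[X]) (D p : ℕ) (hp : p.Prime) (hD : g.natDegree ≤ D)
    (hne : ∃ n : ℕ, ¬ (p : ℤ) ∣ g.eval (n : ℤ)) :
    ((range p).filter (fun n : ℕ => (p : ℤ) ∣ g.eval (n : ℤ))).card ≤ D := by
  classical
  have : Fact p.Prime := ⟨hp⟩
  set h : (ZMod p)[X] := g.map (Int.castRingHom (ZMod p)) with hh
  have hev : ∀ n : ℕ, h.eval ((n : ℕ) : ZMod p) = ((g.eval (n : ℤ) : ℤ) : ZMod p) := by
    intro n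
    rw [hh, eval_natCast_map]
    rfl
  have hiff : ∀ n : ℕ, (p : ℤ) ∣ g.eval (n : ℤ) ↔ h.eval ((n : ℕ) : ZMod p) = 0 := by
    intro n
    rw [hev, ZMod.intCast_zmod_eq_zero_iff_dvd]
  have h0 : h ≠ 0 := by
    intro h0
    obtain ⟨n, hn⟩ := hne
    apply hn
    rw [hiff, h0, eval_zero]
  have h1 : ((range p).filter (fun n : ℕ => (p : ℤ) ∣ g.eval (n : ℤ))).card ≤
      h.roots.toFinset.card := by
    apply card_le_card_of_injOn (fun n : ℕ => ((n : ℕ) : ZMod p))
    · intro n hn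
      rw [mem_coe, mem_filter] at hn
      rw [mem_coe, Multiset.mem_toFinset, mem_roots h0]
      exact (hiff n).1 hn.2
    · intro n hn m hm hnm
      rw [mem_coe, mem_filter, mem_range] at hn hm
      have := (ZMod.natCast_eq_natCast_iff' n m p).1 hnm
      rwa [Nat.mod_eq_of_lt hn.1, Nat.mod_eq_of_lt hm.1] at this
  refine h1.trans ((Multiset.toFinset_card_le _).trans ((card_roots' h).trans ?_))
  exact (natDegree_map_le).trans hD

theorem om_le {r : ℕ} (G : Fin r → ℤ[X]) (D p : ℕ) (hp : p.Prime)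
    (hD : ∀ i, (G i).natDegree ≤ D) (h : om G p < p) : om G p ≤ r * D := by
  classical
  have hne : ∀ i, ∃ n : ℕ, ¬ (p : ℤ) ∣ (G i).eval (n : ℤ) := by
    intro i
    by_contra hcon
    push Not at hcon
    have : om G p = p := by
      unfold om
      rw [filter_true_of_mem (fun n _ => ⟨i, hcon n⟩), card_range]
    omega
  have hsub : (range p).filter (fun n : ℕ => ∃ i, (p : ℤ) ∣ (G i).eval (n : ℤ)) ⊆
      (univ : Finset (Fin r)).biUnion
        (fun i => (range p).filter (fun n : ℕ => (p : ℤ) ∣ (G i).eval (n : ℤ))) := by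
    intro n hn
    rw [mem_filter] at hn
    obtain ⟨h1, i, hi⟩ := hn
    rw [mem_biUnion]
    exact ⟨i, mem_univ _, mem_filter.2 ⟨h1, hi⟩⟩
  unfold om
  refine (card_le_card hsub).trans (card_biUnion_le.trans ?_)
  calc ∑ i : Fin r, ((range p).filter (fun n : ℕ => (p : ℤ) ∣ (G i).eval (n : ℤ))).card
      ≤ ∑ _i : Fin r, D := sum_le_sum fun i _ => roots_le (G i) D p hp (hD i) (hne i)
    _ = r * D := by simp

/-- telescoping lower bound -/
lemma W_aux (k : ℕ) (v : ℕ → ℕ) (z : ℕ) (hv : ∀ p, p.Prime → p ≤ z → v p ≤ k ∧ v p < p) :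
    (((z - k).factorial : ℝ) / z.factorial) ≤
      ∏ p ∈ (Icc 1 z).filter Nat.Prime, (1 - (v p : ℝ) / p) := by
  induction z with
  | zero => simp
  | succ z ih =>
    have ih' := ih (fun p hp hpz => hv p hp (by omega))
    have h0 : (0 : ℝ) ≤ ((z - k).factorial : ℝ) / z.factorial := by positivity
    have hz1 : (0 : ℝ) < (z : ℝ) + 1 := by positivity
    -- step of the quotient
    have hstep : (((z + 1 - k).factorial : ℝ) / (z + 1).factorial) =
        ((z - k).factorial : ℝ) / z.factorial * (max ((z : ℝ) + 1 - k) 1 / (z + 1)) := by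
      have h1 : ((z + 1 - k).factorial : ℝ) = (z - k).factorial * max ((z : ℝ) + 1 - k) 1 := by
        rcases le_or_gt k z with h | h
        · have e1 : z + 1 - k = (z - k) + 1 := by omega
          have e2 : max ((z : ℝ) + 1 - k) 1 = (z : ℝ) + 1 - k := by
            apply max_eq_left
            have : (k : ℝ) ≤ z := by exact_mod_cast h
            linarith
          rw [e1, Nat.factorial_succ, e2]
          push_cast [Nat.cast_sub h]
          ring
        · have e1 : z + 1 - k = 0 := by omega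
          have e2 : z - k = 0 := by omega
          have e3 : max ((z : ℝ) + 1 - k) 1 = 1 := by
            apply max_eq_right
            have : (z : ℝ) + 1 ≤ k := by exact_mod_cast h
            linarith
          rw [e1, e2, e3]
          simp
      rw [h1, Nat.factorial_succ]
      have hz2 : (z.factorial : ℝ) ≠ 0 := by exact_mod_cast z.factorial_ne_zero
      push_cast
      field_simp
    by_cases hp : (z + 1).Prime
    · have hset : (Icc 1 (z + 1)).filter Nat.Prime =
          insert (z + 1) ((Icc 1 z).filter Nat.Prime) := by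
        ext n
        simp only [mem_filter, mem_Icc, mem_insert]
        constructor
        · rintro ⟨⟨h1, h2⟩, h3⟩
          rcases Nat.lt_or_ge n (z + 1) with h4 | h4
          · exact Or.inr ⟨⟨h1, by omega⟩, h3⟩
          · exact Or.inl (by omega)
        · rintro (rfl | ⟨⟨h1, h2⟩, h3⟩)
          · exact ⟨⟨by omega, le_rfl⟩, hp⟩
          · exact ⟨⟨h1, by omega⟩, h3⟩
      rw [hset, prod_insert (by simp), hstep, mul_comm]
      obtain ⟨hv1, hv2⟩ := hv (z + 1) hp le_rfl
      have hfac : max ((z : ℝ) + 1 - k) 1 / (z + 1) ≤ 1 - (v (z + 1) : ℝ) / ((z + 1 : ℕ) : ℝ) := by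
        push_cast
        rw [div_le_iff₀ hz1, sub_mul, one_mul, div_mul_cancel₀ _ hz1.ne']
        apply max_le
        · have : (v (z + 1) : ℝ) ≤ k := by exact_mod_cast hv1
          linarith
        · have : (v (z + 1) : ℝ) + 1 ≤ (z : ℝ) + 1 := by exact_mod_cast hv2
          linarith
      have hfac0 : 0 ≤ max ((z : ℝ) + 1 - k) 1 / (z + 1) := by positivity
      exact mul_le_mul hfac ih' h0 (hfac0.trans hfac)
    · have hset : (Icc 1 (z + 1)).filter Nat.Prime = (Icc 1 z).filter Nat.Prime := by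
        ext n
        simp only [mem_filter, mem_Icc]
        constructor
        · rintro ⟨⟨h1, h2⟩, h3⟩
          refine ⟨⟨h1, ?_⟩, h3⟩
          have : n ≠ z + 1 := fun h => hp (h ▸ h3)
          omega
        · rintro ⟨⟨h1, h2⟩, h3⟩
          exact ⟨⟨h1, by omega⟩, h3⟩
      rw [hset, hstep]
      refine le_trans ?_ ih'
      apply mul_le_of_le_one_right h0
      rw [div_le_one hz1]
      apply max_le
      · have : (0 : ℝ) ≤ k := by positivity
        linarith
      · have : (0 : ℝ) ≤ z := by positivity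
        linarith

lemma W_low (k : ℕ) (v : ℕ → ℕ) (z : ℕ) (hz : 1 ≤ z)
    (hv : ∀ p, p.Prime → p ≤ z → v p ≤ k ∧ v p < p) :
    (1 : ℝ) / (z : ℝ) ^ k ≤ ∏ p ∈ (Icc 1 z).filter Nat.Prime, (1 - (v p : ℝ) / p) := by
  refine le_trans ?_ (W_aux k v z hv)
  have hz0 : (0 : ℝ) < z := by exact_mod_cast hz
  have hf : (0 : ℝ) < z.factorial := by exact_mod_cast z.factorial_pos
  rw [div_le_div_iff₀ (by positivity) hf, one_mul]
  have h : z.factorial ≤ (z - k).factorial * z ^ k := by
    rcases le_or_gt k z with h | h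
    · rw [← Nat.factorial_mul_descFactorial h]
      exact Nat.mul_le_mul_left _ (Nat.descFactorial_le_pow z k)
    · calc z.factorial ≤ z ^ z := Nat.factorial_le_pow z
        _ ≤ z ^ k := Nat.pow_le_pow_right hz h.le
        _ ≤ (z - k).factorial * z ^ k := Nat.le_mul_of_pos_left _ (Nat.factorial_pos _)
  exact_mod_cast h

/-- the number of sets of primes with small product -/
lemma card_sets (P : Finset ℕ) (hP : ∀ p ∈ P, p.Prime) (Y : ℕ) :
    (P.powerset.filter (fun T : Finset ℕ => ∏ p ∈ T, p ≤ Y)).card ≤ Y := by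
  have h : (P.powerset.filter (fun T : Finset ℕ => ∏ p ∈ T, p ≤ Y)).card ≤ (Icc 1 Y).card := by
    apply card_le_card_of_injOn (fun T : Finset ℕ => ∏ p ∈ T, p)
    · intro T hT
      rw [mem_coe, mem_filter, mem_powerset] at hT
      rw [mem_coe, mem_Icc]
      exact ⟨prod_pos fun q hq => (hP q (hT.1 hq)).pos, hT.2⟩
    · intro T hT T' hT' h
      rw [mem_coe, mem_filter, mem_powerset] at hT hT'
      have h1 := Nat.primeFactors_prod (s := T) (fun q hq => hP q (hT.1 hq))
      have h2 := Nat.primeFactors_prod (s := T') (fun q hq => hP q (hT'.1 hq))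
      simp only at h
      rw [← h1, ← h2, h]
  simpa using h

/-- choice of `J` -/
lemma exists_J (z : ℕ) (hz : 2 ≤ z) : ∃ J : ℕ, z ≤ 2 ^ 2 ^ J ∧ 2 ^ 2 ^ J ≤ z ^ 2 := by
  have h : ∃ J : ℕ, z ≤ 2 ^ 2 ^ J := by
    refine ⟨z, ?_⟩
    calc z ≤ 2 ^ z := (Nat.lt_two_pow_self).le
      _ ≤ 2 ^ 2 ^ z := Nat.pow_le_pow_right (by norm_num) (Nat.lt_two_pow_self).le
  classical
  refine ⟨Nat.find h, Nat.find_spec h, ?_⟩
  rcases Nat.eq_zero_or_pos (Nat.find h) with h0 | h0
  · rw [h0]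
    have h3 : 2 ^ 2 ^ 0 = 2 := by norm_num
    rw [h3]
    nlinarith
  · have h1 := Nat.find_min h (m := Nat.find h - 1) (by omega)
    push Not at h1
    have h2 : 2 ^ 2 ^ Nat.find h = (2 ^ 2 ^ (Nat.find h - 1)) ^ 2 := by
      rw [← pow_mul]
      congr 1
      rw [← pow_succ]
      congr 1
      omega
    rw [h2]
    exact Nat.pow_le_pow_left h1.le 2

end EvalShort

open Classical EvalShort in
/-- S22. Fundamental lemma for sieved values of polynomials in short ranges. -/
theorem eval_short (r D : ℕ) : ∃ C1 : ℕ, 1 ≤ C1 ∧ ∀ b z K : ℕ, C1 ≤ b → 2 ≤ z →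
    z ^ (C1 * b) ≤ K → ∀ F : Fin r → ℤ[X], (∀ i, (F i).natDegree ≤ D) → ∀ y : ℕ, y ≤ K →
    |(((Icc 1 y).filter (fun n : ℕ => ∀ i, Rough z ((F i).eval (n : ℤ)))).card : ℝ) -
      y * ∏ p ∈ (Icc 1 z).filter Nat.Prime, (1 - (om F p : ℝ) / p)| ≤
      C1 * (1 / 2) ^ b * K * ∏ p ∈ (Icc 1 z).filter Nat.Prime, (1 - (om F p : ℝ) / p) := by
  obtain ⟨C0, hC0, hFL⟩ := Pool.Agent.H20R2.fLem (r * D)
  set P0 : ℕ := ∏ p ∈ (Icc 1 C0).filter Nat.Prime, p with hP0
  set k := r * D with hk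
  have hP0pos : 0 < P0 := by
    rw [hP0]
    exact prod_pos fun p hp => (mem_filter.1 hp).2.pos
  refine ⟨P0 + (4 * C0 + 4 + k), by omega, ?_⟩
  intro b z K hb hz hK F hF y hy
  set C1 : ℕ := P0 + (4 * C0 + 4 + k) with hC1
  set PZ := (Icc 1 z).filter Nat.Prime with hPZ
  set W : ℝ := ∏ p ∈ PZ, (1 - (om F p : ℝ) / p) with hW
  have hPZp : ∀ p ∈ PZ, p.Prime ∧ p ≤ z := by
    intro p hp
    obtain ⟨h1, h2⟩ := mem_filter.1 hp
    exact ⟨h2, (mem_Icc.1 h1).2⟩
  have homp : ∀ p, om F p ≤ p := by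
    intro p
    unfold om
    exact (card_filter_le _ _).trans (card_range p).le
  by_cases hbad : ∃ p ∈ PZ, om F p = p
  · obtain ⟨p, hp, hop⟩ := hbad
    obtain ⟨hpp, hpz⟩ := hPZp p hp
    have hW0 : W = 0 := by
      rw [hW]
      apply prod_eq_zero hp
      rw [hop, div_self, sub_self]
      exact_mod_cast hpp.ne_zero
    have hcount : (Icc 1 y).filter (fun n : ℕ => ∀ i, Rough z ((F i).eval (n : ℤ))) = ∅ := by
      rw [filter_eq_empty_iff]
      intro n _ hn
      have hfull : (range p).filter (fun n : ℕ => ∃ i, (p : ℤ) ∣ (F i).eval (n : ℤ)) = range p := by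
        apply eq_of_subset_of_card_le (filter_subset _ _)
        rw [card_range]
        have : om F p = ((range p).filter
          (fun n : ℕ => ∃ i, (p : ℤ) ∣ (F i).eval (n : ℤ))).card := rfl
        omega
      have h1 : n % p ∈ (range p).filter (fun n : ℕ => ∃ i, (p : ℤ) ∣ (F i).eval (n : ℤ)) := by
        rw [hfull]
        exact mem_range.2 (Nat.mod_lt _ hpp.pos)
      obtain ⟨_, i, hi⟩ := mem_filter.1 h1
      exact hn i p hpp hpz ((EvalShort.dvd_congr (F i) p n).1 hi)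
    rw [hcount, hW0]
    simp
  push Not at hbad
  have hlt : ∀ p ∈ PZ, om F p < p := fun p hp => lt_of_le_of_ne (homp p) (hbad p hp)
  have hok : ∀ p ∈ PZ, om F p ≤ k := fun p hp =>
    EvalShort.om_le F D p (hPZp p hp).1 hF (hlt p hp)
  have hWlow : 1 / (z : ℝ) ^ k ≤ W := by
    refine W_low k (om F) z (by omega) fun p hp hpz => ?_
    have hm : p ∈ PZ := mem_filter.2 ⟨mem_Icc.2 ⟨hp.pos, hpz⟩, hp⟩
    exact ⟨hok p hm, hlt p hm⟩
  have hz0 : (0 : ℝ) < z := by exact_mod_cast (by omega : 0 < z)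
  have hWpos : 0 < W := lt_of_lt_of_le (by positivity) hWlow
  obtain ⟨J, hJ1, hJ2⟩ := exists_J z hz
  set Q0 := PZ.filter (fun p => p ≤ C0) with hQ0
  set PP := PZ.filter (fun p => ¬ p ≤ C0) with hPP
  have hWs : (∏ p ∈ Q0, (1 - (om F p : ℝ) / p)) * (∏ p ∈ PP, (1 - (om F p : ℝ) / p)) = W :=
    prod_filter_mul_prod_filter_not PZ _ _
  obtain ⟨hit, hhit⟩ : ∃ hit : ℕ → ℕ → Prop,
      ∀ p n, hit p n ↔ ∃ i, (p : ℤ) ∣ (F i).eval (n : ℤ) := ⟨_, fun _ _ => Iff.rfl⟩
  have hitmod : ∀ p n, hit p (n % p) ↔ hit p n := fun p n => by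
    rw [hhit, hhit]
    exact exists_congr fun i => EvalShort.dvd_congr (F i) p n
  have hom : ∀ p, om F p = ((range p).filter (hit p)).card := by
    intro p
    unfold om
    congr 1
    ext n
    simp only [mem_filter, hhit]
  set Ω := (Icc 1 y).filter (fun n => ∀ p ∈ Q0, ¬ hit p n) with hΩ
  set A : ℝ := y * ∏ p ∈ Q0, (1 - (om F p : ℝ) / p) with hA
  have hf01 : ∀ p ∈ PZ, 0 ≤ 1 - (om F p : ℝ) / p := by
    intro p hp
    have hp0 : (0 : ℝ) < p := by exact_mod_cast (hPZp p hp).1.pos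
    rw [sub_nonneg, div_le_one hp0]
    exact_mod_cast homp p
  have hA0 : 0 ≤ A := by
    apply mul_nonneg (by positivity)
    exact prod_nonneg fun p hp => hf01 p (mem_filter.1 hp).1
  have hmain := hFL b J C0 PP (fun p => (om F p : ℝ) / p) (by omega) le_rfl
    (by
      intro p hp
      obtain ⟨h1, h2⟩ := mem_filter.1 hp
      exact ⟨(hPZp p h1).1, by omega, (hPZp p h1).2.trans hJ1⟩)
    (by
      intro p hp
      obtain ⟨h1, h2⟩ := mem_filter.1 hp
      have hp2 : (2 : ℝ) ≤ p := by exact_mod_cast (hPZp p h1).1.two_le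
      refine ⟨by positivity, ?_⟩
      have h3 : (om F p : ℝ) ≤ ((r * D : ℕ) : ℝ) := by exact_mod_cast hok p h1
      exact div_le_div₀ (by positivity) h3 (by linarith) (by linarith))
    Ω (fun _ => 1) hit A (fun T => (P0 : ℝ) * ∏ p ∈ T, (p : ℝ)) (fun _ _ => zero_le_one) hA0
    (by
      intro T hT _
      have hTp : ∀ p ∈ T, p.Prime ∧ ¬ p ≤ C0 := by
        intro p hp
        obtain ⟨h1, h2⟩ := mem_filter.1 (hT hp)
        exact ⟨(hPZp p h1).1, h2⟩
      have hQp : ∀ p ∈ Q0, p.Prime ∧ p ≤ C0 := by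
        intro p hp
        obtain ⟨h1, h2⟩ := mem_filter.1 hp
        exact ⟨(hPZp p h1).1, h2⟩
      have hdis : Disjoint Q0 T := by
        rw [Finset.disjoint_left]
        intro p h1 h2
        exact (hTp p h2).2 (hQp p h1).2
      obtain ⟨R, hR⟩ : ∃ R : ℕ → ℕ → Prop,
          ∀ p n, R p n ↔ (if p ≤ C0 then ¬ hit p n else hit p n) := ⟨_, fun _ _ => Iff.rfl⟩
      have hR1 : ∀ p ≤ C0, ∀ n, R p n ↔ ¬ hit p n := fun p hp n => by rw [hR, if_pos hp]
      have hR2 : ∀ p, ¬ p ≤ C0 → ∀ n, (R p n ↔ hit p n) := fun p hp n => by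
        rw [hR, if_neg hp]
      have hic := int_count R (Q0 ∪ T) (by
        intro p hp
        rcases mem_union.1 hp with h | h
        · exact (hQp p h).1
        · exact (hTp p h).1) y
      have hset : Ω.filter (fun m => ∀ p ∈ T, hit p m) =
          (Icc 1 y).filter (fun n => ∀ p ∈ Q0 ∪ T, R p (n % p)) := by
        rw [hΩ, filter_filter]
        apply filter_congr
        intro n _
        constructor
        · rintro ⟨h1, h2⟩ p hp
          rcases mem_union.1 hp with h | h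
          · rw [hR1 p (hQp p h).2, hitmod]
            exact h1 p h
          · rw [hR2 p (hTp p h).2, hitmod]
            exact h2 p h
        · intro h
          refine ⟨fun p hp => ?_, fun p hp => ?_⟩
          · have h1 := h p (mem_union_left _ hp)
            rw [hR1 p (hQp p hp).2, hitmod] at h1
            exact h1
          · have h1 := h p (mem_union_right _ hp)
            rw [hR2 p (hTp p hp).2, hitmod] at h1
            exact h1
      have hcQ : ∀ p ∈ Q0, ((((range p).filter (R p)).card : ℝ)) = p - om F p := by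
        intro p hp
        have h1 : (range p).filter (R p) = (range p).filter (fun n => ¬ hit p n) :=
          filter_congr fun n _ => hR1 p (hQp p hp).2 n
        have h2 := card_filter_add_card_filter_not (s := range p) (hit p)
        rw [card_range, ← hom p] at h2
        rw [h1]
        have h3 : (om F p : ℝ) + (((range p).filter (fun n => ¬ hit p n)).card : ℝ) = p := by
          exact_mod_cast h2
        linarith
      have hcT : ∀ p ∈ T, ((((range p).filter (R p)).card : ℝ)) = om F p := by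
        intro p hp
        have h1 : (range p).filter (R p) = (range p).filter (hit p) :=
          filter_congr fun n _ => hR2 p (hTp p hp).2 n
        rw [h1, hom p]
      have hprod : ∏ p ∈ Q0 ∪ T, ((((range p).filter (R p)).card : ℝ) / p) =
          (∏ p ∈ Q0, (1 - (om F p : ℝ) / p)) * ∏ p ∈ T, ((om F p : ℝ) / p) := by
        rw [prod_union hdis]
        congr 1
        · refine prod_congr rfl fun p hp => ?_
          have hp0 : (p : ℝ) ≠ 0 := by exact_mod_cast (hQp p hp).1.ne_zero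
          rw [hcQ p hp, sub_div, div_self hp0]
        · refine prod_congr rfl fun p hp => ?_
          rw [hcT p hp]
      have hbd : ∏ p ∈ Q0 ∪ T, (((range p).filter (R p)).card : ℝ) ≤
          (P0 : ℝ) * ∏ p ∈ T, (p : ℝ) := by
        rw [prod_union hdis]
        have h1 : ∏ p ∈ Q0, (((range p).filter (R p)).card : ℝ) ≤ (P0 : ℝ) := by
          have h2 : ∏ p ∈ Q0, (((range p).filter (R p)).card : ℝ) ≤ ∏ p ∈ Q0, (p : ℝ) := by
            refine prod_le_prod (fun _ _ => by positivity) fun p _ => ?_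
            exact_mod_cast (card_filter_le _ _).trans (card_range p).le
          have h3 : ∏ p ∈ Q0, p ≤ P0 := by
            rw [hP0]
            apply prod_le_prod_of_subset_of_one_le'
            · intro p hp
              obtain ⟨h4, h5⟩ := hQp p hp
              exact mem_filter.2 ⟨mem_Icc.2 ⟨h4.pos, h5⟩, h4⟩
            · intro p hp _
              exact (mem_filter.1 hp).2.pos
          have h4 : ∏ p ∈ Q0, (p : ℝ) ≤ (P0 : ℝ) := by
            have h5 : ((∏ p ∈ Q0, p : ℕ) : ℝ) ≤ (P0 : ℝ) := Nat.cast_le.2 h3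
            rw [Nat.cast_prod] at h5
            exact h5
          exact h2.trans h4
        have h2 : ∏ p ∈ T, (((range p).filter (R p)).card : ℝ) ≤ ∏ p ∈ T, (p : ℝ) := by
          refine prod_le_prod (fun _ _ => by positivity) fun p _ => ?_
          exact_mod_cast (card_filter_le _ _).trans (card_range p).le
        exact mul_le_mul h1 h2 (prod_nonneg fun _ _ => by positivity) (by positivity)
      rw [hset, sum_const, nsmul_eq_mul, mul_one, hA, mul_assoc, ← hprod]
      exact hic.trans hbd)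
  -- the sifted set
  have hsift : ((Icc 1 y).filter (fun n : ℕ => ∀ i, Rough z ((F i).eval (n : ℤ)))) =
      Ω.filter (fun m => ∀ p ∈ PP, ¬ hit p m) := by
    rw [hΩ, filter_filter]
    apply filter_congr
    intro n _
    constructor
    · intro h
      have h1 : ∀ p ∈ PZ, ¬ hit p n := by
        intro p hp hh
        obtain ⟨i, hi⟩ := (hhit p n).1 hh
        exact h i p (hPZp p hp).1 (hPZp p hp).2 hi
      exact ⟨fun p hp => h1 p (mem_filter.1 hp).1, fun p hp => h1 p (mem_filter.1 hp).1⟩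
    · rintro ⟨h1, h2⟩ i p hp hpz hd
      have hm : p ∈ PZ := mem_filter.2 ⟨mem_Icc.2 ⟨hp.pos, hpz⟩, hp⟩
      by_cases h : p ≤ C0
      · exact h1 p (mem_filter.2 ⟨hm, h⟩) ((hhit p n).2 ⟨i, hd⟩)
      · exact h2 p (mem_filter.2 ⟨hm, h⟩) ((hhit p n).2 ⟨i, hd⟩)
  have hAP : A * ∏ p ∈ PP, (1 - (om F p : ℝ) / p) = y * W := by
    rw [hA, mul_assoc, hWs]
  rw [sum_const, nsmul_eq_mul, mul_one, hAP, ← hsift] at hmain
  refine hmain.trans ?_
  -- the error term
  set Y : ℕ := (2 ^ 2 ^ J) ^ (C0 * b) with hY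
  have hPPp : ∀ p ∈ PP, p.Prime := fun p hp => (hPZp p (mem_filter.1 hp).1).1
  have hsum : ∑ T ∈ PP.powerset.filter (fun T : Finset ℕ => ∏ p ∈ T, p ≤ Y),
      (P0 : ℝ) * ∏ p ∈ T, (p : ℝ) ≤ (P0 : ℝ) * (Y : ℝ) ^ 2 := by
    calc ∑ T ∈ PP.powerset.filter (fun T : Finset ℕ => ∏ p ∈ T, p ≤ Y),
        (P0 : ℝ) * ∏ p ∈ T, (p : ℝ)
        ≤ ∑ T ∈ PP.powerset.filter (fun T : Finset ℕ => ∏ p ∈ T, p ≤ Y), (P0 : ℝ) * Y := by
          refine sum_le_sum fun T hT => ?_
          refine mul_le_mul_of_nonneg_left ?_ (by positivity)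
          have h5 : ((∏ p ∈ T, p : ℕ) : ℝ) ≤ (Y : ℝ) := Nat.cast_le.2 (mem_filter.1 hT).2
          rw [Nat.cast_prod] at h5
          exact h5
      _ = ((PP.powerset.filter (fun T : Finset ℕ => ∏ p ∈ T, p ≤ Y)).card : ℝ) *
          ((P0 : ℝ) * Y) := by rw [sum_const, nsmul_eq_mul]
      _ ≤ (Y : ℝ) * ((P0 : ℝ) * Y) := by
          refine mul_le_mul_of_nonneg_right ?_ (by positivity)
          exact_mod_cast card_sets PP hPPp Y
      _ = (P0 : ℝ) * (Y : ℝ) ^ 2 := by ring
  have hYz : (Y : ℝ) ≤ (z : ℝ) ^ (2 * (C0 * b)) := by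
    have h1 : Y ≤ (z ^ 2) ^ (C0 * b) := Nat.pow_le_pow_left hJ2 _
    rw [← pow_mul] at h1
    exact_mod_cast h1
  have hJz : (J : ℝ) + 2 ≤ (z : ℝ) ^ 2 := by
    have h1 : J + 2 ≤ 2 ^ 2 ^ J := by
      have h2 : J + 1 ≤ 2 ^ J := Nat.lt_two_pow_self
      calc J + 2 ≤ 2 ^ J + 1 := by omega
        _ ≤ 2 ^ 2 ^ J := Nat.lt_two_pow_self
    have h3 : J + 2 ≤ z ^ 2 := h1.trans hJ2
    exact_mod_cast h3
  have hz1 : (1 : ℝ) ≤ z := by exact_mod_cast (by omega : 1 ≤ z)
  have hz2 : (2 : ℝ) ≤ z := by exact_mod_cast hz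
  have hKr : (z : ℝ) ^ (C1 * b) ≤ K := by exact_mod_cast hK
  have herr : ((J : ℝ) + 2) * ((P0 : ℝ) * (Y : ℝ) ^ 2) ≤ P0 * ((1 / 2) ^ b * K * W) := by
    have h1 : ((J : ℝ) + 2) * ((P0 : ℝ) * (Y : ℝ) ^ 2) ≤
        P0 * (z : ℝ) ^ (2 + 2 * (C0 * b) * 2) := by
      calc ((J : ℝ) + 2) * ((P0 : ℝ) * (Y : ℝ) ^ 2)
          ≤ (z : ℝ) ^ 2 * ((P0 : ℝ) * ((z : ℝ) ^ (2 * (C0 * b))) ^ 2) := by gcongr
        _ = P0 * (z : ℝ) ^ (2 + 2 * (C0 * b) * 2) := by rw [pow_add, pow_mul]; ring
    refine h1.trans (mul_le_mul_of_nonneg_left ?_ (by positivity))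
    have h2 : (z : ℝ) ^ (2 + 2 * (C0 * b) * 2) * ((2 : ℝ) ^ b * (z : ℝ) ^ k) ≤ K := by
      refine le_trans ?_ hKr
      calc (z : ℝ) ^ (2 + 2 * (C0 * b) * 2) * ((2 : ℝ) ^ b * (z : ℝ) ^ k)
          ≤ (z : ℝ) ^ (2 + 2 * (C0 * b) * 2) * ((z : ℝ) ^ b * (z : ℝ) ^ k) := by gcongr
        _ = (z : ℝ) ^ (2 + 2 * (C0 * b) * 2 + (b + k)) := by rw [pow_add _ _ (b + k), pow_add _ b k]
        _ ≤ (z : ℝ) ^ (C1 * b) := by
            apply pow_le_pow_right₀ hz1
            have hb1 : 1 ≤ b := by omega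
            have e1 : C1 * b = P0 * b + (4 * (C0 * b) + 4 * b + k * b) := by
              rw [hC1]; ring
            have e2 : k ≤ k * b := Nat.le_mul_of_pos_right _ hb1
            have e3 : 0 ≤ P0 * b := Nat.zero_le _
            omega
    calc (z : ℝ) ^ (2 + 2 * (C0 * b) * 2)
        = (1 / 2) ^ b * ((z : ℝ) ^ (2 + 2 * (C0 * b) * 2) * ((2 : ℝ) ^ b * (z : ℝ) ^ k)) *
          (1 / (z : ℝ) ^ k) := by
          have e1 : (1 / 2 : ℝ) ^ b * 2 ^ b = 1 := by
            rw [← mul_pow]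
            norm_num
          have e2 : (z : ℝ) ^ k * (1 / (z : ℝ) ^ k) = 1 := mul_one_div_cancel (by positivity)
          calc (z : ℝ) ^ (2 + 2 * (C0 * b) * 2)
              = 1 * 1 * (z : ℝ) ^ (2 + 2 * (C0 * b) * 2) := by ring
            _ = ((1 / 2 : ℝ) ^ b * 2 ^ b) * ((z : ℝ) ^ k * (1 / (z : ℝ) ^ k)) *
                (z : ℝ) ^ (2 + 2 * (C0 * b) * 2) := by rw [e1, e2]
            _ = _ := by ring
      _ ≤ (1 / 2) ^ b * K * W := by gcongr
  have hyK : (y : ℝ) ≤ K := by exact_mod_cast hy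
  calc (1 / 2 : ℝ) ^ b * (y * W) + ((J : ℝ) + 2) *
        ∑ T ∈ PP.powerset.filter (fun T : Finset ℕ => ∏ p ∈ T, p ≤ Y), (P0 : ℝ) * ∏ p ∈ T, (p : ℝ)
      ≤ (1 / 2 : ℝ) ^ b * (K * W) + ((J : ℝ) + 2) * ((P0 : ℝ) * (Y : ℝ) ^ 2) := by gcongr
    _ ≤ (1 / 2 : ℝ) ^ b * (K * W) + P0 * ((1 / 2) ^ b * K * W) := by gcongr
    _ = ((P0 : ℝ) + 1) * ((1 / 2) ^ b * K * W) := by ring
    _ ≤ (C1 : ℝ) * ((1 / 2) ^ b * K * W) := by
        refine mul_le_mul_of_nonneg_right ?_ (by positivity)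
        rw [hC1]
        push_cast
        have : (0 : ℝ) ≤ C0 := by positivity
        have : (0 : ℝ) ≤ k := by positivity
        linarith
    _ = C1 * (1 / 2) ^ b * K * W := by ring

end Pool.Agent.H300R2.NB
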