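import Mathlib

/-!
NB, task S24: few tuples have many small values.
-/

namespace Pool.Agent.H300R2.NB

open Finset

namespace TaskS24

theorem box_card (A X : ℕ) (A0 B0 m t Y : ℤ) :
    (((Ioc A0 (A0 + A) ×ˢ Ioc B0 (B0 + X)).filter
      (fun q : ℤ × ℤ => 0 < t + q.1 * m + q.2 ∧ t + q.1 * m + q.2 ≤ Y)).card : ℤ) ≤
      A * max Y 0 := by
  have h1 : ((Ioc A0 (A0 + A) ×ˢ Ioc B0 (B0 + X)).filter
      (fun q : ℤ × ℤ => 0 < t + q.1 * m + q.2 ∧ t + q.1 * m + q.2 ≤ Y)) ⊆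
      (Ioc A0 (A0 + A) ×ˢ Ioc 0 Y).image (fun q : ℤ × ℤ => (q.1, q.2 - t - q.1 * m)) := by
    rintro ⟨a, b⟩ h
    rw [mem_filter, mem_product] at h
    obtain ⟨⟨h1, -⟩, h2, h3⟩ := h
    rw [mem_image]
    refine ⟨(a, t + a * m + b), ?_, ?_⟩
    · rw [mem_product]
      exact ⟨h1, mem_Ioc.2 ⟨h2, h3⟩⟩
    · ext
      · rfl
      · simp only
        ring
  have h2 := (card_le_card h1).trans card_image_le
  rw [card_product, Int.card_Ioc, Int.card_Ioc] at h2
  have h3 : ((A0 + A - A0).toNat * (Y - 0).toNat : ℕ) = ((A : ℤ) * max Y 0 : ℤ) := by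
    push_cast
    rw [add_sub_cancel_left, sub_zero]
    simp
  rw [← h3]
  exact_mod_cast h2

end TaskS24

open TaskS24 in
/-- S24. Few tuples have many small values. -/
theorem few_small (r C U : ℕ) : ∃ W x0 : ℕ, ∀ x : ℕ, x0 ≤ x →
    ∀ (K : ℕ) (j A X : Fin r → ℕ) (A0 B0 : Fin r → ℤ) (T : Fin r → ℕ → ℤ),
    (∀ i, (x : ℝ) ≤ X i * Real.log x ^ C) →
    (((Fintype.piFinset (fun i => Ioc (A0 i) (A0 i + A i) ×ˢ Ioc (B0 i) (B0 i + X i))).filter
      (fun p => (K : ℝ) / Real.log x ^ U < (((Icc 1 K).filter (fun n : ℕ => ∃ i,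
        0 < T i n + (p i).1 * (n : ℤ) ^ (j i) + (p i).2 ∧
        T i n + (p i).1 * (n : ℤ) ^ (j i) + (p i).2 ≤ ⌊x / Real.log x ^ W⌋)).card : ℝ))).card
      : ℝ) ≤ (∏ i, ((A i : ℝ) * X i)) / Real.log x ^ U := by
  refine ⟨C + 2 * U + 1, ⌈Real.exp (r + 1)⌉₊, ?_⟩
  intro x hx K j A X A0 B0 T hX
  have hx1 : Real.exp (r + 1) ≤ x := (Nat.le_ceil _).trans (by exact_mod_cast hx)
  have hx0 : (0 : ℝ) < x := (Real.exp_pos _).trans_le hx1
  have hL : (r : ℝ) + 1 ≤ Real.log x := by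
    rw [Real.le_log_iff_exp_le hx0]
    exact hx1
  set L := Real.log x with hLdef
  have hLr : (r : ℝ) ≤ L := by linarith
  have hL1 : 1 ≤ L := by
    have : (0 : ℝ) ≤ r := Nat.cast_nonneg r
    linarith
  have hL0 : 0 < L := by linarith
  set W := C + 2 * U + 1 with hW
  set Y : ℤ := ⌊(x : ℝ) / L ^ W⌋ with hY
  have hY0 : 0 ≤ Y := Int.floor_nonneg.2 (by positivity)
  have hYle : (Y : ℝ) ≤ x / L ^ W := Int.floor_le _
  set t : Fin r → Finset (ℤ × ℤ) := fun i => Ioc (A0 i) (A0 i + A i) ×ˢ Ioc (B0 i) (B0 i + X i)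
    with ht
  set P := Fintype.piFinset t with hP
  set v : (Fin r → ℤ × ℤ) → ℕ → Fin r → ℤ :=
    fun p n i => T i n + (p i).1 * (n : ℤ) ^ (j i) + (p i).2 with hv
  set S : (Fin r → ℤ × ℤ) → ℕ := fun p => ((Icc 1 K).filter (fun n : ℕ => ∃ i,
    0 < v p n i ∧ v p n i ≤ Y)).card with hS
  change ((P.filter (fun p => (K : ℝ) / L ^ U < (S p : ℝ))).card : ℝ) ≤ _
  -- one coordinate
  have hone : ∀ (i : Fin r) (n : ℕ), (((P.filter (fun p => 0 < v p n i ∧ v p n i ≤ Y)).card : ℕ) : ℝ)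
      ≤ (∏ i, ((A i : ℝ) * X i)) * (L ^ C / L ^ W) := by
    intro i n
    have hsub : P.filter (fun p => 0 < v p n i ∧ v p n i ≤ Y) ⊆
        Fintype.piFinset (fun i' => if i' = i then (t i').filter
          (fun q : ℤ × ℤ => 0 < T i' n + q.1 * (n : ℤ) ^ (j i') + q.2 ∧
            T i' n + q.1 * (n : ℤ) ^ (j i') + q.2 ≤ Y) else t i') := by
      intro p hp
      rw [mem_filter, hP, Fintype.mem_piFinset] at hp
      rw [Fintype.mem_piFinset]
      intro i'
      split_ifs with h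
      · subst h
        rw [mem_filter]
        exact ⟨hp.1 _, hp.2⟩
      · exact hp.1 i'
    have h1 := card_le_card hsub
    rw [Fintype.card_piFinset] at h1
    have h2 : (((P.filter (fun p => 0 < v p n i ∧ v p n i ≤ Y)).card : ℕ) : ℝ) ≤
        ∏ i', (((if i' = i then (t i').filter
          (fun q : ℤ × ℤ => 0 < T i' n + q.1 * (n : ℤ) ^ (j i') + q.2 ∧
            T i' n + q.1 * (n : ℤ) ^ (j i') + q.2 ≤ Y) else t i').card : ℕ) : ℝ) := by
      exact_mod_cast h1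
    refine h2.trans ?_
    have h3 : (∏ i', ((A i' : ℝ) * X i')) * (L ^ C / L ^ W) =
        ∏ i', (((A i' : ℝ) * X i') * (if i' = i then (L ^ C / L ^ W) else 1)) := by
      have e1 : ∏ i' : Fin r, (if i' = i then (L ^ C / L ^ W) else (1 : ℝ)) = L ^ C / L ^ W := by
        simp
      conv_lhs => rw [← e1]
      rw [← prod_mul_distrib]
    rw [h3]
    refine prod_le_prod (fun i' _ => Nat.cast_nonneg _) ?_
    intro i' _
    split_ifs with h
    · have h4 := box_card (A i') (X i') (A0 i') (B0 i') ((n : ℤ) ^ (j i')) (T i' n) Y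
      rw [max_eq_left hY0] at h4
      have h5 : ((((t i').filter
          (fun q : ℤ × ℤ => 0 < T i' n + q.1 * (n : ℤ) ^ (j i') + q.2 ∧
            T i' n + q.1 * (n : ℤ) ^ (j i') + q.2 ≤ Y)).card : ℕ) : ℝ) ≤ A i' * (Y : ℝ) := by
        exact_mod_cast h4
      refine h5.trans ?_
      have h6 : (Y : ℝ) ≤ X i' * (L ^ C / L ^ W) := by
        refine hYle.trans ?_
        rw [← mul_div_assoc]
        exact div_le_div_of_nonneg_right (hX i') (by positivity)
      rw [mul_assoc]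
      exact mul_le_mul_of_nonneg_left h6 (Nat.cast_nonneg _)
    · rw [mul_one, ht]
      simp only [card_product, Int.card_Ioc, add_sub_cancel_left, Int.toNat_natCast]
      push_cast
      exact le_rfl
  -- first moment
  have hmom : ((∑ p ∈ P, S p : ℕ) : ℝ) ≤
      r * (K * ((∏ i, ((A i : ℝ) * X i)) * (L ^ C / L ^ W))) := by
    have h1 : ∀ p ∈ P, S p ≤ ∑ i : Fin r, ((Icc 1 K).filter (fun n : ℕ =>
        0 < v p n i ∧ v p n i ≤ Y)).card := by
      intro p _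
      refine le_trans (card_le_card ?_) card_biUnion_le
      intro n hn
      rw [mem_filter] at hn
      obtain ⟨hn1, i, hn2⟩ := hn
      rw [mem_biUnion]
      exact ⟨i, mem_univ _, mem_filter.2 ⟨hn1, hn2⟩⟩
    have h2 : ∑ p ∈ P, S p ≤ ∑ i : Fin r, ∑ n ∈ Icc 1 K,
        (P.filter (fun p => 0 < v p n i ∧ v p n i ≤ Y)).card := by
      refine (sum_le_sum h1).trans ?_
      rw [sum_comm]
      refine sum_le_sum ?_
      intro i _
      simp only [card_filter]
      rw [sum_comm]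
    have h3 : ((∑ p ∈ P, S p : ℕ) : ℝ) ≤ ∑ i : Fin r, ∑ n ∈ Icc 1 K,
        (((P.filter (fun p => 0 < v p n i ∧ v p n i ≤ Y)).card : ℕ) : ℝ) := by
      exact_mod_cast h2
    refine h3.trans ?_
    refine (sum_le_sum (fun i _ => sum_le_sum (fun n _ => hone i n))).trans ?_
    rw [sum_const, sum_const, card_univ, Fintype.card_fin, Nat.card_Icc, nsmul_eq_mul,
      nsmul_eq_mul]
    simp
  have hPi0 : 0 ≤ ∏ i, ((A i : ℝ) * X i) := prod_nonneg (fun i _ => by positivity)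
  rcases Nat.eq_zero_or_pos K with hK | hK
  · subst hK
    have : P.filter (fun p => ((0 : ℕ) : ℝ) / L ^ U < (S p : ℝ)) = ∅ := by
      rw [filter_eq_empty_iff]
      intro p _
      rw [hS]
      simp
    rw [this]
    simp only [card_empty, Nat.cast_zero]
    positivity
  · have hK0 : (0 : ℝ) < K := by exact_mod_cast hK
    set Q := P.filter (fun p => (K : ℝ) / L ^ U < (S p : ℝ)) with hQ
    have hmk : (Q.card : ℝ) * (K / L ^ U) ≤ ((∑ p ∈ P, S p : ℕ) : ℝ) := by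
      calc (Q.card : ℝ) * (K / L ^ U) = ∑ p ∈ Q, (K : ℝ) / L ^ U := by
            rw [sum_const, nsmul_eq_mul]
        _ ≤ ∑ p ∈ Q, (S p : ℝ) := sum_le_sum (fun p hp => (mem_filter.1 hp).2.le)
        _ ≤ ∑ p ∈ P, (S p : ℝ) :=
            sum_le_sum_of_subset_of_nonneg (filter_subset _ _) (fun _ _ _ => Nat.cast_nonneg _)
        _ = ((∑ p ∈ P, S p : ℕ) : ℝ) := by push_cast; rfl
    have h1 := hmk.trans hmom
    have h2 : L ^ C / L ^ W = 1 / (L ^ U * (L ^ U * L)) := by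
      rw [hW, show C + 2 * U + 1 = C + (U + (U + 1)) by ring, pow_add, pow_add, pow_succ]
      field_simp
    rw [h2] at h1
    set Pi0 := ∏ i, ((A i : ℝ) * X i) with hP0
    have h3 : (Q.card : ℝ) * (L ^ U * L) ≤ r * Pi0 := by
      have h4 : (Q.card : ℝ) * (K / L ^ U) * (L ^ U * (L ^ U * L)) ≤
          r * (K * (Pi0 * (1 / (L ^ U * (L ^ U * L))))) * (L ^ U * (L ^ U * L)) :=
        mul_le_mul_of_nonneg_right h1 (by positivity)
      have h5 : (Q.card : ℝ) * (K / L ^ U) * (L ^ U * (L ^ U * L)) =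
          K * ((Q.card : ℝ) * (L ^ U * L)) := by
        field_simp
      have h6 : r * (K * (Pi0 * (1 / (L ^ U * (L ^ U * L))))) * (L ^ U * (L ^ U * L)) =
          K * (r * Pi0) := by
        field_simp
      rw [h5, h6] at h4
      exact le_of_mul_le_mul_left h4 hK0
    rw [le_div_iff₀ (by positivity)]
    have h7 : (r : ℝ) * Pi0 ≤ L * Pi0 := mul_le_mul_of_nonneg_right hLr hPi0
    have h8 : L * ((Q.card : ℝ) * L ^ U) ≤ L * Pi0 := by
      calc L * ((Q.card : ℝ) * L ^ U) = (Q.card : ℝ) * (L ^ U * L) := by ring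
        _ ≤ _ := h3.trans h7
    exact le_of_mul_le_mul_left h8 hL0

end Pool.Agent.H300R2.NB
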