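import Pool.Agent.H300R2.NB.Lin
import Pool.Agent.H300R2.NB.EvalShort
import Pool.Agent.H300R2.NB.AbelInd
import Pool.Agent.H300R2.NB.FewSmall

/-!
Short ranges: `K` from a power of `log x` on.
-/

namespace Pool.Agent.H300R2.NB

open Finset Polynomial

lemma bern {t : ℝ} (r : ℕ) (ht0 : 0 ≤ t) (ht : (r + 1) * t ≤ 1 / 2) :
    ((1 - t)⁻¹) ^ r ≤ 1 + 2 * r * t := by
  have hr : (0 : ℝ) ≤ r := Nat.cast_nonneg r
  have ht1 : t ≤ 1 / 2 := by nlinarith
  have h1 : 1 + (r : ℝ) * (-t) ≤ (1 + -t) ^ r := one_add_mul_le_pow (by linarith) r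
  have h2 : 0 < 1 + (r : ℝ) * (-t) := by nlinarith
  have h3 : ((1 - t)⁻¹) ^ r = ((1 + -t) ^ r)⁻¹ := by rw [inv_pow, sub_eq_add_neg]
  rw [h3]
  have h4 : ((1 + -t) ^ r)⁻¹ ≤ (1 + (r : ℝ) * (-t))⁻¹ := inv_anti₀ h2 h1
  refine h4.trans ?_
  rw [inv_le_iff_one_le_mul₀ h2]
  nlinarith [mul_nonneg hr ht0]

/-- products of `1/log` of large values -/
lemma prod_log_bounds {r : ℕ} (W : ℕ) {L : ℝ} (hL : 1 ≤ L) (hsmall : (r + 1) * (W * (Real.log L / L)) ≤ 1 / 2)
    (u : Fin r → ℝ) (h : ∀ i, L - W * Real.log L ≤ u i ∧ u i ≤ L) :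
    1 / L ^ r ≤ ∏ i, 1 / u i ∧ ∏ i, 1 / u i ≤ 1 / L ^ r * (1 + 2 * r * (W * (Real.log L / L))) := by
  have hL0 : 0 < L := by linarith
  have hr : (0 : ℝ) ≤ r := Nat.cast_nonneg r
  set t : ℝ := W * (Real.log L / L) with ht
  have hl0 : 0 ≤ Real.log L := Real.log_nonneg hL
  have ht0 : 0 ≤ t := by positivity
  have ht1 : t ≤ 1 / 2 := by nlinarith
  have hLt : L - W * Real.log L = L * (1 - t) := by
    rw [ht]
    field_simp
  have hpos : 0 < L * (1 - t) := mul_pos hL0 (by linarith)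
  have hu : ∀ i, 0 < u i := fun i => lt_of_lt_of_le hpos (by rw [← hLt]; exact (h i).1)
  constructor
  · calc 1 / L ^ r = ∏ _i : Fin r, 1 / L := by
          rw [prod_const, card_univ, Fintype.card_fin, one_div_pow]
      _ ≤ ∏ i, 1 / u i := prod_le_prod (fun i _ => by positivity)
          (fun i _ => one_div_le_one_div_of_le (hu i) (h i).2)
  · calc ∏ i, 1 / u i ≤ ∏ _i : Fin r, 1 / (L * (1 - t)) :=
          prod_le_prod (fun i _ => by have := hu i; positivity)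
          (fun i _ => one_div_le_one_div_of_le hpos (by rw [← hLt]; exact (h i).1))
      _ = 1 / L ^ r * ((1 - t)⁻¹) ^ r := by
          rw [prod_const, card_univ, Fintype.card_fin, one_div_pow, mul_pow, inv_pow, one_div,
            one_div, mul_inv]
      _ ≤ 1 / L ^ r * (1 + 2 * r * t) := by
          refine mul_le_mul_of_nonneg_left (bern r ht0 hsmall) (by positivity)

lemma sa_sq {V w L : ℝ} (hV0 : 0 ≤ V) (hV : 2 * V ≤ L) (hw : w + 1 ≤ L) (hL : 2 ≤ L) :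
    1 + V * w + V ≤ L ^ 2 := by
  have e38 : V * (w + 1) ≤ V * L := mul_le_mul_of_nonneg_left hw hV0
  nlinarith

lemma sa_b1 {c y : ℝ} (hc : 0 ≤ c) (hy : 0 ≤ y) : c ≤ 4 * c * (1 + y) := by nlinarith

lemma sa_b2 {c r W : ℝ} (hc : 0 ≤ c) (hr : 0 ≤ r) (hW : 0 ≤ W) :
    2 * c * (2 * r * W) ≤ 4 * c * (1 + 2 * r * (W + 1)) := by
  have h1 : 0 ≤ c * (r * W) := by positivity
  have h2 : 0 ≤ c * r := by positivity
  nlinarith

lemma sa_c {a c : ℝ} (ha : 0 ≤ a) (hc : 1 ≤ c) : 1 ≤ (1 + a) * c := by nlinarith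

lemma sa_t {r t : ℝ} (hr : 0 ≤ r) (ht : 0 ≤ t) (h : (r + 1) * t ≤ 1 / 2) : t ≤ 1 := by nlinarith

lemma sa_half {q s : ℝ} (hq : 0 ≤ q) (hs : s ≤ 1 / 2) : 2 * (q * s) ≤ q := by nlinarith

/-- the arithmetic of the main term -/
lemma short_main (r U' : ℕ) (K L l Vr S Pm RGc Gdc Mc N1 T0 T1 c2 B1 hb W : ℝ) (hL : 2 ^ r + 10 ≤ L)
    (hl0 : 0 ≤ l) (hW : 0 ≤ W) (hPm0 : 0 ≤ Pm) (hPm1 : Pm ≤ 1) (hVr1 : 1 ≤ Vr) (hVr2 : 2 * Vr ≤ L)
    (hSS : S = Vr * Pm) (hK : 0 < K)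
    (e13 : |N1 - Vr * T0| ≤ K / L ^ (U' + 2)) (e18 : T1 ≤ T0)
    (e19 : T0 ≤ T1 + 2 ^ r * (K / L ^ (U' + 2))) (e28 : RGc / L ^ r ≤ T1)
    (e29 : T1 ≤ RGc / L ^ r * (1 + 2 * r * (W * (l / L))))
    (e3' : |RGc - Pm * Gdc| ≤ c2 * hb * K * Pm) (hGdK : Gdc ≤ K)
    (hM1 : Mc - K / L ^ (U' + 2) ≤ Gdc) (hM2 : Gdc ≤ Mc) (hc2one : 1 ≤ c2) (hhalf : 0 < hb)
    (hhalf1 : hb ≤ 1) (hB1a : c2 ≤ B1) (hB1b : 2 * c2 * (2 * r * W) ≤ B1) :
    |N1 - S * (Mc / L ^ r)| ≤ B1 * (hb + l / L) * (S * (K / L ^ r)) + K / L ^ U' := by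
  have h2r : (0 : ℝ) < 2 ^ r := by positivity
  have hL0 : 0 < L := by linarith
  have hL1 : 1 ≤ L := by linarith
  have hc20 : 0 ≤ c2 := by linarith
  have hVr0 : 0 ≤ Vr := by linarith
  have hS0 : 0 ≤ S := by rw [hSS]; positivity
  have hκ : (0 : ℝ) ≤ K / L ^ (U' + 2) := by positivity
  have hRGle : RGc ≤ 2 * c2 * K * Pm := by
    have e30 := (abs_le.1 e3').2
    have e31 : Pm * Gdc ≤ Pm * K := mul_le_mul_of_nonneg_left hGdK hPm0
    have e32 : c2 * hb * K * Pm ≤ c2 * 1 * K * Pm := by gcongr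
    have e33 : K * Pm ≤ c2 * (K * Pm) := le_mul_of_one_le_left (by positivity) hc2one
    linarith
  set H : ℝ := S * (K / L ^ r) with hH
  have hH0 : 0 ≤ H := by positivity
  -- (b)
  have eb1 : 0 ≤ Vr * (T1 - RGc / L ^ r) := mul_nonneg hVr0 (by linarith)
  have eb2 : Vr * (T1 - RGc / L ^ r) ≤ B1 * (l / L) * H := by
    have e31 : T1 - RGc / L ^ r ≤ (2 * c2 * K * Pm) / L ^ r * (2 * r * (W * (l / L))) := by
      have e32 : RGc / L ^ r * (2 * r * (W * (l / L))) ≤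
          (2 * c2 * K * Pm) / L ^ r * (2 * r * (W * (l / L))) := by gcongr
      linarith
    calc Vr * (T1 - RGc / L ^ r)
        ≤ Vr * ((2 * c2 * K * Pm) / L ^ r * (2 * r * (W * (l / L)))) :=
          mul_le_mul_of_nonneg_left e31 hVr0
      _ = (2 * c2 * (2 * r * W)) * (l / L) * H := by
          rw [hH, hSS]
          ring
      _ ≤ B1 * (l / L) * H := by gcongr
  -- (c)
  have ec : |Vr * ((RGc - Pm * Gdc) / L ^ r)| ≤ B1 * hb * H := by
    rw [abs_mul, abs_div, abs_of_nonneg hVr0, abs_of_pos (by positivity : (0 : ℝ) < L ^ r)]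
    calc Vr * (|RGc - Pm * Gdc| / L ^ r)
        ≤ Vr * ((c2 * hb * K * Pm) / L ^ r) := by gcongr
      _ = c2 * hb * H := by rw [hH, hSS]; ring
      _ ≤ B1 * hb * H := by gcongr
  -- (d)
  have ed : |Vr * (Pm * (Gdc - Mc) / L ^ r)| ≤ Vr * (K / L ^ (U' + 2)) := by
    rw [abs_mul, abs_of_nonneg hVr0]
    refine mul_le_mul_of_nonneg_left ?_ hVr0
    rw [abs_div, abs_mul, abs_of_nonneg hPm0, abs_of_pos (by positivity : (0 : ℝ) < L ^ r),
      div_le_iff₀ (by positivity)]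
    have e31 : |Gdc - Mc| ≤ K / L ^ (U' + 2) := by
      rw [abs_le]
      constructor <;> linarith
    have e33 : (1 : ℝ) ≤ L ^ r := one_le_pow₀ hL1
    calc Pm * |Gdc - Mc| ≤ 1 * (K / L ^ (U' + 2)) :=
          mul_le_mul hPm1 e31 (abs_nonneg _) (by norm_num)
      _ = K / L ^ (U' + 2) := one_mul _
      _ ≤ K / L ^ (U' + 2) * L ^ r := le_mul_of_one_le_right hκ e33
  have e31 : N1 - S * (Mc / L ^ r) = (N1 - Vr * T0) + Vr * (T0 - T1) +
      Vr * (T1 - RGc / L ^ r) + Vr * ((RGc - Pm * Gdc) / L ^ r) +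
      Vr * (Pm * (Gdc - Mc) / L ^ r) := by
    rw [hSS]
    ring
  have ea : |Vr * (T0 - T1)| ≤ Vr * (2 ^ r * (K / L ^ (U' + 2))) := by
    rw [abs_mul, abs_of_nonneg hVr0, abs_of_nonneg (by linarith : 0 ≤ T0 - T1)]
    exact mul_le_mul_of_nonneg_left (by linarith) hVr0
  have eb : |Vr * (T1 - RGc / L ^ r)| ≤ B1 * (l / L) * H := by
    rw [abs_of_nonneg eb1]
    exact eb2
  have e32 : |N1 - S * (Mc / L ^ r)| ≤ K / L ^ (U' + 2) + Vr * (2 ^ r * (K / L ^ (U' + 2))) +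
      B1 * (l / L) * H + B1 * hb * H + Vr * (K / L ^ (U' + 2)) := by
    rw [e31]
    refine (abs_add_le _ _).trans (add_le_add ((abs_add_le _ _).trans (add_le_add
      ((abs_add_le _ _).trans (add_le_add ((abs_add_le _ _).trans (add_le_add e13 ea)) eb))
      ec)) ed)
  refine e32.trans ?_
  have e36 : K / L ^ U' = K / L ^ (U' + 2) * L ^ 2 := by
    rw [pow_add]
    field_simp
  have e37 := sa_sq hVr0 hVr2 (by linarith : (2 : ℝ) ^ r + 1 ≤ L) (by linarith : 2 ≤ L)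
  have e38 : K / L ^ (U' + 2) * (1 + Vr * 2 ^ r + Vr) ≤ K / L ^ (U' + 2) * L ^ 2 :=
    mul_le_mul_of_nonneg_left e37 hκ
  have e39 : B1 * (hb + l / L) * H = B1 * (l / L) * H + B1 * hb * H := by ring
  have e40 : K / L ^ (U' + 2) * (1 + Vr * 2 ^ r + Vr) = K / L ^ (U' + 2) +
      Vr * (2 ^ r * (K / L ^ (U' + 2))) + Vr * (K / L ^ (U' + 2)) := by ring
  rw [e39, e36]
  linarith

/-- the arithmetic of the lower bound -/
lemma short_exist (r U : ℕ) (K L l S Mc N1 B1 hb Z : ℝ) (hL : 2 ≤ L) (hl1 : 1 ≤ l) (hK : 0 < K)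
    (hb0 : 0 < hb) (hB1 : 1 ≤ B1) (hZ : Z = 1 / l) (hMc0 : 0 ≤ Mc)
    (etot : |N1 - S * (Mc / L ^ r)| ≤ B1 * (hb + l / L) * (S * (K / L ^ r)) +
      K / L ^ (U + r + 3))
    (f2 : 2 / L ≤ S) (hnum : 4 * B1 * (hb + l / L) * K ≤ Mc) : Mc / L ^ (r + 1) ≤ N1 := by
  have hL0 : 0 < L := by linarith
  have hS0 : 0 ≤ S := le_trans (by positivity) f2
  have hl0 : 0 < l := by linarith
  have f4 : K / L ≤ Mc := by
    have f5 : K / L ≤ 4 * B1 * (hb + l / L) * K := by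
      have f6 : 1 / L ≤ l / L := by gcongr
      calc K / L = 1 * (1 / L) * K := by ring
        _ ≤ (4 * B1) * (hb + l / L) * K := by
            have : 1 ≤ 4 * B1 := by linarith
            have f7 : 1 / L ≤ hb + l / L := by linarith
            gcongr
    exact f5.trans hnum
  have f9 : B1 * (hb + l / L) * (S * (K / L ^ r)) ≤ 1 / 4 * (S * (Mc / L ^ r)) := by
    have f10 : B1 * (hb + l / L) * K ≤ 1 / 4 * Mc := by linarith
    calc B1 * (hb + l / L) * (S * (K / L ^ r)) = (B1 * (hb + l / L) * K) * (S / L ^ r) := by ring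
      _ ≤ (1 / 4 * Mc) * (S / L ^ r) := mul_le_mul_of_nonneg_right f10 (by positivity)
      _ = 1 / 4 * (S * (Mc / L ^ r)) := by ring
  have f11 : 2 * (Mc / L ^ (r + 1)) ≤ S * (Mc / L ^ r) := by
    calc 2 * (Mc / L ^ (r + 1)) = 2 / L * (Mc / L ^ r) := by
          rw [pow_succ]
          field_simp
      _ ≤ S * (Mc / L ^ r) := mul_le_mul_of_nonneg_right f2 (by positivity)
  have f12 : K / L ^ (U + r + 3) ≤ 1 / 2 * (Mc / L ^ (r + 1)) := by
    have f13 : K / L ^ (U + r + 3) = (K / L) * (1 / L ^ (U + 1)) * (1 / L ^ (r + 1)) := by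
      rw [show U + r + 3 = 1 + ((U + 1) + (r + 1)) by ring, pow_add, pow_add, pow_one]
      field_simp
    rw [f13]
    have f14 : 1 / L ^ (U + 1) ≤ 1 / 2 := by
      refine one_div_le_one_div_of_le (by norm_num) ?_
      calc (2 : ℝ) ≤ L ^ 1 := by rw [pow_one]; linarith
        _ ≤ L ^ (U + 1) := pow_le_pow_right₀ (by linarith) (by omega)
    calc (K / L) * (1 / L ^ (U + 1)) * (1 / L ^ (r + 1)) ≤ Mc * (1 / 2) * (1 / L ^ (r + 1)) := by
          gcongr
      _ = 1 / 2 * (Mc / L ^ (r + 1)) := by ring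
  have f15 := (abs_le.1 etot).1
  linarith

open Classical in
/-- Bateman-Horn for almost all polynomials in the pencils `F_i + a X^{j_i} + b`, in all ranges
and uniformly for all initial segments -/
theorem bh (r D C U : ℕ) : ∃ B : ℕ, ∀ E : ℕ, ∃ B1 x0 : ℕ, ∀ x : ℕ, x0 ≤ x → ∀ z K : ℕ,
    Real.log x ^ B ≤ z → (z : ℝ) ≤ Real.log x ^ E → Real.log x ^ B ≤ K →
    ∀ j A X : Fin r → ℕ, (∀ i, 1 ≤ j i ∧ j i ≤ D ∧ Real.log x ^ B ≤ A i ∧
      (x : ℝ) ≤ A i * (K : ℝ) ^ (j i) * Real.log x ^ C ∧ (x : ℝ) ≤ X i * Real.log x ^ C) →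
    ∀ (A0 B0 : Fin r → ℤ) (F : Fin r → ℤ[X]), (∀ i, (F i).natDegree ≤ D) →
    ∃ Ex : Finset (Fin r → ℤ × ℤ),
      (Ex.card : ℝ) ≤ (∏ i, ((A i : ℝ) * X i)) / Real.log x ^ U ∧
      ∀ p ∈ Bx A0 B0 A X, p ∉ Ex → ∀ y : ℕ, y ≤ K →
      (Real.exp (Real.log (Real.log x) ^ 3) ≤ K →
        |cntP x (Icc 1 y) (vals (pen F j p)) -
          sing (pen F j p) z * logS x (Icc 1 y) (vals (pen F j p))| ≤ K / Real.log x ^ U) ∧
      (∀ b : ℕ, B1 ≤ b → Real.log x ^ (B1 * b) ≤ K →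
        |cntP x (Icc 1 y) (vals (pen F j p)) -
          sing (pen F j p) z * (cntI x (Icc 1 y) (vals (pen F j p)) / Real.log x ^ r)| ≤
        B1 * ((1 / 2) ^ b + Real.log (Real.log x) / Real.log x) *
          (sing (pen F j p) z * (K / Real.log x ^ r)) + K / Real.log x ^ U ∧
        ((∀ q : ℕ, q.Prime → q ≤ z → om (pen F j p) q < q) →
          4 * B1 * ((1 / 2) ^ b + Real.log (Real.log x) / Real.log x) * K ≤
            cntI x (Icc 1 y) (vals (pen F j p)) →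
          cntI x (Icc 1 y) (vals (pen F j p)) / Real.log x ^ (r + 1) ≤
            cntP x (Icc 1 y) (vals (pen F j p)))) := by
  set U' : ℕ := U + r + 3 with hU'
  set V : ℕ := U' + 2 with hV
  obtain ⟨B2, Z, h⟩ := exc_unif r D C V
  obtain ⟨W, x2, h2⟩ := few_small r C V
  obtain ⟨C1, hC1, h3⟩ := eval_short r D
  refine ⟨max (max B2 Z) 1, fun E => ?_⟩
  obtain ⟨x1, h1⟩ := h E
  obtain ⟨x10, h10⟩ := eval_main_y r D E V
  obtain ⟨Cl, x3, h4⟩ := prod_lower r D E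
  obtain ⟨x6, h6⟩ := Vi_upper E
  obtain ⟨x4, h5⟩ := ev_log_ge (2 ^ r + 10 + Real.exp 1)
  obtain ⟨x5, h7⟩ := ev_loglog_pow Cl
  obtain ⟨x7, h8⟩ := ev_loglog_pow (2 * r)
  -- `(r + 1) W (log L / L) ≤ 1/2`
  obtain ⟨x8, h9⟩ : ∃ x8 : ℕ, ∀ x : ℕ, x8 ≤ x →
      (r + 1) * (W * (Real.log (Real.log x) / Real.log x)) ≤ 1 / 2 := by
    obtain ⟨y1, hy1⟩ := ev_loglog_pow 2
    obtain ⟨y2, hy2⟩ := ev_log_ge (Real.exp ((r + 1) * W + 1))
    refine ⟨max (max y1 y2) 3, fun x hx => ?_⟩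
    have e1 := hy1 x (((le_max_left _ _).trans (le_max_left _ _)).trans hx)
    have e2 := hy2 x (((le_max_right _ _).trans (le_max_left _ _)).trans hx)
    have e3 := log_gt_one ((le_max_right _ _).trans hx)
    have e4 : ((r : ℝ) + 1) * W + 1 ≤ Real.log (Real.log x) :=
      (Real.le_log_iff_exp_le (by linarith)).2 e2
    have e5 : (0 : ℝ) ≤ ((r : ℝ) + 1) * W := by positivity
    have e6 : ((r : ℝ) + 1) * (W * (Real.log (Real.log x) / Real.log x)) =
        (((r : ℝ) + 1) * W) * Real.log (Real.log x) / Real.log x := by ring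
    rw [e6, div_le_iff₀ (by linarith)]
    nlinarith
  refine ⟨max (max B2 (E * C1)) (C1 * (4 * (1 + 2 * r * D)) * (1 + 2 * r * (W + 1))),
    max (max (max x1 x2) (max x3 x4)) (max (max x5 x6) (max x7 (max x8 (max x10 3)))), ?_⟩
  intro x hx z K hz1 hz2 hK j A X hA A0 B0 F hF
  simp only [max_le_iff] at hx
  obtain ⟨⟨⟨hx1, hx2⟩, hx3, hx4⟩, ⟨hx5, hx6⟩, hx7, hx8, hx10, hx9⟩ := hx
  set B1 : ℕ := max (max B2 (E * C1)) (C1 * (4 * (1 + 2 * r * D)) * (1 + 2 * r * (W + 1)))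
    with hB1
  have hL : 1 < Real.log x := log_gt_one hx9
  have hL0 : 0 < Real.log x := by linarith
  have hLbig := h5 x hx4
  have he1 : (2 : ℝ) < Real.exp 1 := by have := Real.exp_one_gt_d9; linarith
  have h2r : (0 : ℝ) < 2 ^ r := by positivity
  have hKpos : (0 : ℝ) < K := lt_of_lt_of_le (by positivity) hK
  have hB1b : B2 ≤ B1 := (le_max_left _ _).trans (le_max_left _ _)
  have hB1c : E * C1 ≤ B1 := (le_max_right _ _).trans (le_max_left _ _)
  have hB1d : C1 * (4 * (1 + 2 * r * D)) * (1 + 2 * r * (W + 1)) ≤ B1 := le_max_right _ _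
  have hB1one : C1 ≤ B1 := by
    refine le_trans ?_ hB1d
    have g1 : 1 ≤ 4 * (1 + 2 * r * D) := by have := Nat.zero_le (2 * r * D); linarith
    have g2 : 1 ≤ 1 + 2 * r * (W + 1) := Nat.le_add_right _ _
    calc C1 = C1 * 1 * 1 := by ring
      _ ≤ C1 * (4 * (1 + 2 * r * D)) * (1 + 2 * r * (W + 1)) :=
        Nat.mul_le_mul (Nat.mul_le_mul_left _ g1) g2
  have hz1' : ⌊Real.log x ^ Z⌋₊ ≤ z := by
    have : (⌊Real.log x ^ Z⌋₊ : ℝ) ≤ z := (Nat.floor_le (by positivity)).trans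
      ((pow_le_pow_right₀ hL.le ((le_max_right _ _).trans (le_max_left _ _))).trans hz1)
    exact_mod_cast this
  have hKB2 : Real.log x ^ B2 ≤ K :=
    (pow_le_pow_right₀ hL.le ((le_max_left _ _).trans (le_max_left _ _))).trans hK
  obtain ⟨Ex1, hcard, hEx1⟩ := h1 x hx1 z hz1' hz2 K hKB2 j
    (fun i => ⟨(hA i).1, (hA i).2.1⟩) A X
    (fun i => ⟨(pow_le_pow_right₀ hL.le
      ((le_max_left _ _).trans (le_max_left _ _))).trans (hA i).2.2.1,
      (hA i).2.2.2.1, (hA i).2.2.2.2⟩) A0 B0 (fun i n => (F i).eval (n : ℤ)) (Icc 1 K)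
    (Finset.Subset.refl _)
  have hcard2 := h2 x hx2 K j A X A0 B0 (fun i n => (F i).eval (n : ℤ))
    (fun i => (hA i).2.2.2.2)
  have hprod : 0 ≤ ∏ i, ((A i : ℝ) * X i) := prod_nonneg fun i _ => by positivity
  set Ex2 := (Fintype.piFinset (fun i => Ioc (A0 i) (A0 i + A i) ×ˢ
      Ioc (B0 i) (B0 i + X i))).filter
      (fun p => (K : ℝ) / Real.log x ^ V < (((Icc 1 K).filter (fun n : ℕ => ∃ i,
        0 < (F i).eval (n : ℤ) + (p i).1 * (n : ℤ) ^ (j i) + (p i).2 ∧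
        (F i).eval (n : ℤ) + (p i).1 * (n : ℤ) ^ (j i) + (p i).2 ≤ ⌊x / Real.log x ^ W⌋)).card : ℝ))
    with hEx2
  refine ⟨Ex1 ∪ Ex2, ?_, ?_⟩
  · have e1 : ((Ex1 ∪ Ex2).card : ℝ) ≤ (∏ i, ((A i : ℝ) * X i)) / Real.log x ^ V +
        (∏ i, ((A i : ℝ) * X i)) / Real.log x ^ V := by
      have : ((Ex1 ∪ Ex2).card : ℝ) ≤ Ex1.card + Ex2.card := by exact_mod_cast card_union_le _ _
      exact this.trans (add_le_add hcard hcard2)
    refine e1.trans ?_
    rw [← two_mul]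
    have e2 : (∏ i, ((A i : ℝ) * X i)) / Real.log x ^ V =
        (∏ i, ((A i : ℝ) * X i)) / Real.log x ^ U * (1 / Real.log x ^ (r + 5)) := by
      rw [hV, hU', show U + r + 3 + 2 = U + (r + 5) by ring, pow_add]
      field_simp
    rw [e2]
    have e3 : 1 / Real.log x ^ (r + 5) ≤ 1 / 2 := by
      refine one_div_le_one_div_of_le (by norm_num) ?_
      calc (2 : ℝ) ≤ Real.log x ^ 1 := by rw [pow_one]; linarith
        _ ≤ Real.log x ^ (r + 5) := pow_le_pow_right₀ hL.le (by omega)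
    have e4 : 0 ≤ (∏ i, ((A i : ℝ) * X i)) / Real.log x ^ U := by positivity
    exact sa_half e4 e3
  intro p hp hpE y hy
  rw [mem_union, not_or, hEx2, mem_filter, not_and] at hpE
  have e1 := hEx1 p hp hpE.1 y
  have e2 := not_lt.1 (hpE.2 hp)
  have hIy : (Icc 1 K).filter (fun n => n ≤ y) = Icc 1 y := by
    ext n
    rw [mem_filter, mem_Icc, mem_Icc]
    omega
  rw [hIy] at e1
  set G : Fin r → ℤ[X] := pen F j p with hG
  set v : Fin r → ℕ → ℤ := vals G with hv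
  have hGd : ∀ i, (G i).natDegree ≤ D := fun i => pencil_deg (hA i).2.1 (F i) (hF i) _ _
  have hGe : ∀ i (n : ℕ), (G i).eval (n : ℤ) = v i n := fun i n => rfl
  have hGe' : ∀ i (n : ℕ), (F i).eval (n : ℤ) + (p i).1 * (n : ℤ) ^ (j i) + (p i).2 = v i n :=
    fun i n => (pencil_eval _ _ _ _ _).symm
  simp only [hGe'] at e1 e2
  have e10 := h10 x hx10 z hz2
  refine ⟨fun hKexp => ?_, ?_⟩
  · have e11 := e10 K hKexp G hGd y hy
    simp only [hGe] at e11
    rw [sum_lg x (Icc 1 y) v, ← SS_eq] at e11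
    rw [sum_ip x (Icc 1 y) v] at e1
    have e12 := (abs_sub_le _ _ _).trans (add_le_add e1 e11)
    refine e12.trans ?_
    have e13 : (K : ℝ) / Real.log x ^ V ≤ 1 / 2 * (K / Real.log x ^ U) := by
      rw [hV, hU', show U + r + 3 + 2 = U + (r + 5) by ring, pow_add, div_mul_eq_div_div,
        div_eq_mul_one_div, mul_comm]
      refine mul_le_mul_of_nonneg_right ?_ (by positivity)
      refine one_div_le_one_div_of_le (by norm_num) ?_
      calc (2 : ℝ) ≤ Real.log x ^ 1 := by rw [pow_one]; linarith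
        _ ≤ Real.log x ^ (r + 5) := pow_le_pow_right₀ hL.le (by omega)
    linarith
  intro b hb hKb
  have hC1b : C1 ≤ b := hB1one.trans hb
  set Y : ℤ := ⌊x / Real.log x ^ W⌋ with hY
  set L : ℝ := Real.log x with hLdef
  set l : ℝ := Real.log L with hldef
  have hl1 : 1 ≤ l := (Real.le_log_iff_exp_le hL0).2 (by linarith)
  have hl0 : 0 ≤ l := by linarith
  set Pm : ℝ := ∏ q ∈ (Icc 1 z).filter Nat.Prime, (1 - (om G q : ℝ) / q) with hPm
  have hSS : sing G z = Vi z ^ r * Pm := SS_eq G z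
  have hVi := h6 x hx6 z hz2
  have hPm0 : 0 ≤ Pm := by
    refine prod_nonneg fun q hq => ?_
    rw [mem_filter] at hq
    have hq0 : (0 : ℝ) < q := by exact_mod_cast hq.2.pos
    have : (om G q : ℝ) / q ≤ 1 := by
      rw [div_le_one hq0]
      exact_mod_cast om_le G q
    linarith
  have hPm1 : Pm ≤ 1 := by
    refine prod_le_one (fun q hq => ?_) fun q hq => ?_
    · rw [mem_filter] at hq
      have hq0 : (0 : ℝ) < q := by exact_mod_cast hq.2.pos
      have : (om G q : ℝ) / q ≤ 1 := by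
        rw [div_le_one hq0]
        exact_mod_cast om_le G q
      linarith
    · have : (0 : ℝ) ≤ (om G q : ℝ) / q := by positivity
      linarith
  have hVr1 : 1 ≤ Vi z ^ r := one_le_pow₀ hVi.1
  have hVr2 : 2 * Vi z ^ r ≤ L := by
    have e3 : Vi z ^ r ≤ (l ^ 2) ^ r := pow_le_pow_left₀ (by linarith [hVi.1]) hVi.2.1 _
    rw [← pow_mul] at e3
    linarith [h8 x hx7]
  have hS0 : 0 ≤ sing G z := by rw [hSS]; positivity
  -- the sets
  set N1 : ℝ := (((Icc 1 y).filter (fun n : ℕ => ∀ i, v i n ≤ x ∧ (v i n).toNat.Prime)).card : ℝ)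
    with hN1
  set Mset := (Icc 1 y).filter (fun n : ℕ => ∀ i, 0 < v i n ∧ v i n ≤ x) with hMset
  set Sm := (Icc 1 y).filter (fun n : ℕ => ∃ i, 0 < v i n ∧ v i n ≤ Y) with hSm
  set Gd := (Icc 1 y).filter (fun n : ℕ => ∀ i, Y < v i n ∧ v i n ≤ x) with hGd'
  set RG := Gd.filter (fun n : ℕ => ∀ i, Rough z (v i n)) with hRG
  have hSmK : (Sm.card : ℝ) ≤ K / L ^ V := by
    refine le_trans ?_ e2
    have : Sm ⊆ (Icc 1 K).filter (fun n : ℕ => ∃ i, 0 < v i n ∧ v i n ≤ Y) :=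
      filter_subset_filter _ (Icc_subset_Icc_right hy)
    exact_mod_cast card_le_card this
  have hxLW : (1 : ℝ) ≤ x / L ^ W := by
    have e3 : (W : ℝ) * l ≤ L := by
      have e4 := h9 x hx8
      rw [← hLdef, ← hldef] at e4
      have e6 : (W : ℝ) * (l / L) ≤ 1 := sa_t (Nat.cast_nonneg r) (by positivity) e4
      rw [← mul_div_assoc, div_le_one hL0] at e6
      exact e6
    rw [le_div_iff₀ (by positivity), one_mul]
    calc L ^ W = Real.exp (W * l) := by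
          rw [hldef, mul_comm, Real.exp_mul, Real.exp_log hL0, Real.rpow_natCast]
      _ ≤ Real.exp L := Real.exp_le_exp.2 e3
      _ = x := by
          rw [hLdef, Real.exp_log]
          exact_mod_cast (by omega : 0 < x)
  have hY1 : 1 ≤ Y := Int.le_floor.2 (by simpa using hxLW)
  have hGM : Gd ⊆ Mset := by
    intro n hn
    rw [hGd', mem_filter] at hn
    rw [hMset, mem_filter]
    exact ⟨hn.1, fun i => ⟨by have := (hn.2 i).1; omega, (hn.2 i).2⟩⟩
  have hMG : Mset ⊆ Gd ∪ Sm := by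
    intro n hn
    rw [hMset, mem_filter] at hn
    rw [mem_union, hGd', hSm, mem_filter, mem_filter]
    by_cases hall : ∀ i, Y < v i n
    · exact Or.inl ⟨hn.1, fun i => ⟨hall i, (hn.2 i).2⟩⟩
    · push Not at hall
      obtain ⟨i, hi⟩ := hall
      exact Or.inr ⟨hn.1, i, (hn.2 i).1, hi⟩
  have hMcard : (Mset.card : ℝ) - K / L ^ V ≤ Gd.card := by
    have e3 : (Mset.card : ℝ) ≤ Gd.card + Sm.card := by
      exact_mod_cast (card_le_card hMG).trans (card_union_le _ _)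
    linarith
  have hMcard2 : (Gd.card : ℝ) ≤ Mset.card := by exact_mod_cast card_le_card hGM
  -- count of rough values
  have e3 : |(RG.card : ℝ) - Pm * Gd.card| ≤ (1 + 2 * r * D) * (C1 * (1 / 2) ^ b * K * Pm) := by
    have e4 := abel_ind D y Y x G hGd
      (fun n => (if ∀ i, Rough z ((G i).eval (n : ℤ)) then (1 : ℝ) else 0) - Pm)
      (C1 * (1 / 2) ^ b * K * Pm) (fun t ht => by
        have e5 := h3 b z K hC1b (by
          have : (2 : ℝ) ≤ z := by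
            refine le_trans ?_ hz1
            calc (2 : ℝ) ≤ L ^ 1 := by rw [pow_one]; linarith
              _ ≤ L ^ (max (max B2 Z) 1) := pow_le_pow_right₀ hL.le (le_max_right _ _)
          exact_mod_cast this) (by
          have : (z : ℝ) ^ (C1 * b) ≤ K := by
            refine le_trans ?_ hKb
            calc (z : ℝ) ^ (C1 * b) ≤ (L ^ E) ^ (C1 * b) := by gcongr
              _ = L ^ (E * C1 * b) := by rw [← pow_mul, mul_assoc]
              _ ≤ L ^ (B1 * b) := pow_le_pow_right₀ hL.le (Nat.mul_le_mul_right _ hB1c)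
          exact_mod_cast this) G hGd t (ht.trans hy)
        rw [sum_sub_distrib, ← sum_filter, sum_const, sum_const, nsmul_eq_mul, nsmul_eq_mul,
          mul_one, Nat.card_Icc, Nat.add_sub_cancel]
        exact e5)
    simp only [hGe] at e4
    have e6 : ∑ n ∈ (Icc 1 y).filter (fun n : ℕ => ∀ i, Y < v i n ∧ v i n ≤ x),
        ((if ∀ i, Rough z (v i n) then (1 : ℝ) else 0) - Pm) = (RG.card : ℝ) - Pm * Gd.card := by
      rw [sum_sub_distrib, ← sum_filter, sum_const, sum_const, nsmul_eq_mul, nsmul_eq_mul,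
        mul_one, mul_comm Pm]
    rw [e6] at e4
    exact e4
  -- logarithms
  set t : ℝ := 2 * r * (W * (l / L)) with ht
  have ht0 : 0 ≤ t := by positivity
  have e7 : ∀ n ∈ RG, 1 / L ^ r ≤ ∏ i, 1 / Real.log (v i n) ∧
      ∏ i, 1 / Real.log (v i n) ≤ 1 / L ^ r * (1 + t) := by
    intro n hn
    rw [hRG, mem_filter, hGd', mem_filter] at hn
    refine prod_log_bounds W hL.le (h9 x hx8) (fun i => Real.log (v i n)) fun i => ?_
    have e8 := hn.1.2 i
    have e9 : (x : ℝ) / L ^ W ≤ v i n := by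
      have e10 : (x : ℝ) / L ^ W < Y + 1 := Int.lt_floor_add_one _
      have e11 : ((Y + 1 : ℤ) : ℝ) ≤ v i n := by exact_mod_cast e8.1
      push_cast at e11
      linarith
    have hx0 : (0 : ℝ) < x := by exact_mod_cast (by omega : 0 < x)
    have e12 : (0 : ℝ) < v i n := lt_of_lt_of_le (by positivity) e9
    constructor
    · calc L - W * l = Real.log (x / L ^ W) := by
            rw [Real.log_div hx0.ne' (by positivity), Real.log_pow]
        _ ≤ Real.log (v i n) := Real.log_le_log (by positivity) e9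
    · exact Real.log_le_log e12 (by exact_mod_cast e8.2)
  -- splitting the main term
  set R0 := (Icc 1 y).filter (fun n : ℕ => ∀ i, 2 ≤ v i n ∧ v i n ≤ x ∧ Rough z (v i n))
    with hR0
  set T0 : ℝ := ∑ n ∈ R0, ∏ i, 1 / Real.log (v i n) with hT0
  set T1 : ℝ := ∑ n ∈ RG, ∏ i, 1 / Real.log (v i n) with hT1
  have e13 : |N1 - Vi z ^ r * T0| ≤ K / L ^ V := by
    rw [sum_ip x (Icc 1 y) v, sum_lz x z (Icc 1 y) v] at e1
    exact e1
  have hRGR0 : RG ⊆ R0 := by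
    intro n hn
    rw [hRG, mem_filter, hGd', mem_filter] at hn
    rw [hR0, mem_filter]
    exact ⟨hn.1.1, fun i => ⟨by have := (hn.1.2 i).1; omega, (hn.1.2 i).2, hn.2 i⟩⟩
  have hterm0 : ∀ n ∈ R0, 0 ≤ ∏ i, 1 / Real.log (v i n) ∧ ∏ i, 1 / Real.log (v i n) ≤ 2 ^ r := by
    intro n hn
    rw [hR0, mem_filter] at hn
    have e14 : ∀ i, 0 ≤ 1 / Real.log (v i n) ∧ 1 / Real.log (v i n) ≤ 2 := by
      intro i
      have e15 : (2 : ℝ) ≤ v i n := by exact_mod_cast (hn.2 i).1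
      have e16 : Real.log 2 ≤ Real.log (v i n) := Real.log_le_log (by norm_num) e15
      have e17 := Real.log_two_gt_d9
      refine ⟨by positivity, ?_⟩
      rw [div_le_iff₀ (by linarith)]
      linarith
    refine ⟨prod_nonneg fun i _ => (e14 i).1, ?_⟩
    calc ∏ i, 1 / Real.log (v i n) ≤ ∏ _i : Fin r, (2 : ℝ) :=
          prod_le_prod (fun i _ => (e14 i).1) (fun i _ => (e14 i).2)
      _ = 2 ^ r := by rw [prod_const, card_univ, Fintype.card_fin]
  have e18 : T1 ≤ T0 := by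
    rw [hT1, hT0]
    exact sum_le_sum_of_subset_of_nonneg hRGR0 fun n hn _ => (hterm0 n hn).1
  have e19 : T0 ≤ T1 + 2 ^ r * (K / L ^ V) := by
    have e20 : T0 = T1 + ∑ n ∈ R0 \ RG, ∏ i, 1 / Real.log (v i n) := by
      rw [hT0, hT1, add_comm, sum_sdiff hRGR0]
    rw [e20]
    have e21 : ∑ n ∈ R0 \ RG, ∏ i, 1 / Real.log (v i n) ≤ ∑ _n ∈ R0 \ RG, (2 : ℝ) ^ r :=
      sum_le_sum fun n hn => (hterm0 n (mem_sdiff.1 hn).1).2
    rw [sum_const, nsmul_eq_mul] at e21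
    have e22 : R0 \ RG ⊆ Sm := by
      intro n hn
      rw [mem_sdiff, hR0, mem_filter] at hn
      rw [hSm, mem_filter]
      obtain ⟨⟨e23, e24⟩, e25⟩ := hn
      refine ⟨e23, ?_⟩
      by_contra hcon
      push Not at hcon
      apply e25
      rw [hRG, mem_filter, hGd', mem_filter]
      exact ⟨⟨e23, fun i => ⟨hcon i (by have := (e24 i).1; omega), (e24 i).2.1⟩⟩,
        fun i => (e24 i).2.2⟩
    have e26 : ((R0 \ RG).card : ℝ) ≤ Sm.card := by exact_mod_cast card_le_card e22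
    have e27 : ((R0 \ RG).card : ℝ) * 2 ^ r ≤ K / L ^ V * 2 ^ r :=
      mul_le_mul_of_nonneg_right (e26.trans hSmK) h2r.le
    linarith
  have e28 : (RG.card : ℝ) / L ^ r ≤ T1 := by
    rw [hT1, div_eq_mul_one_div, ← nsmul_eq_mul, ← sum_const]
    exact sum_le_sum fun n hn => (e7 n hn).1
  have e29 : T1 ≤ (RG.card : ℝ) / L ^ r * (1 + t) := by
    rw [hT1]
    calc ∑ n ∈ RG, ∏ i, 1 / Real.log (v i n) ≤ ∑ _n ∈ RG, 1 / L ^ r * (1 + t) :=
          sum_le_sum fun n hn => (e7 n hn).2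
      _ = (RG.card : ℝ) / L ^ r * (1 + t) := by
          rw [sum_const, nsmul_eq_mul]
          ring
  -- constants
  set c2 : ℝ := (1 + 2 * r * D) * C1 with hc2
  have hc2one : 1 ≤ c2 := sa_c (by positivity) (by exact_mod_cast hC1)
  have hhalf : (0 : ℝ) < (1 / 2) ^ b := by positivity
  have hhalf1 : ((1 : ℝ) / 2) ^ b ≤ 1 := pow_le_one₀ (by norm_num) (by norm_num)
  have e3' : |(RG.card : ℝ) - Pm * Gd.card| ≤ c2 * (1 / 2) ^ b * K * Pm := by
    refine e3.trans (le_of_eq ?_)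
    rw [hc2]
    ring
  have hGdK : (Gd.card : ℝ) ≤ K := by
    have := card_filter_le (Icc 1 y) (fun n : ℕ => ∀ i, Y < v i n ∧ v i n ≤ x)
    rw [Nat.card_Icc, Nat.add_sub_cancel] at this
    exact_mod_cast this.trans hy
  have hB1R : (C1 : ℝ) * (4 * (1 + 2 * r * D)) * (1 + 2 * r * (W + 1)) ≤ B1 := by
    exact_mod_cast hB1d
  have e32 : (C1 : ℝ) * (4 * (1 + 2 * r * D)) = 4 * c2 := by rw [hc2]; ring
  rw [e32] at hB1R
  have hc20 : 0 ≤ c2 := by linarith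
  have hB1a : c2 ≤ B1 := (sa_b1 hc20 (by positivity)).trans hB1R
  have hB1b' : 2 * c2 * (2 * r * W) ≤ B1 :=
    (sa_b2 hc20 (Nat.cast_nonneg r) (Nat.cast_nonneg W)).trans hB1R
  have etot := short_main r U' K L l (Vi z ^ r) (sing G z) Pm RG.card Gd.card Mset.card N1 T0 T1 c2
    B1 ((1 / 2) ^ b) W (by linarith) hl0 (Nat.cast_nonneg W) hPm0 hPm1 hVr1 hVr2 hSS hKpos e13 e18
    e19 e28 e29 e3' hGdK hMcard hMcard2 hc2one hhalf hhalf1 hB1a hB1b'
  refine ⟨etot.trans (add_le_add le_rfl (div_le_div_of_nonneg_left hKpos.le (by positivity)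
    (pow_le_pow_right₀ hL.le (by omega)))), fun hloc hnum => ?_⟩
  -- existence
  have f1 := h4 x hx3 z hz2 G hGd hloc
  rw [← hLdef, ← hldef] at f1
  have f2 : 2 / L ≤ sing G z := by
    have e8 : 1 / l ^ Cl ≤ sing G z := by
      rw [hSS]
      exact f1.trans (le_mul_of_one_le_left hPm0 hVr1)
    refine le_trans ?_ e8
    rw [div_le_div_iff₀ hL0 (by positivity)]
    linarith [h7 x hx5]
  exact short_exist r U K L l (sing G z) Mset.card N1 B1 ((1 / 2) ^ b) _ (by linarith) hl1 hKpos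
    hhalf (hc2one.trans hB1a) rfl (Nat.cast_nonneg _) etot f2 hnum

end Pool.Agent.H300R2.NB
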