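import Mathlib

/-!
# Brun's pure sieve, abstract form (S4)
-/

namespace Pool.Agent.H300R2.NB

open Finset

namespace BrunAux

/-- Bonferroni for one set. -/
theorem bonf (P b : Finset ℕ) (hb : b ⊆ P) (R : ℕ) :
    |(if b = ∅ then (1 : ℝ) else 0) -
      ∑ T ∈ P.powerset.filter (fun T => T.card ≤ R), (if T ⊆ b then (-1 : ℝ) ^ T.card else 0)| ≤
    ∑ T ∈ P.powerset.filter (fun T => T.card = R + 1), (if T ⊆ b then (1 : ℝ) else 0) := by
  have h1 : ∑ T ∈ P.powerset.filter (fun T => T.card ≤ R), (if T ⊆ b then (-1 : ℝ) ^ T.card else 0) =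
      ∑ k ∈ range (R + 1), (-1 : ℝ) ^ k * (b.card.choose k : ℝ) := by
    rw [← Finset.sum_filter, Finset.filter_filter]
    have e1 : P.powerset.filter (fun T => T.card ≤ R ∧ T ⊆ b) =
        (range (R + 1)).biUnion (fun k => powersetCard k b) := by
      ext T
      simp only [mem_filter, mem_powerset, mem_biUnion, mem_range, mem_powersetCard]
      constructor
      · rintro ⟨_, h2, h3⟩
        exact ⟨T.card, by omega, h3, rfl⟩
      · rintro ⟨k, hk, h3, h4⟩
        exact ⟨h3.trans hb, by omega, h3⟩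
    rw [e1, Finset.sum_biUnion]
    · refine Finset.sum_congr rfl fun k _ => ?_
      rw [Finset.sum_congr rfl (g := fun _ => (-1 : ℝ) ^ k)
        (fun T hT => by rw [(mem_powersetCard.mp hT).2]), Finset.sum_const, card_powersetCard,
        nsmul_eq_mul, mul_comm]
    · intro k _ l _ hkl
      rw [Function.onFun, Finset.disjoint_left]
      intro T h1 h2
      exact hkl ((mem_powersetCard.mp h1).2.symm.trans (mem_powersetCard.mp h2).2)
  have h2 : ∑ T ∈ P.powerset.filter (fun T => T.card = R + 1), (if T ⊆ b then (1 : ℝ) else 0) =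
      (b.card.choose (R + 1) : ℝ) := by
    rw [← Finset.sum_filter, Finset.filter_filter]
    have e1 : P.powerset.filter (fun T => T.card = R + 1 ∧ T ⊆ b) = powersetCard (R + 1) b := by
      ext T
      simp only [mem_filter, mem_powerset, mem_powersetCard]
      constructor
      · rintro ⟨_, h2, h3⟩
        exact ⟨h3, h2⟩
      · rintro ⟨h3, h4⟩
        exact ⟨h3.trans hb, h4, h3⟩
    rw [e1, Finset.sum_const, card_powersetCard, nsmul_eq_mul, mul_one]
  rw [h1, h2]
  rcases Nat.eq_zero_or_pos b.card with h0 | h0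
  · have hbe : b = ∅ := Finset.card_eq_zero.mp h0
    rw [if_pos hbe, h0, Finset.sum_range_succ']
    simp
  · have hbe : b ≠ ∅ := by
      rintro rfl
      simp at h0
    rw [if_neg hbe]
    obtain ⟨n, hn⟩ : ∃ n, b.card = n + 1 := ⟨b.card - 1, by omega⟩
    rw [hn]
    have e2 := Int.alternating_sum_range_choose_eq_choose (n := n) (m := R)
    have e3 : ∑ k ∈ range (R + 1), (-1 : ℝ) ^ k * ((n + 1).choose k : ℝ) =
        (-1 : ℝ) ^ R * (n.choose R : ℝ) := by
      exact_mod_cast e2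
    rw [e3, zero_sub, abs_neg, abs_mul, abs_pow, abs_neg, abs_one, one_pow, one_mul,
      Nat.abs_cast]
    rw [Nat.choose_succ_succ]
    push_cast
    linarith [(Nat.cast_nonneg (n.choose (R + 1)) : (0 : ℝ) ≤ _)]

open Classical in
theorem swap {ι : Type*} (S : Finset ι) (w : ι → ℝ) (bad : ι → Finset ℕ)
    (F : Finset (Finset ℕ)) (c : Finset ℕ → ℝ) :
    ∑ T ∈ F, c T * ∑ i ∈ S.filter (fun i => T ⊆ bad i), w i =
      ∑ i ∈ S, w i * ∑ T ∈ F, (if T ⊆ bad i then c T else 0) := by
  simp_rw [Finset.mul_sum, Finset.sum_filter]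
  rw [Finset.sum_comm]
  refine Finset.sum_congr rfl fun i _ => Finset.sum_congr rfl fun T _ => ?_
  split_ifs
  · ring
  · simp

open Classical in
/-- Bonferroni, weighted. -/
theorem bonfw {ι : Type*} (S : Finset ι) (w : ι → ℝ) (hw : ∀ i ∈ S, 0 ≤ w i) (P : Finset ℕ)
    (bad : ι → Finset ℕ) (hbad : ∀ i ∈ S, bad i ⊆ P) (R : ℕ) :
    |∑ i ∈ S.filter (fun i => bad i = ∅), w i -
      ∑ T ∈ P.powerset.filter (fun T => T.card ≤ R),
        (-1 : ℝ) ^ T.card * ∑ i ∈ S.filter (fun i => T ⊆ bad i), w i| ≤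
    ∑ T ∈ P.powerset.filter (fun T => T.card = R + 1), ∑ i ∈ S.filter (fun i => T ⊆ bad i), w i := by
  have h1 : ∑ i ∈ S.filter (fun i => bad i = ∅), w i =
      ∑ i ∈ S, w i * (if bad i = ∅ then 1 else 0) := by
    rw [Finset.sum_filter]
    refine Finset.sum_congr rfl fun i _ => ?_
    split_ifs <;> simp
  have h3 : ∑ T ∈ P.powerset.filter (fun T => T.card = R + 1),
      ∑ i ∈ S.filter (fun i => T ⊆ bad i), w i = ∑ i ∈ S, w i *
      ∑ T ∈ P.powerset.filter (fun T => T.card = R + 1), (if T ⊆ bad i then (1 : ℝ) else 0) := by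
    rw [← swap S w bad _ (fun _ => 1)]
    simp
  rw [h1, swap S w bad _ (fun T => (-1 : ℝ) ^ T.card), h3, ← Finset.sum_sub_distrib]
  refine (Finset.abs_sum_le_sum_abs _ _).trans (Finset.sum_le_sum fun i hi => ?_)
  rw [← mul_sub, abs_mul, abs_of_nonneg (hw i hi)]
  exact mul_le_mul_of_nonneg_left (bonf P (bad i) (hbad i hi) R) (hw i hi)

open Classical in
/-- The model weights. -/
theorem model (P : Finset ℕ) (g : ℕ → ℝ) (T : Finset ℕ) (hT : T ⊆ P) :
    ∑ b ∈ P.powerset.filter (fun b => T ⊆ b), (∏ p ∈ b, g p) * ∏ p ∈ P \ b, (1 - g p) =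
      ∏ p ∈ T, g p := by
  have h := Finset.prod_add g (fun p => if p ∈ T then 0 else 1 - g p) P
  have h1 : ∏ i ∈ P, (g i + (if i ∈ T then 0 else 1 - g i)) = ∏ p ∈ T, g p := by
    have : ∀ i ∈ P, (g i + (if i ∈ T then 0 else 1 - g i)) = if i ∈ T then g i else 1 := by
      intro i _
      split_ifs <;> ring
    rw [Finset.prod_congr rfl this, Finset.prod_ite_mem, Finset.inter_eq_right.mpr hT]
  rw [h1] at h
  rw [h, Finset.sum_filter]
  refine Finset.sum_congr rfl fun b _ => ?_
  split_ifs with hb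
  · congr 1
    refine Finset.prod_congr rfl fun p hp => ?_
    rw [if_neg]
    intro hpT
    exact (Finset.mem_sdiff.mp hp).2 (hb hpT)
  · obtain ⟨p, hp, hpb⟩ := Finset.not_subset.mp hb
    rw [Finset.prod_eq_zero (i := p) (Finset.mem_sdiff.mpr ⟨hT hp, hpb⟩) (by rw [if_pos hp]),
      mul_zero]

/-- `(s+a)^(k+1) ≥ s^(k+1) + (k+1) a s^k`. -/
theorem pow_ineq (s a : ℝ) (hs : 0 ≤ s) (ha : 0 ≤ a) (k : ℕ) :
    s ^ (k + 1) + (k + 1) * a * s ^ k ≤ (s + a) ^ (k + 1) := by
  induction k with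
  | zero => simp
  | succ k ih =>
    have h1 : 0 ≤ a * ((k + 1) * a * s ^ k) := by positivity
    calc s ^ (k + 1 + 1) + ((k + 1 : ℕ) + 1) * a * s ^ (k + 1)
        ≤ (s ^ (k + 1) + (k + 1) * a * s ^ k) * (s + a) := by
          push_cast
          have e : (s ^ (k + 1) + (k + 1) * a * s ^ k) * (s + a) =
            s ^ (k + 1 + 1) + ((k + 1 : ℝ) + 1) * a * s ^ (k + 1) + a * ((k + 1) * a * s ^ k) := by
            ring
          rw [e]
          linarith
      _ ≤ (s + a) ^ (k + 1) * (s + a) := mul_le_mul_of_nonneg_right ih (by positivity)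
      _ = (s + a) ^ (k + 1 + 1) := by ring

/-- Elementary symmetric sums. -/
theorem esymm_le (P : Finset ℕ) (g : ℕ → ℝ) (hg : ∀ p ∈ P, 0 ≤ g p) (k : ℕ) :
    ∑ T ∈ P.powersetCard k, ∏ p ∈ T, g p ≤ (∑ p ∈ P, g p) ^ k / (k.factorial : ℝ) := by
  induction P using Finset.induction_on generalizing k with
  | empty =>
    rcases k with _ | k
    · simp
    · rw [Finset.powersetCard_eq_empty.mpr (by simp)]
      simp
  | insert a P ha ih =>
    have hgP : ∀ p ∈ P, 0 ≤ g p := fun p hp => hg p (Finset.mem_insert_of_mem hp)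
    have hga : 0 ≤ g a := hg a (Finset.mem_insert_self _ _)
    have hs : 0 ≤ ∑ p ∈ P, g p := Finset.sum_nonneg hgP
    rcases k with _ | k
    · simp
    · rw [Finset.powersetCard_succ_insert ha, Finset.sum_union, Finset.sum_image]
      · have e1 : ∑ T ∈ P.powersetCard k, ∏ p ∈ insert a T, g p =
            g a * ∑ T ∈ P.powersetCard k, ∏ p ∈ T, g p := by
          rw [Finset.mul_sum]
          refine Finset.sum_congr rfl fun T hT => ?_
          rw [Finset.prod_insert]
          exact fun h => ha ((Finset.mem_powersetCard.mp hT).1 h)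
        rw [e1, Finset.sum_insert ha]
        have i1 := ih hgP (k + 1)
        have i2 := mul_le_mul_of_nonneg_left (ih hgP k) hga
        have i3 := pow_ineq (∑ p ∈ P, g p) (g a) hs hga k
        have hf : (0 : ℝ) < (k + 1).factorial := by exact_mod_cast Nat.factorial_pos _
        have hf' : (0 : ℝ) < k.factorial := by exact_mod_cast Nat.factorial_pos _
        have e2 : g a * ((∑ p ∈ P, g p) ^ k / (k.factorial : ℝ)) =
            ((k + 1) * g a * (∑ p ∈ P, g p) ^ k) / ((k + 1).factorial : ℝ) := by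
          rw [Nat.factorial_succ]
          push_cast
          field_simp
        calc _ ≤ (∑ p ∈ P, g p) ^ (k + 1) / ((k + 1).factorial : ℝ) +
              ((k + 1) * g a * (∑ p ∈ P, g p) ^ k) / ((k + 1).factorial : ℝ) := by
              rw [← e2]
              exact add_le_add i1 i2
          _ = ((∑ p ∈ P, g p) ^ (k + 1) + (k + 1) * g a * (∑ p ∈ P, g p) ^ k) /
              ((k + 1).factorial : ℝ) := by rw [add_div]
          _ ≤ ((∑ p ∈ P, g p) + g a) ^ (k + 1) / ((k + 1).factorial : ℝ) :=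
              div_le_div_of_nonneg_right i3 hf.le
          _ = _ := by rw [add_comm (g a)]
      · intro T hT U hU h
        have hT' : a ∉ T := fun h => ha ((Finset.mem_powersetCard.mp hT).1 h)
        have hU' : a ∉ U := fun h => ha ((Finset.mem_powersetCard.mp hU).1 h)
        rw [← Finset.erase_insert hT', ← Finset.erase_insert hU', h]
      · rw [Finset.disjoint_left]
        intro T hT hT'
        obtain ⟨U, _, rfl⟩ := Finset.mem_image.mp hT'
        exact ha ((Finset.mem_powersetCard.mp hT).1 (Finset.mem_insert_self _ _))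

end BrunAux

open BrunAux

open Classical in
/-- S4. Brun's pure sieve, abstract form. -/
theorem brun {ι : Type*} (S : Finset ι) (w : ι → ℝ) (hw : ∀ i ∈ S, 0 ≤ w i) (P : Finset ℕ)
    (bad : ι → Finset ℕ) (hbad : ∀ i ∈ S, bad i ⊆ P) (X : ℝ) (hX : 0 ≤ X) (g : ℕ → ℝ)
    (hg : ∀ p ∈ P, 0 ≤ g p ∧ g p ≤ 1) (R : ℕ) :
    |∑ i ∈ S.filter (fun i => bad i = ∅), w i - X * ∏ p ∈ P, (1 - g p)| ≤
    ∑ T ∈ P.powerset.filter (fun T => T.card ≤ R + 1),
      |∑ i ∈ S.filter (fun i => T ⊆ bad i), w i - X * ∏ p ∈ T, g p| +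
    2 * X * (∑ p ∈ P, g p) ^ (R + 1) / ((R + 1).factorial : ℝ) := by
  set W : Finset ℕ → ℝ := fun T => ∑ i ∈ S.filter (fun i => T ⊆ bad i), w i with hW
  set G : Finset ℕ → ℝ := fun T => ∏ p ∈ T, g p with hG
  have A1 := bonfw S w hw P bad hbad R
  -- the model
  have A2 := bonfw P.powerset (fun b => (∏ p ∈ b, g p) * ∏ p ∈ P \ b, (1 - g p))
    (fun b hb => mul_nonneg
      (Finset.prod_nonneg fun p hp => (hg p (Finset.mem_powerset.mp hb hp)).1)
      (Finset.prod_nonneg fun p hp => by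
        linarith [(hg p (Finset.mem_sdiff.mp hp).1).2])) P (fun b => b)
    (fun b hb => Finset.mem_powerset.mp hb) R
  have B1 : ∑ b ∈ P.powerset.filter (fun b => b = ∅), (∏ p ∈ b, g p) * ∏ p ∈ P \ b, (1 - g p) =
      ∏ p ∈ P, (1 - g p) := by
    have : P.powerset.filter (fun b => b = ∅) = {∅} := by
      ext b
      simp only [mem_filter, mem_powerset, mem_singleton]
      constructor
      · exact fun h => h.2
      · rintro rfl
        exact ⟨Finset.empty_subset _, rfl⟩
    rw [this, Finset.sum_singleton]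
    simp
  rw [B1] at A2
  have B2 : ∑ T ∈ P.powerset.filter (fun T => T.card ≤ R),
        (-1 : ℝ) ^ T.card * ∑ b ∈ P.powerset.filter (fun b => T ⊆ b),
          (∏ p ∈ b, g p) * ∏ p ∈ P \ b, (1 - g p) =
      ∑ T ∈ P.powerset.filter (fun T => T.card ≤ R), (-1 : ℝ) ^ T.card * G T := by
    refine Finset.sum_congr rfl fun T hT => ?_
    rw [model P g T (Finset.mem_powerset.mp (Finset.mem_filter.mp hT).1)]
  have B3 : ∑ T ∈ P.powerset.filter (fun T => T.card = R + 1),
        ∑ b ∈ P.powerset.filter (fun b => T ⊆ b),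
          (∏ p ∈ b, g p) * ∏ p ∈ P \ b, (1 - g p) =
      ∑ T ∈ P.powerset.filter (fun T => T.card = R + 1), G T := by
    refine Finset.sum_congr rfl fun T hT => ?_
    rw [model P g T (Finset.mem_powerset.mp (Finset.mem_filter.mp hT).1)]
  rw [B2, B3] at A2
  have B4 : ∑ T ∈ P.powerset.filter (fun T => T.card = R + 1), G T ≤
      (∑ p ∈ P, g p) ^ (R + 1) / ((R + 1).factorial : ℝ) := by
    have : P.powerset.filter (fun T => T.card = R + 1) = P.powersetCard (R + 1) := by
      ext T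
      simp only [mem_filter, mem_powerset, mem_powersetCard]
    rw [this]
    exact esymm_le P g (fun p hp => (hg p hp).1) (R + 1)
  -- combine
  have C0 : P.powerset.filter (fun T => T.card ≤ R + 1) =
      P.powerset.filter (fun T => T.card ≤ R) ∪ P.powerset.filter (fun T => T.card = R + 1) := by
    ext T
    simp only [mem_filter, mem_powerset, mem_union]
    constructor
    · rintro ⟨h1, h2⟩
      rcases Nat.lt_or_ge R T.card with h | h
      · right; exact ⟨h1, by omega⟩
      · left; exact ⟨h1, h⟩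
    · rintro (⟨h1, h2⟩ | ⟨h1, h2⟩)
      · exact ⟨h1, by omega⟩
      · exact ⟨h1, by omega⟩
  have C1 : Disjoint (P.powerset.filter (fun T => T.card ≤ R))
      (P.powerset.filter (fun T => T.card = R + 1)) := by
    rw [Finset.disjoint_left]
    intro T h1 h2
    have := (Finset.mem_filter.mp h1).2
    have := (Finset.mem_filter.mp h2).2
    omega
  rw [C0, Finset.sum_union C1]
  have C2 : |∑ T ∈ P.powerset.filter (fun T => T.card ≤ R), (-1 : ℝ) ^ T.card * W T -
      X * ∑ T ∈ P.powerset.filter (fun T => T.card ≤ R), (-1 : ℝ) ^ T.card * G T| ≤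
      ∑ T ∈ P.powerset.filter (fun T => T.card ≤ R), |W T - X * G T| := by
    rw [Finset.mul_sum, ← Finset.sum_sub_distrib]
    refine (Finset.abs_sum_le_sum_abs _ _).trans (le_of_eq (Finset.sum_congr rfl fun T _ => ?_))
    rw [show (-1 : ℝ) ^ T.card * W T - X * ((-1 : ℝ) ^ T.card * G T) =
      (-1 : ℝ) ^ T.card * (W T - X * G T) by ring, abs_mul, abs_pow, abs_neg, abs_one, one_pow,
      one_mul]
  have C3 : ∑ T ∈ P.powerset.filter (fun T => T.card = R + 1), W T ≤
      ∑ T ∈ P.powerset.filter (fun T => T.card = R + 1), |W T - X * G T| +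
      X * ∑ T ∈ P.powerset.filter (fun T => T.card = R + 1), G T := by
    rw [Finset.mul_sum, ← Finset.sum_add_distrib]
    refine Finset.sum_le_sum fun T _ => ?_
    linarith [le_abs_self (W T - X * G T)]
  have C4 := mul_le_mul_of_nonneg_left B4 hX
  have C5 := mul_le_mul_of_nonneg_left A2 hX
  rw [← abs_of_nonneg hX, ← abs_mul, abs_of_nonneg hX, mul_sub] at C5
  have C6 : 2 * X * (∑ p ∈ P, g p) ^ (R + 1) / ((R + 1).factorial : ℝ) =
      2 * (X * ((∑ p ∈ P, g p) ^ (R + 1) / ((R + 1).factorial : ℝ))) := by ring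
  rw [C6]
  have C7 : |∑ i ∈ S.filter (fun i => bad i = ∅), w i - X * ∏ p ∈ P, (1 - g p)| ≤
      |∑ i ∈ S.filter (fun i => bad i = ∅), w i -
        ∑ T ∈ P.powerset.filter (fun T => T.card ≤ R), (-1 : ℝ) ^ T.card * W T| +
      |∑ T ∈ P.powerset.filter (fun T => T.card ≤ R), (-1 : ℝ) ^ T.card * W T -
        X * ∑ T ∈ P.powerset.filter (fun T => T.card ≤ R), (-1 : ℝ) ^ T.card * G T| +
      |X * ∏ p ∈ P, (1 - g p) -
        X * ∑ T ∈ P.powerset.filter (fun T => T.card ≤ R), (-1 : ℝ) ^ T.card * G T| := by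
    have := abs_sub_le (∑ i ∈ S.filter (fun i => bad i = ∅), w i)
      (∑ T ∈ P.powerset.filter (fun T => T.card ≤ R), (-1 : ℝ) ^ T.card * W T)
      (X * ∏ p ∈ P, (1 - g p))
    have h2 := abs_sub_le (∑ T ∈ P.powerset.filter (fun T => T.card ≤ R), (-1 : ℝ) ^ T.card * W T)
      (X * ∑ T ∈ P.powerset.filter (fun T => T.card ≤ R), (-1 : ℝ) ^ T.card * G T)
      (X * ∏ p ∈ P, (1 - g p))
    rw [abs_sub_comm (X * ∏ p ∈ P, (1 - g p))
      (X * ∑ T ∈ P.powerset.filter (fun T => T.card ≤ R), (-1 : ℝ) ^ T.card * G T)]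
    linarith
  simp only [hW, hG] at C2 C3 C4 C5 C6 C7 A1 ⊢
  linarith

end Pool.Agent.H300R2.NB
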