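import Mathlib

/-!
Choice of the truncation parameter in Brun's pure sieve.
-/

namespace Pool.Agent.H300R2.NB

namespace ChoiceAux

/-- the numerical inequalities in terms of `l = log log x` -/
theorem core (κ E U : ℕ) (l : ℝ) (C0 n : ℕ) (hC0 : 9 * κ * (E + 3) + U + 1 ≤ C0)
    (hn1 : (C0 : ℝ) * l ≤ n) (hn2 : (n : ℝ) ≤ C0 * l + 1) (hl1 : 1 ≤ l)
    (hl2 : 2 * (2 * ((C0 : ℝ) + 1) * (κ + 1 + E) + U) ≤ l) :
    ((κ + 1 : ℕ) : ℝ) ^ n ≤ Real.exp l ^ ((C0 + 1) * (κ + 1)) ∧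
    ∀ z : ℕ, (z : ℝ) ≤ Real.exp l ^ E →
    (∀ s : ℝ, 0 ≤ s → s ≤ κ * (1 + Real.log (z + 1)) →
      s ^ n / (n.factorial : ℝ) ≤ 1 / Real.exp l ^ U) ∧
    (((κ + 1) * (z + 1) : ℕ) : ℝ) ^ (2 * n) * Real.exp l ^ U ≤ Real.exp (l ^ 3 / 2) := by
  have hκ : (0 : ℝ) ≤ κ := Nat.cast_nonneg _
  have hE : (0 : ℝ) ≤ E := Nat.cast_nonneg _
  have hU : (0 : ℝ) ≤ U := Nat.cast_nonneg _
  have hCn : (0 : ℝ) ≤ C0 := Nat.cast_nonneg _
  have hn0 : (0 : ℝ) ≤ n := Nat.cast_nonneg _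
  have hl0 : 0 ≤ l := by linarith
  have hC0' : 9 * (κ : ℝ) * (E + 3) + U + 1 ≤ C0 := by exact_mod_cast hC0
  -- log (κ + 1) ≤ κ
  have hκ1 : ((κ + 1 : ℕ) : ℝ) ≤ Real.exp κ := by
    push_cast
    exact Real.add_one_le_exp _
  refine ⟨?_, ?_⟩
  · calc ((κ + 1 : ℕ) : ℝ) ^ n ≤ Real.exp κ ^ n := by gcongr
      _ = Real.exp (n * κ) := by rw [← Real.exp_nat_mul]
      _ ≤ Real.exp (((C0 + 1) * (κ + 1) : ℕ) * l) := by
          apply Real.exp_le_exp.2
          push_cast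
          have h1 : (n : ℝ) * κ ≤ (C0 * l + 1) * κ := by gcongr
          have h2 : (C0 * l + 1) * κ ≤ (C0 * l + l) * (κ + 1) := by
            gcongr
            linarith
          linarith
      _ = Real.exp l ^ ((C0 + 1) * (κ + 1)) := by rw [← Real.exp_nat_mul]
  · intro z hz
    have hz0 : (0 : ℝ) ≤ z := Nat.cast_nonneg _
    have hLE : 1 ≤ Real.exp l ^ E := one_le_pow₀ (Real.one_le_exp hl0)
    -- z + 1 ≤ exp (1 + E l)
    have hz1 : (z : ℝ) + 1 ≤ Real.exp (1 + E * l) := by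
      rw [Real.exp_add, Real.exp_nat_mul]
      have h2 : (2 : ℝ) ≤ Real.exp 1 := by
        have := Real.add_one_le_exp (1 : ℝ)
        linarith
      nlinarith
    have hlog : Real.log (z + 1) ≤ 1 + E * l := by
      rw [Real.log_le_iff_le_exp (by linarith)]
      exact hz1
    refine ⟨?_, ?_⟩
    · intro s hs0 hs
      have hs1 : s ≤ κ * (E + 2) * l := by
        have h1 : (κ : ℝ) * (1 + Real.log (z + 1)) ≤ κ * (1 + (1 + E * l)) := by gcongr
        have h2 : (κ : ℝ) * (1 + (1 + E * l)) ≤ κ * ((E + 2) * l) := by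
          gcongr
          nlinarith
        linarith
      have he := Real.pow_div_factorial_le_exp (Real.exp 1 * s) (by positivity) n
      rw [mul_pow, ← Real.exp_nat_mul, mul_one] at he
      have he3 : Real.exp 1 ≤ 3 := by
        have := Real.exp_one_lt_d9
        linarith
      have h3 : Real.exp 1 * s - n ≤ -(U * l) := by
        have h4 : Real.exp 1 * s ≤ 3 * (κ * (E + 2) * l) :=
          mul_le_mul he3 hs1 hs0 (by norm_num)
        have h5 : (9 * (κ : ℝ) * (E + 3) + U + 1) * l ≤ C0 * l := by gcongr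
        have h6 : 0 ≤ (κ : ℝ) * l := by positivity
        have h7 : 0 ≤ (κ : ℝ) * E * l := by positivity
        nlinarith
      have h8 : s ^ n / (n.factorial : ℝ) ≤ Real.exp (Real.exp 1 * s - n) := by
        rw [Real.exp_sub, le_div_iff₀ (Real.exp_pos _)]
        calc s ^ n / (n.factorial : ℝ) * Real.exp n = Real.exp n * s ^ n / (n.factorial : ℝ) := by
              ring
          _ ≤ Real.exp (Real.exp 1 * s) := he
      calc s ^ n / (n.factorial : ℝ) ≤ Real.exp (Real.exp 1 * s - n) := h8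
        _ ≤ Real.exp (-(U * l)) := Real.exp_le_exp.2 h3
        _ = 1 / Real.exp l ^ U := by
            rw [Real.exp_neg, Real.exp_nat_mul, one_div]
    · have hb : (((κ + 1) * (z + 1) : ℕ) : ℝ) ≤ Real.exp (κ + (1 + E * l)) := by
        push_cast
        rw [Real.exp_add]
        have : (κ : ℝ) + 1 ≤ Real.exp κ := Real.add_one_le_exp _
        exact mul_le_mul this hz1 (by positivity) (Real.exp_nonneg _)
      calc (((κ + 1) * (z + 1) : ℕ) : ℝ) ^ (2 * n) * Real.exp l ^ U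
          ≤ Real.exp (κ + (1 + E * l)) ^ (2 * n) * Real.exp l ^ U := by gcongr
        _ = Real.exp ((2 * n : ℕ) * (κ + (1 + E * l)) + U * l) := by
            rw [← Real.exp_nat_mul, ← Real.exp_nat_mul, ← Real.exp_add]
        _ ≤ Real.exp (l ^ 3 / 2) := by
            apply Real.exp_le_exp.2
            push_cast
            have h1 : 2 * (n : ℝ) * (κ + (1 + E * l)) ≤ 2 * (C0 * l + l) * ((κ + 1 + E) * l) := by
              have h2 : (κ : ℝ) + (1 + E * l) ≤ (κ + 1 + E) * l := by nlinarith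
              have h3 : 2 * (n : ℝ) ≤ 2 * (C0 * l + l) := by linarith
              exact mul_le_mul h3 h2 (by positivity) (by positivity)
            have h4 : (U : ℝ) * l ≤ U * l ^ 2 := by
              have h6 : l ≤ l ^ 2 := by nlinarith
              exact mul_le_mul_of_nonneg_left h6 hU
            have h5 : (2 * (2 * ((C0 : ℝ) + 1) * (κ + 1 + E) + U)) * l ^ 2 ≤ l * l ^ 2 := by
              gcongr
            nlinarith

end ChoiceAux

/-- S5. Choice of the truncation parameter. -/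
theorem choice (κ E U : ℕ) : ∃ (R : ℕ → ℕ) (C x0 : ℕ), ∀ x : ℕ, x0 ≤ x →
    ((κ + 1 : ℕ) : ℝ) ^ (R x + 1) ≤ Real.log x ^ C ∧ ∀ z : ℕ, (z : ℝ) ≤ Real.log x ^ E →
    (∀ s : ℝ, 0 ≤ s → s ≤ κ * (1 + Real.log (z + 1)) →
      s ^ (R x + 1) / ((R x + 1).factorial : ℝ) ≤ 1 / Real.log x ^ U) ∧
    (((κ + 1) * (z + 1) : ℕ) : ℝ) ^ (2 * (R x + 1)) * Real.log x ^ U ≤
      Real.exp (Real.log (Real.log x) ^ 3 / 2) := by
  set C0 : ℕ := 9 * κ * (E + 3) + U + 1 with hC0
  have ht : Filter.Tendsto (fun x : ℕ => Real.log (Real.log (x : ℝ))) Filter.atTop Filter.atTop :=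
    (Real.tendsto_log_atTop.comp Real.tendsto_log_atTop).comp tendsto_natCast_atTop_atTop
  have h1 := ht.eventually (Filter.eventually_ge_atTop
    (max 1 (2 * (2 * ((C0 : ℝ) + 1) * (κ + 1 + E) + U))))
  obtain ⟨x0, hx0⟩ := Filter.eventually_atTop.1 h1
  refine ⟨fun x => ⌊(C0 : ℝ) * Real.log (Real.log x)⌋₊, (C0 + 1) * (κ + 1), x0, ?_⟩
  intro x hx
  have h2 := hx0 x hx
  have hl1 : 1 ≤ Real.log (Real.log x) := (le_max_left _ _).trans h2
  have hl2 := (le_max_right _ _).trans h2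
  have hL0 : 0 ≤ Real.log (x : ℝ) := Real.log_natCast_nonneg x
  have hL1 : Real.log (x : ℝ) ≠ 0 := by
    intro h
    rw [h, Real.log_zero] at hl1
    linarith
  have hL : Real.log (x : ℝ) = Real.exp (Real.log (Real.log x)) :=
    (Real.exp_log (lt_of_le_of_ne hL0 (Ne.symm hL1))).symm
  set l := Real.log (Real.log (x : ℝ)) with hl
  rw [hL]
  have hCl : 0 ≤ (C0 : ℝ) * l := by positivity
  have := ChoiceAux.core κ E U l C0 (⌊(C0 : ℝ) * l⌋₊ + 1) le_rfl
    (by push_cast; exact (Nat.lt_floor_add_one _).le)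
    (by push_cast; have := Nat.floor_le hCl; linarith) hl1 hl2
  exact this

end Pool.Agent.H300R2.NB
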