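import Pool.Agent.H300R2.BH.MajSM2

/-!
Primes in tuples of functions `T_i(n) + a_i n^{j_i} + b_i` along arbitrary sets of integers `n`:
definitions.
-/

namespace Pool.Agent.H300R2.NB

open Finset Polynomial
open Pool.Agent.H469R2.NK (e)
open Pool.Agent.H442R2.EHI (nint lis)
open Pool.Agent.H300R2.BH

/-- `m` has no prime factor `p ≤ z` -/
def Rough (z : ℕ) (m : ℤ) : Prop := ∀ p : ℕ, p.Prime → p ≤ z → ¬ (p : ℤ) ∣ m

/-- `∏_{p ≤ z} (1 - 1/p)⁻¹` -/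
noncomputable def Vi (z : ℕ) : ℝ := ∏ p ∈ (Icc 1 z).filter Nat.Prime, (1 - 1 / (p : ℝ))⁻¹

open Classical in
/-- sieve model of the indicator function of the primes in `[2, x]` -/
noncomputable def lz (x z : ℕ) (m : ℤ) : ℝ :=
  if 2 ≤ m ∧ m ≤ x ∧ Rough z m then Vi z / Real.log m else 0

/-- indicator function of the primes in `[2, x]` -/
noncomputable def ip (x : ℕ) (m : ℤ) : ℝ := if m ≤ x ∧ m.toNat.Prime then 1 else 0

/-- primes minus model -/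
noncomputable def dz (x z n : ℕ) : ℂ := ((ip x n - lz x z n : ℝ) : ℂ)

/-- Liouville function on `[1, x]`, extended by zero -/
noncomputable def lx (x : ℕ) (m : ℤ) : ℝ :=
  if 1 ≤ m ∧ m ≤ x then (-1 : ℝ) ^ (ArithmeticFunction.cardFactors m.toNat) else 0

/-- `min(A, 1/(2t))` -/
noncomputable def mn (A t : ℝ) : ℝ := if A * (2 * t) ≤ 1 then A else 1 / (2 * t)

/-- `∑_{n, n' ≤ K} min(A, 1/(2‖(n^j - n'^j) α‖))` -/
noncomputable def MM (j K : ℕ) (A α : ℝ) : ℝ :=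
  ∑ n ∈ Icc 1 K, ∑ n' ∈ Icc 1 K,
    mn A (nint (((((n ^ j : ℕ) : ℤ) - ((n' ^ j : ℕ) : ℤ) : ℤ) : ℝ) * α))

/-- `1/log m` on `[2, x]` -/
noncomputable def lg (x : ℕ) (m : ℤ) : ℝ := if 2 ≤ m ∧ m ≤ x then 1 / Real.log m else 0

/-- number of residues `n` modulo `p` with `p ∣ ∏ F_i(n)` -/
noncomputable def om {r : ℕ} (F : Fin r → ℤ[X]) (p : ℕ) : ℕ :=
  ((range p).filter (fun n : ℕ => ∃ i, (p : ℤ) ∣ (F i).eval (n : ℤ))).card

/-- number of residues `n ≠ 0` modulo `p` with `p ∣ ∏ F_i(n)` -/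
noncomputable def omp {r : ℕ} (F : Fin r → ℤ[X]) (p : ℕ) : ℕ :=
  ((Ico 1 p).filter (fun n : ℕ => ∃ i, (p : ℤ) ∣ (F i).eval (n : ℤ))).card

end Pool.Agent.H300R2.NB
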