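import Pool.Agent.H300R2.NB.BHorn

/-!
Dickson-Hardy-Littlewood for almost all tuples of linear forms, full singular series.
-/

namespace Pool.Agent.H300R2.NB

open Finset Polynomial Filter Topology

/-- the linear forms `a_i X + b_i` -/
noncomputable def lin {r : ℕ} (p : Fin r → ℤ × ℤ) : Fin r → ℤ[X] :=
  fun i => C (p i).1 * X + C (p i).2

lemma sing_nonneg {r : ℕ} (G : Fin r → ℤ[X]) (N : ℕ) : 0 ≤ sing G N := by
  unfold sing
  refine prod_nonneg fun q hq => ?_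
  rw [mem_filter] at hq
  have hq2 : (2 : ℝ) ≤ q := by exact_mod_cast hq.2.two_le
  have hq0 : (0 : ℝ) < q := by linarith
  have h1 : (om G q : ℝ) / q ≤ 1 := by
    rw [div_le_one hq0]
    exact_mod_cast om_le G q
  have h2 : 1 / (q : ℝ) ≤ 1 := by
    rw [div_le_one hq0]
    linarith
  have h3 : 0 ≤ (1 - 1 / (q : ℝ))⁻¹ := inv_nonneg.2 (by linarith)
  exact mul_nonneg (pow_nonneg h3 _) (by linarith)

/-- convergence of the singular series of linear forms -/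
lemma ss_limit (r C V : ℕ) (hV : 1 ≤ V) : ∃ Z x0 : ℕ, ∀ x : ℕ, x0 ≤ x → ∀ z : ℕ,
    Real.log x ^ Z ≤ z → ∀ p : Fin r → ℤ × ℤ, (∀ i, (p i).1 ≠ 0) →
    (∀ i k, i ≠ k → (p i).1 * (p k).2 ≠ (p k).1 * (p i).2) →
    (∀ i, ∀ q : ℕ, q.Prime → z < q → ¬ ((q : ℤ) ∣ (p i).1 ∧ (q : ℤ) ∣ (p i).2)) →
    (∀ i, |(p i).1| ≤ (x : ℤ) ^ C ∧ |(p i).2| ≤ (x : ℤ) ^ C) →
    ∃ 𝔖 : ℝ, Tendsto (fun N => sing (lin p) N) atTop (𝓝 𝔖) ∧ 0 ≤ 𝔖 ∧
      |𝔖 - sing (lin p) z| ≤ sing (lin p) z * (1 / Real.log x ^ V) := by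
  obtain ⟨Z2, x2, h2⟩ := tail_lin r C V
  refine ⟨Z2, max x2 3, fun x hx z hz p hn1 hn2 hn3 hmem => ?_⟩
  have hx2 : x2 ≤ x := (le_max_left _ _).trans hx
  have hL : 1 < Real.log x := log_gt_one ((le_max_right _ _).trans hx)
  have hL0 : 0 < Real.log x := by linarith
  set G := lin p with hG
  -- tails
  have htail : ∀ x' : ℕ, x ≤ x' → ∀ z' : ℕ, z ≤ z' → Real.log x' ^ Z2 ≤ z' → ∀ N, z' ≤ N →
      |sing G N - sing G z'| ≤ sing G z' * (1 / Real.log x' ^ V) := by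
    intro x' hxx' z' hzz' hz' N hN
    have e2 := h2 x' (hx2.trans hxx') z' hz' (fun i => (p i).1) (fun i => (p i).2) hn1
      (fun i k hik => hn2 i k hik)
      (fun i q hq hzq hd => hn3 i q hq (lt_of_le_of_lt hzz' hzq) hd)
      (fun i => by
        have e3 : (x : ℤ) ^ C ≤ (x' : ℤ) ^ C := pow_le_pow_left₀ (by positivity)
          (by exact_mod_cast hxx') _
        exact ⟨(hmem i).1.trans e3, (hmem i).2.trans e3⟩) N hN
    rw [SS_split G hN]
    have e4 := tail_abs _ (sing G z') _ e2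
    rw [abs_of_nonneg (sing_nonneg G z')] at e4
    exact e4
  have htz : ∀ N, z ≤ N → |sing G N - sing G z| ≤ sing G z * (1 / Real.log x ^ V) :=
    fun N hN => htail x le_rfl z le_rfl hz N hN
  have hbd : ∀ N, z ≤ N → sing G N ≤ 2 * sing G z := by
    intro N hN
    have e2 := (abs_le.1 (htz N hN)).2
    have e3 : 1 / Real.log x ^ V ≤ 1 := by
      rw [div_le_one (by positivity)]
      exact one_le_pow₀ hL.le
    have e4 : sing G z * (1 / Real.log x ^ V) ≤ sing G z :=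
      mul_le_of_le_one_right (sing_nonneg G z) e3
    linarith
  have hcau : CauchySeq (fun N => sing G N) := by
    rw [Metric.cauchySeq_iff']
    intro ε hε
    have hs0 := sing_nonneg G z
    set M : ℝ := 2 * sing G z + 1 with hM
    have hM0 : 0 < M := by positivity
    obtain ⟨y, hy⟩ := ev_log_ge (max 2 (M / ε + 1))
    set x' : ℕ := max x y with hx'
    have e2 := hy x' (le_max_right _ _)
    have e3 : 2 ≤ Real.log x' := (le_max_left _ _).trans e2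
    have e4 : M / ε + 1 ≤ Real.log x' := (le_max_right _ _).trans e2
    refine ⟨max z ⌈Real.log x' ^ Z2⌉₊, fun n hn => ?_⟩
    rw [Real.dist_eq]
    have e5 := htail x' (le_max_left _ _) (max z ⌈Real.log x' ^ Z2⌉₊) (le_max_left _ _)
      ((Nat.le_ceil _).trans (by exact_mod_cast le_max_right _ _)) n hn
    refine lt_of_le_of_lt e5 ?_
    have e6 := hbd (max z ⌈Real.log x' ^ Z2⌉₊) (le_max_left _ _)
    have e7 : 1 / Real.log x' ^ V ≤ 1 / Real.log x' := by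
      refine one_div_le_one_div_of_le (by linarith) ?_
      calc Real.log x' = Real.log x' ^ 1 := (pow_one _).symm
        _ ≤ Real.log x' ^ V := pow_le_pow_right₀ (by linarith) hV
    have e8 : M / ε < Real.log x' := by linarith
    have e9 : M < Real.log x' * ε := (div_lt_iff₀ hε).1 e8
    calc sing G (max z ⌈Real.log x' ^ Z2⌉₊) * (1 / Real.log x' ^ V)
        ≤ M * (1 / Real.log x') := mul_le_mul (by linarith) e7 (by positivity) hM0.le
      _ < ε := by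
          rw [mul_one_div, div_lt_iff₀ (by linarith)]
          linarith
  obtain ⟨𝔖, h𝔖⟩ := cauchySeq_tendsto_of_complete hcau
  refine ⟨𝔖, h𝔖, ge_of_tendsto' h𝔖 (fun N => sing_nonneg G N), ?_⟩
  have e3 : Tendsto (fun N => |sing G N - sing G z|) atTop (𝓝 |𝔖 - sing G z|) :=
    (h𝔖.sub_const _).abs
  refine le_of_tendsto e3 ?_
  rw [eventually_atTop]
  exact ⟨z, fun N hN => htz N hN⟩

lemma logS_abs {r : ℕ} (x y : ℕ) (v : Fin r → ℕ → ℤ) : |logS x (Icc 1 y) v| ≤ y * 2 ^ r := by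
  unfold logS
  refine (abs_sum_le_sum_abs _ _).trans ?_
  have e6 : ∀ n ∈ (Icc 1 y).filter (fun n : ℕ => ∀ i, 2 ≤ v i n ∧ v i n ≤ x),
      |∏ i, 1 / Real.log (v i n)| ≤ (2 : ℝ) ^ r := by
    intro n hn
    rw [mem_filter] at hn
    rw [abs_prod]
    calc ∏ i, |1 / Real.log (v i n)| ≤ ∏ _i : Fin r, (2 : ℝ) := by
          refine prod_le_prod (fun i _ => abs_nonneg _) fun i _ => ?_
          have e7 : (2 : ℝ) ≤ v i n := by exact_mod_cast (hn.2 i).1
          have e8 : Real.log 2 ≤ Real.log (v i n) := Real.log_le_log (by norm_num) e7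
          have e9 := Real.log_two_gt_d9
          rw [abs_of_nonneg (by positivity), div_le_iff₀ (by linarith)]
          linarith
      _ = 2 ^ r := by rw [prod_const, card_univ, Fintype.card_fin]
  refine (sum_le_sum e6).trans ?_
  rw [sum_const, nsmul_eq_mul]
  refine mul_le_mul_of_nonneg_right ?_ (by positivity)
  have := card_filter_le (Icc 1 y) (fun n : ℕ => ∀ i, 2 ≤ v i n ∧ v i n ≤ x)
  rw [Nat.card_Icc, Nat.add_sub_cancel] at this
  exact_mod_cast this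

lemma cntI_le {r : ℕ} (x y : ℕ) (v : Fin r → ℕ → ℤ) : cntI x (Icc 1 y) v ≤ y := by
  unfold cntI
  have := card_filter_le (Icc 1 y) (fun n : ℕ => ∀ i, 0 < v i n ∧ v i n ≤ x)
  rw [Nat.card_Icc, Nat.add_sub_cancel] at this
  exact_mod_cast this

lemma cntI_nonneg {r : ℕ} (x : ℕ) (S : Finset ℕ) (v : Fin r → ℕ → ℤ) : 0 ≤ cntI x S v :=
  Nat.cast_nonneg _

/-- arithmetic for the first formula -/
lemma dk1 (U r : ℕ) (K L N1 S s 𝔖 : ℝ) (hL : 2 + 2 ^ r ≤ L) (hK : 0 ≤ K) (hs : s ≤ L ^ r)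
    (hs0 : 0 ≤ s) (hS : |S| ≤ K * 2 ^ r) (h1 : |N1 - s * S| ≤ K / L ^ (U + 1))
    (h2 : |𝔖 - s| ≤ s * (1 / L ^ (U + r + 3))) : |N1 - 𝔖 * S| ≤ K / L ^ U := by
  have h2r : (0 : ℝ) < 2 ^ r := by positivity
  have hL0 : 0 < L := by linarith
  have e11 : |(s - 𝔖) * S| ≤ K / L ^ (U + 1) := by
    rw [abs_mul, abs_sub_comm]
    calc |𝔖 - s| * |S| ≤ (L ^ r * (1 / L ^ (U + r + 3))) * (K * 2 ^ r) := by
          refine mul_le_mul (h2.trans ?_) hS (abs_nonneg _) (by positivity)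
          exact mul_le_mul_of_nonneg_right hs (by positivity)
      _ = K / L ^ (U + 1) * (2 ^ r / L ^ 2) := by
          rw [show U + r + 3 = (U + 1) + r + 2 by ring, pow_add, pow_add]
          field_simp
      _ ≤ K / L ^ (U + 1) * 1 := by
          refine mul_le_mul_of_nonneg_left ?_ (by positivity)
          rw [div_le_one (by positivity)]
          nlinarith
      _ = K / L ^ (U + 1) := mul_one _
  have e12 : |N1 - 𝔖 * S| ≤ K / L ^ (U + 1) + K / L ^ (U + 1) := by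
    have e13 : N1 - 𝔖 * S = (N1 - s * S) + (s - 𝔖) * S := by ring
    rw [e13]
    exact (abs_add_le _ _).trans (add_le_add h1 e11)
  refine e12.trans ?_
  rw [pow_succ, ← two_mul, div_mul_eq_div_div, ← mul_div_assoc, div_le_iff₀ hL0]
  have : 0 ≤ K / L ^ U := by positivity
  nlinarith

/-- arithmetic for the second formula -/
lemma dk2 (U r : ℕ) (K L N1 M s 𝔖 B1 ε : ℝ) (hL : 2 + 2 ^ r ≤ L) (hK : 0 ≤ K) (hs : s ≤ L ^ r)
    (hs0 : 0 ≤ s) (hM0 : 0 ≤ M) (hM : M ≤ K) (hB1 : 0 ≤ B1) (hε : 0 ≤ ε)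
    (h1 : |N1 - s * (M / L ^ r)| ≤ B1 * ε * (s * (K / L ^ r)) + K / L ^ (U + 1))
    (h2 : |𝔖 - s| ≤ s * (1 / L ^ (U + r + 3))) :
    |N1 - 𝔖 * (M / L ^ r)| ≤ (2 * B1) * ε * (𝔖 * (K / L ^ r)) + K / L ^ U := by
  have h2r : (0 : ℝ) < 2 ^ r := by positivity
  have hL0 : 0 < L := by linarith
  have hL2 : 2 ≤ L := by linarith
  have hL1 : 1 ≤ L := by linarith
  have hs2 : s ≤ 2 * 𝔖 := by
    have e1 := (abs_le.1 h2).1
    have e2 : s * (1 / L ^ (U + r + 3)) ≤ s * (1 / 2) := by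
      refine mul_le_mul_of_nonneg_left (one_div_le_one_div_of_le (by norm_num) ?_) hs0
      calc (2 : ℝ) ≤ L ^ 1 := by rw [pow_one]; linarith
        _ ≤ L ^ (U + r + 3) := pow_le_pow_right₀ hL1 (by omega)
    linarith
  have e3 : B1 * ε * (s * (K / L ^ r)) ≤ (2 * B1) * ε * (𝔖 * (K / L ^ r)) := by
    calc B1 * ε * (s * (K / L ^ r)) ≤ B1 * ε * ((2 * 𝔖) * (K / L ^ r)) := by gcongr
      _ = (2 * B1) * ε * (𝔖 * (K / L ^ r)) := by ring
  have e11 : |(s - 𝔖) * (M / L ^ r)| ≤ K / L ^ (U + 1) := by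
    rw [abs_mul, abs_sub_comm, abs_of_nonneg (by positivity : 0 ≤ M / L ^ r)]
    calc |𝔖 - s| * (M / L ^ r) ≤ (L ^ r * (1 / L ^ (U + r + 3))) * (K / L ^ r) := by
          refine mul_le_mul (h2.trans ?_) (by gcongr) (by positivity) (by positivity)
          exact mul_le_mul_of_nonneg_right hs (by positivity)
      _ = K / L ^ (U + 1) * (1 / L ^ (r + 2)) := by
          rw [show U + r + 3 = (U + 1) + (r + 2) by ring, pow_add]
          field_simp
      _ ≤ K / L ^ (U + 1) * 1 := by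
          refine mul_le_mul_of_nonneg_left ?_ (by positivity)
          rw [div_le_one (by positivity)]
          exact one_le_pow₀ hL1
      _ = K / L ^ (U + 1) := mul_one _
  have e13 : N1 - 𝔖 * (M / L ^ r) = (N1 - s * (M / L ^ r)) + (s - 𝔖) * (M / L ^ r) := by ring
  have e12 : |N1 - 𝔖 * (M / L ^ r)| ≤ B1 * ε * (s * (K / L ^ r)) + K / L ^ (U + 1) +
      K / L ^ (U + 1) := by
    rw [e13]
    exact (abs_add_le _ _).trans (add_le_add h1 e11)
  have e14 : K / L ^ (U + 1) + K / L ^ (U + 1) ≤ K / L ^ U := by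
    rw [pow_succ, ← two_mul, div_mul_eq_div_div, ← mul_div_assoc, div_le_iff₀ hL0]
    have : 0 ≤ K / L ^ U := by positivity
    nlinarith
  linarith

/-- Dickson-Hardy-Littlewood for almost all tuples of linear forms -/
theorem dickson (r C U : ℕ) : ∃ B x0 : ℕ, ∀ x : ℕ, x0 ≤ x → ∀ K : ℕ, Real.log x ^ B ≤ K →
    ∀ A X : Fin r → ℕ, (∀ i, Real.log x ^ B ≤ A i ∧
      (x : ℝ) ≤ A i * (K : ℝ) * Real.log x ^ C ∧ (x : ℝ) ≤ X i * Real.log x ^ C) →
    ∀ (A0 B0 : Fin r → ℤ), (∀ i, |A0 i| + A i ≤ (x : ℤ) ^ C ∧ |B0 i| + X i ≤ (x : ℤ) ^ C) →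
    ∃ Ex : Finset (Fin r → ℤ × ℤ),
      (Ex.card : ℝ) ≤ (∏ i, ((A i : ℝ) * X i)) / Real.log x ^ U ∧
      ∀ p ∈ Bx A0 B0 A X, p ∉ Ex →
      ∃ 𝔖 : ℝ, Tendsto (fun N => sing (lin p) N) atTop (𝓝 𝔖) ∧ 0 ≤ 𝔖 ∧ ∀ y : ℕ, y ≤ K →
      (Real.exp (Real.log (Real.log x) ^ 3) ≤ K →
        |cntP x (Icc 1 y) (vals (lin p)) - 𝔖 * logS x (Icc 1 y) (vals (lin p))| ≤
          K / Real.log x ^ U) ∧
      (∀ b : ℕ, B ≤ b → Real.log x ^ (B * b) ≤ K →
        |cntP x (Icc 1 y) (vals (lin p)) -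
          𝔖 * (cntI x (Icc 1 y) (vals (lin p)) / Real.log x ^ r)| ≤
        B * ((1 / 2) ^ b + Real.log (Real.log x) / Real.log x) *
          (𝔖 * (K / Real.log x ^ r)) + K / Real.log x ^ U ∧
        ((∀ q : ℕ, q.Prime → om (lin p) q < q) →
          4 * B * ((1 / 2) ^ b + Real.log (Real.log x) / Real.log x) * K ≤
            cntI x (Icc 1 y) (vals (lin p)) →
          cntI x (Icc 1 y) (vals (lin p)) / Real.log x ^ (r + 1) ≤
            cntP x (Icc 1 y) (vals (lin p)))) := by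
  classical
  set V : ℕ := U + 1 with hV
  obtain ⟨B2, h1⟩ := bh r 1 C V
  obtain ⟨Z2, x2, h2⟩ := ss_limit r C (U + r + 3) (by omega)
  obtain ⟨Z3, x3, h3⟩ := few_degenerate r C V
  set B3 : ℕ := max B2 (max Z2 Z3) with hB3
  obtain ⟨B1, x1, h1⟩ := h1 (B3 + 1)
  obtain ⟨x4, h4⟩ := ev_log_ge (2 + 2 ^ r)
  obtain ⟨x5, h5⟩ := ev_loglog_pow 2
  obtain ⟨x6, h6⟩ := Vi_upper (B3 + 1)
  obtain ⟨x7, h7⟩ : ∃ x7 : ℕ, ∀ x : ℕ, x7 ≤ x → Real.log x ^ (C + B3) ≤ x := by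
    have h := (isLittleO_log_rpow_atTop (show (0 : ℝ) < 1 / (C + B3 + 1 : ℕ) by positivity)).def
      (show (0 : ℝ) < 1 by norm_num)
    have h' := tendsto_natCast_atTop_atTop.eventually h
    rw [eventually_atTop] at h'
    obtain ⟨x1, hx1⟩ := h'
    refine ⟨max x1 3, fun x hx => ?_⟩
    have e1 := hx1 x ((le_max_left _ _).trans hx)
    have e2 := log_gt_one ((le_max_right _ _).trans hx)
    have hx0 : (0 : ℝ) ≤ x := Nat.cast_nonneg _
    rw [one_mul, Real.norm_of_nonneg (by linarith), Real.norm_of_nonneg (by positivity)] at e1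
    calc Real.log x ^ (C + B3) ≤ Real.log x ^ (C + B3 + 1) :=
          pow_le_pow_right₀ e2.le (by omega)
      _ ≤ ((x : ℝ) ^ (1 / ((C + B3 + 1 : ℕ) : ℝ))) ^ (C + B3 + 1) :=
          pow_le_pow_left₀ (by linarith) e1 _
      _ = x := by
          rw [← Real.rpow_natCast, ← Real.rpow_mul hx0, one_div, inv_mul_cancel₀ (by positivity),
            Real.rpow_one]
  refine ⟨max B3 (2 * B1), max (max (max x1 x2) (max x3 x4)) (max (max x5 x6) (max x7 3)), ?_⟩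
  intro x hx K hK A X hA A0 B0 hAB
  simp only [max_le_iff] at hx
  obtain ⟨⟨⟨hx1, hx2⟩, hx3, hx4⟩, ⟨hx5, hx6⟩, hx7, hx8⟩ := hx
  have hL : 1 < Real.log x := log_gt_one hx8
  have hL2 : 2 + 2 ^ r ≤ Real.log x := h4 x hx4
  have h2r : (0 : ℝ) < 2 ^ r := by positivity
  have hL0 : 0 < Real.log x := by linarith
  have hKpos : (0 : ℝ) < K := lt_of_lt_of_le (by positivity) hK
  set z : ℕ := ⌈Real.log x ^ B3⌉₊ with hz
  have hz1 : Real.log x ^ B3 ≤ z := Nat.le_ceil _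
  have hz2 : (z : ℝ) ≤ Real.log x ^ (B3 + 1) := by
    have e1 : (z : ℝ) < Real.log x ^ B3 + 1 := Nat.ceil_lt_add_one (by positivity)
    have e2 : (1 : ℝ) ≤ Real.log x ^ B3 := one_le_pow₀ hL.le
    rw [pow_succ]
    nlinarith
  have hXB : ∀ i, Real.log x ^ B3 ≤ X i := by
    intro i
    have e1 := (hA i).2.2
    have e2 := h7 x hx7
    rw [pow_add] at e2
    have e3 : (0 : ℝ) < Real.log x ^ C := by positivity
    have e4 : Real.log x ^ B3 * Real.log x ^ C ≤ X i * Real.log x ^ C := by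
      rw [mul_comm]
      exact e2.trans e1
    exact le_of_mul_le_mul_right e4 e3
  have hAB' : ∀ i, Real.log x ^ B3 ≤ A i := fun i =>
    (pow_le_pow_right₀ hL.le (le_max_left _ _)).trans (hA i).1
  have hKB : Real.log x ^ B3 ≤ K := (pow_le_pow_right₀ hL.le (le_max_left _ _)).trans hK
  obtain ⟨Ex1, hEx1, hE1⟩ := h1 x hx1 z K
    ((pow_le_pow_right₀ hL.le (le_max_left _ _)).trans hz1) hz2
    ((pow_le_pow_right₀ hL.le (le_max_left _ _)).trans hKB) (fun _ => 1) A X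
    (fun i => ⟨le_rfl, le_rfl, (pow_le_pow_right₀ hL.le (le_max_left _ _)).trans (hAB' i), by
      rw [pow_one]; exact (hA i).2.1, (hA i).2.2⟩) A0 B0 (fun _ => 0) (fun i => by simp)
  have hE2 := h3 x hx3 z ((pow_le_pow_right₀ hL.le
    ((le_max_right Z2 Z3).trans (le_max_right _ _))).trans hz1) A X A0 B0
    (fun i => ⟨(pow_le_pow_right₀ hL.le
      ((le_max_right Z2 Z3).trans (le_max_right _ _))).trans (hAB' i),
      (pow_le_pow_right₀ hL.le
      ((le_max_right Z2 Z3).trans (le_max_right _ _))).trans (hXB i), (hAB i).1⟩)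
  set Ex2 := (Fintype.piFinset
      (fun i => Ioc (A0 i) (A0 i + A i) ×ˢ Ioc (B0 i) (B0 i + X i))).filter
      (fun p => (∃ i, (p i).1 = 0) ∨ (∃ i k, i ≠ k ∧ (p i).1 * (p k).2 = (p k).1 * (p i).2) ∨
        ∃ i, ∃ q : ℕ, q.Prime ∧ z < q ∧ (q : ℤ) ∣ (p i).1 ∧ (q : ℤ) ∣ (p i).2) with hEx2
  refine ⟨Ex1 ∪ Ex2, ?_, ?_⟩
  · have e1 : ((Ex1 ∪ Ex2).card : ℝ) ≤ (∏ i, ((A i : ℝ) * X i)) / Real.log x ^ V +
        (∏ i, ((A i : ℝ) * X i)) / Real.log x ^ V := by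
      have : ((Ex1 ∪ Ex2).card : ℝ) ≤ Ex1.card + Ex2.card := by exact_mod_cast card_union_le _ _
      exact this.trans (add_le_add hEx1 (by convert hE2))
    refine e1.trans ?_
    have e2 : 0 ≤ ∏ i, ((A i : ℝ) * X i) := prod_nonneg fun i _ => by positivity
    rw [hV, pow_succ, ← two_mul, div_mul_eq_div_div, ← mul_div_assoc, div_le_iff₀ hL0]
    have : 0 ≤ (∏ i, ((A i : ℝ) * X i)) / Real.log x ^ U := by positivity
    nlinarith
  intro p hp hpE
  rw [mem_union, not_or] at hpE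
  obtain ⟨hp1, hp2⟩ := hpE
  have e1 := hE1 p hp hp1
  rw [hEx2, mem_filter, not_and, not_or, not_or] at hp2
  obtain ⟨hn1, hn2, hn3⟩ := hp2 hp
  push Not at hn1 hn2 hn3
  have hG' : pen (fun _ => (0 : ℤ[X])) (fun _ => 1) p = lin p := by
    funext i
    simp [pen, lin]
  rw [hG'] at e1
  have hmem : ∀ i, |(p i).1| ≤ (x : ℤ) ^ C ∧ |(p i).2| ≤ (x : ℤ) ^ C := by
    intro i
    have e2 := (Fintype.mem_piFinset.1 hp) i
    rw [mem_product, mem_Ioc, mem_Ioc] at e2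
    obtain ⟨⟨e3, e4⟩, e5, e6⟩ := e2
    have e7 := (hAB i).1
    have e8 := (hAB i).2
    have e9 := abs_le.1 (le_refl |A0 i|)
    have e10 := abs_le.1 (le_refl |B0 i|)
    have e11 : (0 : ℤ) ≤ A i := by positivity
    have e12 : (0 : ℤ) ≤ X i := by positivity
    constructor
    · rw [abs_le]; constructor <;> linarith [e9.1, e9.2]
    · rw [abs_le]; constructor <;> linarith [e10.1, e10.2]
  have hz2' : Real.log x ^ Z2 ≤ z := (pow_le_pow_right₀ hL.le
    ((le_max_left Z2 Z3).trans (le_max_right _ _))).trans hz1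
  obtain ⟨𝔖, h𝔖, h𝔖0, hlim⟩ := h2 x hx2 z hz2' p hn1 (fun i k hik => hn2 i k hik)
    (fun i q hq hzq hd => hn3 i q hq hzq hd.1 hd.2) hmem
  have hVi := h6 x hx6 z hz2
  have hs : sing (lin p) z ≤ Real.log x ^ r := by
    refine (le_abs_self _).trans ((SS_abs_le (lin p) z hVi.1).trans
      (pow_le_pow_left₀ (by linarith [hVi.1]) ?_ _))
    have e11 := h5 x hx5
    have e12 : 0 ≤ Real.log (Real.log x) ^ 2 := sq_nonneg _
    linarith [hVi.2.1]
  refine ⟨𝔖, h𝔖, h𝔖0, fun y hy => ?_⟩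
  have e2 := e1 y hy
  have hyK : (y : ℝ) ≤ K := by exact_mod_cast hy
  refine ⟨fun hKexp => ?_, fun b hb hKb => ?_⟩
  · refine dk1 U r K _ _ _ (sing (lin p) z) 𝔖 hL2 hKpos.le hs (sing_nonneg _ _) ?_
      (e2.1 hKexp) hlim
    exact (logS_abs x y _).trans (mul_le_mul_of_nonneg_right hyK (by positivity))
  have hb1 : B1 ≤ b := le_trans (by omega) ((le_max_right B3 (2 * B1)).trans hb)
  have hKb1 : Real.log x ^ (B1 * b) ≤ K := by
    refine (pow_le_pow_right₀ hL.le (Nat.mul_le_mul_right b ?_)).trans hKb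
    exact le_trans (by omega) (le_max_right B3 (2 * B1))
  have e3 := e2.2 b hb1 hKb1
  have hε : 0 ≤ (1 / 2) ^ b + Real.log (Real.log x) / Real.log x := by
    have : 0 ≤ Real.log (Real.log x) := Real.log_nonneg hL.le
    positivity
  have hBB : (2 * (B1 : ℝ)) ≤ ((max B3 (2 * B1) : ℕ) : ℝ) := by
    have : 2 * B1 ≤ max B3 (2 * B1) := le_max_right _ _
    exact_mod_cast this
  refine ⟨?_, fun hadm hnum => ?_⟩
  · have e4 := dk2 U r K _ _ _ (sing (lin p) z) 𝔖 B1 _ hL2 hKpos.le hs (sing_nonneg _ _)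
      (cntI_nonneg x _ _) ((cntI_le x y _).trans hyK) (Nat.cast_nonneg B1) hε e3.1 hlim
    refine e4.trans (add_le_add ?_ le_rfl)
    gcongr
  · refine e3.2 (fun q hq _ => hadm q hq) (le_trans ?_ hnum)
    have e5 : (B1 : ℝ) ≤ ((max B3 (2 * B1) : ℕ) : ℝ) := by
      have : (0 : ℝ) ≤ B1 := Nat.cast_nonneg _
      linarith
    gcongr

end Pool.Agent.H300R2.NB
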