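import Pool.Agent.H300R2.NB.Defs
import Pool.Agent.H300R2.NB.Brun
import Pool.Agent.H300R2.NB.Choice

/-!
Sieved values of polynomials (S11).
-/

namespace Pool.Agent.H300R2.NB

open Finset Polynomial

namespace EC

open Classical in
lemma om_le {r : ℕ} (F : Fin r → ℤ[X]) (D p : ℕ) (hp : p.Prime)
    (hD : ∀ i, (F i).natDegree ≤ D) (h : om F p ≠ p) : om F p ≤ r * D := by
  have := Fact.mk hp
  -- reduction mod p is nonzero
  have hnz : ∀ i, (F i).map (Int.castRingHom (ZMod p)) ≠ 0 := by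
    intro i hi
    apply h
    unfold om
    rw [filter_true_of_mem, card_range]
    intro n _
    refine ⟨i, ?_⟩
    rw [← ZMod.intCast_zmod_eq_zero_iff_dvd]
    have h1 : ((F i).map (Int.castRingHom (ZMod p))).eval ((n : ℤ) : ZMod p) = 0 := by
      rw [hi, eval_zero]
    rw [← h1, Polynomial.eval_map, Polynomial.eval₂_at_intCast]
    simp
  have hset : ∀ i, ((range p).filter (fun n : ℕ => (p : ℤ) ∣ (F i).eval (n : ℤ))).card ≤ D := by
    intro i
    have h1 : (((range p).filter (fun n : ℕ => (p : ℤ) ∣ (F i).eval (n : ℤ))).image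
        (fun n : ℕ => (n : ZMod p))).card =
        ((range p).filter (fun n : ℕ => (p : ℤ) ∣ (F i).eval (n : ℤ))).card := by
      apply card_image_of_injOn
      intro a ha b hb hab
      have ha' := (mem_filter.mp (mem_coe.mp ha)).1
      have hb' := (mem_filter.mp (mem_coe.mp hb)).1
      have h2 := (ZMod.natCast_eq_natCast_iff' a b p).mp hab
      rwa [Nat.mod_eq_of_lt (mem_range.mp ha'), Nat.mod_eq_of_lt (mem_range.mp hb')] at h2
    rw [← h1]
    calc _ ≤ ((F i).map (Int.castRingHom (ZMod p))).roots.toFinset.card := by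
          apply card_le_card
          intro u hu
          obtain ⟨n, hn, rfl⟩ := mem_image.mp hu
          rw [Multiset.mem_toFinset, mem_roots (hnz i), IsRoot]
          have h3 := (mem_filter.mp hn).2
          rw [← ZMod.intCast_zmod_eq_zero_iff_dvd] at h3
          have h4 : ((n : ℕ) : ZMod p) = ((n : ℤ) : ZMod p) := by push_cast; rfl
          rw [h4, Polynomial.eval_map, Polynomial.eval₂_at_intCast]
          simpa using h3
      _ ≤ Multiset.card ((F i).map (Int.castRingHom (ZMod p))).roots := Multiset.toFinset_card_le _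
      _ ≤ ((F i).map (Int.castRingHom (ZMod p))).natDegree := card_roots' _
      _ ≤ (F i).natDegree := natDegree_map_le
      _ ≤ D := hD i
  unfold om
  calc _ ≤ ((univ : Finset (Fin r)).biUnion
        (fun i => (range p).filter (fun n : ℕ => (p : ℤ) ∣ (F i).eval (n : ℤ)))).card := by
        apply card_le_card
        intro n hn
        obtain ⟨h1, i, h2⟩ := mem_filter.mp hn
        rw [mem_biUnion]
        exact ⟨i, mem_univ _, mem_filter.mpr ⟨h1, h2⟩⟩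
    _ ≤ ∑ i : Fin r, ((range p).filter (fun n : ℕ => (p : ℤ) ∣ (F i).eval (n : ℤ))).card :=
        card_biUnion_le
    _ ≤ ∑ _i : Fin r, D := sum_le_sum fun i _ => hset i
    _ = r * D := by simp

lemma om_le' {r : ℕ} (F : Fin r → ℤ[X]) (p : ℕ) : om F p ≤ p := by
  unfold om
  refine (card_filter_le _ _).trans ?_
  rw [card_range]

lemma dvd_congr (G : ℤ[X]) (p m n : ℕ) (h : m ≡ n [MOD p]) :
    ((p : ℤ) ∣ G.eval (m : ℤ)) ↔ ((p : ℤ) ∣ G.eval (n : ℤ)) := by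
  have h1 : (p : ℤ) ∣ (n : ℤ) - m := (Nat.modEq_iff_dvd).mp h
  have h2 : (p : ℤ) ∣ G.eval (n : ℤ) - G.eval (m : ℤ) := h1.trans (Polynomial.sub_dvd_eval_sub _ _ _)
  constructor
  · intro h3
    have := dvd_add h2 h3
    rwa [sub_add_cancel] at this
  · intro h3
    have := dvd_sub h3 h2
    rwa [sub_sub_cancel] at this

lemma card_crt {m n : ℕ} (h : m.Coprime n) (hm : 0 < m) (hn : 0 < n) (P P1 P2 : ℕ → Prop)
    [DecidablePred P] [DecidablePred P1] [DecidablePred P2]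
    (hP : ∀ a, P a ↔ (P1 (a % m) ∧ P2 (a % n))) :
    ((range (m * n)).filter P).card = ((range m).filter P1).card * ((range n).filter P2).card := by
  rw [← card_product]
  apply Finset.card_bij (fun a _ => (a % m, a % n))
  · intro a ha
    obtain ⟨_, h2⟩ := mem_filter.mp ha
    obtain ⟨h3, h4⟩ := (hP a).mp h2
    exact mem_product.mpr ⟨mem_filter.mpr ⟨mem_range.mpr (Nat.mod_lt _ hm), h3⟩,
      mem_filter.mpr ⟨mem_range.mpr (Nat.mod_lt _ hn), h4⟩⟩
  · intro a ha b hb hab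
    have ha1 := mem_range.mp (mem_filter.mp ha).1
    have hb1 := mem_range.mp (mem_filter.mp hb).1
    simp only [Prod.mk.injEq] at hab
    have h1 : a ≡ b [MOD m * n] := (Nat.modEq_and_modEq_iff_modEq_mul h).mp ⟨hab.1, hab.2⟩
    exact Nat.ModEq.eq_of_lt_of_lt h1 ha1 hb1
  · rintro ⟨u, v⟩ huv
    obtain ⟨hu, hv⟩ := mem_product.mp huv
    obtain ⟨hu1, hu2⟩ := mem_filter.mp hu
    obtain ⟨hv1, hv2⟩ := mem_filter.mp hv
    obtain ⟨k, hk1, hk2⟩ := Nat.chineseRemainder h u v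
    have e1 : k % (m * n) % m = u := by
      rw [Nat.mod_mul_right_mod]
      have := hk1
      unfold Nat.ModEq at this
      rw [this, Nat.mod_eq_of_lt (mem_range.mp hu1)]
    have e2 : k % (m * n) % n = v := by
      rw [Nat.mod_mul_left_mod]
      have := hk2
      unfold Nat.ModEq at this
      rw [this, Nat.mod_eq_of_lt (mem_range.mp hv1)]
    refine ⟨k % (m * n), mem_filter.mpr ⟨mem_range.mpr (Nat.mod_lt _ (Nat.mul_pos hm hn)), ?_⟩, ?_⟩
    · rw [hP, e1, e2]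
      exact ⟨hu2, hv2⟩
    · simp only [e1, e2]

open Classical in
/-- residues `a` mod `d` with `p ∣ ∏ F_i(a)` for all `p ∣ d` -/
noncomputable def Ld {r : ℕ} (F : Fin r → ℤ[X]) (d : ℕ) : Finset ℕ :=
  (range d).filter (fun a => ∀ p ∈ d.primeFactors, ∃ i, (p : ℤ) ∣ (F i).eval (a : ℤ))

open Classical in
lemma Ld_mul {r : ℕ} (F : Fin r → ℤ[X]) (m n : ℕ) (h : m.Coprime n) (hm : 0 < m) (hn : 0 < n) :
    (Ld F (m * n)).card = (Ld F m).card * (Ld F n).card := by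
  unfold Ld
  apply card_crt h hm hn
  intro a
  rw [Nat.Coprime.primeFactors_mul h]
  have d1 : (∀ p ∈ m.primeFactors, ∃ i, (p : ℤ) ∣ (F i).eval ((a % m : ℕ) : ℤ)) ↔
      (∀ p ∈ m.primeFactors, ∃ i, (p : ℤ) ∣ (F i).eval (a : ℤ)) := by
    refine forall₂_congr fun p hp => exists_congr fun i => dvd_congr _ _ _ _ ?_
    exact (Nat.mod_modEq a m).of_dvd (Nat.dvd_of_mem_primeFactors hp)
  have d2 : (∀ p ∈ n.primeFactors, ∃ i, (p : ℤ) ∣ (F i).eval ((a % n : ℕ) : ℤ)) ↔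
      (∀ p ∈ n.primeFactors, ∃ i, (p : ℤ) ∣ (F i).eval (a : ℤ)) := by
    refine forall₂_congr fun p hp => exists_congr fun i => dvd_congr _ _ _ _ ?_
    exact (Nat.mod_modEq a n).of_dvd (Nat.dvd_of_mem_primeFactors hp)
  rw [d1, d2]
  constructor
  · intro h3
    exact ⟨fun p hp => h3 p (mem_union_left _ hp), fun p hp => h3 p (mem_union_right _ hp)⟩
  · rintro ⟨h2, h4⟩ p hp
    rcases mem_union.mp hp with h5 | h5
    · exact h2 p h5
    · exact h4 p h5

open Classical in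
lemma Ld_prime {r : ℕ} (F : Fin r → ℤ[X]) (p : ℕ) (hp : p.Prime) :
    (Ld F p).card = om F p := by
  unfold Ld om
  congr 1
  ext a
  simp only [mem_filter, mem_range, hp.primeFactors, mem_singleton, forall_eq]

lemma Ld_prod {r : ℕ} (F : Fin r → ℤ[X]) (T : Finset ℕ) (hT : ∀ p ∈ T, p.Prime) :
    (Ld F (∏ p ∈ T, p)).card = ∏ p ∈ T, om F p := by
  classical
  induction T using Finset.induction_on with
  | empty =>
    simp [Ld]
  | insert p T hp ih =>
    have hT' : ∀ q ∈ T, q.Prime := fun q hq => hT q (mem_insert_of_mem hq)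
    have hpp := hT p (mem_insert_self _ _)
    rw [prod_insert hp, prod_insert hp, Ld_mul, Ld_prime F p hpp, ih hT']
    · apply Nat.Coprime.prod_right
      intro q hq
      exact (Nat.coprime_primes hpp (hT' q hq)).mpr (fun h => hp (h ▸ hq))
    · exact hpp.pos
    · exact prod_pos fun q hq => (hT' q hq).pos

lemma primeFactors_prod' (T : Finset ℕ) (hT : ∀ p ∈ T, p.Prime) :
    (∏ p ∈ T, p).primeFactors = T := Nat.primeFactors_prod hT

/-- an arithmetic progression in `[1, y]` -/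
lemma count_ap (y d a : ℕ) (hd : 0 < d) (ha : a < d) :
    |(((Icc 1 y).filter (fun n => n % d = a)).card : ℝ) - (y : ℝ) / d| ≤ 1 := by
  have h0 : (Icc 1 y).filter (fun n => n % d = a) = (Ioc 0 y).filter (fun n => n ≡ a [MOD d]) := by
    ext n
    simp only [mem_filter, mem_Icc, mem_Ioc]
    unfold Nat.ModEq
    rw [Nat.mod_eq_of_lt ha]
    constructor
    · rintro ⟨⟨h1, h2⟩, h3⟩; exact ⟨⟨by omega, h2⟩, h3⟩
    · rintro ⟨⟨h1, h2⟩, h3⟩; exact ⟨⟨by omega, h2⟩, h3⟩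
  rw [h0]
  have h1 := Nat.Ioc_filter_modEq_card 0 y hd a
  have h2 : ((((Ioc 0 y).filter (fun n => n ≡ a [MOD d])).card : ℤ) : ℝ) =
      ((max (⌊((y : ℕ) - (a : ℕ) : ℚ) / (d : ℚ)⌋ - ⌊(((0 : ℕ) : ℚ) - (a : ℕ)) / (d : ℚ)⌋) 0 : ℤ) : ℝ) := by
    rw [h1]
  have h3 : ((((Ioc 0 y).filter (fun n => n ≡ a [MOD d])).card : ℤ) : ℝ) =
      (((Ioc 0 y).filter (fun n => n ≡ a [MOD d])).card : ℝ) := by push_cast; rfl
  rw [← h3, h2]
  obtain ⟨u, hu⟩ : ∃ u : ℚ, u = ((y : ℕ) - (a : ℕ) : ℚ) / (d : ℚ) := ⟨_, rfl⟩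
  obtain ⟨v, hv⟩ : ∃ v : ℚ, v = (((0 : ℕ) : ℚ) - (a : ℕ)) / (d : ℚ) := ⟨_, rfl⟩
  rw [← hu, ← hv]
  have huv : u - v = (y : ℚ) / d := by rw [hu, hv]; push_cast; ring
  have huvr : (u : ℝ) - v = (y : ℝ) / d := by
    have : ((u - v : ℚ) : ℝ) = (((y : ℚ) / d : ℚ) : ℝ) := by rw [huv]
    push_cast at this
    exact this
  have hy : (0 : ℝ) ≤ (y : ℝ) / d := by positivity
  have a1 : ((⌊u⌋ : ℤ) : ℝ) ≤ u := by exact_mod_cast Int.floor_le u
  have a2 : (u : ℝ) < (⌊u⌋ : ℤ) + 1 := by exact_mod_cast Int.lt_floor_add_one u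
  have b1 : ((⌊v⌋ : ℤ) : ℝ) ≤ v := by exact_mod_cast Int.floor_le v
  have b2 : (v : ℝ) < (⌊v⌋ : ℤ) + 1 := by exact_mod_cast Int.lt_floor_add_one v
  push_cast
  rw [abs_le]
  rcases le_total ((⌊u⌋ : ℝ) - ⌊v⌋) 0 with h | h
  · rw [max_eq_right h]
    constructor <;> linarith
  · rw [max_eq_left h]
    constructor <;> linarith

open Classical in
lemma count_T {r : ℕ} (F : Fin r → ℤ[X]) (y : ℕ) (T : Finset ℕ) (hT : ∀ p ∈ T, p.Prime) :
    |(((Icc 1 y).filter (fun n : ℕ => ∀ p ∈ T, ∃ i, (p : ℤ) ∣ (F i).eval (n : ℤ))).card : ℝ) -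
      y * ∏ p ∈ T, ((om F p : ℝ) / (p : ℝ))| ≤ ∏ p ∈ T, (om F p : ℝ) := by
  obtain ⟨d, hd⟩ : ∃ d : ℕ, d = ∏ p ∈ T, p := ⟨_, rfl⟩
  have hd0 : 0 < d := by rw [hd]; exact prod_pos fun q hq => (hT q hq).pos
  have hpf : d.primeFactors = T := by rw [hd]; exact primeFactors_prod' T hT
  have hLc : ((Ld F d).card : ℝ) = ∏ p ∈ T, (om F p : ℝ) := by
    rw [hd, Ld_prod F T hT]
    push_cast
    rfl
  have hprod : (y : ℝ) * ∏ p ∈ T, ((om F p : ℝ) / (p : ℝ)) = ∑ _a ∈ Ld F d, (y : ℝ) / d := by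
    rw [sum_const, nsmul_eq_mul, hLc, prod_div_distrib, hd]
    push_cast
    ring
  obtain ⟨N, hN⟩ : ∃ N : Finset ℕ, N = (Icc 1 y).filter
    (fun n : ℕ => ∀ p ∈ T, ∃ i, (p : ℤ) ∣ (F i).eval (n : ℤ)) := ⟨_, rfl⟩
  rw [← hN, hprod, ← hLc]
  have h3 : N.card = ∑ a ∈ Ld F d, (N.filter (fun n => n % d = a)).card := by
    apply card_eq_sum_card_fiberwise
    intro n hn
    have h4 := mem_coe.mp hn
    rw [hN] at h4
    obtain ⟨_, h6⟩ := mem_filter.mp h4
    rw [mem_coe, Ld, mem_filter, mem_range]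
    refine ⟨Nat.mod_lt _ hd0, ?_⟩
    intro p hp
    rw [hpf] at hp
    obtain ⟨i, hi⟩ := h6 p hp
    refine ⟨i, (dvd_congr _ _ _ _ ?_).mpr hi⟩
    refine (Nat.mod_modEq n d).of_dvd ?_
    rw [hd]
    exact dvd_prod_of_mem _ hp
  have h4 : ∀ a ∈ Ld F d, N.filter (fun n => n % d = a) = (Icc 1 y).filter (fun n => n % d = a) := by
    intro a ha
    rw [Ld, mem_filter, mem_range] at ha
    obtain ⟨ha1, ha3⟩ := ha
    ext n
    simp only [hN, mem_filter]
    constructor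
    · rintro ⟨⟨h5, _⟩, h7⟩
      exact ⟨h5, h7⟩
    · rintro ⟨h5, h8⟩
      refine ⟨⟨h5, ?_⟩, h8⟩
      intro p hp
      obtain ⟨i, hi⟩ := ha3 p (by rw [hpf]; exact hp)
      refine ⟨i, (dvd_congr _ _ _ _ ?_).mp hi⟩
      have h9 : a ≡ n [MOD d] := by
        unfold Nat.ModEq
        rw [h8, Nat.mod_eq_of_lt ha1]
      refine h9.of_dvd ?_
      rw [hd]
      exact dvd_prod_of_mem _ hp
  rw [h3]
  push_cast
  rw [← sum_sub_distrib]
  refine (abs_sum_le_sum_abs _ _).trans ?_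
  calc _ ≤ ∑ _a ∈ Ld F d, (1 : ℝ) := by
        apply sum_le_sum
        intro a ha
        rw [h4 a ha]
        have ha1 : a < d := mem_range.mp (mem_filter.mp ha).1
        exact count_ap y d a hd0 ha1
    _ = _ := by rw [sum_const, nsmul_eq_mul, mul_one]

lemma prod_injOn (P : Finset ℕ) (hP : ∀ p ∈ P, p.Prime) (k : ℕ) :
    Set.InjOn (fun T : Finset ℕ => ∏ p ∈ T, p) (P.powerset.filter (fun T => T.card ≤ k)) := by
  intro T hT T' hT' h
  have h1 := mem_powerset.mp (mem_filter.mp (mem_coe.mp hT)).1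
  have h2 := mem_powerset.mp (mem_filter.mp (mem_coe.mp hT')).1
  rw [← primeFactors_prod' T (fun p hp => hP p (h1 hp)),
    ← primeFactors_prod' T' (fun p hp => hP p (h2 hp))]
  simp only at h
  rw [h]

lemma prod_le_D0 (z k : ℕ) (P T : Finset ℕ) (hP : ∀ p ∈ P, p.Prime ∧ p ≤ z)
    (hT : T ∈ P.powerset.filter (fun T => T.card ≤ k)) : (∏ p ∈ T, p) ∈ Icc 1 ((z + 1) ^ k) := by
  obtain ⟨h1, h2⟩ := mem_filter.mp hT
  rw [mem_powerset] at h1
  rw [mem_Icc]
  constructor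
  · exact Nat.succ_le_of_lt (prod_pos fun p hp => (hP p (h1 hp)).1.pos)
  · calc ∏ p ∈ T, p ≤ ∏ _p ∈ T, (z + 1) :=
        prod_le_prod' fun p hp => (hP p (h1 hp)).2.trans (Nat.le_succ _)
      _ = (z + 1) ^ T.card := by rw [prod_const]
      _ ≤ (z + 1) ^ k := Nat.pow_le_pow_right (Nat.succ_pos _) h2

lemma card_TT (z k : ℕ) (P : Finset ℕ) (hP : ∀ p ∈ P, p.Prime ∧ p ≤ z) :
    (P.powerset.filter (fun T => T.card ≤ k)).card ≤ (z + 1) ^ k := by
  have h1 : ((P.powerset.filter (fun T => T.card ≤ k)).image (fun T : Finset ℕ => ∏ p ∈ T, p)).card =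
      (P.powerset.filter (fun T => T.card ≤ k)).card :=
    card_image_of_injOn (prod_injOn P (fun p hp => (hP p hp).1) k)
  rw [← h1]
  calc _ ≤ (Icc 1 ((z + 1) ^ k)).card := by
        apply card_le_card
        intro d hd
        obtain ⟨T, hT, rfl⟩ := mem_image.mp hd
        exact prod_le_D0 z k P T hP hT
    _ = (z + 1) ^ k := by rw [Nat.card_Icc]; omega

lemma sum_inv_le (z : ℕ) (P : Finset ℕ) (hP : P ⊆ Icc 1 z) :
    ∑ p ∈ P, 1 / (p : ℝ) ≤ 1 + Real.log ((z : ℝ) + 1) := by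
  have h1 : ∑ p ∈ P, 1 / (p : ℝ) ≤ ∑ p ∈ Icc 1 z, 1 / (p : ℝ) :=
    sum_le_sum_of_subset_of_nonneg hP fun i _ _ => by positivity
  have h2 : ∑ p ∈ Icc 1 z, 1 / (p : ℝ) = ((harmonic z : ℚ) : ℝ) := by
    rw [harmonic_eq_sum_Icc]
    push_cast
    exact sum_congr rfl fun i _ => by rw [one_div]
  have h3 := harmonic_le_one_add_log z
  have h4 : Real.log (z : ℝ) ≤ Real.log ((z : ℝ) + 1) := by
    rcases Nat.eq_zero_or_pos z with h | h
    · simp [h]
    · exact Real.log_le_log (by exact_mod_cast h) (by linarith)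
  linarith

open Classical in
lemma caseA {r : ℕ} (F : Fin r → ℤ[X]) (y z p0 : ℕ) (hp0 : p0.Prime) (hz : p0 ≤ z)
    (h : om F p0 = p0) :
    ((Icc 1 y).filter (fun n : ℕ => ∀ i, Rough z ((F i).eval (n : ℤ)))).card = 0 ∧
    ∏ p ∈ (Icc 1 z).filter Nat.Prime, (1 - (om F p : ℝ) / (p : ℝ)) = 0 := by
  constructor
  · rw [card_eq_zero, filter_eq_empty_iff]
    intro n _ h3
    have h4 : n % p0 ∈ range p0 := mem_range.mpr (Nat.mod_lt _ hp0.pos)
    have h5 : (range p0).filter (fun n : ℕ => ∃ i, (p0 : ℤ) ∣ (F i).eval (n : ℤ)) = range p0 := by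
      apply eq_of_subset_of_card_le (filter_subset _ _)
      rw [card_range]
      have : om F p0 = ((range p0).filter (fun n : ℕ => ∃ i, (p0 : ℤ) ∣ (F i).eval (n : ℤ))).card := by
        unfold om
        congr
      rw [← this, h]
    rw [← h5] at h4
    obtain ⟨i, hi⟩ := (mem_filter.mp h4).2
    exact h3 i p0 hp0 hz ((dvd_congr _ _ _ _ (Nat.mod_modEq n p0)).mp hi)
  · apply prod_eq_zero (mem_filter.mpr ⟨mem_Icc.mpr ⟨hp0.one_le, hz⟩, hp0⟩)
    rw [h]
    have : (p0 : ℝ) ≠ 0 := by exact_mod_cast hp0.pos.ne'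
    rw [div_self this, sub_self]

open Classical in
/-- everything except the numerical choices -/
lemma caseB {r : ℕ} (F : Fin r → ℤ[X]) (y z R c : ℕ)
    (hc : ∀ p ∈ (Icc 1 z).filter Nat.Prime, om F p ≤ c) :
    |(((Icc 1 y).filter (fun n : ℕ => ∀ i, Rough z ((F i).eval (n : ℤ)))).card : ℝ) -
      y * ∏ p ∈ (Icc 1 z).filter Nat.Prime, (1 - (om F p : ℝ) / (p : ℝ))| ≤
    (((c + 1) * (z + 1) : ℕ) : ℝ) ^ (R + 1) +
    2 * y * ((∑ p ∈ (Icc 1 z).filter Nat.Prime, (om F p : ℝ) / (p : ℝ)) ^ (R + 1) /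
      ((R + 1).factorial : ℝ)) := by
  obtain ⟨P, hPd⟩ : ∃ P : Finset ℕ, P = (Icc 1 z).filter Nat.Prime := ⟨_, rfl⟩
  rw [← hPd] at hc ⊢
  have hP : ∀ p ∈ P, p.Prime ∧ p ≤ z := by
    intro p hp
    rw [hPd, mem_filter, mem_Icc] at hp
    exact ⟨hp.2, hp.1.2⟩
  have hP' : ∀ p : ℕ, p.Prime → p ≤ z → p ∈ P := by
    intro p hp hz
    rw [hPd, mem_filter, mem_Icc]
    exact ⟨⟨hp.one_le, hz⟩, hp⟩
  have hg : ∀ p ∈ P, 0 ≤ (om F p : ℝ) / (p : ℝ) ∧ (om F p : ℝ) / (p : ℝ) ≤ 1 := by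
    intro p hp
    have h2 : (0 : ℝ) < p := by exact_mod_cast (hP p hp).1.pos
    refine ⟨by positivity, ?_⟩
    rw [div_le_one h2]
    exact_mod_cast om_le' F p
  have hb := brun (Icc 1 y) (fun _ => (1 : ℝ)) (fun _ _ => zero_le_one) P
    (fun n : ℕ => P.filter (fun p : ℕ => ∃ i, (p : ℤ) ∣ (F i).eval (n : ℤ))) (fun _ _ => filter_subset _ _)
    (y : ℝ) (Nat.cast_nonneg _) (fun p => (om F p : ℝ) / (p : ℝ)) hg R
  have e1 : ∑ _i ∈ (Icc 1 y).filter
      (fun n : ℕ => P.filter (fun p : ℕ => ∃ i, (p : ℤ) ∣ (F i).eval (n : ℤ)) = ∅), (1 : ℝ) =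
      (((Icc 1 y).filter (fun n : ℕ => ∀ i, Rough z ((F i).eval (n : ℤ)))).card : ℝ) := by
    rw [sum_const, nsmul_eq_mul, mul_one]
    congr 2
    ext n
    simp only [mem_filter, filter_eq_empty_iff, not_exists, Rough]
    constructor
    · rintro ⟨h1, h3⟩
      exact ⟨h1, fun i p hp hz => h3 (hP' p hp hz) i⟩
    · rintro ⟨h1, h3⟩
      exact ⟨h1, fun p hp i => h3 i p (hP p hp).1 (hP p hp).2⟩
  have e2 : ∀ T ∈ P.powerset.filter (fun T => T.card ≤ R + 1),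
      ∑ _i ∈ (Icc 1 y).filter
      (fun n : ℕ => T ⊆ P.filter (fun p : ℕ => ∃ i, (p : ℤ) ∣ (F i).eval (n : ℤ))), (1 : ℝ) =
      (((Icc 1 y).filter (fun n : ℕ => ∀ p ∈ T, ∃ i, (p : ℤ) ∣ (F i).eval (n : ℤ))).card : ℝ) := by
    intro T hT
    have hTP := mem_powerset.mp (mem_filter.mp hT).1
    rw [sum_const, nsmul_eq_mul, mul_one]
    congr 2
    ext n
    simp only [mem_filter, subset_iff]
    constructor
    · rintro ⟨h1, h3⟩
      exact ⟨h1, fun p hp => (h3 hp).2⟩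
    · rintro ⟨h1, h3⟩
      exact ⟨h1, fun p hp => ⟨hTP hp, h3 p hp⟩⟩
  have e3 : ∑ T ∈ P.powerset.filter (fun T => T.card ≤ R + 1),
      |∑ _i ∈ (Icc 1 y).filter
      (fun n : ℕ => T ⊆ P.filter (fun p : ℕ => ∃ i, (p : ℤ) ∣ (F i).eval (n : ℤ))), (1 : ℝ) -
      y * ∏ p ∈ T, ((om F p : ℝ) / (p : ℝ))| ≤ (((c + 1) * (z + 1) : ℕ) : ℝ) ^ (R + 1) := by
    calc _ ≤ ∑ T ∈ P.powerset.filter (fun T => T.card ≤ R + 1), ((c : ℝ) + 1) ^ (R + 1) := by
          apply sum_le_sum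
          intro T hT
          have hTP := mem_powerset.mp (mem_filter.mp hT).1
          rw [e2 T hT]
          refine (count_T F y T (fun p hp => (hP p (hTP hp)).1)).trans ?_
          calc ∏ p ∈ T, (om F p : ℝ) ≤ ∏ _p ∈ T, ((c : ℝ) + 1) := by
                apply prod_le_prod
                · intro p _; positivity
                · intro p hp
                  have : (om F p : ℝ) ≤ c := by exact_mod_cast hc p (hTP hp)
                  linarith
            _ = ((c : ℝ) + 1) ^ T.card := by rw [prod_const]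
            _ ≤ ((c : ℝ) + 1) ^ (R + 1) := by
                apply pow_le_pow_right₀
                · have : (0 : ℝ) ≤ c := Nat.cast_nonneg _
                  linarith
                · exact (mem_filter.mp hT).2
      _ = ((P.powerset.filter (fun T => T.card ≤ R + 1)).card : ℝ) * ((c : ℝ) + 1) ^ (R + 1) := by
          rw [sum_const, nsmul_eq_mul]
      _ ≤ ((z : ℝ) + 1) ^ (R + 1) * ((c : ℝ) + 1) ^ (R + 1) := by
          apply mul_le_mul_of_nonneg_right _ (by positivity)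
          exact_mod_cast card_TT z (R + 1) P hP
      _ = _ := by
          push_cast
          rw [mul_pow]
          ring
  rw [e1] at hb
  refine hb.trans ?_
  have e4 : 2 * (y : ℝ) * (∑ p ∈ P, (om F p : ℝ) / (p : ℝ)) ^ (R + 1) /
      ((R + 1).factorial : ℝ) = 2 * (y : ℝ) * ((∑ p ∈ P, (om F p : ℝ) / (p : ℝ)) ^ (R + 1) /
      ((R + 1).factorial : ℝ)) := by ring
  rw [e4]
  exact add_le_add e3 le_rfl

lemma gsum_le {r : ℕ} (F : Fin r → ℤ[X]) (z c : ℕ)
    (hc : ∀ p ∈ (Icc 1 z).filter Nat.Prime, om F p ≤ c) :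
    0 ≤ ∑ p ∈ (Icc 1 z).filter Nat.Prime, (om F p : ℝ) / (p : ℝ) ∧
    ∑ p ∈ (Icc 1 z).filter Nat.Prime, (om F p : ℝ) / (p : ℝ) ≤
      (c : ℝ) * (1 + Real.log ((z : ℝ) + 1)) := by
  constructor
  · apply sum_nonneg
    intro p hp
    positivity
  · calc _ ≤ ∑ p ∈ (Icc 1 z).filter Nat.Prime, (c : ℝ) * (1 / (p : ℝ)) := by
          apply sum_le_sum
          intro p hp
          have h5 : (om F p : ℝ) ≤ c := by exact_mod_cast hc p hp
          rw [mul_one_div]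
          exact div_le_div_of_nonneg_right h5 (Nat.cast_nonneg _)
      _ = (c : ℝ) * ∑ p ∈ (Icc 1 z).filter Nat.Prime, 1 / (p : ℝ) := by rw [mul_sum]
      _ ≤ _ := mul_le_mul_of_nonneg_left (sum_inv_le z _ (filter_subset _ _)) (Nat.cast_nonneg _)

end EC

open Classical in
/-- S11. Sieved values of polynomials. -/
theorem eval_count (r D E U : ℕ) : ∃ x0 : ℕ, ∀ x : ℕ, x0 ≤ x → ∀ z : ℕ,
    (z : ℝ) ≤ Real.log x ^ E → ∀ K : ℕ, Real.exp (Real.log (Real.log x) ^ 3) ≤ K →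
    ∀ F : Fin r → ℤ[X], (∀ i, (F i).natDegree ≤ D) → ∀ y : ℕ, y ≤ K →
    |(((Icc 1 y).filter (fun n : ℕ => ∀ i, Rough z ((F i).eval (n : ℤ)))).card : ℝ) -
      y * ∏ p ∈ (Icc 1 z).filter Nat.Prime, (1 - (om F p : ℝ) / p)| ≤ K / Real.log x ^ U := by
  obtain ⟨R, C, x1, hch⟩ := choice (r * D) E (U + 2)
  have hlog : Filter.Tendsto (fun x : ℕ => Real.log (x : ℝ)) Filter.atTop Filter.atTop :=
    Real.tendsto_log_atTop.comp tendsto_natCast_atTop_atTop
  obtain ⟨x3, hx3⟩ := Filter.eventually_atTop.1 (hlog.eventually (Filter.eventually_ge_atTop 4))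
  refine ⟨max x1 x3, ?_⟩
  intro x hx z hz K hK1 F hF y hy
  have hL4 := hx3 x ((le_max_right _ _).trans hx)
  obtain ⟨_, c2⟩ := hch x ((le_max_left _ _).trans hx)
  obtain ⟨c3, c4⟩ := c2 z hz
  obtain ⟨L, hL⟩ : ∃ L : ℝ, L = Real.log x := ⟨_, rfl⟩
  rw [← hL] at hL4 c3 c4 hz hK1 ⊢
  have hL0 : 0 < L := by linarith
  have hL1 : 1 ≤ L := by linarith
  have hyK : (y : ℝ) ≤ K := by exact_mod_cast hy
  have hK0 : (0 : ℝ) ≤ K := Nat.cast_nonneg _
  have hllog : 0 ≤ Real.log L := Real.log_nonneg hL1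
  -- Case A
  by_cases hA : ∃ p0 ∈ (Icc 1 z).filter Nat.Prime, om F p0 = p0
  · obtain ⟨p0, hp0, h0⟩ := hA
    obtain ⟨h1, h2⟩ := mem_filter.mp hp0
    obtain ⟨h3, h4⟩ := EC.caseA F y z p0 h2 (mem_Icc.mp h1).2 h0
    rw [h4, h3]
    simp only [Nat.cast_zero, mul_zero, sub_zero, abs_zero]
    positivity
  push Not at hA
  have hc : ∀ p ∈ (Icc 1 z).filter Nat.Prime, om F p ≤ r * D := fun p hp =>
    EC.om_le F D p (mem_filter.mp hp).2 hF (hA p hp)
  obtain ⟨hs0, hs1⟩ := EC.gsum_le F z (r * D) hc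
  have hs := c3 _ hs0 hs1
  have hB := EC.caseB F y z (R x) (r * D) hc
  refine hB.trans ?_
  have hbase : (1 : ℝ) ≤ (((r * D + 1) * (z + 1) : ℕ) : ℝ) := by
    have : 1 ≤ (r * D + 1) * (z + 1) := Nat.mul_pos (by omega) (by omega)
    exact_mod_cast this
  have m1 : (((r * D + 1) * (z + 1) : ℕ) : ℝ) ^ (R x + 1) ≤ K / L ^ (U + 2) := by
    rw [le_div_iff₀ (by positivity)]
    calc _ ≤ (((r * D + 1) * (z + 1) : ℕ) : ℝ) ^ (2 * (R x + 1)) * L ^ (U + 2) := by
          apply mul_le_mul_of_nonneg_right _ (by positivity)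
          exact pow_le_pow_right₀ hbase (by omega)
      _ ≤ Real.exp (Real.log L ^ 3 / 2) := c4
      _ ≤ Real.exp (Real.log L ^ 3) := by
          apply Real.exp_le_exp.mpr
          have : 0 ≤ Real.log L ^ 3 := by positivity
          linarith
      _ ≤ K := hK1
  have m2 : 2 * (y : ℝ) * ((∑ p ∈ (Icc 1 z).filter Nat.Prime, (om F p : ℝ) / (p : ℝ)) ^ (R x + 1) /
      ((R x + 1).factorial : ℝ)) ≤ 2 * (K / L ^ (U + 2)) := by
    calc _ ≤ 2 * (y : ℝ) * (1 / L ^ (U + 2)) := mul_le_mul_of_nonneg_left hs (by positivity)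
      _ ≤ 2 * (K : ℝ) * (1 / L ^ (U + 2)) := by
          apply mul_le_mul_of_nonneg_right _ (by positivity)
          linarith
      _ = _ := by ring
  have m3 : 3 * (K / L ^ (U + 2)) ≤ K / L ^ U := by
    have e : 3 * (K / L ^ (U + 2)) = (K / L ^ U) * (3 / L ^ 2) := by
      rw [pow_add]; field_simp
    rw [e]
    calc (K / L ^ U) * (3 / L ^ 2) ≤ (K / L ^ U) * 1 := by
          apply mul_le_mul_of_nonneg_left _ (by positivity)
          rw [div_le_one (by positivity)]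
          nlinarith
      _ = _ := mul_one _
  linarith

end Pool.Agent.H300R2.NB
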