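import Pool.Agent.H300R2.NB.EvalMainP
import Pool.Agent.H300R2.NB.EvalCount

/-!
Evaluation of the main term, integers.
-/

namespace Pool.Agent.H300R2.NB

open Finset Polynomial

open Classical in
/-- evaluation of the main term: integers -/
theorem eval_main (r D E U : ℕ) : ∃ x0 : ℕ, ∀ x : ℕ, x0 ≤ x → ∀ z : ℕ,
    (z : ℝ) ≤ Real.log x ^ E → ∀ K : ℕ, Real.exp (Real.log (Real.log x) ^ 3) ≤ K →
    ∀ G : Fin r → ℤ[X], (∀ i, (G i).natDegree ≤ D) →
    |∑ n ∈ Icc 1 K, ∏ i, lz x z ((G i).eval (n : ℤ)) -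
      (Vi z ^ r * ∏ p ∈ (Icc 1 z).filter Nat.Prime, (1 - (om G p : ℝ) / p)) *
        ∑ n ∈ Icc 1 K, ∏ i, lg x ((G i).eval (n : ℤ))| ≤ K / Real.log x ^ U := by
  obtain ⟨x1, hx1⟩ := Vi_upper E
  obtain ⟨x2, hx2⟩ := eval_count r D E (U + 1)
  obtain ⟨x3, hx3⟩ := S18_large ((2 + 3 * r * D) * 2 ^ r) (2 * r)
  refine ⟨max x1 (max x2 x3), fun x hx z hz K hK G hG => ?_⟩
  obtain ⟨hV1, hV2, -, -⟩ := hx1 x ((le_max_left _ _).trans hx) z hz
  have hcount := hx2 x (((le_max_left _ _).trans (le_max_right _ _)).trans hx) z hz K hK G hG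
  obtain ⟨hL1, hL2⟩ := hx3 x (((le_max_right _ _).trans (le_max_right _ _)).trans hx)
  set P : ℝ := ∏ p ∈ (Icc 1 z).filter Nat.Prime, (1 - (om G p : ℝ) / p) with hP
  set L : ℝ := Real.log x with hL
  have hLp : 0 < L := by linarith
  set c : ℕ → ℝ := fun n =>
    (if ∀ i, Rough z ((G i).eval (n : ℤ)) then 1 else 0) - P with hc
  have hsum : ∀ y ≤ K, |∑ n ∈ Icc 1 y, c n| ≤ K / L ^ (U + 1) := by
    intro y hy
    refine le_trans (le_of_eq ?_) (hcount y hy)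
    congr 1
    rw [hc]
    simp only []
    rw [Finset.sum_sub_distrib, Finset.sum_const, nsmul_eq_mul,
      ← Finset.sum_filter, Finset.sum_const, nsmul_eq_mul, mul_one, Nat.card_Icc,
      Nat.add_sub_cancel]
  have hab := abel_log D x K G hG c _ hsum
  have hkey : ∑ n ∈ Icc 1 K, ∏ i, lz x z ((G i).eval (n : ℤ)) -
      (Vi z ^ r * P) * ∑ n ∈ Icc 1 K, ∏ i, lg x ((G i).eval (n : ℤ)) =
      Vi z ^ r * ∑ n ∈ Icc 1 K, c n * ∏ i, lg x ((G i).eval (n : ℤ)) := by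
    simp only [S18_prod]
    rw [← Finset.mul_sum, mul_assoc, ← mul_sub, Finset.mul_sum, ← Finset.sum_sub_distrib]
    congr 1
    refine Finset.sum_congr rfl fun n _ => ?_
    rw [hc]
    simp only []
    ring
  rw [hkey, abs_mul, abs_of_nonneg (by positivity)]
  have hVr : Vi z ^ r ≤ Real.log L ^ (2 * r) := by
    rw [pow_mul]
    gcongr
  have hl0 : 0 ≤ Real.log L ^ (2 * r) := pow_nonneg (Real.log_nonneg hL1) _
  calc Vi z ^ r * |∑ n ∈ Icc 1 K, c n * ∏ i, lg x ((G i).eval (n : ℤ))|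
      ≤ Real.log L ^ (2 * r) * ((2 + 3 * r * D) * 2 ^ r * (K / L ^ (U + 1))) := by
        gcongr
    _ = ((2 + 3 * r * D) * 2 ^ r * Real.log L ^ (2 * r)) * (K / L ^ (U + 1)) := by ring
    _ ≤ L * (K / L ^ (U + 1)) := by gcongr
    _ = K / L ^ U := by
        rw [pow_succ]
        field_simp

open Classical in
/-- evaluation of the main term: integers, all initial segments -/
theorem eval_main_y (r D E U : ℕ) : ∃ x0 : ℕ, ∀ x : ℕ, x0 ≤ x → ∀ z : ℕ,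
    (z : ℝ) ≤ Real.log x ^ E → ∀ K : ℕ, Real.exp (Real.log (Real.log x) ^ 3) ≤ K →
    ∀ G : Fin r → ℤ[X], (∀ i, (G i).natDegree ≤ D) → ∀ Y : ℕ, Y ≤ K →
    |∑ n ∈ Icc 1 Y, ∏ i, lz x z ((G i).eval (n : ℤ)) -
      (Vi z ^ r * ∏ p ∈ (Icc 1 z).filter Nat.Prime, (1 - (om G p : ℝ) / p)) *
        ∑ n ∈ Icc 1 Y, ∏ i, lg x ((G i).eval (n : ℤ))| ≤ K / Real.log x ^ U := by
  obtain ⟨x1, hx1⟩ := Vi_upper E
  obtain ⟨x2, hx2⟩ := eval_count r D E (U + 1)
  obtain ⟨x3, hx3⟩ := S18_large ((2 + 3 * r * D) * 2 ^ r) (2 * r)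
  refine ⟨max x1 (max x2 x3), fun x hx z hz K hK G hG Y hY => ?_⟩
  obtain ⟨hV1, hV2, -, -⟩ := hx1 x ((le_max_left _ _).trans hx) z hz
  have hcount := hx2 x (((le_max_left _ _).trans (le_max_right _ _)).trans hx) z hz K hK G hG
  obtain ⟨hL1, hL2⟩ := hx3 x (((le_max_right _ _).trans (le_max_right _ _)).trans hx)
  set P : ℝ := ∏ p ∈ (Icc 1 z).filter Nat.Prime, (1 - (om G p : ℝ) / p) with hP
  set L : ℝ := Real.log x with hL
  have hLp : 0 < L := by linarith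
  set c : ℕ → ℝ := fun n =>
    (if ∀ i, Rough z ((G i).eval (n : ℤ)) then 1 else 0) - P with hc
  have hsum : ∀ y ≤ Y, |∑ n ∈ Icc 1 y, c n| ≤ K / L ^ (U + 1) := by
    intro y hy
    refine le_trans (le_of_eq ?_) (hcount y (hy.trans hY))
    congr 1
    rw [hc]
    simp only []
    rw [Finset.sum_sub_distrib, Finset.sum_const, nsmul_eq_mul,
      ← Finset.sum_filter, Finset.sum_const, nsmul_eq_mul, mul_one, Nat.card_Icc,
      Nat.add_sub_cancel]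
  have hab := abel_log D x Y G hG c _ hsum
  have hkey : ∑ n ∈ Icc 1 Y, ∏ i, lz x z ((G i).eval (n : ℤ)) -
      (Vi z ^ r * P) * ∑ n ∈ Icc 1 Y, ∏ i, lg x ((G i).eval (n : ℤ)) =
      Vi z ^ r * ∑ n ∈ Icc 1 Y, c n * ∏ i, lg x ((G i).eval (n : ℤ)) := by
    simp only [S18_prod]
    rw [← Finset.mul_sum, mul_assoc, ← mul_sub, Finset.mul_sum, ← Finset.sum_sub_distrib]
    congr 1
    refine Finset.sum_congr rfl fun n _ => ?_
    rw [hc]
    simp only []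
    ring
  rw [hkey, abs_mul, abs_of_nonneg (by positivity)]
  have hVr : Vi z ^ r ≤ Real.log L ^ (2 * r) := by
    rw [pow_mul]
    gcongr
  have hl0 : 0 ≤ Real.log L ^ (2 * r) := pow_nonneg (Real.log_nonneg hL1) _
  calc Vi z ^ r * |∑ n ∈ Icc 1 Y, c n * ∏ i, lg x ((G i).eval (n : ℤ))|
      ≤ Real.log L ^ (2 * r) * ((2 + 3 * r * D) * 2 ^ r * (K / L ^ (U + 1))) := by
        gcongr
    _ = ((2 + 3 * r * D) * 2 ^ r * Real.log L ^ (2 * r)) * (K / L ^ (U + 1)) := by ring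
    _ ≤ L * (K / L ^ (U + 1)) := by gcongr
    _ = K / L ^ U := by
        rw [pow_succ]
        field_simp


open Classical in
/-- evaluation of the main term: primes, all initial segments -/
theorem eval_main_prime_y (r D E U : ℕ) (ε : ℝ) (hε : 0 < ε) : ∃ x0 : ℕ, ∀ x : ℕ, x0 ≤ x →
    ∀ z : ℕ, (z : ℝ) ≤ Real.log x ^ E → ∀ K : ℕ, (x : ℝ) ^ ε ≤ K → K ≤ x →
    ∀ G : Fin r → ℤ[X], (∀ i, (G i).natDegree ≤ D) → ∀ Y : ℕ, Y ≤ K →
    |∑ n ∈ (Icc 1 Y).filter Nat.Prime, ∏ i, lz x z ((G i).eval (n : ℤ)) -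
      (Vi z ^ r * ∏ p ∈ (Icc 1 z).filter Nat.Prime, (1 - (omp G p : ℝ) / ((p : ℝ) - 1))) *
        ∑ n ∈ (Icc 1 Y).filter Nat.Prime, ∏ i, lg x ((G i).eval (n : ℤ))| ≤
      K / Real.log x ^ U := by
  obtain ⟨x1, hx1⟩ := Vi_upper E
  obtain ⟨x2, hx2⟩ := eval_count_prime r D E (U + 1) ε hε
  obtain ⟨x3, hx3⟩ := S18_large ((2 + 3 * r * D) * 2 ^ r) (2 * r)
  refine ⟨max x1 (max x2 x3), fun x hx z hz K hK hKx G hG Y hY => ?_⟩
  obtain ⟨hV1, hV2, -, -⟩ := hx1 x ((le_max_left _ _).trans hx) z hz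
  have hcount := hx2 x (((le_max_left _ _).trans (le_max_right _ _)).trans hx) z hz K hK hKx G hG
  obtain ⟨hL1, hL2⟩ := hx3 x (((le_max_right _ _).trans (le_max_right _ _)).trans hx)
  set P : ℝ := ∏ p ∈ (Icc 1 z).filter Nat.Prime, (1 - (omp G p : ℝ) / ((p : ℝ) - 1)) with hP
  set L : ℝ := Real.log x with hL
  have hLp : 0 < L := by linarith
  set c : ℕ → ℝ := fun n => if n.Prime then
    (if ∀ i, Rough z ((G i).eval (n : ℤ)) then 1 else 0) - P else 0 with hc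
  have hsum : ∀ y ≤ Y, |∑ n ∈ Icc 1 y, c n| ≤ K / L ^ (U + 1) := by
    intro y hy
    refine le_trans (le_of_eq ?_) (hcount y (hy.trans hY))
    congr 1
    rw [hc]
    simp only []
    rw [← Finset.sum_filter, Finset.sum_sub_distrib, Finset.sum_const, nsmul_eq_mul,
      ← Finset.sum_filter, Finset.sum_const, nsmul_eq_mul, mul_one, Finset.filter_filter]
    rfl
  have hab := abel_log D x Y G hG c _ hsum
  have hkey : ∑ n ∈ (Icc 1 Y).filter Nat.Prime, ∏ i, lz x z ((G i).eval (n : ℤ)) -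
      (Vi z ^ r * P) * ∑ n ∈ (Icc 1 Y).filter Nat.Prime, ∏ i, lg x ((G i).eval (n : ℤ)) =
      Vi z ^ r * ∑ n ∈ Icc 1 Y, c n * ∏ i, lg x ((G i).eval (n : ℤ)) := by
    simp only [S18_prod]
    rw [← Finset.mul_sum, mul_assoc, ← mul_sub, Finset.mul_sum, ← Finset.sum_sub_distrib,
      Finset.sum_filter]
    congr 1
    refine Finset.sum_congr rfl fun n _ => ?_
    rw [hc]
    simp only []
    by_cases hn : n.Prime
    · rw [if_pos hn, if_pos hn]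
      ring
    · rw [if_neg hn, if_neg hn, zero_mul]
  rw [hkey, abs_mul, abs_of_nonneg (by positivity)]
  have hVr : Vi z ^ r ≤ Real.log L ^ (2 * r) := by
    rw [pow_mul]
    gcongr
  have hl0 : 0 ≤ Real.log L ^ (2 * r) := pow_nonneg (Real.log_nonneg hL1) _
  calc Vi z ^ r * |∑ n ∈ Icc 1 Y, c n * ∏ i, lg x ((G i).eval (n : ℤ))|
      ≤ Real.log L ^ (2 * r) * ((2 + 3 * r * D) * 2 ^ r * (K / L ^ (U + 1))) := by
        gcongr
    _ = ((2 + 3 * r * D) * 2 ^ r * Real.log L ^ (2 * r)) * (K / L ^ (U + 1)) := by ring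
    _ ≤ L * (K / L ^ (U + 1)) := by gcongr
    _ = K / L ^ U := by
        rw [pow_succ]
        field_simp

end Pool.Agent.H300R2.NB
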