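import Pool.Agent.H300R2.NB.Defs
import Pool.Agent.H343R2.EH.Primes
import Pool.Agent.H343R2.EH.Psi
import Pool.Agent.H300R2.NB.Brun
import Pool.Agent.H300R2.NB.Choice


/-!
Sieved values of polynomials at primes (S12).
-/

namespace Pool.Agent.H300R2.NB

open Finset Polynomial

namespace EP

open Classical in
lemma omp_le {r : ℕ} (F : Fin r → ℤ[X]) (D p : ℕ) (hp : p.Prime)
    (hD : ∀ i, (F i).natDegree ≤ D) (h : omp F p ≠ p - 1) : omp F p ≤ r * D := by
  have := Fact.mk hp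
  -- reduction mod p is nonzero
  have hnz : ∀ i, (F i).map (Int.castRingHom (ZMod p)) ≠ 0 := by
    intro i hi
    apply h
    unfold omp
    rw [filter_true_of_mem, Nat.card_Ico]
    intro n _
    refine ⟨i, ?_⟩
    rw [← ZMod.intCast_zmod_eq_zero_iff_dvd]
    have h1 : ((F i).map (Int.castRingHom (ZMod p))).eval ((n : ℤ) : ZMod p) = 0 := by
      rw [hi, eval_zero]
    rw [← h1, Polynomial.eval_map, Polynomial.eval₂_at_intCast]
    simp
  have hset : ∀ i, ((range p).filter (fun n : ℕ => (p : ℤ) ∣ (F i).eval (n : ℤ))).card ≤ D := by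
    intro i
    have h1 : (((range p).filter (fun n : ℕ => (p : ℤ) ∣ (F i).eval (n : ℤ))).image
        (fun n : ℕ => (n : ZMod p))).card =
        ((range p).filter (fun n : ℕ => (p : ℤ) ∣ (F i).eval (n : ℤ))).card := by
      apply card_image_of_injOn
      intro a ha b hb hab
      have ha' := (mem_filter.mp (mem_coe.mp ha)).1
      have hb' := (mem_filter.mp (mem_coe.mp hb)).1
      have h2 := (ZMod.natCast_eq_natCast_iff' a b p).mp hab
      rwa [Nat.mod_eq_of_lt (mem_range.mp ha'), Nat.mod_eq_of_lt (mem_range.mp hb')] at h2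
    rw [← h1]
    calc _ ≤ ((F i).map (Int.castRingHom (ZMod p))).roots.toFinset.card := by
          apply card_le_card
          intro u hu
          obtain ⟨n, hn, rfl⟩ := mem_image.mp hu
          rw [Multiset.mem_toFinset, mem_roots (hnz i), IsRoot]
          have h3 := (mem_filter.mp hn).2
          rw [← ZMod.intCast_zmod_eq_zero_iff_dvd] at h3
          have h4 : ((n : ℕ) : ZMod p) = ((n : ℤ) : ZMod p) := by push_cast; rfl
          rw [h4, Polynomial.eval_map, Polynomial.eval₂_at_intCast]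
          simpa using h3
      _ ≤ Multiset.card ((F i).map (Int.castRingHom (ZMod p))).roots := Multiset.toFinset_card_le _
      _ ≤ ((F i).map (Int.castRingHom (ZMod p))).natDegree := card_roots' _
      _ ≤ (F i).natDegree := natDegree_map_le
      _ ≤ D := hD i
  unfold omp
  calc _ ≤ ((univ : Finset (Fin r)).biUnion
        (fun i => (range p).filter (fun n : ℕ => (p : ℤ) ∣ (F i).eval (n : ℤ)))).card := by
        apply card_le_card
        intro n hn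
        obtain ⟨h1, i, h2⟩ := mem_filter.mp hn
        rw [mem_biUnion]
        exact ⟨i, mem_univ _, mem_filter.mpr ⟨mem_range.mpr (mem_Ico.mp h1).2, h2⟩⟩
    _ ≤ ∑ i : Fin r, ((range p).filter (fun n : ℕ => (p : ℤ) ∣ (F i).eval (n : ℤ))).card :=
        card_biUnion_le
    _ ≤ ∑ _i : Fin r, D := sum_le_sum fun i _ => hset i
    _ = r * D := by simp

lemma omp_le' {r : ℕ} (F : Fin r → ℤ[X]) (p : ℕ) : omp F p ≤ p - 1 := by
  unfold omp
  refine (card_filter_le _ _).trans ?_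
  rw [Nat.card_Ico]

lemma dvd_congr (G : ℤ[X]) (p m n : ℕ) (h : m ≡ n [MOD p]) :
    ((p : ℤ) ∣ G.eval (m : ℤ)) ↔ ((p : ℤ) ∣ G.eval (n : ℤ)) := by
  have h1 : (p : ℤ) ∣ (n : ℤ) - m := (Nat.modEq_iff_dvd).mp h
  have h2 : (p : ℤ) ∣ G.eval (n : ℤ) - G.eval (m : ℤ) := h1.trans (Polynomial.sub_dvd_eval_sub _ _ _)
  constructor
  · intro h3
    have := dvd_add h2 h3
    rwa [sub_add_cancel] at this
  · intro h3
    have := dvd_sub h3 h2
    rwa [sub_sub_cancel] at this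

lemma card_crt {m n : ℕ} (h : m.Coprime n) (hm : 0 < m) (hn : 0 < n) (P P1 P2 : ℕ → Prop)
    [DecidablePred P] [DecidablePred P1] [DecidablePred P2]
    (hP : ∀ a, P a ↔ (P1 (a % m) ∧ P2 (a % n))) :
    ((range (m * n)).filter P).card = ((range m).filter P1).card * ((range n).filter P2).card := by
  rw [← card_product]
  apply Finset.card_bij (fun a _ => (a % m, a % n))
  · intro a ha
    obtain ⟨_, h2⟩ := mem_filter.mp ha
    obtain ⟨h3, h4⟩ := (hP a).mp h2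
    exact mem_product.mpr ⟨mem_filter.mpr ⟨mem_range.mpr (Nat.mod_lt _ hm), h3⟩,
      mem_filter.mpr ⟨mem_range.mpr (Nat.mod_lt _ hn), h4⟩⟩
  · intro a ha b hb hab
    have ha1 := mem_range.mp (mem_filter.mp ha).1
    have hb1 := mem_range.mp (mem_filter.mp hb).1
    simp only [Prod.mk.injEq] at hab
    have h1 : a ≡ b [MOD m * n] := (Nat.modEq_and_modEq_iff_modEq_mul h).mp ⟨hab.1, hab.2⟩
    exact Nat.ModEq.eq_of_lt_of_lt h1 ha1 hb1
  · rintro ⟨u, v⟩ huv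
    obtain ⟨hu, hv⟩ := mem_product.mp huv
    obtain ⟨hu1, hu2⟩ := mem_filter.mp hu
    obtain ⟨hv1, hv2⟩ := mem_filter.mp hv
    obtain ⟨k, hk1, hk2⟩ := Nat.chineseRemainder h u v
    have e1 : k % (m * n) % m = u := by
      rw [Nat.mod_mul_right_mod]
      have := hk1
      unfold Nat.ModEq at this
      rw [this, Nat.mod_eq_of_lt (mem_range.mp hu1)]
    have e2 : k % (m * n) % n = v := by
      rw [Nat.mod_mul_left_mod]
      have := hk2
      unfold Nat.ModEq at this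
      rw [this, Nat.mod_eq_of_lt (mem_range.mp hv1)]
    refine ⟨k % (m * n), mem_filter.mpr ⟨mem_range.mpr (Nat.mod_lt _ (Nat.mul_pos hm hn)), ?_⟩, ?_⟩
    · rw [hP, e1, e2]
      exact ⟨hu2, hv2⟩
    · simp only [e1, e2]

open Classical in
/-- reduced residues `a` mod `d` with `p ∣ ∏ F_i(a)` for all `p ∣ d` -/
noncomputable def Ld {r : ℕ} (F : Fin r → ℤ[X]) (d : ℕ) : Finset ℕ :=
  (range d).filter (fun a => a.Coprime d ∧ ∀ p ∈ d.primeFactors, ∃ i, (p : ℤ) ∣ (F i).eval (a : ℤ))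

open Classical in
lemma Ld_mul {r : ℕ} (F : Fin r → ℤ[X]) (m n : ℕ) (h : m.Coprime n) (hm : 0 < m) (hn : 0 < n) :
    (Ld F (m * n)).card = (Ld F m).card * (Ld F n).card := by
  unfold Ld
  apply card_crt h hm hn
  intro a
  rw [Nat.Coprime.primeFactors_mul h]
  have c1 : (a % m).Coprime m ↔ a.Coprime m := by
    unfold Nat.Coprime
    rw [← Nat.gcd_rec, Nat.gcd_comm]
  have c2 : (a % n).Coprime n ↔ a.Coprime n := by
    unfold Nat.Coprime
    rw [← Nat.gcd_rec, Nat.gcd_comm]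
  have d1 : (∀ p ∈ m.primeFactors, ∃ i, (p : ℤ) ∣ (F i).eval ((a % m : ℕ) : ℤ)) ↔
      (∀ p ∈ m.primeFactors, ∃ i, (p : ℤ) ∣ (F i).eval (a : ℤ)) := by
    refine forall₂_congr fun p hp => exists_congr fun i => dvd_congr _ _ _ _ ?_
    exact (Nat.mod_modEq a m).of_dvd (Nat.dvd_of_mem_primeFactors hp)
  have d2 : (∀ p ∈ n.primeFactors, ∃ i, (p : ℤ) ∣ (F i).eval ((a % n : ℕ) : ℤ)) ↔
      (∀ p ∈ n.primeFactors, ∃ i, (p : ℤ) ∣ (F i).eval (a : ℤ)) := by
    refine forall₂_congr fun p hp => exists_congr fun i => dvd_congr _ _ _ _ ?_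
    exact (Nat.mod_modEq a n).of_dvd (Nat.dvd_of_mem_primeFactors hp)
  rw [c1, c2, d1, d2, Nat.coprime_mul_iff_right]
  constructor
  · rintro ⟨⟨h1, h2⟩, h3⟩
    exact ⟨⟨h1, fun p hp => h3 p (mem_union_left _ hp)⟩, ⟨h2, fun p hp => h3 p (mem_union_right _ hp)⟩⟩
  · rintro ⟨⟨h1, h2⟩, ⟨h3, h4⟩⟩
    refine ⟨⟨h1, h3⟩, fun p hp => ?_⟩
    rcases mem_union.mp hp with h5 | h5
    · exact h2 p h5
    · exact h4 p h5

open Classical in
lemma Ld_prime {r : ℕ} (F : Fin r → ℤ[X]) (p : ℕ) (hp : p.Prime) :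
    (Ld F p).card = omp F p := by
  unfold Ld omp
  congr 1
  ext a
  simp only [mem_filter, mem_range, mem_Ico, hp.primeFactors, mem_singleton, forall_eq]
  constructor
  · rintro ⟨h1, h2, h3⟩
    refine ⟨⟨?_, h1⟩, h3⟩
    rcases Nat.eq_zero_or_pos a with h0 | h0
    · rw [h0, Nat.coprime_zero_left] at h2
      exact absurd h2 hp.one_lt.ne'
    · exact h0
  · rintro ⟨⟨h1, h2⟩, h3⟩
    refine ⟨h2, ?_, h3⟩
    rw [Nat.coprime_comm]
    exact (Nat.Prime.coprime_iff_not_dvd hp).mpr (fun hd => absurd (Nat.le_of_dvd h1 hd) (by omega))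

lemma Ld_prod {r : ℕ} (F : Fin r → ℤ[X]) (T : Finset ℕ) (hT : ∀ p ∈ T, p.Prime) :
    (Ld F (∏ p ∈ T, p)).card = ∏ p ∈ T, omp F p := by
  classical
  induction T using Finset.induction_on with
  | empty =>
    simp [Ld]
  | insert p T hp ih =>
    have hT' : ∀ q ∈ T, q.Prime := fun q hq => hT q (mem_insert_of_mem hq)
    have hpp := hT p (mem_insert_self _ _)
    rw [prod_insert hp, prod_insert hp, Ld_mul, Ld_prime F p hpp, ih hT']
    · apply Nat.Coprime.prod_right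
      intro q hq
      exact (Nat.coprime_primes hpp (hT' q hq)).mpr (fun h => hp (h ▸ hq))
    · exact hpp.pos
    · exact prod_pos fun q hq => (hT' q hq).pos

lemma primeFactors_prod' (T : Finset ℕ) (hT : ∀ p ∈ T, p.Prime) :
    (∏ p ∈ T, p).primeFactors = T := Nat.primeFactors_prod hT

lemma totient_prod (T : Finset ℕ) (hT : ∀ p ∈ T, p.Prime) :
    (Nat.totient (∏ p ∈ T, p) : ℝ) = ∏ p ∈ T, ((p : ℝ) - 1) := by
  classical
  induction T using Finset.induction_on with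
  | empty => simp
  | insert p T hp ih =>
    have hT' : ∀ q ∈ T, q.Prime := fun q hq => hT q (mem_insert_of_mem hq)
    have hpp := hT p (mem_insert_self _ _)
    rw [prod_insert hp, prod_insert hp, Nat.totient_mul, Nat.totient_prime hpp]
    · push_cast [Nat.cast_sub hpp.one_le]
      rw [ih hT']
    · apply Nat.Coprime.prod_right
      intro q hq
      exact (Nat.coprime_primes hpp (hT' q hq)).mpr (fun h => hp (h ▸ hq))

open Classical in
lemma count_T {r : ℕ} (F : Fin r → ℤ[X]) (y z : ℕ) (T : Finset ℕ) (hT : ∀ p ∈ T, p.Prime)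
    (hz : ∀ p ∈ T, p ≤ z) :
    |(((Icc 1 y).filter (fun n : ℕ => n.Prime ∧ ∀ p ∈ T, ∃ i, (p : ℤ) ∣ (F i).eval (n : ℤ))).card : ℝ) -
      ∑ a ∈ Ld F (∏ p ∈ T, p), H343E.piAP y (∏ p ∈ T, p) a| ≤ z := by
  obtain ⟨d, hd⟩ : ∃ d : ℕ, d = ∏ p ∈ T, p := ⟨_, rfl⟩
  have hd0 : 0 < d := by rw [hd]; exact prod_pos fun q hq => (hT q hq).pos
  have hpf : d.primeFactors = T := by rw [hd]; exact primeFactors_prod' T hT
  rw [← hd]
  obtain ⟨N, hN⟩ : ∃ N : Finset ℕ, N = (Icc 1 y).filter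
    (fun n : ℕ => n.Prime ∧ ∀ p ∈ T, ∃ i, (p : ℤ) ∣ (F i).eval (n : ℤ)) := ⟨_, rfl⟩
  rw [← hN]
  have h1 : N.card = (N.filter (fun n => n.Coprime d)).card +
      (N.filter (fun n => ¬ n.Coprime d)).card := (card_filter_add_card_filter_not _).symm
  have h2 : (N.filter (fun n => ¬ n.Coprime d)).card ≤ z := by
    have : N.filter (fun n => ¬ n.Coprime d) ⊆ Icc 1 z := by
      intro n hn
      obtain ⟨h3, h4⟩ := mem_filter.mp hn
      rw [hN] at h3
      obtain ⟨h5, h6, _⟩ := mem_filter.mp h3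
      have h7 : n ∣ d := by
        by_contra h8
        exact h4 ((Nat.Prime.coprime_iff_not_dvd h6).mpr h8)
      have h8 : n ∈ T := by
        rw [← hpf]
        exact Nat.mem_primeFactors.mpr ⟨h6, h7, hd0.ne'⟩
      exact mem_Icc.mpr ⟨(mem_Icc.mp h5).1, hz n h8⟩
    calc _ ≤ (Icc 1 z).card := card_le_card this
      _ = z := by rw [Nat.card_Icc]; omega
  have h3 : (N.filter (fun n => n.Coprime d)).card =
      ∑ a ∈ Ld F d, ((N.filter (fun n => n.Coprime d)).filter (fun n => n % d = a)).card := by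
    apply card_eq_sum_card_fiberwise
    intro n hn
    obtain ⟨h4, h5⟩ := mem_filter.mp (mem_coe.mp hn)
    rw [hN] at h4
    obtain ⟨_, _, h6⟩ := mem_filter.mp h4
    rw [mem_coe, Ld, mem_filter, mem_range]
    refine ⟨Nat.mod_lt _ hd0, ?_, ?_⟩
    · unfold Nat.Coprime
      rw [← Nat.gcd_rec, Nat.gcd_comm]
      exact h5
    · intro p hp
      rw [hpf] at hp
      obtain ⟨i, hi⟩ := h6 p hp
      refine ⟨i, (dvd_congr _ _ _ _ ?_).mpr hi⟩
      refine (Nat.mod_modEq n d).of_dvd ?_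
      rw [hd]
      exact dvd_prod_of_mem _ hp
  have h4 : ∀ a ∈ Ld F d, (((N.filter (fun n => n.Coprime d)).filter (fun n => n % d = a)).card : ℝ) =
      H343E.piAP y d a := by
    intro a ha
    unfold H343E.piAP
    congr 2
    rw [Ld, mem_filter, mem_range] at ha
    obtain ⟨ha1, ha2, ha3⟩ := ha
    ext n
    simp only [hN, mem_filter]
    constructor
    · rintro ⟨⟨⟨h5, h6, _⟩, _⟩, h7⟩
      refine ⟨h5, h6, ?_⟩
      unfold Nat.ModEq
      rw [h7, Nat.mod_eq_of_lt ha1]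
    · rintro ⟨h5, h6, h7⟩
      have h8 : n % d = a := by
        have := h7
        unfold Nat.ModEq at this
        rwa [Nat.mod_eq_of_lt ha1] at this
      refine ⟨⟨⟨h5, h6, ?_⟩, ?_⟩, h8⟩
      · intro p hp
        obtain ⟨i, hi⟩ := ha3 p (by rw [hpf]; exact hp)
        refine ⟨i, (dvd_congr _ _ _ _ ?_).mpr hi⟩
        refine h7.of_dvd ?_
        rw [hd]
        exact dvd_prod_of_mem _ hp
      · unfold Nat.Coprime
        rw [Nat.gcd_comm, Nat.gcd_rec, h8]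
        exact ha2
  have h5 : (N.card : ℝ) - ∑ a ∈ Ld F d, H343E.piAP y d a =
      ((N.filter (fun n => ¬ n.Coprime d)).card : ℝ) := by
    rw [← sum_congr rfl h4, h1, h3]
    push_cast
    ring
  rw [h5, abs_of_nonneg (Nat.cast_nonneg _)]
  exact_mod_cast h2

open Classical in
/-- the error term of `T` -/
lemma err_T {r : ℕ} (F : Fin r → ℤ[X]) (y z : ℕ) (T : Finset ℕ) (hT : ∀ p ∈ T, p.Prime)
    (hz : ∀ p ∈ T, p ≤ z) :
    |(((Icc 1 y).filter (fun n : ℕ => n.Prime ∧ ∀ p ∈ T, ∃ i, (p : ℤ) ∣ (F i).eval (n : ℤ))).card : ℝ) -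
      H343E.pi1 y * ∏ p ∈ T, ((omp F p : ℝ) / ((p : ℝ) - 1))| ≤
    z + ∑ a ∈ Ld F (∏ p ∈ T, p), |H343E.piAP y (∏ p ∈ T, p) a -
      H343E.pi1 y / (Nat.totient (∏ p ∈ T, p) : ℝ)| := by
  have h1 := count_T F y z T hT hz
  have h2 : H343E.pi1 y * ∏ p ∈ T, ((omp F p : ℝ) / ((p : ℝ) - 1)) =
      ∑ _a ∈ Ld F (∏ p ∈ T, p), H343E.pi1 y / (Nat.totient (∏ p ∈ T, p) : ℝ) := by
    rw [sum_const, nsmul_eq_mul, Ld_prod F T hT, totient_prod T hT, prod_div_distrib]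
    push_cast
    ring
  rw [h2]
  have h3 : |∑ a ∈ Ld F (∏ p ∈ T, p), H343E.piAP y (∏ p ∈ T, p) a -
      ∑ _a ∈ Ld F (∏ p ∈ T, p), H343E.pi1 y / (Nat.totient (∏ p ∈ T, p) : ℝ)| ≤
      ∑ a ∈ Ld F (∏ p ∈ T, p), |H343E.piAP y (∏ p ∈ T, p) a -
      H343E.pi1 y / (Nat.totient (∏ p ∈ T, p) : ℝ)| := by
    rw [← sum_sub_distrib]
    exact abs_sum_le_sum_abs _ _
  refine (abs_sub_le _ (∑ a ∈ Ld F (∏ p ∈ T, p), H343E.piAP y (∏ p ∈ T, p) a) _).trans ?_
  exact add_le_add h1 h3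

lemma prod_injOn (P : Finset ℕ) (hP : ∀ p ∈ P, p.Prime) (k : ℕ) :
    Set.InjOn (fun T : Finset ℕ => ∏ p ∈ T, p) (P.powerset.filter (fun T => T.card ≤ k)) := by
  intro T hT T' hT' h
  have h1 := mem_powerset.mp (mem_filter.mp (mem_coe.mp hT)).1
  have h2 := mem_powerset.mp (mem_filter.mp (mem_coe.mp hT')).1
  rw [← primeFactors_prod' T (fun p hp => hP p (h1 hp)),
    ← primeFactors_prod' T' (fun p hp => hP p (h2 hp))]
  simp only at h
  rw [h]

lemma prod_le_D0 (z k : ℕ) (P T : Finset ℕ) (hP : ∀ p ∈ P, p.Prime ∧ p ≤ z)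
    (hT : T ∈ P.powerset.filter (fun T => T.card ≤ k)) : (∏ p ∈ T, p) ∈ Icc 1 ((z + 1) ^ k) := by
  obtain ⟨h1, h2⟩ := mem_filter.mp hT
  rw [mem_powerset] at h1
  rw [mem_Icc]
  constructor
  · exact Nat.succ_le_of_lt (prod_pos fun p hp => (hP p (h1 hp)).1.pos)
  · calc ∏ p ∈ T, p ≤ ∏ _p ∈ T, (z + 1) :=
        prod_le_prod' fun p hp => (hP p (h1 hp)).2.trans (Nat.le_succ _)
      _ = (z + 1) ^ T.card := by rw [prod_const]
      _ ≤ (z + 1) ^ k := Nat.pow_le_pow_right (Nat.succ_pos _) h2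

lemma card_TT (z k : ℕ) (P : Finset ℕ) (hP : ∀ p ∈ P, p.Prime ∧ p ≤ z) :
    (P.powerset.filter (fun T => T.card ≤ k)).card ≤ (z + 1) ^ k := by
  have h1 : ((P.powerset.filter (fun T => T.card ≤ k)).image (fun T : Finset ℕ => ∏ p ∈ T, p)).card =
      (P.powerset.filter (fun T => T.card ≤ k)).card :=
    card_image_of_injOn (prod_injOn P (fun p hp => (hP p hp).1) k)
  rw [← h1]
  calc _ ≤ (Icc 1 ((z + 1) ^ k)).card := by
        apply card_le_card
        intro d hd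
        obtain ⟨T, hT, rfl⟩ := mem_image.mp hd
        exact prod_le_D0 z k P T hP hT
    _ = (z + 1) ^ k := by rw [Nat.card_Icc]; omega

open Classical in
/-- the family of classes for the moduli `∏ T` -/
noncomputable def LF {r : ℕ} (F : Fin r → ℤ[X]) (P : Finset ℕ) (k q : ℕ) : Finset ℕ :=
  if q ∈ (P.powerset.filter (fun T => T.card ≤ k)).image (fun T : Finset ℕ => ∏ p ∈ T, p) then
    Ld F q else ∅

lemma LF_fam {r : ℕ} (F : Fin r → ℤ[X]) (z k c : ℕ) (P : Finset ℕ) (hP : ∀ p ∈ P, p.Prime ∧ p ≤ z)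
    (hc : ∀ p ∈ P, omp F p ≤ c) (A : ℝ) (hA : ((c + 1 : ℕ) : ℝ) ^ k ≤ A) :
    H343E.Fam A (LF F P k) := by
  classical
  have hA0 : 0 ≤ A := le_trans (by positivity) hA
  constructor
  · intro q a ha
    unfold LF at ha
    split_ifs at ha with h
    · rw [Ld, mem_filter, mem_range] at ha
      exact ⟨ha.1, ha.2.1⟩
    · exact absurd ha (notMem_empty _)
  · intro q
    unfold LF
    split_ifs with h
    · obtain ⟨T, hT, rfl⟩ := mem_image.mp h
      obtain ⟨h1, h2⟩ := mem_filter.mp hT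
      rw [mem_powerset] at h1
      rw [Ld_prod F T (fun p hp => (hP p (h1 hp)).1)]
      refine le_trans ?_ hA
      have : ∏ p ∈ T, omp F p ≤ (c + 1) ^ k := by
        calc ∏ p ∈ T, omp F p ≤ ∏ _p ∈ T, (c + 1) :=
              prod_le_prod' fun p hp => (hc p (h1 hp)).trans (Nat.le_succ _)
          _ = (c + 1) ^ T.card := by rw [prod_const]
          _ ≤ (c + 1) ^ k := Nat.pow_le_pow_right (Nat.succ_pos _) h2
      exact_mod_cast this
    · simpa using hA0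

open Classical in
/-- the sum of the error terms -/
lemma err_sum {r : ℕ} (F : Fin r → ℤ[X]) (y z k : ℕ) (P : Finset ℕ)
    (hP : ∀ p ∈ P, p.Prime ∧ p ≤ z) :
    ∑ T ∈ P.powerset.filter (fun T => T.card ≤ k),
      |(((Icc 1 y).filter (fun n : ℕ => n.Prime ∧ ∀ p ∈ T, ∃ i, (p : ℤ) ∣ (F i).eval (n : ℤ))).card : ℝ) -
      H343E.pi1 y * ∏ p ∈ T, ((omp F p : ℝ) / ((p : ℝ) - 1))| ≤
    z * ((z : ℝ) + 1) ^ k + ∑ q ∈ Icc 1 ((z + 1) ^ k), ∑ a ∈ LF F P k q, |H343E.piAP y q a -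
      H343E.pi1 y / (Nat.totient q : ℝ)| := by
  have h1 : ∀ T ∈ P.powerset.filter (fun T => T.card ≤ k),
      |(((Icc 1 y).filter (fun n : ℕ => n.Prime ∧ ∀ p ∈ T, ∃ i, (p : ℤ) ∣ (F i).eval (n : ℤ))).card : ℝ) -
      H343E.pi1 y * ∏ p ∈ T, ((omp F p : ℝ) / ((p : ℝ) - 1))| ≤
      z + ∑ a ∈ LF F P k (∏ p ∈ T, p), |H343E.piAP y (∏ p ∈ T, p) a -
      H343E.pi1 y / (Nat.totient (∏ p ∈ T, p) : ℝ)| := by
    intro T hT
    have h2 := mem_powerset.mp (mem_filter.mp hT).1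
    have h3 : LF F P k (∏ p ∈ T, p) = Ld F (∏ p ∈ T, p) := by
      unfold LF
      rw [if_pos (mem_image_of_mem _ hT)]
    rw [h3]
    exact err_T F y z T (fun p hp => (hP p (h2 hp)).1) (fun p hp => (hP p (h2 hp)).2)
  refine (sum_le_sum h1).trans ?_
  rw [sum_add_distrib, sum_const, nsmul_eq_mul]
  apply add_le_add
  · rw [mul_comm]
    apply mul_le_mul_of_nonneg_left _ (Nat.cast_nonneg _)
    exact_mod_cast card_TT z k P hP
  · have h4 := sum_image (f := fun q : ℕ => ∑ a ∈ LF F P k q, |H343E.piAP y q a -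
      H343E.pi1 y / (Nat.totient q : ℝ)|) (s := P.powerset.filter (fun T => T.card ≤ k))
      (g := fun T : Finset ℕ => ∏ p ∈ T, p) (prod_injOn P (fun p hp => (hP p hp).1) k)
    rw [← h4]
    apply sum_le_sum_of_subset_of_nonneg
    · intro d hd
      obtain ⟨T, hT, rfl⟩ := mem_image.mp hd
      exact prod_le_D0 z k P T hP hT
    · intro q _ _
      exact sum_nonneg fun a _ => abs_nonneg _

lemma ev_C1 (N : ℕ) (ε : ℝ) (hε : 0 < ε) : ∀ᶠ L : ℝ in Filter.atTop,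
    Real.exp (Real.log L ^ 3 / 2) * L ^ N ≤ Real.exp (ε / 2 * L) := by
  have h1 : ∀ᶠ L : ℝ in Filter.atTop, ‖Real.log L ^ 3‖ ≤ (ε / 2) * ‖id L‖ :=
    (Real.isLittleO_pow_log_id_atTop (n := 3)).bound (by positivity)
  have h2 : ∀ᶠ L : ℝ in Filter.atTop, ‖Real.log L ^ 1‖ ≤ (ε / (4 * ((N : ℝ) + 1))) * ‖id L‖ :=
    (Real.isLittleO_pow_log_id_atTop (n := 1)).bound (by positivity)
  filter_upwards [h1, h2, Filter.eventually_ge_atTop 1] with L h1 h2 h3
  have hL0 : 0 < L := by linarith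
  rw [id, Real.norm_of_nonneg hL0.le] at h1 h2
  have h4 := (le_abs_self _).trans h1
  have h5 := (le_abs_self _).trans h2
  rw [pow_one] at h5
  have h6 : L ^ N = Real.exp (N * Real.log L) := by
    rw [← Real.log_pow, Real.exp_log (by positivity)]
  rw [h6, ← Real.exp_add]
  apply Real.exp_le_exp.mpr
  have h7 : (N : ℝ) * Real.log L ≤ (ε / 4) * L := by
    calc (N : ℝ) * Real.log L ≤ N * (ε / (4 * ((N : ℝ) + 1)) * L) :=
          mul_le_mul_of_nonneg_left h5 (Nat.cast_nonneg _)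
      _ = (N / ((N : ℝ) + 1)) * (ε / 4 * L) := by
          have : (N : ℝ) + 1 ≠ 0 := by positivity
          field_simp
      _ ≤ 1 * (ε / 4 * L) := by
          apply mul_le_mul_of_nonneg_right _ (by positivity)
          rw [div_le_one (by positivity)]
          linarith
      _ = ε / 4 * L := one_mul _
  linarith

lemma sum_inv_le (z : ℕ) (P : Finset ℕ) (hP : P ⊆ Icc 1 z) :
    ∑ p ∈ P, 1 / (p : ℝ) ≤ 1 + Real.log ((z : ℝ) + 1) := by
  have h1 : ∑ p ∈ P, 1 / (p : ℝ) ≤ ∑ p ∈ Icc 1 z, 1 / (p : ℝ) :=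
    sum_le_sum_of_subset_of_nonneg hP fun i _ _ => by positivity
  have h2 : ∑ p ∈ Icc 1 z, 1 / (p : ℝ) = ((harmonic z : ℚ) : ℝ) := by
    rw [harmonic_eq_sum_Icc]
    push_cast
    exact sum_congr rfl fun i _ => by rw [one_div]
  have h3 := harmonic_le_one_add_log z
  have h4 : Real.log (z : ℝ) ≤ Real.log ((z : ℝ) + 1) := by
    rcases Nat.eq_zero_or_pos z with h | h
    · simp [h]
    · exact Real.log_le_log (by exact_mod_cast h) (by linarith)
  linarith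

/-- the numerical core -/
lemma numer (ε L G E1 Q A y K zr s X ly : ℝ) (B C U : ℕ) (hε : 0 < ε)
    (hL4 : 4 ≤ L) (hLε : 4 * (2 / ε) ^ (C + U + 1) ≤ L)
    (hE1 : 1 ≤ E1) (hC1 : E1 * L ^ (B + U + 2) ≤ G) (hGK : G * G ≤ K) (hA : A = L ^ C)
    (hQ : 1 ≤ Q) (hQ2 : Q * Q ≤ E1) (hz : zr ≤ Q) (hy : G ≤ y) (hyK : y ≤ K)
    (hly1 : ε / 2 * L ≤ ly) (hly2 : ly ≤ L) (hX0 : 0 ≤ X) (hX : X ≤ K) (hs : s ≤ 1 / L ^ (U + 3)) :
    Q ≤ y / ly ^ B ∧ Q ^ 2 ≤ A * y / ly ^ B ∧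
    zr * Q + A * y / ly ^ (C + U + 1) + 2 * X * s ≤ K / L ^ U := by
  have hL0 : 0 < L := by linarith
  have hL1 : 1 ≤ L := by linarith
  have hly0 : 0 < ly := lt_of_lt_of_le (by positivity) hly1
  have hA1 : 1 ≤ A := by rw [hA]; exact one_le_pow₀ hL1
  have hlyB : ly ^ B ≤ L ^ B := pow_le_pow_left₀ hly0.le hly2 B
  have hE0 : 0 < E1 := by linarith
  have hG1 : E1 * L ^ B ≤ G := by
    refine le_trans ?_ hC1
    apply mul_le_mul_of_nonneg_left _ hE0.le
    exact pow_le_pow_right₀ hL1 (by omega)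
  have hG2 : E1 * (4 * L ^ U) ≤ G := by
    refine le_trans ?_ hC1
    apply mul_le_mul_of_nonneg_left _ hE0.le
    calc 4 * L ^ U ≤ L * L ^ U := mul_le_mul_of_nonneg_right hL4 (by positivity)
      _ = L ^ (U + 1) := by ring
      _ ≤ L ^ (B + U + 2) := pow_le_pow_right₀ hL1 (by omega)
  have hGge1 : 1 ≤ G := by
    refine le_trans ?_ hG1
    calc (1 : ℝ) = 1 * 1 := by norm_num
      _ ≤ E1 * L ^ B := mul_le_mul hE1 (one_le_pow₀ hL1) (by norm_num) hE0.le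
  have hGK' : G ≤ K := by nlinarith
  have hK0 : 0 < K := by linarith
  have hy0 : 0 < y := by linarith
  have k1 : Q * Q * ly ^ B ≤ y := by
    calc Q * Q * ly ^ B ≤ E1 * L ^ B := mul_le_mul hQ2 hlyB (by positivity) hE0.le
      _ ≤ G := hG1
      _ ≤ y := hy
  refine ⟨?_, ?_, ?_⟩
  · rw [le_div_iff₀ (by positivity)]
    refine le_trans ?_ k1
    apply mul_le_mul_of_nonneg_right _ (by positivity)
    nlinarith
  · rw [le_div_iff₀ (by positivity), pow_two]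
    refine k1.trans ?_
    nlinarith
  · have m1 : zr * Q ≤ K / L ^ U / 4 := by
      rw [le_div_iff₀ (by norm_num), le_div_iff₀ (by positivity)]
      calc zr * Q * 4 * L ^ U = (zr * Q) * (4 * L ^ U) := by ring
        _ ≤ E1 * (4 * L ^ U) := by
            apply mul_le_mul_of_nonneg_right _ (by positivity)
            refine le_trans ?_ hQ2
            exact mul_le_mul_of_nonneg_right hz (by linarith)
        _ ≤ G := hG2
        _ ≤ K := hGK'
    have m2 : A * y / ly ^ (C + U + 1) ≤ K / L ^ U / 4 := by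
      have h1 : (ε / 2 * L) ^ (C + U + 1) ≤ ly ^ (C + U + 1) :=
        pow_le_pow_left₀ (by positivity) hly1 _
      have h2 : (0 : ℝ) < (ε / 2 * L) ^ (C + U + 1) := by positivity
      calc A * y / ly ^ (C + U + 1) ≤ A * K / (ε / 2 * L) ^ (C + U + 1) := by
            apply div_le_div₀ (by positivity) _ h2 h1
            exact mul_le_mul_of_nonneg_left hyK (by linarith)
        _ = (K / L ^ U / 4) * ((4 * (2 / ε) ^ (C + U + 1)) / L) := by
            rw [hA, mul_pow, div_pow, div_pow]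
            have e1 : L ^ (C + U + 1) = L ^ C * L ^ U * L := by ring
            rw [e1]
            field_simp
        _ ≤ (K / L ^ U / 4) * 1 := by
            apply mul_le_mul_of_nonneg_left _ (by positivity)
            rw [div_le_one hL0]
            exact hLε
        _ = _ := mul_one _
    have m3 : 2 * X * s ≤ K / L ^ U / 4 := by
      calc 2 * X * s ≤ 2 * X * (1 / L ^ (U + 3)) := mul_le_mul_of_nonneg_left hs (by positivity)
        _ ≤ 2 * K * (1 / L ^ (U + 3)) := by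
            apply mul_le_mul_of_nonneg_right _ (by positivity)
            linarith
        _ = (K / L ^ U / 4) * (8 / L ^ 3) := by
            rw [pow_add]
            field_simp
            ring
        _ ≤ (K / L ^ U / 4) * 1 := by
            apply mul_le_mul_of_nonneg_left _ (by positivity)
            rw [div_le_one (by positivity)]
            calc (8 : ℝ) ≤ 4 ^ 3 := by norm_num
              _ ≤ L ^ 3 := pow_le_pow_left₀ (by norm_num) hL4 3
        _ = _ := mul_one _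
    have : 0 ≤ K / L ^ U := by positivity
    linarith


open Classical in
lemma caseA {r : ℕ} (F : Fin r → ℤ[X]) (y z p0 : ℕ) (hp0 : p0.Prime) (hz : p0 ≤ z)
    (h : omp F p0 = p0 - 1) :
    ((Icc 1 y).filter (fun n : ℕ => n.Prime ∧ ∀ i, Rough z ((F i).eval (n : ℤ)))).card ≤ 1 ∧
    ∏ p ∈ (Icc 1 z).filter Nat.Prime, (1 - (omp F p : ℝ) / ((p : ℝ) - 1)) = 0 := by
  constructor
  · calc _ ≤ ({p0} : Finset ℕ).card := by
          apply card_le_card
          intro n hn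
          obtain ⟨h1, h2, h3⟩ := mem_filter.mp hn
          rw [mem_singleton]
          by_contra hne
          have h4 : n % p0 ∈ Ico 1 p0 := by
            rw [mem_Ico]
            refine ⟨?_, Nat.mod_lt _ hp0.pos⟩
            rcases Nat.eq_zero_or_pos (n % p0) with h5 | h5
            · have h6 := Nat.dvd_of_mod_eq_zero h5
              rcases (Nat.dvd_prime h2).mp h6 with h7 | h7
              · exact absurd h7 hp0.one_lt.ne'
              · exact absurd h7.symm hne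
            · exact h5
          have h5 : (Ico 1 p0).filter (fun n : ℕ => ∃ i, (p0 : ℤ) ∣ (F i).eval (n : ℤ)) = Ico 1 p0 := by
            apply eq_of_subset_of_card_le (filter_subset _ _)
            rw [Nat.card_Ico, ← h, omp]
          rw [← h5] at h4
          obtain ⟨i, hi⟩ := (mem_filter.mp h4).2
          exact h3 i p0 hp0 hz ((dvd_congr _ _ _ _ (Nat.mod_modEq n p0)).mp hi)
      _ = 1 := card_singleton _
  · apply prod_eq_zero (mem_filter.mpr ⟨mem_Icc.mpr ⟨hp0.one_le, hz⟩, hp0⟩)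
    rw [h, Nat.cast_sub hp0.one_le]
    have : (1 : ℝ) < p0 := by exact_mod_cast hp0.one_lt
    have h2 : (p0 : ℝ) - 1 ≠ 0 := by linarith
    push_cast
    rw [div_self h2, sub_self]

open Classical in
/-- everything except the numerical choices -/
lemma caseB {r : ℕ} (F : Fin r → ℤ[X]) (y z R : ℕ) :
    |(((Icc 1 y).filter (fun n : ℕ => n.Prime ∧ ∀ i, Rough z ((F i).eval (n : ℤ)))).card : ℝ) -
      H343E.pi1 y * ∏ p ∈ (Icc 1 z).filter Nat.Prime, (1 - (omp F p : ℝ) / ((p : ℝ) - 1))| ≤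
    z * ((z : ℝ) + 1) ^ (R + 1) +
    ∑ q ∈ Icc 1 ((z + 1) ^ (R + 1)), ∑ a ∈ LF F ((Icc 1 z).filter Nat.Prime) (R + 1) q,
      |H343E.piAP y q a - H343E.pi1 y / (Nat.totient q : ℝ)| +
    2 * H343E.pi1 y * ((∑ p ∈ (Icc 1 z).filter Nat.Prime, (omp F p : ℝ) / ((p : ℝ) - 1)) ^ (R + 1) /
      ((R + 1).factorial : ℝ)) := by
  obtain ⟨P, hPd⟩ : ∃ P : Finset ℕ, P = (Icc 1 z).filter Nat.Prime := ⟨_, rfl⟩
  rw [← hPd]
  have hP : ∀ p ∈ P, p.Prime ∧ p ≤ z := by
    intro p hp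
    rw [hPd, mem_filter, mem_Icc] at hp
    exact ⟨hp.2, hp.1.2⟩
  have hP' : ∀ p : ℕ, p.Prime → p ≤ z → p ∈ P := by
    intro p hp hz
    rw [hPd, mem_filter, mem_Icc]
    exact ⟨⟨hp.one_le, hz⟩, hp⟩
  have hg : ∀ p ∈ P, 0 ≤ (omp F p : ℝ) / ((p : ℝ) - 1) ∧ (omp F p : ℝ) / ((p : ℝ) - 1) ≤ 1 := by
    intro p hp
    have h1 : (1 : ℝ) < p := by exact_mod_cast (hP p hp).1.one_lt
    have h2 : (0 : ℝ) < (p : ℝ) - 1 := by linarith
    refine ⟨by positivity, ?_⟩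
    rw [div_le_one h2]
    have h3 : ((omp F p : ℕ) : ℝ) ≤ ((p - 1 : ℕ) : ℝ) := by exact_mod_cast omp_le' F p
    rwa [Nat.cast_sub (hP p hp).1.one_le, Nat.cast_one] at h3
  have hb := brun ((Icc 1 y).filter Nat.Prime) (fun _ => (1 : ℝ)) (fun _ _ => zero_le_one) P
    (fun n : ℕ => P.filter (fun p : ℕ => ∃ i, (p : ℤ) ∣ (F i).eval (n : ℤ))) (fun _ _ => filter_subset _ _)
    (H343E.pi1 y) (Nat.cast_nonneg _) (fun p => (omp F p : ℝ) / ((p : ℝ) - 1)) hg R
  have e1 : ∑ _i ∈ ((Icc 1 y).filter Nat.Prime).filter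
      (fun n : ℕ => P.filter (fun p : ℕ => ∃ i, (p : ℤ) ∣ (F i).eval (n : ℤ)) = ∅), (1 : ℝ) =
      (((Icc 1 y).filter (fun n : ℕ => n.Prime ∧ ∀ i, Rough z ((F i).eval (n : ℤ)))).card : ℝ) := by
    rw [sum_const, nsmul_eq_mul, mul_one]
    congr 2
    ext n
    simp only [mem_filter, filter_eq_empty_iff, not_exists, Rough]
    constructor
    · rintro ⟨⟨h1, h2⟩, h3⟩
      exact ⟨h1, h2, fun i p hp hz => h3 (hP' p hp hz) i⟩
    · rintro ⟨h1, h2, h3⟩
      exact ⟨⟨h1, h2⟩, fun p hp i => h3 i p (hP p hp).1 (hP p hp).2⟩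
  have e2 : ∀ T ∈ P.powerset.filter (fun T => T.card ≤ R + 1),
      ∑ _i ∈ ((Icc 1 y).filter Nat.Prime).filter
      (fun n : ℕ => T ⊆ P.filter (fun p : ℕ => ∃ i, (p : ℤ) ∣ (F i).eval (n : ℤ))), (1 : ℝ) =
      (((Icc 1 y).filter (fun n : ℕ => n.Prime ∧ ∀ p ∈ T, ∃ i, (p : ℤ) ∣ (F i).eval (n : ℤ))).card : ℝ) := by
    intro T hT
    have hTP := mem_powerset.mp (mem_filter.mp hT).1
    rw [sum_const, nsmul_eq_mul, mul_one]
    congr 2
    ext n
    simp only [mem_filter, subset_iff]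
    constructor
    · rintro ⟨⟨h1, h2⟩, h3⟩
      exact ⟨h1, h2, fun p hp => (h3 hp).2⟩
    · rintro ⟨h1, h2, h3⟩
      exact ⟨⟨h1, h2⟩, fun p hp => ⟨hTP hp, h3 p hp⟩⟩
  have e3 := err_sum F y z (R + 1) P hP
  rw [← sum_congr rfl (fun T hT => by rw [← e2 T hT])] at e3
  rw [e1] at hb
  refine hb.trans ?_
  have e4 : 2 * H343E.pi1 y * (∑ p ∈ P, (omp F p : ℝ) / ((p : ℝ) - 1)) ^ (R + 1) /
      ((R + 1).factorial : ℝ) = 2 * H343E.pi1 y * ((∑ p ∈ P, (omp F p : ℝ) / ((p : ℝ) - 1)) ^ (R + 1) /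
      ((R + 1).factorial : ℝ)) := by ring
  rw [e4]
  have e5 := add_le_add_left e3 (2 * H343E.pi1 y * ((∑ p ∈ P, (omp F p : ℝ) / ((p : ℝ) - 1)) ^ (R + 1) /
      ((R + 1).factorial : ℝ)))
  convert e5 using 1

lemma pi1_le (y : ℕ) : H343E.pi1 y ≤ y := by
  unfold H343E.pi1
  have h := card_filter_le (Icc 1 y) (fun p => p.Prime)
  rw [Nat.card_Icc] at h
  exact_mod_cast h.trans (by omega)

lemma gsum_le {r : ℕ} (F : Fin r → ℤ[X]) (z c : ℕ)
    (hc : ∀ p ∈ (Icc 1 z).filter Nat.Prime, omp F p ≤ c) :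
    0 ≤ ∑ p ∈ (Icc 1 z).filter Nat.Prime, (omp F p : ℝ) / ((p : ℝ) - 1) ∧
    ∑ p ∈ (Icc 1 z).filter Nat.Prime, (omp F p : ℝ) / ((p : ℝ) - 1) ≤
      ((2 * c : ℕ) : ℝ) * (1 + Real.log ((z : ℝ) + 1)) := by
  have h0 : ∀ p ∈ (Icc 1 z).filter Nat.Prime, (2 : ℝ) ≤ p := by
    intro p hp
    exact_mod_cast (mem_filter.mp hp).2.two_le
  constructor
  · apply sum_nonneg
    intro p hp
    have := h0 p hp
    apply div_nonneg (Nat.cast_nonneg _)
    linarith
  · calc _ ≤ ∑ p ∈ (Icc 1 z).filter Nat.Prime, ((2 * c : ℕ) : ℝ) * (1 / (p : ℝ)) := by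
          apply sum_le_sum
          intro p hp
          have h2 := h0 p hp
          have h3 : (0 : ℝ) < (p : ℝ) - 1 := by linarith
          have h4 : (0 : ℝ) < p := by linarith
          have h5 : (omp F p : ℝ) ≤ c := by exact_mod_cast hc p hp
          rw [mul_one_div, div_le_div_iff₀ h3 h4]
          push_cast
          have h6 : (0 : ℝ) ≤ c := Nat.cast_nonneg _
          calc (omp F p : ℝ) * p ≤ c * p := mul_le_mul_of_nonneg_right h5 h4.le
            _ ≤ c * (2 * ((p : ℝ) - 1)) := mul_le_mul_of_nonneg_left (by linarith) h6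
            _ = 2 * c * ((p : ℝ) - 1) := by ring
      _ = ((2 * c : ℕ) : ℝ) * ∑ p ∈ (Icc 1 z).filter Nat.Prime, 1 / (p : ℝ) := by rw [mul_sum]
      _ ≤ _ := mul_le_mul_of_nonneg_left (sum_inv_le z _ (filter_subset _ _)) (Nat.cast_nonneg _)

open Classical in
/-- trivial bound -/
lemma triv {r : ℕ} (F : Fin r → ℤ[X]) (y z : ℕ) :
    |(((Icc 1 y).filter (fun n : ℕ => n.Prime ∧ ∀ i, Rough z ((F i).eval (n : ℤ)))).card : ℝ) -
      H343E.pi1 y * ∏ p ∈ (Icc 1 z).filter Nat.Prime, (1 - (omp F p : ℝ) / ((p : ℝ) - 1))| ≤ y := by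
  have h1 : (((Icc 1 y).filter (fun n : ℕ => n.Prime ∧ ∀ i, Rough z ((F i).eval (n : ℤ)))).card : ℝ) ≤ y := by
    have h := card_filter_le (Icc 1 y) (fun n : ℕ => n.Prime ∧ ∀ i, Rough z ((F i).eval (n : ℤ)))
    rw [Nat.card_Icc] at h
    exact_mod_cast h.trans (by omega)
  have h2 : H343E.pi1 y ≤ y := pi1_le y
  have h3 : 0 ≤ H343E.pi1 y := Nat.cast_nonneg _
  have hg : ∀ p ∈ (Icc 1 z).filter Nat.Prime, 0 ≤ 1 - (omp F p : ℝ) / ((p : ℝ) - 1) ∧
      1 - (omp F p : ℝ) / ((p : ℝ) - 1) ≤ 1 := by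
    intro p hp
    have hpp := (mem_filter.mp hp).2
    have h1 : (1 : ℝ) < p := by exact_mod_cast hpp.one_lt
    have h2 : (0 : ℝ) < (p : ℝ) - 1 := by linarith
    have h4 : 0 ≤ (omp F p : ℝ) / ((p : ℝ) - 1) := by positivity
    have h5 : (omp F p : ℝ) / ((p : ℝ) - 1) ≤ 1 := by
      rw [div_le_one h2]
      have h3 : ((omp F p : ℕ) : ℝ) ≤ ((p - 1 : ℕ) : ℝ) := by exact_mod_cast omp_le' F p
      rwa [Nat.cast_sub hpp.one_le, Nat.cast_one] at h3
    constructor <;> linarith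
  have h4 : 0 ≤ ∏ p ∈ (Icc 1 z).filter Nat.Prime, (1 - (omp F p : ℝ) / ((p : ℝ) - 1)) :=
    prod_nonneg fun p hp => (hg p hp).1
  have h5 : ∏ p ∈ (Icc 1 z).filter Nat.Prime, (1 - (omp F p : ℝ) / ((p : ℝ) - 1)) ≤ 1 :=
    prod_le_one (fun p hp => (hg p hp).1) (fun p hp => (hg p hp).2)
  have h6 : 0 ≤ H343E.pi1 y * ∏ p ∈ (Icc 1 z).filter Nat.Prime, (1 - (omp F p : ℝ) / ((p : ℝ) - 1)) :=
    mul_nonneg h3 h4
  have h7 : H343E.pi1 y * ∏ p ∈ (Icc 1 z).filter Nat.Prime, (1 - (omp F p : ℝ) / ((p : ℝ) - 1)) ≤ y := by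
    calc _ ≤ H343E.pi1 y * 1 := mul_le_mul_of_nonneg_left h5 h3
      _ ≤ y := by rw [mul_one]; exact h2
  rw [abs_le]
  have h8 : (0 : ℝ) ≤ (((Icc 1 y).filter (fun n : ℕ => n.Prime ∧ ∀ i, Rough z ((F i).eval (n : ℤ)))).card : ℝ) :=
    Nat.cast_nonneg _
  constructor <;> linarith

end EP

open Classical in
/-- S12. Sieved values of polynomials at primes. -/
theorem eval_count_prime (r D E U : ℕ) (ε : ℝ) (hε : 0 < ε) : ∃ x0 : ℕ, ∀ x : ℕ, x0 ≤ x →
    ∀ z : ℕ, (z : ℝ) ≤ Real.log x ^ E → ∀ K : ℕ, (x : ℝ) ^ ε ≤ K → K ≤ x →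
    ∀ F : Fin r → ℤ[X], (∀ i, (F i).natDegree ≤ D) → ∀ y : ℕ, y ≤ K →
    |(((Icc 1 y).filter (fun n : ℕ => n.Prime ∧ ∀ i, Rough z ((F i).eval (n : ℤ)))).card : ℝ) -
      H343E.pi1 y * ∏ p ∈ (Icc 1 z).filter Nat.Prime, (1 - (omp F p : ℝ) / ((p : ℝ) - 1))| ≤
      K / Real.log x ^ U := by
  obtain ⟨R, C, x1, hch⟩ := choice (2 * (r * D)) E (U + 3)
  obtain ⟨B, x2, hpr⟩ := H343E.primes_of (C + U + 1) (H343E.unsmoothed (C + U + 1 + 2))
  -- eventual conditions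
  have hlog : Filter.Tendsto (fun x : ℕ => Real.log (x : ℝ)) Filter.atTop Filter.atTop :=
    Real.tendsto_log_atTop.comp tendsto_natCast_atTop_atTop
  have v1 := hlog.eventually (EP.ev_C1 (B + U + 2) ε hε)
  have v2 := hlog.eventually (Filter.eventually_ge_atTop (max 4 (4 * (2 / ε) ^ (C + U + 1))))
  have v3 : ∀ᶠ x : ℕ in Filter.atTop, (x2 : ℝ) ≤ Real.exp (ε / 2 * Real.log x) := by
    have h1 : Filter.Tendsto (fun x : ℕ => Real.exp (ε / 2 * Real.log x)) Filter.atTop Filter.atTop :=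
      Real.tendsto_exp_atTop.comp (hlog.const_mul_atTop (by positivity))
    exact h1.eventually (Filter.eventually_ge_atTop _)
  obtain ⟨x3, hx3⟩ := Filter.eventually_atTop.1 (v1.and (v2.and v3))
  refine ⟨max (max x1 2) x3, ?_⟩
  intro x hx z hz K hK1 hK2 F hF y hy
  obtain ⟨g1, g2, g3⟩ := hx3 x ((le_max_right _ _).trans hx)
  have hx2 : 2 ≤ x := (le_max_right _ _).trans ((le_max_left _ _).trans hx)
  obtain ⟨c1, c2⟩ := hch x ((le_max_left _ _).trans ((le_max_left _ _).trans hx))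
  obtain ⟨c3, c4⟩ := c2 z hz
  have hxpos : (0 : ℝ) < x := by exact_mod_cast (by omega : 0 < x)
  obtain ⟨L, hL⟩ : ∃ L : ℝ, L = Real.log x := ⟨_, rfl⟩
  obtain ⟨G, hG⟩ : ∃ G : ℝ, G = Real.exp (ε / 2 * L) := ⟨_, rfl⟩
  obtain ⟨E1, hE1d⟩ : ∃ E1 : ℝ, E1 = Real.exp (Real.log L ^ 3 / 2) := ⟨_, rfl⟩
  rw [← hL] at g1 g2 g3 c1 c3 c4 hz ⊢
  rw [← hE1d, ← hG] at g1
  rw [← hE1d] at c4
  rw [← hG] at g3
  have hL4 : 4 ≤ L := (le_max_left _ _).trans g2
  have hLε : 4 * (2 / ε) ^ (C + U + 1) ≤ L := (le_max_right _ _).trans g2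
  have hL0 : 0 < L := by linarith
  have hL1 : 1 ≤ L := by linarith
  have hE1 : 1 ≤ E1 := by
    rw [hE1d]
    apply Real.one_le_exp
    have : 0 ≤ Real.log L := Real.log_nonneg hL1
    positivity
  have hGG : G * G ≤ K := by
    refine le_trans (le_of_eq ?_) hK1
    rw [hG, ← Real.exp_add, Real.rpow_def_of_pos hxpos, ← hL]
    congr 1
    ring
  have hG0 : 0 < G := by rw [hG]; exact Real.exp_pos _
  have hLU : L ^ U ≤ G := by
    refine le_trans ?_ g1
    calc L ^ U = 1 * L ^ U := (one_mul _).symm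
      _ ≤ E1 * L ^ (B + U + 2) :=
        mul_le_mul hE1 (pow_le_pow_right₀ hL1 (by omega)) (by positivity) (by linarith)
  have hLUpos : 0 < L ^ U := by positivity
  have hGKL : G ≤ K / L ^ U := by
    rw [le_div_iff₀ hLUpos]
    exact (mul_le_mul_of_nonneg_left hLU hG0.le).trans hGG
  have hG1 : 1 ≤ G := (one_le_pow₀ hL1).trans hLU
  have hyK : (y : ℝ) ≤ K := by exact_mod_cast hy
  -- Case A
  by_cases hA : ∃ p0 ∈ (Icc 1 z).filter Nat.Prime, omp F p0 = p0 - 1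
  · obtain ⟨p0, hp0, h0⟩ := hA
    obtain ⟨h1, h2⟩ := mem_filter.mp hp0
    obtain ⟨h3, h4⟩ := EP.caseA F y z p0 h2 (mem_Icc.mp h1).2 h0
    rw [h4, mul_zero, sub_zero, abs_of_nonneg (Nat.cast_nonneg _)]
    have h5 : (((Icc 1 y).filter (fun n : ℕ => n.Prime ∧ ∀ i, Rough z ((F i).eval (n : ℤ)))).card : ℝ) ≤ 1 := by
      exact_mod_cast h3
    linarith
  push Not at hA
  have hc : ∀ p ∈ (Icc 1 z).filter Nat.Prime, omp F p ≤ r * D := fun p hp =>
    EP.omp_le F D p (mem_filter.mp hp).2 hF (hA p hp)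
  -- the trivial case
  rcases le_or_gt (y : ℝ) (K / L ^ U) with hyt | hyt
  · exact (EP.triv F y z).trans hyt
  -- the main case
  have hGy : G ≤ y := hGKL.trans hyt.le
  have hy0 : (0 : ℝ) < y := by linarith
  obtain ⟨ly, hly⟩ : ∃ ly : ℝ, ly = Real.log y := ⟨_, rfl⟩
  have hly1 : ε / 2 * L ≤ ly := by
    rw [hly, Real.le_log_iff_exp_le hy0, ← hG]
    exact hGy
  have hly2 : ly ≤ L := by
    rw [hly, hL]
    apply Real.log_le_log hy0
    exact hyK.trans (by exact_mod_cast hK2)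
  obtain ⟨hs0, hs1⟩ := EP.gsum_le F z (r * D) hc
  have hs := c3 _ hs0 hs1
  have hB := EP.caseB F y z (R x)
  -- the quantity Q
  obtain ⟨Q, hQd⟩ : ∃ Q : ℝ, Q = ((z : ℝ) + 1) ^ (R x + 1) := ⟨_, rfl⟩
  have hz1 : (1 : ℝ) ≤ (z : ℝ) + 1 := by
    have : (0 : ℝ) ≤ z := Nat.cast_nonneg _
    linarith
  have hQ1 : 1 ≤ Q := by rw [hQd]; exact one_le_pow₀ hz1
  have hzQ : (z : ℝ) ≤ Q := by
    rw [hQd]
    calc (z : ℝ) ≤ (z : ℝ) + 1 := by linarith
      _ = ((z : ℝ) + 1) ^ 1 := (pow_one _).symm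
      _ ≤ _ := pow_le_pow_right₀ hz1 (by omega)
  have hQ2 : Q * Q ≤ E1 := by
    refine le_trans ?_ c4
    have h1 : Q * Q = ((z : ℝ) + 1) ^ (2 * (R x + 1)) := by rw [hQd]; ring
    have h2 : ((z : ℝ) + 1) ^ (2 * (R x + 1)) ≤
        (((2 * (r * D) + 1) * (z + 1) : ℕ) : ℝ) ^ (2 * (R x + 1)) := by
      apply pow_le_pow_left₀ (by linarith)
      have : z + 1 ≤ (2 * (r * D) + 1) * (z + 1) := Nat.le_mul_of_pos_left _ (by omega)
      exact_mod_cast this
    have h3 : (1 : ℝ) ≤ L ^ (U + 3) := one_le_pow₀ hL1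
    calc Q * Q ≤ (((2 * (r * D) + 1) * (z + 1) : ℕ) : ℝ) ^ (2 * (R x + 1)) * 1 := by
          rw [h1, mul_one]; exact h2
      _ ≤ _ := mul_le_mul_of_nonneg_left h3 (by positivity)
  have hfam : H343E.Fam (L ^ C) (EP.LF F ((Icc 1 z).filter Nat.Prime) (R x + 1)) := by
    apply EP.LF_fam F z (R x + 1) (2 * (r * D))
    · intro p hp
      obtain ⟨h1, h2⟩ := mem_filter.mp hp
      exact ⟨h2, (mem_Icc.mp h1).2⟩
    · intro p hp
      exact (hc p hp).trans (by omega)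
    · exact c1
  have hpi0 : 0 ≤ H343E.pi1 y := Nat.cast_nonneg _
  have hpiK : H343E.pi1 y ≤ K := (EP.pi1_le y).trans hyK
  obtain ⟨n1, n2, n3⟩ := EP.numer ε L G E1 Q (L ^ C) y K z _ (H343E.pi1 y) ly B C U hε hL4 hLε
    hE1 g1 hGG rfl hQ1 hQ2 hzQ hGy hyK hly1 hly2 hpi0 hpiK hs
  have hx2y : x2 ≤ y := by exact_mod_cast g3.trans hGy
  have hQn : (((z + 1) ^ (R x + 1) : ℕ) : ℝ) = Q := by rw [hQd]; push_cast; rfl
  have hp := hpr y hx2y (L ^ C) (one_le_pow₀ hL1) ((z + 1) ^ (R x + 1))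
    (by rw [hQn, ← hly]; exact n1) (by rw [hQn, ← hly]; exact n2) _ hfam
  rw [← hly] at hp
  rw [← hQd] at hB
  linarith

end Pool.Agent.H300R2.NB
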