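import Pool.Agent.H300R2.NB.Defs
import Pool.Agent.H343R2.EH.Primes
import Pool.Agent.H300R2.NB.ViU
import Pool.Agent.H300R2.NB.EvalPrime
import Pool.Agent.H300R2.NB.AbelLog

/-!
NB, task S18: evaluation of the main term, primes.
-/

namespace Pool.Agent.H300R2.NB

open Finset Polynomial

open Classical in
/-- the sieve model in terms of the weight `lg` -/
theorem S18_prod {r : ℕ} (x z : ℕ) (m : Fin r → ℤ) :
    ∏ i, lz x z (m i) = Vi z ^ r * ((if ∀ i, Rough z (m i) then 1 else 0) * ∏ i, lg x (m i)) := by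
  by_cases h : ∀ i, Rough z (m i)
  · rw [if_pos h, one_mul]
    have : ∀ i, lz x z (m i) = Vi z * lg x (m i) := by
      intro i
      unfold lz lg
      by_cases h2 : 2 ≤ m i ∧ m i ≤ x
      · rw [if_pos ⟨h2.1, h2.2, h i⟩, if_pos h2]
        ring
      · rw [if_neg (fun h3 => h2 ⟨h3.1, h3.2.1⟩), if_neg h2, mul_zero]
    simp only [this, Finset.prod_mul_distrib, Finset.prod_const, Finset.card_univ,
      Fintype.card_fin]
  · rw [if_neg h, zero_mul, mul_zero]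
    push Not at h
    obtain ⟨i, hi⟩ := h
    refine Finset.prod_eq_zero (Finset.mem_univ i) ?_
    unfold lz
    rw [if_neg (fun h3 => hi h3.2.2)]

/-- powers of the iterated logarithm are small -/
theorem S18_large (C : ℝ) (N : ℕ) : ∃ x0 : ℕ, ∀ x : ℕ, x0 ≤ x →
    1 ≤ Real.log x ∧ C * Real.log (Real.log x) ^ N ≤ Real.log x := by
  have h1 : (fun t : ℝ => Real.log t ^ N) =o[Filter.atTop] (id : ℝ → ℝ) :=
    Real.isLittleO_pow_log_id_atTop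
  have h2 : (fun t : ℝ => C * Real.log t ^ N) =o[Filter.atTop] (id : ℝ → ℝ) :=
    h1.const_mul_left C
  have h3 := h2.bound one_pos
  have h4 := (Real.tendsto_log_atTop.comp tendsto_natCast_atTop_atTop).eventually
    (h3.and (Filter.eventually_ge_atTop 1))
  obtain ⟨x0, hx0⟩ := Filter.eventually_atTop.1 h4
  refine ⟨x0, fun x hx => ?_⟩
  obtain ⟨h5, h6⟩ := hx0 x hx
  simp only [Function.comp_apply, id_eq, one_mul] at h5 h6
  refine ⟨h6, (le_abs_self _).trans ?_⟩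
  rw [Real.norm_eq_abs, Real.norm_eq_abs, abs_of_nonneg (by linarith : (0 : ℝ) ≤ Real.log x)] at h5
  exact h5

open Classical in
/-- S18 from the statements of S9 and S12 -/
theorem eval_main_prime_of
    (hVi : ∀ E : ℕ, ∃ x0 : ℕ, ∀ x : ℕ, x0 ≤ x → ∀ z : ℕ, (z : ℝ) ≤ Real.log x ^ E →
      1 ≤ Vi z ∧ Vi z ≤ Real.log (Real.log x) ^ 2 ∧ (∀ m : ℤ, 0 ≤ lz x z m) ∧
      (∀ m : ℤ, lz x z m ≤ 2 * Real.log (Real.log x) ^ 2))
    (hEC : ∀ (r D E U : ℕ) (ε : ℝ), 0 < ε → ∃ x0 : ℕ, ∀ x : ℕ, x0 ≤ x →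
      ∀ z : ℕ, (z : ℝ) ≤ Real.log x ^ E → ∀ K : ℕ, (x : ℝ) ^ ε ≤ K → K ≤ x →
      ∀ F : Fin r → ℤ[X], (∀ i, (F i).natDegree ≤ D) → ∀ y : ℕ, y ≤ K →
      |(((Icc 1 y).filter (fun n : ℕ => n.Prime ∧ ∀ i, Rough z ((F i).eval (n : ℤ)))).card : ℝ) -
        H343E.pi1 y * ∏ p ∈ (Icc 1 z).filter Nat.Prime, (1 - (omp F p : ℝ) / ((p : ℝ) - 1))| ≤
        K / Real.log x ^ U)
    (r D E U : ℕ) (ε : ℝ) (hε : 0 < ε) : ∃ x0 : ℕ, ∀ x : ℕ, x0 ≤ x →
    ∀ z : ℕ, (z : ℝ) ≤ Real.log x ^ E → ∀ K : ℕ, (x : ℝ) ^ ε ≤ K → K ≤ x →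
    ∀ G : Fin r → ℤ[X], (∀ i, (G i).natDegree ≤ D) →
    |∑ n ∈ (Icc 1 K).filter Nat.Prime, ∏ i, lz x z ((G i).eval (n : ℤ)) -
      (Vi z ^ r * ∏ p ∈ (Icc 1 z).filter Nat.Prime, (1 - (omp G p : ℝ) / ((p : ℝ) - 1))) *
        ∑ n ∈ (Icc 1 K).filter Nat.Prime, ∏ i, lg x ((G i).eval (n : ℤ))| ≤
      K / Real.log x ^ U := by
  obtain ⟨x1, hx1⟩ := hVi E
  obtain ⟨x2, hx2⟩ := hEC r D E (U + 1) ε hε
  obtain ⟨x3, hx3⟩ := S18_large ((2 + 3 * r * D) * 2 ^ r) (2 * r)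
  refine ⟨max x1 (max x2 x3), fun x hx z hz K hK hKx G hG => ?_⟩
  obtain ⟨hV1, hV2, -, -⟩ := hx1 x ((le_max_left _ _).trans hx) z hz
  have hcount := hx2 x (((le_max_left _ _).trans (le_max_right _ _)).trans hx) z hz K hK hKx G hG
  obtain ⟨hL1, hL2⟩ := hx3 x (((le_max_right _ _).trans (le_max_right _ _)).trans hx)
  set P : ℝ := ∏ p ∈ (Icc 1 z).filter Nat.Prime, (1 - (omp G p : ℝ) / ((p : ℝ) - 1)) with hP
  set L : ℝ := Real.log x with hL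
  have hLp : 0 < L := by linarith
  set c : ℕ → ℝ := fun n => if n.Prime then
    (if ∀ i, Rough z ((G i).eval (n : ℤ)) then 1 else 0) - P else 0 with hc
  have hsum : ∀ y ≤ K, |∑ n ∈ Icc 1 y, c n| ≤ K / L ^ (U + 1) := by
    intro y hy
    refine le_trans (le_of_eq ?_) (hcount y hy)
    congr 1
    rw [hc]
    simp only []
    rw [← Finset.sum_filter, Finset.sum_sub_distrib, Finset.sum_const, nsmul_eq_mul,
      ← Finset.sum_filter, Finset.sum_const, nsmul_eq_mul, mul_one, Finset.filter_filter]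
    rfl
  have hab := abel_log D x K G hG c _ hsum
  have hkey : ∑ n ∈ (Icc 1 K).filter Nat.Prime, ∏ i, lz x z ((G i).eval (n : ℤ)) -
      (Vi z ^ r * P) * ∑ n ∈ (Icc 1 K).filter Nat.Prime, ∏ i, lg x ((G i).eval (n : ℤ)) =
      Vi z ^ r * ∑ n ∈ Icc 1 K, c n * ∏ i, lg x ((G i).eval (n : ℤ)) := by
    simp only [S18_prod]
    rw [← Finset.mul_sum, mul_assoc, ← mul_sub, Finset.mul_sum, ← Finset.sum_sub_distrib,
      Finset.sum_filter]
    congr 1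
    refine Finset.sum_congr rfl fun n _ => ?_
    rw [hc]
    simp only []
    by_cases hn : n.Prime
    · rw [if_pos hn, if_pos hn]
      ring
    · rw [if_neg hn, if_neg hn, zero_mul]
  rw [hkey, abs_mul, abs_of_nonneg (by positivity)]
  have hVr : Vi z ^ r ≤ Real.log L ^ (2 * r) := by
    rw [pow_mul]
    gcongr
  have hl0 : 0 ≤ Real.log L ^ (2 * r) := pow_nonneg (Real.log_nonneg hL1) _
  calc Vi z ^ r * |∑ n ∈ Icc 1 K, c n * ∏ i, lg x ((G i).eval (n : ℤ))|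
      ≤ Real.log L ^ (2 * r) * ((2 + 3 * r * D) * 2 ^ r * (K / L ^ (U + 1))) := by
        gcongr
    _ = ((2 + 3 * r * D) * 2 ^ r * Real.log L ^ (2 * r)) * (K / L ^ (U + 1)) := by ring
    _ ≤ L * (K / L ^ (U + 1)) := by gcongr
    _ = K / L ^ U := by
        rw [pow_succ]
        field_simp

/-- S18. Evaluation of the main term: primes. -/
theorem eval_main_prime (r D E U : ℕ) (ε : ℝ) (hε : 0 < ε) : ∃ x0 : ℕ, ∀ x : ℕ, x0 ≤ x →
    ∀ z : ℕ, (z : ℝ) ≤ Real.log x ^ E → ∀ K : ℕ, (x : ℝ) ^ ε ≤ K → K ≤ x →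
    ∀ G : Fin r → ℤ[X], (∀ i, (G i).natDegree ≤ D) →
    |∑ n ∈ (Icc 1 K).filter Nat.Prime, ∏ i, lz x z ((G i).eval (n : ℤ)) -
      (Vi z ^ r * ∏ p ∈ (Icc 1 z).filter Nat.Prime, (1 - (omp G p : ℝ) / ((p : ℝ) - 1))) *
        ∑ n ∈ (Icc 1 K).filter Nat.Prime, ∏ i, lg x ((G i).eval (n : ℤ))| ≤
      K / Real.log x ^ U :=
  eval_main_prime_of Vi_upper (fun r D E U ε hε => eval_count_prime r D E U ε hε) r D E U ε hε

end Pool.Agent.H300R2.NB
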