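import Pool.Agent.H300R2.NB.All
import Pool.Agent.H300R2.NB.EvLog

/-!
Exceptional sets from second moments.
-/

namespace Pool.Agent.H300R2.NB

open Finset Polynomial
open Pool.Agent.H300R2.BH

/-- Chebyshev's inequality -/
lemma cheb {ι : Type*} (S : Finset ι) (f : ι → ℝ) (M t : ℝ) (ht : 0 < t)
    (h : ∑ i ∈ S, f i ^ 2 ≤ M) : ((S.filter (fun i => t < |f i|)).card : ℝ) * t ^ 2 ≤ M := by
  calc ((S.filter (fun i => t < |f i|)).card : ℝ) * t ^ 2
      = ∑ i ∈ S.filter (fun i => t < |f i|), t ^ 2 := by rw [sum_const, nsmul_eq_mul]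
    _ ≤ ∑ i ∈ S.filter (fun i => t < |f i|), f i ^ 2 := by
        refine sum_le_sum fun i hi => ?_
        rw [mem_filter] at hi
        rw [← sq_abs (f i)]
        exact pow_le_pow_left₀ ht.le hi.2.le 2
    _ ≤ ∑ i ∈ S, f i ^ 2 := sum_le_sum_of_subset_of_nonneg (filter_subset _ _)
        (fun i _ _ => sq_nonneg _)
    _ ≤ M := h

/-- for all but few tuples, primes are counted correctly by the model along every set `S` -/
theorem exc (r J E0 U : ℕ) : ∃ B Z : ℕ, ∀ E : ℕ, ∃ x0 : ℕ, ∀ x : ℕ, x0 ≤ x → ∀ z : ℕ,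
    ⌊Real.log x ^ Z⌋₊ ≤ z → (z : ℝ) ≤ Real.log x ^ E → ∀ K : ℕ, Real.log x ^ B ≤ K →
    ∀ j : Fin r → ℕ, (∀ i, 1 ≤ j i ∧ j i ≤ J) → ∀ A X : Fin r → ℕ,
    (∀ i, Real.log x ^ B ≤ A i ∧ (x : ℝ) ≤ A i * (K : ℝ) ^ (j i) * Real.log x ^ E0 ∧
      (x : ℝ) ≤ X i * Real.log x ^ E0) →
    ∀ (A0 B0 : Fin r → ℤ) (T : Fin r → ℕ → ℤ) (S : Finset ℕ), S ⊆ Icc 1 K →
    (((Fintype.piFinset (fun i => Ioc (A0 i) (A0 i + A i) ×ˢ Ioc (B0 i) (B0 i + X i))).filter
      (fun p => K / Real.log x ^ U <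
        |∑ n ∈ S, ∏ i, ip x (T i n + (p i).1 * (n : ℤ) ^ (j i) + (p i).2) -
        ∑ n ∈ S, ∏ i, lz x z (T i n + (p i).1 * (n : ℤ) ^ (j i) + (p i).2)|)).card : ℝ) ≤
    (∏ i, ((A i : ℝ) * X i)) / Real.log x ^ U := by
  obtain ⟨B, Z, h⟩ := master r J E0 (3 * U)
  refine ⟨B, Z, fun E => ?_⟩
  obtain ⟨x0, h0⟩ := h E
  refine ⟨max x0 3, fun x hx z hz1 hz2 K hK j hj A X hA A0 B0 T S hS => ?_⟩
  have hx0 : x0 ≤ x := (le_max_left _ _).trans hx
  have hx3 : 3 ≤ x := (le_max_right _ _).trans hx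
  have hL : 1 < Real.log x := by
    have h3 : (3 : ℝ) ≤ x := by exact_mod_cast hx3
    have h4 : Real.log 3 ≤ Real.log x := Real.log_le_log (by norm_num) h3
    have h5 : (1 : ℝ) < Real.log 3 := by
      rw [Real.lt_log_iff_exp_lt (by norm_num)]
      have := Real.exp_one_lt_d9
      linarith
    linarith
  have hL0 : 0 < Real.log x := by linarith
  have hKpos : (0 : ℝ) < K := lt_of_lt_of_le (by positivity) hK
  classical
  have h1 := h0 x hx0 z hz1 hz2 K hK j hj A X hA A0 B0 T (fun n => if n ∈ S then 1 else 0)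
    (fun n => by split_ifs <;> simp)
  set box := Fintype.piFinset (fun i => Ioc (A0 i) (A0 i + A i) ×ˢ Ioc (B0 i) (B0 i + X i))
    with hbox
  set f : (Fin r → ℤ × ℤ) → ℝ := fun p =>
    ∑ n ∈ S, ∏ i, ip x (T i n + (p i).1 * (n : ℤ) ^ (j i) + (p i).2) -
        ∑ n ∈ S, ∏ i, lz x z (T i n + (p i).1 * (n : ℤ) ^ (j i) + (p i).2) with hf
  have h2 : ∑ p ∈ box, f p ^ 2 ≤ (∏ i, ((A i : ℝ) * X i)) * (K : ℝ) ^ 2 / Real.log x ^ (3 * U) := by
    refine le_trans (le_of_eq ?_) h1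
    refine sum_congr rfl fun p _ => ?_
    have h3 : ∑ n ∈ Icc 1 K, (if n ∈ S then (1 : ℂ) else 0) *
        ((∏ i, ip x (T i n + (p i).1 * (n : ℤ) ^ (j i) + (p i).2) -
        ∏ i, lz x z (T i n + (p i).1 * (n : ℤ) ^ (j i) + (p i).2) : ℝ) : ℂ) = ((f p : ℝ) : ℂ) := by
      rw [hf]
      dsimp only
      rw [← sum_sub_distrib]
      push_cast
      simp only [ite_mul, one_mul, zero_mul]
      rw [← sum_filter]
      refine sum_congr ?_ fun n _ => rfl
      ext n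
      rw [mem_filter]
      exact ⟨fun hn => hn.2, fun hn => ⟨hS hn, hn⟩⟩
    rw [h3, Complex.norm_real, Real.norm_eq_abs, sq_abs]
  have h4 := cheb box f _ (K / Real.log x ^ U) (by positivity) h2
  have h5 : (0 : ℝ) < (K / Real.log x ^ U) ^ 2 := by positivity
  have h6 : ((box.filter (fun p => K / Real.log x ^ U < |f p|)).card : ℝ) ≤
      (∏ i, ((A i : ℝ) * X i)) * (K : ℝ) ^ 2 / Real.log x ^ (3 * U) /
        (K / Real.log x ^ U) ^ 2 := by
    rw [le_div_iff₀ h5]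
    exact h4
  refine h6.trans (le_of_eq ?_)
  have hKne : (K : ℝ) ≠ 0 := hKpos.ne'
  have hLne : Real.log x ≠ 0 := hL0.ne'
  field_simp
  ring

/-- the terms of the sums are small -/
lemma term_bound {r : ℕ} (x z : ℕ) (l : ℝ) (hl : 1 ≤ l) (h1 : ∀ m : ℤ, 0 ≤ lz x z m)
    (h2 : ∀ m : ℤ, lz x z m ≤ 2 * l ^ 2) (v : Fin r → ℤ) :
    |∏ i, ip x (v i) - ∏ i, lz x z (v i)| ≤ 2 ^ (r + 1) * l ^ (2 * r) := by
  have hl2 : 1 ≤ l ^ 2 := one_le_pow₀ hl
  have e1 : 0 ≤ ∏ i, ip x (v i) ∧ ∏ i, ip x (v i) ≤ 1 := by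
    have : ∀ i, 0 ≤ ip x (v i) ∧ ip x (v i) ≤ 1 := by
      intro i
      unfold ip
      split_ifs <;> simp
    exact ⟨prod_nonneg fun i _ => (this i).1, prod_le_one (fun i _ => (this i).1)
      fun i _ => (this i).2⟩
  have e2 : 0 ≤ ∏ i, lz x z (v i) ∧ ∏ i, lz x z (v i) ≤ (2 * l ^ 2) ^ r := by
    refine ⟨prod_nonneg fun i _ => h1 _, ?_⟩
    calc ∏ i, lz x z (v i) ≤ ∏ _i : Fin r, 2 * l ^ 2 := prod_le_prod (fun i _ => h1 _)
          (fun i _ => h2 _)
      _ = (2 * l ^ 2) ^ r := by rw [prod_const, card_univ, Fintype.card_fin]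
  have e3 : (1 : ℝ) ≤ (2 * l ^ 2) ^ r := one_le_pow₀ (by linarith)
  have e4 : (2 * l ^ 2) ^ r = 2 ^ r * l ^ (2 * r) := by rw [mul_pow, ← pow_mul]
  rw [pow_succ, abs_le]
  constructor <;> nlinarith [e1.1, e1.2, e2.1, e2.2]

/-- `exc`, uniformly for all initial segments -/
theorem exc_unif (r J E0 U : ℕ) : ∃ B Z : ℕ, ∀ E : ℕ, ∃ x0 : ℕ, ∀ x : ℕ, x0 ≤ x → ∀ z : ℕ,
    ⌊Real.log x ^ Z⌋₊ ≤ z → (z : ℝ) ≤ Real.log x ^ E → ∀ K : ℕ, Real.log x ^ B ≤ K →
    ∀ j : Fin r → ℕ, (∀ i, 1 ≤ j i ∧ j i ≤ J) → ∀ A X : Fin r → ℕ,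
    (∀ i, Real.log x ^ B ≤ A i ∧ (x : ℝ) ≤ A i * (K : ℝ) ^ (j i) * Real.log x ^ E0 ∧
      (x : ℝ) ≤ X i * Real.log x ^ E0) →
    ∀ (A0 B0 : Fin r → ℤ) (T : Fin r → ℕ → ℤ) (S : Finset ℕ), S ⊆ Icc 1 K →
    ∃ Ex : Finset (Fin r → ℤ × ℤ), (Ex.card : ℝ) ≤ (∏ i, ((A i : ℝ) * X i)) / Real.log x ^ U ∧
    ∀ p ∈ Fintype.piFinset (fun i => Ioc (A0 i) (A0 i + A i) ×ˢ Ioc (B0 i) (B0 i + X i)),
      p ∉ Ex → ∀ y : ℕ,
        |∑ n ∈ S.filter (fun n => n ≤ y),
            ∏ i, ip x (T i n + (p i).1 * (n : ℤ) ^ (j i) + (p i).2) -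
          ∑ n ∈ S.filter (fun n => n ≤ y),
            ∏ i, lz x z (T i n + (p i).1 * (n : ℤ) ^ (j i) + (p i).2)| ≤
        K / Real.log x ^ U := by
  classical
  set V : ℕ := 2 * U + 5 with hV
  obtain ⟨B1, Z, h⟩ := exc r J E0 V
  refine ⟨max B1 (U + 4), Z, fun E => ?_⟩
  obtain ⟨x1, h1⟩ := h E
  obtain ⟨x2, h2⟩ := Vi_upper E
  obtain ⟨x3, h3⟩ := ev_loglog_pow (2 * r)
  obtain ⟨x4, h4⟩ := ev_log_ge (2 ^ (r + 3) + Real.exp 1)
  refine ⟨max (max x1 x2) (max (max x3 x4) 3), ?_⟩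
  intro x hx z hz1 hz2 K hK j hj A X hA A0 B0 T S hS
  simp only [max_le_iff] at hx
  obtain ⟨⟨hx1, hx2⟩, ⟨hx3, hx4⟩, hx5⟩ := hx
  have hL : 1 < Real.log x := log_gt_one hx5
  have hL0 : 0 < Real.log x := by linarith
  have hLb := h4 x hx4
  have he1 : (2 : ℝ) < Real.exp 1 := by have := Real.exp_one_gt_d9; linarith
  have h2r : (8 : ℝ) ≤ 2 ^ (r + 3) := by
    rw [pow_add]
    have : (1 : ℝ) ≤ 2 ^ r := one_le_pow₀ (by norm_num)
    linarith
  set L := Real.log x with hLd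
  set l := Real.log L with hld
  have hl1 : 1 ≤ l := (Real.le_log_iff_exp_le hL0).2 (by linarith)
  have hVi := h2 x hx2 z hz2
  have hll := h3 x hx3
  rw [← hLd, ← hld] at hVi hll
  have hK1 : L ^ B1 ≤ K := (pow_le_pow_right₀ hL.le (le_max_left _ _)).trans hK
  have hK2 : L ^ (U + 4) ≤ K := (pow_le_pow_right₀ hL.le (le_max_right _ _)).trans hK
  have hKpos : (0 : ℝ) < K := lt_of_lt_of_le (by positivity) hK1
  have hA' : ∀ i, L ^ B1 ≤ A i ∧ (x : ℝ) ≤ A i * (K : ℝ) ^ (j i) * L ^ E0 ∧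
      (x : ℝ) ≤ X i * L ^ E0 := fun i =>
    ⟨(pow_le_pow_right₀ hL.le (le_max_left _ _)).trans (hA i).1, (hA i).2⟩
  -- the step
  set s : ℕ := ⌊(K : ℝ) / L ^ (U + 3)⌋₊ with hs
  have hs0 : L ≤ K / L ^ (U + 3) := by
    rw [le_div_iff₀ (by positivity)]
    calc L * L ^ (U + 3) = L ^ (U + 4) := by ring
      _ ≤ K := hK2
  have hs1 : (1 : ℝ) ≤ s := by
    have : 1 ≤ s := Nat.le_floor (by push_cast; linarith)
    exact_mod_cast this
  have hs2 : (s : ℝ) ≤ K / L ^ (U + 3) := Nat.floor_le (by positivity)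
  have hs3 : K / L ^ (U + 3) ≤ 2 * s := by
    have := Nat.lt_floor_add_one ((K : ℝ) / L ^ (U + 3))
    rw [← hs] at this
    linarith
  set Q : ℕ := K / s with hQ
  have hspos : 0 < s := by exact_mod_cast (by linarith : (0 : ℝ) < s)
  have hQle : (Q : ℝ) + 1 ≤ 4 * L ^ (U + 3) := by
    have e1 : (Q : ℝ) ≤ K / s := Nat.cast_div_le
    have e2 : (K : ℝ) / s ≤ 2 * L ^ (U + 3) := by
      rw [div_le_iff₀ (by linarith)]
      rw [div_le_iff₀ (by positivity)] at hs3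
      linarith
    have e3 : (1 : ℝ) ≤ L ^ (U + 3) := one_le_pow₀ hL.le
    linarith
  set box := Fintype.piFinset (fun i => Ioc (A0 i) (A0 i + A i) ×ˢ Ioc (B0 i) (B0 i + X i))
    with hbox
  set Dl : (Fin r → ℤ × ℤ) → ℕ → ℝ := fun p y =>
    ∑ n ∈ S.filter (fun n => n ≤ y),
            ∏ i, ip x (T i n + (p i).1 * (n : ℤ) ^ (j i) + (p i).2) -
          ∑ n ∈ S.filter (fun n => n ≤ y),
            ∏ i, lz x z (T i n + (p i).1 * (n : ℤ) ^ (j i) + (p i).2) with hDl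
  set Ex : Finset (Fin r → ℤ × ℤ) := (range (Q + 1)).biUnion (fun k => box.filter
    (fun p => K / L ^ V < |Dl p (k * s)|)) with hEx
  have hprod : 0 ≤ ∏ i, ((A i : ℝ) * X i) := prod_nonneg fun i _ => by positivity
  refine ⟨Ex, ?_, ?_⟩
  · have e1 : (Ex.card : ℝ) ≤ ∑ k ∈ range (Q + 1), ((box.filter
        (fun p => K / L ^ V < |Dl p (k * s)|)).card : ℝ) := by
      exact_mod_cast card_biUnion_le
    have e2 : ∀ k ∈ range (Q + 1), ((box.filter
        (fun p => K / L ^ V < |Dl p (k * s)|)).card : ℝ) ≤ (∏ i, ((A i : ℝ) * X i)) / L ^ V := by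
      intro k _
      exact h1 x hx1 z hz1 hz2 K hK1 j hj A X hA' A0 B0 T (S.filter (fun n => n ≤ k * s))
        ((filter_subset _ _).trans hS)
    refine (e1.trans (sum_le_sum e2)).trans ?_
    rw [sum_const, card_range, nsmul_eq_mul]
    have e3 : ((Q + 1 : ℕ) : ℝ) ≤ 4 * L ^ (U + 3) := by push_cast; exact hQle
    calc ((Q + 1 : ℕ) : ℝ) * ((∏ i, ((A i : ℝ) * X i)) / L ^ V)
        ≤ (4 * L ^ (U + 3)) * ((∏ i, ((A i : ℝ) * X i)) / L ^ V) :=
          mul_le_mul_of_nonneg_right e3 (by positivity)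
      _ = (∏ i, ((A i : ℝ) * X i)) / L ^ U * (4 / L ^ 2) := by
          have e21 : L ^ V = L ^ U * L ^ (U + 3) * L ^ 2 := by
            rw [← pow_add, ← pow_add, hV]
            congr 1
            ring
          have e22 : L ^ (U + 3) ≠ 0 := by positivity
          rw [e21]
          generalize L ^ (U + 3) = w at e22 ⊢
          field_simp
      _ ≤ (∏ i, ((A i : ℝ) * X i)) / L ^ U * 1 := by
          refine mul_le_mul_of_nonneg_left ?_ (by positivity)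
          rw [div_le_one (by positivity)]
          nlinarith
      _ = (∏ i, ((A i : ℝ) * X i)) / L ^ U := mul_one _
  intro p hp hpE y
  -- reduce to `y ≤ K`
  have hpk : ∀ k ≤ Q, |Dl p (k * s)| ≤ K / L ^ V := by
    intro k hk
    by_contra hcon
    push Not at hcon
    apply hpE
    rw [hEx, mem_biUnion]
    exact ⟨k, mem_range.2 (by omega), mem_filter.2 ⟨hp, hcon⟩⟩
  have key : ∀ y ≤ K, |Dl p y| ≤ K / L ^ U := by
    intro y hy
    set k := y / s with hk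
    have hkQ : k ≤ Q := Nat.div_le_div_right hy
    have hk1 : k * s ≤ y := Nat.div_mul_le_self y s
    have hk2 : y < k * s + s := by
      have e1 := Nat.div_add_mod y s
      have e2 := Nat.mod_lt y hspos
      have e3 : k * s = s * (y / s) := by rw [hk, mul_comm]
      omega
    have e1 : Dl p y - Dl p (k * s) = ∑ n ∈ S.filter (fun n => k * s < n ∧ n ≤ y),
        (∏ i, ip x (T i n + (p i).1 * (n : ℤ) ^ (j i) + (p i).2) -
          ∏ i, lz x z (T i n + (p i).1 * (n : ℤ) ^ (j i) + (p i).2)) := by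
      rw [hDl]
      simp only [← sum_sub_distrib]
      rw [sub_eq_iff_eq_add, add_comm, ← sum_union]
      · refine sum_congr ?_ fun n _ => rfl
        ext n
        simp only [mem_union, mem_filter]
        constructor
        · rintro ⟨h5, h6⟩
          by_cases h7 : n ≤ k * s
          · exact Or.inl ⟨h5, h7⟩
          · exact Or.inr ⟨h5, by omega, h6⟩
        · rintro (⟨h5, h6⟩ | ⟨h5, h6, h7⟩)
          · exact ⟨h5, by omega⟩
          · exact ⟨h5, h7⟩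
      · rw [disjoint_left]
        intro n hn hn'
        rw [mem_filter] at hn hn'
        omega
    have e2 : |Dl p y - Dl p (k * s)| ≤ s * (2 ^ (r + 1) * l ^ (2 * r)) := by
      rw [e1]
      refine (abs_sum_le_sum_abs _ _).trans ((sum_le_sum fun n _ =>
        term_bound x z l hl1 hVi.2.2.1 hVi.2.2.2 (fun i =>
          T i n + (p i).1 * (n : ℤ) ^ (j i) + (p i).2)).trans ?_)
      rw [sum_const, nsmul_eq_mul]
      refine mul_le_mul_of_nonneg_right ?_ (by positivity)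
      have e3 : S.filter (fun n => k * s < n ∧ n ≤ y) ⊆ Ioc (k * s) y := by
        intro n hn
        rw [mem_filter] at hn
        rw [mem_Ioc]
        exact hn.2
      have e4 := card_le_card e3
      rw [Nat.card_Ioc] at e4
      exact_mod_cast (by omega : (S.filter (fun n => k * s < n ∧ n ≤ y)).card ≤ s)
    have e5 : (2 : ℝ) ^ (r + 1) * l ^ (2 * r) ≤ L ^ 2 / 4 := by
      have e6 : (2 : ℝ) ^ (r + 1) * l ^ (2 * r) ≤ L / 4 * (L / 2) := by
        refine mul_le_mul ?_ (by linarith) (by positivity) (by positivity)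
        have : (2 : ℝ) ^ (r + 3) = 4 * 2 ^ (r + 1) := by ring
        linarith
      nlinarith
    have e6 : (s : ℝ) * (2 ^ (r + 1) * l ^ (2 * r)) ≤ K / L ^ U / 2 := by
      calc (s : ℝ) * (2 ^ (r + 1) * l ^ (2 * r)) ≤ (K / L ^ (U + 3)) * (L ^ 2 / 4) :=
            mul_le_mul hs2 e5 (by positivity) (by positivity)
        _ = K / L ^ U / 2 * (1 / (2 * L)) := by
            have e20 : L ^ (U + 3) = L ^ U * L ^ 2 * L := by ring
            rw [e20]
            field_simp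
            norm_num
        _ ≤ K / L ^ U / 2 * 1 := by
            refine mul_le_mul_of_nonneg_left ?_ (by positivity)
            rw [div_le_one (by positivity)]
            linarith
        _ = K / L ^ U / 2 := mul_one _
    have e7 : (K : ℝ) / L ^ V ≤ K / L ^ U / 2 := by
      rw [hV, show 2 * U + 5 = U + (U + 5) by ring, pow_add, div_mul_eq_div_div]
      refine div_le_div_of_nonneg_left (by positivity) (by norm_num) ?_
      calc (2 : ℝ) ≤ L ^ 1 := by rw [pow_one]; linarith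
        _ ≤ L ^ (U + 5) := pow_le_pow_right₀ hL.le (by omega)
    have e8 := hpk k hkQ
    have e9 : |Dl p y| ≤ |Dl p y - Dl p (k * s)| + |Dl p (k * s)| := by
      have := abs_add_le (Dl p y - Dl p (k * s)) (Dl p (k * s))
      simpa using this
    linarith
  by_cases hyK : y ≤ K
  · exact key y hyK
  · have e1 : S.filter (fun n => n ≤ y) = S.filter (fun n => n ≤ K) := by
      ext n
      simp only [mem_filter]
      constructor
      · rintro ⟨h5, _⟩
        have := mem_Icc.1 (hS h5)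
        exact ⟨h5, this.2⟩
      · rintro ⟨h5, h6⟩
        exact ⟨h5, by omega⟩
    rw [e1]
    exact key K le_rfl

end Pool.Agent.H300R2.NB
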