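import Pool.Agent.H300R2.NB.Defs

/-!
Definitions used in the final statements.
-/

namespace Pool.Agent.H300R2.NB

open Finset Polynomial

/-- the box of all `(a_i, b_i)_i` with `A0_i < a_i ≤ A0_i + A_i`, `B0_i < b_i ≤ B0_i + X_i` -/
noncomputable def Bx {r : ℕ} (A0 B0 : Fin r → ℤ) (A X : Fin r → ℕ) : Finset (Fin r → ℤ × ℤ) :=
  Fintype.piFinset (fun i => Ioc (A0 i) (A0 i + A i) ×ˢ Ioc (B0 i) (B0 i + X i))

/-- number of `n ∈ S` for which all `v_i(n)` are primes `≤ x` -/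
noncomputable def cntP {r : ℕ} (x : ℕ) (S : Finset ℕ) (v : Fin r → ℕ → ℤ) : ℝ :=
  ((S.filter (fun n => ∀ i, v i n ≤ x ∧ (v i n).toNat.Prime)).card : ℝ)

/-- number of `n ∈ S` with `0 < v_i(n) ≤ x` for all `i` -/
noncomputable def cntI {r : ℕ} (x : ℕ) (S : Finset ℕ) (v : Fin r → ℕ → ℤ) : ℝ :=
  ((S.filter (fun n => ∀ i, 0 < v i n ∧ v i n ≤ x)).card : ℝ)

/-- `∑ ∏_i 1 / log v_i(n)` over the `n ∈ S` with `2 ≤ v_i(n) ≤ x` for all `i` -/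
noncomputable def logS {r : ℕ} (x : ℕ) (S : Finset ℕ) (v : Fin r → ℕ → ℤ) : ℝ :=
  ∑ n ∈ S.filter (fun n => ∀ i, 2 ≤ v i n ∧ v i n ≤ x), ∏ i, 1 / Real.log (v i n)

/-- the polynomials `F_i + a_i X^{j_i} + b_i` -/
noncomputable def pen {r : ℕ} (F : Fin r → ℤ[X]) (j : Fin r → ℕ) (p : Fin r → ℤ × ℤ) :
    Fin r → ℤ[X] :=
  fun i => F i + C (p i).1 * X ^ (j i) + C (p i).2

/-- the values of the polynomials `G_i` -/
noncomputable def vals {r : ℕ} (G : Fin r → ℤ[X]) : Fin r → ℕ → ℤ :=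
  fun i n => (G i).eval (n : ℤ)

/-- truncated singular series `∏_{q ≤ N} (1 - 1/q)^{-r} (1 - ω(q)/q)` -/
noncomputable def sing {r : ℕ} (G : Fin r → ℤ[X]) (N : ℕ) : ℝ :=
  ∏ q ∈ (Icc 1 N).filter Nat.Prime, ((1 - 1 / (q : ℝ))⁻¹ ^ r * (1 - (om G q : ℝ) / q))

/-- truncated singular series for prime arguments,
`∏_{q ≤ N} (1 - 1/q)^{-r} (1 - ω*(q)/(q - 1))` -/
noncomputable def singp {r : ℕ} (G : Fin r → ℤ[X]) (N : ℕ) : ℝ :=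
  ∏ q ∈ (Icc 1 N).filter Nat.Prime,
    ((1 - 1 / (q : ℝ))⁻¹ ^ r * (1 - (omp G q : ℝ) / ((q : ℝ) - 1)))

end Pool.Agent.H300R2.NB
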