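import Mathlib

/-!
Few degenerate tuples of linear forms.
-/

namespace Pool.Agent.H300R2.NB

open Finset Polynomial

/-- fibres in the direction `k` -/
private theorem fd_fib {r : ℕ} {P : Type} [DecidableEq P] (B : Fin r → Finset P)
    (Q : (Fin r → P) → Prop) [DecidablePred Q] (k : Fin r) (m : ℕ)
    (h : ∀ p ∈ Fintype.piFinset B, ((B k).filter (fun c => Q (Function.update p k c))).card ≤ m) :
    ((Fintype.piFinset B).filter Q).card * (B k).card ≤ m * ∏ j, (B j).card := by
  classical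
  let f : (Fin r → P) → ({j : Fin r // j ≠ k} → P) := fun p j => p j.1
  have h1 : ((Fintype.piFinset B).filter Q).card ≤
      m * (Fintype.piFinset (fun j : {j : Fin r // j ≠ k} => B j.1)).card := by
    apply Finset.card_le_mul_card_image_of_maps_to (f := f)
    · intro p hp
      rw [mem_filter, Fintype.mem_piFinset] at hp
      rw [Fintype.mem_piFinset]
      intro j
      exact hp.1 j.1
    · intro b _
      rcases Finset.eq_empty_or_nonempty
        (((Fintype.piFinset B).filter Q).filter (fun p => f p = b)) with he | ⟨p0, hp0⟩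
      · rw [he]; simp
      · have hp0' := hp0
        rw [mem_filter, mem_filter] at hp0'
        refine le_trans ?_ (h p0 hp0'.1.1)
        apply Finset.card_le_card_of_injOn (fun p => p k)
        · intro p hp
          rw [mem_coe, mem_filter, mem_filter] at hp
          rw [mem_coe, mem_filter]
          refine ⟨Fintype.mem_piFinset.1 hp.1.1 k, ?_⟩
          have : Function.update p0 k (p k) = p := by
            funext j
            by_cases hj : j = k
            · subst hj; simp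
            · rw [Function.update_of_ne hj]
              have h2 : f p0 ⟨j, hj⟩ = f p ⟨j, hj⟩ := by rw [hp0'.2, hp.2]
              exact h2
          rw [this]
          exact hp.1.2
        · intro p hp p' hp' hpp
          rw [mem_coe, mem_filter, mem_filter] at hp hp'
          funext j
          by_cases hj : j = k
          · subst hj; exact hpp
          · have h2 : f p ⟨j, hj⟩ = f p' ⟨j, hj⟩ := by rw [hp.2, hp'.2]
            exact h2
  rw [Fintype.card_piFinset] at h1
  rw [Fintype.prod_eq_mul_prod_subtype_ne (fun j => (B j).card) k]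
  calc ((Fintype.piFinset B).filter Q).card * (B k).card
      ≤ m * (∏ i : {j : Fin r // j ≠ k}, (B i.1).card) * (B k).card :=
        Nat.mul_le_mul_right _ h1
    _ = m * ((B k).card * ∏ i : {j : Fin r // j ≠ k}, (B i.1).card) := by ring

private theorem fd_fibR {r : ℕ} {P : Type} [DecidableEq P] (B : Fin r → Finset P)
    (Q : (Fin r → P) → Prop) [DecidablePred Q] (k : Fin r) (t : ℝ) (ht : 0 ≤ t)
    (hB : 0 < (B k).card)
    (h : ∀ p ∈ Fintype.piFinset B,
      (((B k).filter (fun c => Q (Function.update p k c))).card : ℝ) ≤ t * (B k).card) :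
    (((Fintype.piFinset B).filter Q).card : ℝ) ≤ t * ∏ j, ((B j).card : ℝ) := by
  have h1 := fd_fib B Q k ⌊t * (B k).card⌋₊ (fun p hp => Nat.le_floor (h p hp))
  have h2 : ((⌊t * ((B k).card : ℝ)⌋₊ : ℕ) : ℝ) ≤ t * (B k).card :=
    Nat.floor_le (by positivity)
  have h3 : (((Fintype.piFinset B).filter Q).card : ℝ) * (B k).card ≤
      (⌊t * ((B k).card : ℝ)⌋₊ : ℕ) * ∏ j, ((B j).card : ℝ) := by
    exact_mod_cast h1
  have hBr : (0 : ℝ) < (B k).card := by exact_mod_cast hB
  have h4 : (((Fintype.piFinset B).filter Q).card : ℝ) * (B k).card ≤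
      (t * ∏ j, ((B j).card : ℝ)) * (B k).card := by
    refine h3.trans ?_
    have h5 : (0 : ℝ) ≤ ∏ j, ((B j).card : ℝ) := Finset.prod_nonneg fun j _ => Nat.cast_nonneg _
    nlinarith
  exact le_of_mul_le_mul_right h4 hBr

private theorem fd_dvd (a : ℤ) (X q : ℕ) (hq : 0 < q) :
    (((Ioc a (a + X)).filter (fun b => (q : ℤ) ∣ b)).card : ℝ) ≤ (X : ℝ) / q + 1 := by
  have hq' : (0 : ℤ) < q := by exact_mod_cast hq
  have h := Int.Ioc_filter_dvd_card a (a + X) hq'
  have hqQ : (0 : ℚ) < q := by exact_mod_cast hq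
  have h1 : (((Ioc a (a + X)).filter (fun b => (q : ℤ) ∣ b)).card : ℚ) ≤ (X : ℚ) / q + 1 := by
    have h2 : ((((Ioc a (a + X)).filter (fun b => (q : ℤ) ∣ b)).card : ℤ) : ℚ) =
        ((max (⌊((a + X : ℤ) : ℚ) / ((q : ℤ) : ℚ)⌋ - ⌊(a : ℚ) / ((q : ℤ) : ℚ)⌋) 0 : ℤ) : ℚ) := by
      rw [h]
    have h3 : (((Ioc a (a + X)).filter (fun b => (q : ℤ) ∣ b)).card : ℚ) =
        ((max (⌊((a + X : ℤ) : ℚ) / ((q : ℤ) : ℚ)⌋ - ⌊(a : ℚ) / ((q : ℤ) : ℚ)⌋) 0 : ℤ) : ℚ) := by
      rw [← h2]; push_cast; rfl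
    rw [h3, Int.cast_max]
    apply max_le
    · have f1 := Int.floor_le (((a + X : ℤ) : ℚ) / ((q : ℤ) : ℚ))
      have f2 := Int.lt_floor_add_one ((a : ℚ) / ((q : ℤ) : ℚ))
      push_cast at f1 f2 ⊢
      have f3 : ((a : ℚ) + X) / q = a / q + X / q := add_div _ _ _
      linarith
    · have : (0 : ℚ) ≤ (X : ℚ) / q := by positivity
      push_cast
      linarith
  have h4 : ((((Ioc a (a + X)).filter (fun b => (q : ℤ) ∣ b)).card : ℚ) : ℝ) ≤
      (((X : ℚ) / q + 1 : ℚ) : ℝ) := by exact_mod_cast h1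
  push_cast at h4
  exact h4

private theorem fd_primes (n : ℕ) (hn : n ≠ 0) :
    (n.primeFactors.card : ℝ) * Real.log 2 ≤ Real.log n := by
  have h1 : 2 ^ n.primeFactors.card ≤ ∏ p ∈ n.primeFactors, p :=
    Finset.pow_card_le_prod _ _ _ fun p hp => (Nat.prime_of_mem_primeFactors hp).two_le
  have h2 : ∏ p ∈ n.primeFactors, p ≤ n :=
    Nat.le_of_dvd (Nat.pos_of_ne_zero hn) (Nat.prod_primeFactors_dvd n)
  have h3 : ((2 : ℝ)) ^ n.primeFactors.card ≤ n := by exact_mod_cast h1.trans h2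
  have h4 := Real.log_le_log (by positivity) h3
  rw [Real.log_pow] at h4
  exact h4

open Classical in
/-- fibres with a common large prime factor -/
private theorem fd_common (a0 b0 : ℤ) (A X z : ℕ) (V t : ℝ) (hz : 0 < z)
    (hV : ∀ a ∈ Ioc a0 (a0 + A), a ≠ 0 → ((a.natAbs.primeFactors).card : ℝ) ≤ V)
    (hV0 : 0 ≤ V) (ht : (X : ℝ) / z + 1 ≤ t * X) :
    (((Ioc a0 (a0 + A) ×ˢ Ioc b0 (b0 + X)).filter (fun c : ℤ × ℤ => c.1 ≠ 0 ∧
      ∃ q : ℕ, q.Prime ∧ z < q ∧ (q : ℤ) ∣ c.1 ∧ (q : ℤ) ∣ c.2)).card : ℝ) ≤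
      (V * t) * ((A : ℝ) * X) := by
  have hsub : (Ioc a0 (a0 + A) ×ˢ Ioc b0 (b0 + X)).filter (fun c : ℤ × ℤ => c.1 ≠ 0 ∧
      ∃ q : ℕ, q.Prime ∧ z < q ∧ (q : ℤ) ∣ c.1 ∧ (q : ℤ) ∣ c.2) ⊆
      ((Ioc a0 (a0 + A)).filter (· ≠ 0)).biUnion (fun a =>
        (a.natAbs.primeFactors.filter (z < ·)).biUnion (fun q =>
          ((Ioc b0 (b0 + X)).filter (fun b => (q : ℤ) ∣ b)).image (fun b => (a, b)))) := by
    intro c hc
    rw [mem_filter, mem_product] at hc
    obtain ⟨⟨h1, h2⟩, h3, q, hq, hzq, hd1, hd2⟩ := hc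
    rw [mem_biUnion]
    refine ⟨c.1, by rw [mem_filter]; exact ⟨h1, h3⟩, ?_⟩
    rw [mem_biUnion]
    refine ⟨q, ?_, ?_⟩
    · rw [mem_filter, Nat.mem_primeFactors]
      refine ⟨⟨hq, ?_, by simpa using h3⟩, hzq⟩
      exact Int.natCast_dvd.1 hd1
    · rw [mem_image]
      exact ⟨c.2, by rw [mem_filter]; exact ⟨h2, hd2⟩, rfl⟩
  have hXz : (0 : ℝ) ≤ (X : ℝ) / z + 1 := by positivity
  have hcard : (((Ioc a0 (a0 + A) ×ˢ Ioc b0 (b0 + X)).filter (fun c : ℤ × ℤ => c.1 ≠ 0 ∧
      ∃ q : ℕ, q.Prime ∧ z < q ∧ (q : ℤ) ∣ c.1 ∧ (q : ℤ) ∣ c.2)).card : ℝ) ≤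
      ∑ a ∈ (Ioc a0 (a0 + A)).filter (· ≠ 0), V * (t * X) := by
    have h1 := (Finset.card_le_card hsub).trans Finset.card_biUnion_le
    have h2 : (((Ioc a0 (a0 + A) ×ˢ Ioc b0 (b0 + X)).filter (fun c : ℤ × ℤ => c.1 ≠ 0 ∧
      ∃ q : ℕ, q.Prime ∧ z < q ∧ (q : ℤ) ∣ c.1 ∧ (q : ℤ) ∣ c.2)).card : ℝ) ≤
      ((∑ a ∈ (Ioc a0 (a0 + A)).filter (· ≠ 0),
        ((a.natAbs.primeFactors.filter (z < ·)).biUnion (fun q =>
          ((Ioc b0 (b0 + X)).filter (fun b => (q : ℤ) ∣ b)).image (fun b => (a, b)))).card : ℕ) : ℝ) := by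
      exact_mod_cast h1
    refine h2.trans ?_
    rw [Nat.cast_sum]
    refine Finset.sum_le_sum fun a ha => ?_
    rw [mem_filter] at ha
    have h3 : (((a.natAbs.primeFactors.filter (z < ·)).biUnion (fun q =>
          ((Ioc b0 (b0 + X)).filter (fun b => (q : ℤ) ∣ b)).image (fun b => (a, b)))).card : ℝ) ≤
        ((∑ q ∈ a.natAbs.primeFactors.filter (z < ·),
          (((Ioc b0 (b0 + X)).filter (fun b => (q : ℤ) ∣ b)).image (fun b => (a, b))).card : ℕ) : ℝ) := by
      exact_mod_cast Finset.card_biUnion_le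
    refine h3.trans ?_
    rw [Nat.cast_sum]
    have h4 : ∀ q ∈ a.natAbs.primeFactors.filter (z < ·),
        ((((Ioc b0 (b0 + X)).filter (fun b => (q : ℤ) ∣ b)).image (fun b => (a, b))).card : ℝ) ≤
          t * X := by
      intro q hq
      rw [mem_filter] at hq
      have hq0 : 0 < q := by omega
      have h5 : ((((Ioc b0 (b0 + X)).filter (fun b => (q : ℤ) ∣ b)).image
          (fun b => (a, b))).card : ℝ) ≤ (((Ioc b0 (b0 + X)).filter (fun b => (q : ℤ) ∣ b)).card : ℝ) := by
        exact_mod_cast Finset.card_image_le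
      refine h5.trans ((fd_dvd b0 X q hq0).trans (le_trans ?_ ht))
      have hzr : (0 : ℝ) < z := by exact_mod_cast hz
      have hqz : (z : ℝ) ≤ q := by exact_mod_cast hq.2.le
      have : (X : ℝ) / q ≤ X / z := div_le_div_of_nonneg_left (Nat.cast_nonneg _) hzr hqz
      linarith
    have htX : 0 ≤ t * X := hXz.trans ht
    calc ∑ q ∈ a.natAbs.primeFactors.filter (z < ·),
        ((((Ioc b0 (b0 + X)).filter (fun b => (q : ℤ) ∣ b)).image (fun b => (a, b))).card : ℝ)
        ≤ ∑ q ∈ a.natAbs.primeFactors.filter (z < ·), t * (X : ℝ) := Finset.sum_le_sum h4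
      _ = ((a.natAbs.primeFactors.filter (z < ·)).card : ℝ) * (t * X) := by
          rw [Finset.sum_const, nsmul_eq_mul]
      _ ≤ V * (t * X) := by
          apply mul_le_mul_of_nonneg_right _ htX
          have h6 : ((a.natAbs.primeFactors.filter (z < ·)).card : ℝ) ≤
              (a.natAbs.primeFactors.card : ℝ) := by
            exact_mod_cast Finset.card_filter_le _ _
          exact h6.trans (hV a ha.1 ha.2)
  refine hcard.trans ?_
  rw [Finset.sum_const, nsmul_eq_mul]
  have h7 : (((Ioc a0 (a0 + A)).filter (· ≠ 0)).card : ℝ) ≤ A := by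
    have : ((Ioc a0 (a0 + A)).filter (· ≠ 0)).card ≤ A := by
      refine (Finset.card_filter_le _ _).trans ?_
      rw [Int.card_Ioc]
      simp
    exact_mod_cast this
  have h8 : 0 ≤ V * (t * X) := mul_nonneg hV0 (hXz.trans ht)
  calc (((Ioc a0 (a0 + A)).filter (· ≠ 0)).card : ℝ) * (V * (t * X))
      ≤ A * (V * (t * X)) := mul_le_mul_of_nonneg_right h7 h8
    _ = V * t * (A * X) := by ring

open Classical in
/-- S21. Few degenerate tuples of linear forms. -/
theorem few_degenerate (r C U : ℕ) : ∃ Z x0 : ℕ, ∀ x : ℕ, x0 ≤ x → ∀ z : ℕ,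
    Real.log x ^ Z ≤ z → ∀ (A X : Fin r → ℕ) (A0 B0 : Fin r → ℤ),
    (∀ i, Real.log x ^ Z ≤ A i ∧ Real.log x ^ Z ≤ X i ∧ |A0 i| + A i ≤ (x : ℤ) ^ C) →
    (((Fintype.piFinset (fun i => Ioc (A0 i) (A0 i + A i) ×ˢ Ioc (B0 i) (B0 i + X i))).filter
      (fun p => (∃ i, (p i).1 = 0) ∨ (∃ i k, i ≠ k ∧ (p i).1 * (p k).2 = (p k).1 * (p i).2) ∨
        ∃ i, ∃ q : ℕ, q.Prime ∧ z < q ∧ (q : ℤ) ∣ (p i).1 ∧ (q : ℤ) ∣ (p i).2)).card
      : ℝ) ≤ (∏ i, ((A i : ℝ) * X i)) / Real.log x ^ U := by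
  refine ⟨U + 3, ⌈Real.exp (r + r ^ 2 + 4 * C * r + 1)⌉₊, fun x hx z hz A X A0 B0 hAX => ?_⟩
  set L : ℝ := Real.log x with hL
  have hxe : Real.exp (r + r ^ 2 + 4 * C * r + 1) ≤ (x : ℝ) :=
    (Nat.le_ceil _).trans (by exact_mod_cast hx)
  have hx0 : (0 : ℝ) < x := (Real.exp_pos _).trans_le hxe
  have hLb : (r : ℝ) + r ^ 2 + 4 * C * r + 1 ≤ L := (Real.le_log_iff_exp_le hx0).2 hxe
  have hr0 : (0 : ℝ) ≤ r := Nat.cast_nonneg _
  have hC0 : (0 : ℝ) ≤ C := Nat.cast_nonneg _
  have hL1 : (1 : ℝ) ≤ L := by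
    have : (0 : ℝ) ≤ r + r ^ 2 + 4 * C * r := by positivity
    linarith
  have hLp : (0 : ℝ) < L := by linarith
  have hLZ : (0 : ℝ) < L ^ (U + 3) := by positivity
  have hLZ1 : (1 : ℝ) ≤ L ^ (U + 3) := one_le_pow₀ hL1
  -- the boxes
  set B : Fin r → Finset (ℤ × ℤ) :=
    fun i => Ioc (A0 i) (A0 i + A i) ×ˢ Ioc (B0 i) (B0 i + X i) with hB
  have hBc : ∀ i, ((B i).card : ℝ) = (A i : ℝ) * X i := by
    intro i
    rw [hB]
    simp only [card_product, Int.card_Ioc, add_sub_cancel_left, Int.toNat_natCast]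
    push_cast
    ring
  have hAp : ∀ i, (0 : ℝ) < A i := fun i => hLZ.trans_le (hAX i).1
  have hXp : ∀ i, (0 : ℝ) < X i := fun i => hLZ.trans_le (hAX i).2.1
  have hBp : ∀ i, 0 < (B i).card := by
    intro i
    have : (0 : ℝ) < (B i).card := by rw [hBc]; exact mul_pos (hAp i) (hXp i)
    exact_mod_cast this
  have hM : ∏ j, ((B j).card : ℝ) = ∏ i, ((A i : ℝ) * X i) :=
    Finset.prod_congr rfl fun i _ => hBc i
  set M : ℝ := ∏ i, ((A i : ℝ) * X i) with hMd
  have hM0 : 0 ≤ M := Finset.prod_nonneg fun i _ => by positivity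
  have hz0 : 0 < z := by
    have : (0 : ℝ) < z := hLZ.trans_le hz
    exact_mod_cast this
  -- the three kinds of degenerate tuples
  have c1 : ∀ i, (((Fintype.piFinset B).filter (fun p => (p i).1 = 0)).card : ℝ) ≤
      1 / L ^ (U + 3) * M := by
    intro i
    rw [← hM]
    apply fd_fibR B _ i _ (by positivity) (hBp i)
    intro p _
    have h1 : ((B i).filter (fun c => (Function.update p i c i).1 = 0)).card ≤ X i := by
      have : (B i).filter (fun c => (Function.update p i c i).1 = 0) ⊆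
          (Ioc (B0 i) (B0 i + X i)).image (fun b => ((0 : ℤ), b)) := by
        intro c hc
        rw [mem_filter, Function.update_self, hB, mem_product] at hc
        rw [mem_image]
        exact ⟨c.2, hc.1.2, by rw [← hc.2]⟩
      refine (Finset.card_le_card this).trans (Finset.card_image_le.trans ?_)
      rw [Int.card_Ioc]; simp
    have h2 : (((B i).filter (fun c => (Function.update p i c i).1 = 0)).card : ℝ) ≤ X i := by
      exact_mod_cast h1
    refine h2.trans ?_
    rw [hBc, div_mul_eq_mul_div, one_mul, le_div_iff₀ hLZ]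
    have := (hAX i).1
    nlinarith [hXp i]
  have c2 : ∀ i k, i ≠ k → (((Fintype.piFinset B).filter
      (fun p => (p i).1 ≠ 0 ∧ (p i).1 * (p k).2 = (p k).1 * (p i).2)).card : ℝ) ≤
      1 / L ^ (U + 3) * M := by
    intro i k hik
    rw [← hM]
    apply fd_fibR B _ k _ (by positivity) (hBp k)
    intro p _
    have h1 : ((B k).filter (fun c => (Function.update p k c i).1 ≠ 0 ∧
        (Function.update p k c i).1 * (Function.update p k c k).2 =
        (Function.update p k c k).1 * (Function.update p k c i).2)).card ≤ A k := by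
      have h3 : ((B k).filter (fun c => (Function.update p k c i).1 ≠ 0 ∧
        (Function.update p k c i).1 * (Function.update p k c k).2 =
        (Function.update p k c k).1 * (Function.update p k c i).2)).card ≤
          (Ioc (A0 k) (A0 k + A k)).card := by
        apply Finset.card_le_card_of_injOn (fun c => c.1)
        · intro c hc
          rw [mem_coe, mem_filter, hB, mem_product] at hc
          exact hc.1.1
        · intro c hc c' hc' hcc
          rw [mem_coe, mem_filter, Function.update_self, Function.update_of_ne hik] at hc hc'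
          have h4 : (p i).1 * c.2 = (p i).1 * c'.2 := by
            rw [hc.2.2, hc'.2.2]
            have : c.1 = c'.1 := hcc
            rw [this]
          exact Prod.ext hcc (mul_left_cancel₀ hc.2.1 h4)
      refine h3.trans ?_
      rw [Int.card_Ioc]; simp
    have h2 : (((B k).filter (fun c => (Function.update p k c i).1 ≠ 0 ∧
        (Function.update p k c i).1 * (Function.update p k c k).2 =
        (Function.update p k c k).1 * (Function.update p k c i).2)).card : ℝ) ≤ A k := by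
      exact_mod_cast h1
    refine h2.trans ?_
    rw [hBc, div_mul_eq_mul_div, one_mul, le_div_iff₀ hLZ]
    have := (hAX k).2.1
    nlinarith [hAp k]
  have c3 : ∀ i, (((Fintype.piFinset B).filter (fun p => (p i).1 ≠ 0 ∧
      ∃ q : ℕ, q.Prime ∧ z < q ∧ (q : ℤ) ∣ (p i).1 ∧ (q : ℤ) ∣ (p i).2)).card : ℝ) ≤
      (2 * C * L) * (2 / L ^ (U + 3)) * M := by
    intro i
    rw [← hM]
    apply fd_fibR B _ i _ (by positivity) (hBp i)
    intro p _
    have h1 := fd_common (A0 i) (B0 i) (A i) (X i) z (2 * C * L) (2 / L ^ (U + 3)) hz0 ?_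
      (by positivity) ?_
    · rw [hBc]
      refine le_trans (le_of_eq ?_) h1
      congr 2
      ext c
      rw [mem_filter, mem_filter, Function.update_self]
    · intro a ha ha0
      have h2 := fd_primes a.natAbs (by simpa using ha0)
      rw [mem_Ioc] at ha
      have h3 : |a| ≤ (x : ℤ) ^ C := by
        refine le_trans ?_ (hAX i).2.2
        rw [abs_le]
        have h4 := neg_abs_le (A0 i)
        have h5 := le_abs_self (A0 i)
        constructor <;> linarith
      have h6 : (a.natAbs : ℝ) ≤ (x : ℝ) ^ C := by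
        have : ((a.natAbs : ℤ) : ℝ) ≤ (((x : ℤ) ^ C : ℤ) : ℝ) := by
          rw [Int.natCast_natAbs]
          exact_mod_cast h3
        push_cast at this
        rw [Nat.cast_natAbs]
        push_cast
        exact this
      have h7 : (0 : ℝ) < a.natAbs := by
        have : 0 < a.natAbs := by omega
        exact_mod_cast this
      have h8 : Real.log a.natAbs ≤ C * L := by
        refine (Real.log_le_log h7 h6).trans ?_
        rw [Real.log_pow]
      have h9 : (1 : ℝ) / 2 ≤ Real.log 2 := by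
        have := Real.log_two_gt_d9
        linarith
      have h10 : (0 : ℝ) ≤ (a.natAbs.primeFactors.card : ℝ) := Nat.cast_nonneg _
      nlinarith
    · have hXi := (hAX i).2.1
      have hzr : (0 : ℝ) < z := by exact_mod_cast hz0
      have h2 : (X i : ℝ) / z ≤ X i / L ^ (U + 3) :=
        div_le_div_of_nonneg_left (Nat.cast_nonneg _) hLZ hz
      have h3 : (1 : ℝ) ≤ X i / L ^ (U + 3) := by
        rw [le_div_iff₀ hLZ, one_mul]; exact hXi
      have h4 : 2 / L ^ (U + 3) * (X i : ℝ) = X i / L ^ (U + 3) + X i / L ^ (U + 3) := by ring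
      rw [h4]
      linarith
  -- union bound
  have hsub : (Fintype.piFinset B).filter
      (fun p => (∃ i, (p i).1 = 0) ∨ (∃ i k, i ≠ k ∧ (p i).1 * (p k).2 = (p k).1 * (p i).2) ∨
        ∃ i, ∃ q : ℕ, q.Prime ∧ z < q ∧ (q : ℤ) ∣ (p i).1 ∧ (q : ℤ) ∣ (p i).2) ⊆
      ((univ : Finset (Fin r)).biUnion (fun i => (Fintype.piFinset B).filter
        (fun p => (p i).1 = 0))) ∪
      (((univ : Finset (Fin r × Fin r)).filter (fun s => s.1 ≠ s.2)).biUnion (fun s =>
        (Fintype.piFinset B).filter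
          (fun p => (p s.1).1 ≠ 0 ∧ (p s.1).1 * (p s.2).2 = (p s.2).1 * (p s.1).2)) ∪
      ((univ : Finset (Fin r)).biUnion (fun i => (Fintype.piFinset B).filter
        (fun p => (p i).1 ≠ 0 ∧
          ∃ q : ℕ, q.Prime ∧ z < q ∧ (q : ℤ) ∣ (p i).1 ∧ (q : ℤ) ∣ (p i).2)))) := by
    intro p hp
    rw [mem_filter] at hp
    obtain ⟨hpB, hp⟩ := hp
    by_cases h0 : ∃ i, (p i).1 = 0
    · obtain ⟨i, hi⟩ := h0
      rw [mem_union]
      left
      rw [mem_biUnion]
      exact ⟨i, mem_univ _, by rw [mem_filter]; exact ⟨hpB, hi⟩⟩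
    · have h0' := h0
      push Not at h0
      rw [mem_union]
      right
      rw [mem_union]
      rcases hp with hp | ⟨i, k, hik, hp⟩ | ⟨i, hp⟩
      · exact (h0' hp).elim
      · left
        rw [mem_biUnion]
        refine ⟨(i, k), ?_, ?_⟩
        · rw [mem_filter]; exact ⟨mem_univ _, hik⟩
        · rw [mem_filter]; exact ⟨hpB, h0 i, hp⟩
      · right
        rw [mem_biUnion]
        exact ⟨i, mem_univ _, by rw [mem_filter]; exact ⟨hpB, h0 i, hp⟩⟩
  have hN := Finset.card_le_card hsub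
  have hN2 : ((((Fintype.piFinset B).filter
      (fun p => (∃ i, (p i).1 = 0) ∨ (∃ i k, i ≠ k ∧ (p i).1 * (p k).2 = (p k).1 * (p i).2) ∨
        ∃ i, ∃ q : ℕ, q.Prime ∧ z < q ∧ (q : ℤ) ∣ (p i).1 ∧ (q : ℤ) ∣ (p i).2)).card : ℕ) : ℝ) ≤
      r * (1 / L ^ (U + 3) * M) + (r ^ 2 * (1 / L ^ (U + 3) * M) +
        r * ((2 * C * L) * (2 / L ^ (U + 3)) * M)) := by
    refine (Nat.cast_le.2 (hN.trans (Finset.card_union_le _ _))).trans ?_
    rw [Nat.cast_add]
    refine add_le_add ?_ ((Nat.cast_le.2 (Finset.card_union_le _ _)).trans ?_)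
    · refine (Nat.cast_le.2 Finset.card_biUnion_le).trans ?_
      rw [Nat.cast_sum]
      refine (Finset.sum_le_sum fun i _ => c1 i).trans ?_
      rw [Finset.sum_const, nsmul_eq_mul, Finset.card_univ, Fintype.card_fin]
    · rw [Nat.cast_add]
      refine add_le_add ?_ ?_
      · refine (Nat.cast_le.2 Finset.card_biUnion_le).trans ?_
        rw [Nat.cast_sum]
        refine (Finset.sum_le_sum fun s hs => c2 s.1 s.2 (by rw [mem_filter] at hs; exact hs.2)).trans ?_
        rw [Finset.sum_const, nsmul_eq_mul]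
        apply mul_le_mul_of_nonneg_right _ (by positivity)
        have : ((univ : Finset (Fin r × Fin r)).filter (fun s => s.1 ≠ s.2)).card ≤ r ^ 2 := by
          refine (Finset.card_filter_le _ _).trans ?_
          rw [Finset.card_univ, Fintype.card_prod, Fintype.card_fin, sq]
        exact_mod_cast this
      · refine (Nat.cast_le.2 Finset.card_biUnion_le).trans ?_
        rw [Nat.cast_sum]
        refine (Finset.sum_le_sum fun i _ => c3 i).trans ?_
        rw [Finset.sum_const, nsmul_eq_mul, Finset.card_univ, Fintype.card_fin]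
  refine hN2.trans ?_
  have hfin : r * (1 / L ^ (U + 3) * M) + (r ^ 2 * (1 / L ^ (U + 3) * M) +
        r * ((2 * C * L) * (2 / L ^ (U + 3)) * M)) =
      ((r + r ^ 2 + 4 * C * r * L) / L ^ 3) * (M / L ^ U) := by
    rw [pow_add]
    field_simp
    ring
  rw [hfin]
  have h1 : ((r : ℝ) + r ^ 2 + 4 * C * r * L) / L ^ 3 ≤ 1 := by
    rw [div_le_one (by positivity)]
    have h2 : (r : ℝ) + r ^ 2 + 4 * C * r * L ≤ (r + r ^ 2 + 4 * C * r) * L := by
      have : (r : ℝ) + r ^ 2 ≤ (r + r ^ 2) * L := le_mul_of_one_le_right (by positivity) hL1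
      nlinarith
    have h3 : ((r : ℝ) + r ^ 2 + 4 * C * r) * L ≤ L * L :=
      mul_le_mul_of_nonneg_right (by linarith) hLp.le
    have h4 : L * L ≤ L ^ 3 := by
      have : L ^ 3 = L * L * L := by ring
      rw [this]
      exact le_mul_of_one_le_right (by positivity) hL1
    linarith
  calc ((r : ℝ) + r ^ 2 + 4 * C * r * L) / L ^ 3 * (M / L ^ U) ≤ 1 * (M / L ^ U) :=
        mul_le_mul_of_nonneg_right h1 (by positivity)
    _ = M / L ^ U := one_mul _

end Pool.Agent.H300R2.NB
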