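import Pool.Agent.H300R2.NB.Poly
import Pool.Agent.H300R2.NB.Fd
import Pool.Agent.H300R2.NB.TailLin
import Pool.Agent.H300R2.NB.FewDeg

/-!
The Dickson-Hardy-Littlewood asymptotic, with the full singular series, for almost all tuples of
linear forms in natural boxes.
-/

namespace Pool.Agent.H300R2.NB

open Finset Polynomial Filter Topology

lemma SS_eq {r : ℕ} (G : Fin r → ℤ[X]) (z : ℕ) :
    sing G z = Vi z ^ r * ∏ q ∈ (Icc 1 z).filter Nat.Prime, (1 - (om G q : ℝ) / q) := by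
  unfold sing Vi
  rw [prod_mul_distrib, prod_pow]

lemma SS_split {r : ℕ} (G : Fin r → ℤ[X]) {z N : ℕ} (h : z ≤ N) :
    sing G N = sing G z * ∏ q ∈ (Ioc z N).filter Nat.Prime,
      ((1 - 1 / (q : ℝ))⁻¹ ^ r * (1 - (om G q : ℝ) / q)) := by
  unfold sing
  rw [← prod_union]
  · congr 1
    rw [← filter_union]
    congr 1
    ext n
    simp only [mem_union, mem_Icc, mem_Ioc]
    omega
  · rw [disjoint_left]
    intro n hn hn'
    rw [mem_filter, mem_Icc] at hn
    rw [mem_filter, mem_Ioc] at hn'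
    omega

lemma om_le {r : ℕ} (G : Fin r → ℤ[X]) (q : ℕ) : om G q ≤ q := by
  unfold om
  exact (card_filter_le _ _).trans (by rw [card_range])

lemma SS_abs_le {r : ℕ} (G : Fin r → ℤ[X]) (z : ℕ) (hV : 1 ≤ Vi z) : |sing G z| ≤ Vi z ^ r := by
  rw [SS_eq, abs_mul, abs_of_nonneg (by positivity : (0 : ℝ) ≤ Vi z ^ r)]
  refine mul_le_of_le_one_right (by positivity) ?_
  rw [abs_prod]
  refine prod_le_one (fun i _ => abs_nonneg _) fun q hq => ?_
  rw [mem_filter] at hq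
  have hq0 : (0 : ℝ) < q := by exact_mod_cast hq.2.pos
  have h1 : (om G q : ℝ) ≤ q := by exact_mod_cast om_le G q
  have h2 : (om G q : ℝ) / q ≤ 1 := by rw [div_le_one hq0]; exact h1
  have h3 : 0 ≤ (om G q : ℝ) / q := by positivity
  rw [abs_le]
  constructor <;> linarith

lemma tail_abs (t u : ℝ) (s : ℝ) (h : |t - 1| ≤ s) : |u * t - u| ≤ |u| * s := by
  have : u * t - u = u * (t - 1) := by ring
  rw [this, abs_mul]
  exact mul_le_mul_of_nonneg_left h (abs_nonneg _)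

open Classical in
theorem lins (r C U : ℕ) : ∃ B : ℕ, ∃ x0 : ℕ, ∀ x : ℕ, x0 ≤ x → ∀ K : ℕ,
    Real.exp (Real.log (Real.log x) ^ 3) ≤ K →
    ∀ A X : Fin r → ℕ, (∀ i, Real.log x ^ B ≤ A i ∧
      (x : ℝ) ≤ A i * (K : ℝ) * Real.log x ^ C ∧ (x : ℝ) ≤ X i * Real.log x ^ C) →
    ∀ (A0 B0 : Fin r → ℤ), (∀ i, |A0 i| + A i ≤ (x : ℤ) ^ C ∧ |B0 i| + X i ≤ (x : ℤ) ^ C) →
    ∃ Ex : Finset (Fin r → ℤ × ℤ),
      (Ex.card : ℝ) ≤ (∏ i, ((A i : ℝ) * X i)) / Real.log x ^ U ∧
      ∀ p ∈ Fintype.piFinset (fun i => Ioc (A0 i) (A0 i + A i) ×ˢ Ioc (B0 i) (B0 i + X i)),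
      p ∉ Ex →
      ∃ 𝔖 : ℝ, Tendsto (fun N => sing (fun i => Polynomial.C (p i).1 * Polynomial.X +
          Polynomial.C (p i).2) N) atTop (𝓝 𝔖) ∧
      |(((Icc 1 K).filter (fun n : ℕ => ∀ i, (p i).1 * (n : ℤ) + (p i).2 ≤ x ∧
          ((p i).1 * (n : ℤ) + (p i).2).toNat.Prime)).card : ℝ) -
        𝔖 * ∑ n ∈ (Icc 1 K).filter (fun n : ℕ => ∀ i,
          2 ≤ (p i).1 * (n : ℤ) + (p i).2 ∧ (p i).1 * (n : ℤ) + (p i).2 ≤ x),
          ∏ i, 1 / Real.log (((p i).1 * (n : ℤ) + (p i).2 : ℤ) : ℝ)| ≤ K / Real.log x ^ U ∧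
      ((∀ q : ℕ, q.Prime → om (fun i => Polynomial.C (p i).1 * Polynomial.X +
          Polynomial.C (p i).2) q < q) →
        (K : ℝ) / Real.log x ^ C ≤ (((Icc 1 K).filter (fun n : ℕ => ∀ i,
          2 ≤ (p i).1 * (n : ℤ) + (p i).2 ∧ (p i).1 * (n : ℤ) + (p i).2 ≤ x)).card : ℝ) →
        (K : ℝ) / Real.log x ^ (C + r + 1) ≤ (((Icc 1 K).filter (fun n : ℕ => ∀ i,
          (p i).1 * (n : ℤ) + (p i).2 ≤ x ∧
          ((p i).1 * (n : ℤ) + (p i).2).toNat.Prime)).card : ℝ)) := by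
  set V : ℕ := U + 1 with hV
  obtain ⟨B1, h1⟩ := polys r 1 C V
  obtain ⟨Z2, x2, h2⟩ := tail_lin r C (V + r + 1)
  obtain ⟨Z3, x3, h3⟩ := few_degenerate r C V
  set B : ℕ := max B1 (max Z2 Z3) with hB
  obtain ⟨x1, h1⟩ := h1 (B + 1)
  obtain ⟨x4, h4⟩ := ev_log_ge (2 + 2 ^ r)
  obtain ⟨x5, h5⟩ := ev_loglog_pow 2
  obtain ⟨x6, h6⟩ := Vi_upper (B + 1)
  obtain ⟨x7, h7⟩ : ∃ x7 : ℕ, ∀ x : ℕ, x7 ≤ x → Real.log x ^ (C + B) ≤ x := by
    have h := (isLittleO_log_rpow_atTop (show (0 : ℝ) < 1 / (C + B + 1 : ℕ) by positivity)).def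
      (show (0 : ℝ) < 1 by norm_num)
    have h' := tendsto_natCast_atTop_atTop.eventually h
    rw [eventually_atTop] at h'
    obtain ⟨x1, hx1⟩ := h'
    refine ⟨max x1 3, fun x hx => ?_⟩
    have e1 := hx1 x ((le_max_left _ _).trans hx)
    have e2 := log_gt_one ((le_max_right _ _).trans hx)
    have hx0 : (0 : ℝ) ≤ x := Nat.cast_nonneg _
    rw [one_mul, Real.norm_of_nonneg (by linarith), Real.norm_of_nonneg (by positivity)] at e1
    calc Real.log x ^ (C + B) ≤ Real.log x ^ (C + B + 1) :=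
          pow_le_pow_right₀ e2.le (by omega)
      _ ≤ ((x : ℝ) ^ (1 / ((C + B + 1 : ℕ) : ℝ))) ^ (C + B + 1) :=
          pow_le_pow_left₀ (by linarith) e1 _
      _ = x := by
          rw [← Real.rpow_natCast, ← Real.rpow_mul hx0, one_div, inv_mul_cancel₀ (by positivity),
            Real.rpow_one]
  refine ⟨B + 1, max (max (max x1 x2) (max x3 x4)) (max (max x5 x6) (max x7 3)), ?_⟩
  intro x hx K hK A X hA A0 B0 hAB
  simp only [max_le_iff] at hx
  obtain ⟨⟨⟨hx1, hx2⟩, hx3, hx4⟩, ⟨hx5, hx6⟩, hx7, hx8⟩ := hx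
  have hL : 1 < Real.log x := log_gt_one hx8
  have hL2 : 2 + 2 ^ r ≤ Real.log x := h4 x hx4
  have h2r : (0 : ℝ) < 2 ^ r := by positivity
  have hL0 : 0 < Real.log x := by linarith
  have hKpos : (0 : ℝ) < K := lt_of_lt_of_le (Real.exp_pos _) hK
  set z : ℕ := ⌈Real.log x ^ B⌉₊ with hz
  have hz1 : Real.log x ^ B ≤ z := Nat.le_ceil _
  have hz2 : (z : ℝ) ≤ Real.log x ^ (B + 1) := by
    have e1 : (z : ℝ) < Real.log x ^ B + 1 := Nat.ceil_lt_add_one (by positivity)
    have e2 : (1 : ℝ) ≤ Real.log x ^ B := one_le_pow₀ hL.le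
    rw [pow_succ]
    nlinarith
  have hXB : ∀ i, Real.log x ^ B ≤ X i := by
    intro i
    have e1 := (hA i).2.2
    have e2 := h7 x hx7
    rw [pow_add] at e2
    have e3 : (0 : ℝ) < Real.log x ^ C := by positivity
    have e4 : Real.log x ^ B * Real.log x ^ C ≤ X i * Real.log x ^ C := by
      rw [mul_comm]
      exact e2.trans e1
    exact le_of_mul_le_mul_right e4 e3
  have hAB' : ∀ i, Real.log x ^ B ≤ A i := fun i =>
    (pow_le_pow_right₀ hL.le (Nat.le_succ _)).trans (hA i).1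
  obtain ⟨Ex1, hEx1, hE1⟩ := h1 x hx1 z K
    ((pow_le_pow_right₀ hL.le (le_max_left _ _)).trans hz1) hz2 hK (fun _ => 1) A X
    (fun i => ⟨le_rfl, le_rfl, (pow_le_pow_right₀ hL.le (le_max_left _ _)).trans (hAB' i), by
      rw [pow_one]; exact (hA i).2.1, (hA i).2.2⟩) A0 B0 (fun _ => 0) (fun i => by simp)
  have hE2 := h3 x hx3 z ((pow_le_pow_right₀ hL.le
    ((le_max_right Z2 Z3).trans (le_max_right _ _))).trans hz1) A X A0 B0
    (fun i => ⟨(pow_le_pow_right₀ hL.le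
      ((le_max_right Z2 Z3).trans (le_max_right _ _))).trans (hAB' i),
      (pow_le_pow_right₀ hL.le
      ((le_max_right Z2 Z3).trans (le_max_right _ _))).trans (hXB i), (hAB i).1⟩)
  set box := Fintype.piFinset (fun i => Ioc (A0 i) (A0 i + A i) ×ˢ Ioc (B0 i) (B0 i + X i))
    with hbox
  set Ex2 := box.filter
      (fun p => (∃ i, (p i).1 = 0) ∨ (∃ i k, i ≠ k ∧ (p i).1 * (p k).2 = (p k).1 * (p i).2) ∨
        ∃ i, ∃ q : ℕ, q.Prime ∧ z < q ∧ (q : ℤ) ∣ (p i).1 ∧ (q : ℤ) ∣ (p i).2) with hEx2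
  refine ⟨Ex1 ∪ Ex2, ?_, ?_⟩
  · have e1 : ((Ex1 ∪ Ex2).card : ℝ) ≤ (∏ i, ((A i : ℝ) * X i)) / Real.log x ^ V +
        (∏ i, ((A i : ℝ) * X i)) / Real.log x ^ V := by
      have : ((Ex1 ∪ Ex2).card : ℝ) ≤ Ex1.card + Ex2.card := by exact_mod_cast card_union_le _ _
      exact this.trans (add_le_add hEx1 hE2)
    refine e1.trans ?_
    have e2 : 0 ≤ ∏ i, ((A i : ℝ) * X i) := prod_nonneg fun i _ => by positivity
    rw [hV, pow_succ, ← two_mul, div_mul_eq_div_div, ← mul_div_assoc, div_le_iff₀ hL0]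
    have : 0 ≤ (∏ i, ((A i : ℝ) * X i)) / Real.log x ^ U := by positivity
    nlinarith
  intro p hp hpE
  rw [mem_union, not_or] at hpE
  obtain ⟨hp1, hp2⟩ := hpE
  have e1 := hE1 p hp hp1
  rw [hEx2, mem_filter, not_and, not_or, not_or] at hp2
  obtain ⟨hn1, hn2, hn3⟩ := hp2 hp
  push Not at hn1 hn2 hn3
  set G : Fin r → ℤ[X] := fun i => Polynomial.C (p i).1 * Polynomial.X + Polynomial.C (p i).2
    with hG
  have hG' : (fun i => (0 : ℤ[X]) + Polynomial.C (p i).1 * Polynomial.X ^ 1 +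
      Polynomial.C (p i).2) = G := by
    funext i
    simp [hG]
  have hmem : ∀ i, |(p i).1| ≤ (x : ℤ) ^ C ∧ |(p i).2| ≤ (x : ℤ) ^ C := by
    intro i
    have e2 := (Fintype.mem_piFinset.1 hp) i
    rw [mem_product, mem_Ioc, mem_Ioc] at e2
    obtain ⟨⟨e3, e4⟩, e5, e6⟩ := e2
    have e7 := (hAB i).1
    have e8 := (hAB i).2
    have e9 := abs_le.1 (le_refl |A0 i|)
    have e10 := abs_le.1 (le_refl |B0 i|)
    have e11 : (0 : ℤ) ≤ A i := by positivity
    have e12 : (0 : ℤ) ≤ X i := by positivity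
    constructor
    · rw [abs_le]; constructor <;> linarith [e9.1, e9.2]
    · rw [abs_le]; constructor <;> linarith [e10.1, e10.2]
  -- tails
  have htail : ∀ x' : ℕ, x ≤ x' → ∀ z' : ℕ, z ≤ z' → Real.log x' ^ Z2 ≤ z' → ∀ N, z' ≤ N →
      |sing G N - sing G z'| ≤ |sing G z'| * (1 / Real.log x' ^ (V + r + 1)) := by
    intro x' hxx' z' hzz' hz' N hN
    have e2 := h2 x' (hx2.trans hxx') z' hz' (fun i => (p i).1) (fun i => (p i).2) hn1
      (fun i k hik => hn2 i k hik)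
      (fun i q hq hzq hd => hn3 i q hq (lt_of_le_of_lt hzz' hzq) hd.1 hd.2)
      (fun i => by
        have e3 : (x : ℤ) ^ C ≤ (x' : ℤ) ^ C := pow_le_pow_left₀ (by positivity)
          (by exact_mod_cast hxx') _
        exact ⟨(hmem i).1.trans e3, (hmem i).2.trans e3⟩) N hN
    rw [SS_split G hN]
    exact tail_abs _ _ _ e2
  have hz2' : Real.log x ^ Z2 ≤ z := (pow_le_pow_right₀ hL.le
    ((le_max_left Z2 Z3).trans (le_max_right _ _))).trans hz1
  have hVi := h6 x hx6 z hz2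
  have htz : ∀ N, z ≤ N → |sing G N - sing G z| ≤ |sing G z| * (1 / Real.log x ^ (V + r + 1)) :=
    fun N hN => htail x le_rfl z le_rfl hz2' N hN
  -- convergence
  have hbd : ∀ N, z ≤ N → |sing G N| ≤ 2 * |sing G z| := by
    intro N hN
    have e2 := htz N hN
    have e3 : 1 / Real.log x ^ (V + r + 1) ≤ 1 := by
      rw [div_le_one (by positivity)]
      exact one_le_pow₀ hL.le
    have e4 : |sing G z| * (1 / Real.log x ^ (V + r + 1)) ≤ |sing G z| :=
      mul_le_of_le_one_right (abs_nonneg _) e3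
    have e5 : |sing G N| ≤ |sing G N - sing G z| + |sing G z| := by
      have := abs_add_le (sing G N - sing G z) (sing G z)
      simpa using this
    linarith
  have hcau : CauchySeq (fun N => sing G N) := by
    rw [Metric.cauchySeq_iff']
    intro ε hε
    set M : ℝ := 2 * |sing G z| + 1 with hM
    have hM0 : 0 < M := by positivity
    obtain ⟨y, hy⟩ := ev_log_ge (max 2 (M / ε + 1))
    set x' : ℕ := max x y with hx'
    have e2 := hy x' (le_max_right _ _)
    have e3 : 2 ≤ Real.log x' := (le_max_left _ _).trans e2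
    have e4 : M / ε + 1 ≤ Real.log x' := (le_max_right _ _).trans e2
    refine ⟨max z ⌈Real.log x' ^ Z2⌉₊, fun n hn => ?_⟩
    rw [Real.dist_eq]
    have e5 := htail x' (le_max_left _ _) (max z ⌈Real.log x' ^ Z2⌉₊) (le_max_left _ _)
      ((Nat.le_ceil _).trans (by exact_mod_cast le_max_right _ _)) n hn
    refine lt_of_le_of_lt e5 ?_
    have e6 := hbd (max z ⌈Real.log x' ^ Z2⌉₊) (le_max_left _ _)
    have e7 : 1 / Real.log x' ^ (V + r + 1) ≤ 1 / Real.log x' := by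
      refine one_div_le_one_div_of_le (by linarith) ?_
      calc Real.log x' = Real.log x' ^ 1 := (pow_one _).symm
        _ ≤ Real.log x' ^ (V + r + 1) := pow_le_pow_right₀ (by linarith) (by omega)
    have e8 : M / ε < Real.log x' := by linarith
    have e9 : M < Real.log x' * ε := (div_lt_iff₀ hε).1 e8
    calc |sing G (max z ⌈Real.log x' ^ Z2⌉₊)| * (1 / Real.log x' ^ (V + r + 1))
        ≤ M * (1 / Real.log x') := mul_le_mul (by linarith) e7 (by positivity) hM0.le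
      _ < ε := by
          rw [mul_one_div, div_lt_iff₀ (by linarith)]
          linarith
  obtain ⟨𝔖, h𝔖⟩ := cauchySeq_tendsto_of_complete hcau
  refine ⟨𝔖, h𝔖, ?_, ?_⟩
  · -- comparison
    have e2 : |𝔖 - sing G z| ≤ |sing G z| * (1 / Real.log x ^ (V + r + 1)) := by
      have e3 : Tendsto (fun N => |sing G N - sing G z|) atTop (𝓝 |𝔖 - sing G z|) :=
        (h𝔖.sub_const _).abs
      refine le_of_tendsto e3 ?_
      rw [eventually_atTop]
      exact ⟨z, fun N hN => htz N hN⟩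
    have e4 := e1.1
    simp only [eval_zero, zero_add, pow_one] at e4
    rw [← SS_eq G z] at e4
    set S1 : ℝ := ∑ n ∈ (Icc 1 K).filter (fun n : ℕ => ∀ i,
          2 ≤ (p i).1 * (n : ℤ) + (p i).2 ∧ (p i).1 * (n : ℤ) + (p i).2 ≤ x),
          ∏ i, 1 / Real.log (((p i).1 * (n : ℤ) + (p i).2 : ℤ) : ℝ) with hS1
    have e5 : |S1| ≤ K * 2 ^ r := by
      rw [hS1]
      refine (abs_sum_le_sum_abs _ _).trans ?_
      have e6 : ∀ n ∈ (Icc 1 K).filter (fun n : ℕ => ∀ i,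
          2 ≤ (p i).1 * (n : ℤ) + (p i).2 ∧ (p i).1 * (n : ℤ) + (p i).2 ≤ x),
          |∏ i, 1 / Real.log (((p i).1 * (n : ℤ) + (p i).2 : ℤ) : ℝ)| ≤ (2 : ℝ) ^ r := by
        intro n hn
        rw [mem_filter] at hn
        rw [abs_prod]
        calc ∏ i, |1 / Real.log (((p i).1 * (n : ℤ) + (p i).2 : ℤ) : ℝ)| ≤ ∏ _i : Fin r, (2 : ℝ) := by
              refine prod_le_prod (fun i _ => abs_nonneg _) fun i _ => ?_
              have e7 : (2 : ℝ) ≤ (((p i).1 * (n : ℤ) + (p i).2 : ℤ) : ℝ) := by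
                exact_mod_cast (hn.2 i).1
              have e8 : Real.log 2 ≤ Real.log (((p i).1 * (n : ℤ) + (p i).2 : ℤ) : ℝ) :=
                Real.log_le_log (by norm_num) e7
              have e9 := Real.log_two_gt_d9
              rw [abs_of_nonneg (by positivity), div_le_iff₀ (by linarith)]
              linarith
          _ = 2 ^ r := by rw [prod_const, card_univ, Fintype.card_fin]
      refine (sum_le_sum e6).trans ?_
      rw [sum_const, nsmul_eq_mul]
      refine mul_le_mul_of_nonneg_right ?_ (by positivity)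
      have := card_filter_le (Icc 1 K) (fun n : ℕ => ∀ i,
          2 ≤ (p i).1 * (n : ℤ) + (p i).2 ∧ (p i).1 * (n : ℤ) + (p i).2 ≤ x)
      rw [Nat.card_Icc, Nat.add_sub_cancel] at this
      exact_mod_cast this
    have e10 : |sing G z| ≤ Real.log x ^ r := by
      refine (SS_abs_le G z hVi.1).trans (pow_le_pow_left₀ (by linarith [hVi.1]) ?_ _)
      have e11 := h5 x hx5
      have e12 : 0 ≤ Real.log (Real.log x) ^ 2 := sq_nonneg _
      linarith [hVi.2.1]
    have e11 : |(sing G z - 𝔖) * S1| ≤ K / Real.log x ^ V := by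
      rw [abs_mul, abs_sub_comm]
      calc |𝔖 - sing G z| * |S1| ≤ (Real.log x ^ r * (1 / Real.log x ^ (V + r + 1))) *
            (K * 2 ^ r) := by
            refine mul_le_mul (e2.trans ?_) e5 (abs_nonneg _) (by positivity)
            exact mul_le_mul_of_nonneg_right e10 (by positivity)
        _ = K / Real.log x ^ V * (2 ^ r / Real.log x) := by
            rw [pow_add, pow_add]
            field_simp
        _ ≤ K / Real.log x ^ V * 1 := by
            refine mul_le_mul_of_nonneg_left ?_ (by positivity)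
            rw [div_le_one hL0]
            linarith
        _ = K / Real.log x ^ V := mul_one _
    set N1 : ℝ := (((Icc 1 K).filter (fun n : ℕ => ∀ i, (p i).1 * (n : ℤ) + (p i).2 ≤ x ∧
          ((p i).1 * (n : ℤ) + (p i).2).toNat.Prime)).card : ℝ) with hN1
    have e12 : |N1 - 𝔖 * S1| ≤ K / Real.log x ^ V + K / Real.log x ^ V := by
      have e13 : N1 - 𝔖 * S1 = (N1 - sing G z * S1) + (sing G z - 𝔖) * S1 := by ring
      rw [e13]
      exact (abs_add_le _ _).trans (add_le_add e4 e11)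
    refine e12.trans ?_
    rw [hV, pow_succ, ← two_mul, div_mul_eq_div_div, ← mul_div_assoc, div_le_iff₀ hL0]
    have : 0 ≤ (K : ℝ) / Real.log x ^ U := by positivity
    nlinarith
  · intro hadm hnum
    have e4 := e1.2
    simp only [eval_zero, zero_add, pow_one] at e4
    exact e4 (fun q hq _ => hadm q hq) hnum

end Pool.Agent.H300R2.NB
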