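import Pool.Agent.H300R2.NB.Exc
import Pool.Agent.H300R2.NB.Fd
import Pool.Agent.H534R2.BH_Lam

/-!
Chowla sums of the Möbius function along arbitrary functions.
-/

namespace Pool.Agent.H300R2.NB

open Finset
open Pool.Agent.H469R2.NK (e)
open Pool.Agent.H300R2.BH

/-- the Möbius function on `[1, x]`, extended by zero -/
noncomputable def mux (x : ℕ) (m : ℤ) : ℂ :=
  if 1 ≤ m ∧ m ≤ x then ((ArithmeticFunction.moebius m.toNat : ℤ) : ℂ) else 0

lemma mux_norm (x : ℕ) (m : ℤ) : ‖mux x m‖ ≤ 1 := by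
  unfold mux
  split_ifs
  · rw [Complex.norm_intCast]
    have := ArithmeticFunction.abs_moebius_le_one (n := m.toNat)
    exact_mod_cast this
  · simp

lemma mux_fz (x : ℕ) (m : ℤ) :
    fz (fun n => if n ≤ x then ((ArithmeticFunction.moebius n : ℤ) : ℂ) else 0) m = mux x m := by
  unfold fz mux
  by_cases h1 : 1 ≤ m
  · rw [if_pos h1]
    beta_reduce
    by_cases h2 : m ≤ x
    · rw [if_pos (show m.toNat ≤ x by omega), if_pos ⟨h1, h2⟩]
    · rw [if_neg (show ¬ m.toNat ≤ x by omega), if_neg (fun h => h2 h.2)]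
  · rw [if_neg h1, if_neg (fun h => h1 h.1)]

/-- one form -/
theorem mob_one (j : ℕ) (hj : 1 ≤ j) (C U : ℕ) : ∃ B x0 : ℕ, ∀ x : ℕ, x0 ≤ x →
    ∀ K A : ℕ, Real.log x ^ B ≤ K → Real.log x ^ B ≤ A →
    (x : ℝ) ≤ A * (K : ℝ) ^ j * Real.log x ^ C →
    ∀ (A0 : ℤ) (T : ℕ → ℤ) (Bs : Finset ℤ) (W : ℕ → ℂ), (∀ n, ‖W n‖ ≤ 1) →
    ∑ a ∈ Ioc A0 (A0 + A), ∑ b ∈ Bs,
      ‖∑ n ∈ Icc 1 K, W n * mux x (T n + a * (n : ℤ) ^ j + b)‖ ^ 2 ≤
    A * (K : ℝ) ^ 2 * x / Real.log x ^ U := by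
  obtain ⟨E1, E3, B, x1, h1⟩ := star_all j hj C U
  obtain ⟨x2, h2⟩ := Pool.Agent.H534R2.BH.mu_fourier E1 E3
  refine ⟨B, max (max x1 x2) 3, fun x hx K A hK hA hAK A0 T Bs W hW => ?_⟩
  simp only [max_le_iff] at hx
  obtain ⟨⟨hx1, hx2⟩, hx3⟩ := hx
  have hL := log_gt_one hx3
  have h3 := h1 x hx1 (fun n => if n ≤ x then ((ArithmeticFunction.moebius n : ℤ) : ℂ) else 0)
    (fun n hn => if_neg (by omega)) (by
      intro q hq hqL b _ β hβ
      have h4 := h2 x hx2 q hq hqL b β hβ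
      refine le_trans (le_of_eq ?_) h4
      congr 1
      refine sum_congr rfl fun n hn => ?_
      rw [mem_Icc] at hn
      beta_reduce
      rw [if_pos hn.2]) (by
      have h4 : ∀ n ∈ Icc 1 x, ‖(if n ≤ x then ((ArithmeticFunction.moebius n : ℤ) : ℂ) else 0)‖ ^ 2
          ≤ 1 := by
        intro n _
        split_ifs
        · rw [Complex.norm_intCast]
          have h5 : |((ArithmeticFunction.moebius n : ℤ) : ℝ)| ≤ 1 := by
            have := ArithmeticFunction.abs_moebius_le_one (n := n)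
            exact_mod_cast this
          have h6 := abs_nonneg ((ArithmeticFunction.moebius n : ℤ) : ℝ)
          nlinarith
        · simp
      refine (sum_le_sum h4).trans ?_
      rw [sum_const, nsmul_eq_mul, mul_one, Nat.card_Icc, Nat.add_sub_cancel]
      exact le_mul_of_one_le_right (Nat.cast_nonneg x) (one_le_pow₀ hL.le)) K A hK hA hAK A0 T Bs W hW
  simpa only [mux_fz] using h3

/-- Chowla sums along arbitrary functions, all initial segments -/
theorem mobius (r J C U : ℕ) : ∃ B x0 : ℕ, ∀ x : ℕ, x0 ≤ x → ∀ K : ℕ, Real.log x ^ B ≤ K →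
    ∀ (j A X : Fin r → ℕ) (k : Fin r), 1 ≤ j k → j k ≤ J → Real.log x ^ B ≤ A k →
    (x : ℝ) ≤ A k * (K : ℝ) ^ (j k) * Real.log x ^ C → (x : ℝ) ≤ X k * Real.log x ^ C →
    ∀ (A0 B0 : Fin r → ℤ) (T : Fin r → ℕ → ℤ) (w : ℕ → ℂ) (g : Fin r → ℤ → ℂ),
    (∀ n, ‖w n‖ ≤ 1) → (∀ i m, ‖g i m‖ ≤ 1) →
    ∃ Ex : Finset (Fin r → ℤ × ℤ), (Ex.card : ℝ) ≤ (∏ i, ((A i : ℝ) * X i)) / Real.log x ^ U ∧
      ∀ p ∈ Bx A0 B0 A X, p ∉ Ex → ∀ y : ℕ, y ≤ K →
        ‖∑ n ∈ Icc 1 y, w n * mux x (T k n + (p k).1 * (n : ℤ) ^ (j k) + (p k).2) *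
          ∏ i ∈ univ.erase k, g i (T i n + (p i).1 * (n : ℤ) ^ (j i) + (p i).2)‖ ≤
        K / Real.log x ^ U := by
  classical
  set V : ℕ := 2 * U + 5 with hV
  have hs : ∀ j : ℕ, ∃ B x0 : ℕ, 1 ≤ j → ∀ x : ℕ, x0 ≤ x →
    ∀ K A : ℕ, Real.log x ^ B ≤ K → Real.log x ^ B ≤ A →
    (x : ℝ) ≤ A * (K : ℝ) ^ j * Real.log x ^ C →
    ∀ (A0 : ℤ) (T : ℕ → ℤ) (Bs : Finset ℤ) (W : ℕ → ℂ), (∀ n, ‖W n‖ ≤ 1) →
    ∑ a ∈ Ioc A0 (A0 + A), ∑ b ∈ Bs,
      ‖∑ n ∈ Icc 1 K, W n * mux x (T n + a * (n : ℤ) ^ j + b)‖ ^ 2 ≤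
    A * (K : ℝ) ^ 2 * x / Real.log x ^ (3 * V + C) := by
    intro j
    by_cases hj : 1 ≤ j
    · obtain ⟨B, x0, h⟩ := mob_one j hj C (3 * V + C)
      exact ⟨B, x0, fun _ => h⟩
    · exact ⟨0, 0, fun h => absurd h hj⟩
  choose Bf x0f hst using hs
  obtain ⟨x4, h4⟩ := ev_log_ge 4
  refine ⟨max ((range (J + 1)).sup Bf) (U + 4), max ((range (J + 1)).sup x0f) (max x4 3), ?_⟩
  intro x hx K hK j A X k hj1 hjJ hAk hAK hXk A0 B0 T w g hw hg
  simp only [max_le_iff] at hx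
  obtain ⟨hx1, hx4, hx3⟩ := hx
  have hL : 1 < Real.log x := log_gt_one hx3
  have hL0 : 0 < Real.log x := by linarith
  have hL4 := h4 x hx4
  set L := Real.log x with hLd
  have hmem : j k ∈ range (J + 1) := mem_range.2 (by omega)
  have hBk : Bf (j k) ≤ max ((range (J + 1)).sup Bf) (U + 4) :=
    (le_sup (f := Bf) hmem).trans (le_max_left _ _)
  have hx0k : x0f (j k) ≤ x := (le_sup (f := x0f) hmem).trans hx1
  have hK2 : L ^ (U + 4) ≤ K := (pow_le_pow_right₀ hL.le (le_max_right _ _)).trans hK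
  have hKpos : (0 : ℝ) < K := lt_of_lt_of_le (by positivity) hK2
  have hst' := hst (j k) hj1 x hx0k K (A k) ((pow_le_pow_right₀ hL.le hBk).trans hK)
    ((pow_le_pow_right₀ hL.le hBk).trans hAk) hAK
  have hx0 : (0 : ℝ) < x := by exact_mod_cast (by omega : 0 < x)
  have hAkpos : (0 : ℝ) < A k := lt_of_lt_of_le (by positivity) hAk
  have hXkpos : (0 : ℝ) < X k := by
    by_contra hcon
    have : (X k : ℝ) = 0 := le_antisymm (not_lt.1 hcon) (Nat.cast_nonneg _)
    rw [this, zero_mul] at hXk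
    linarith
  -- the sums
  set Fs : ℕ → (Fin r → ℤ × ℤ) → ℂ := fun y p =>
    ∑ n ∈ Icc 1 y, w n * mux x (T k n + (p k).1 * (n : ℤ) ^ (j k) + (p k).2) *
          ∏ i ∈ univ.erase k, g i (T i n + (p i).1 * (n : ℤ) ^ (j i) + (p i).2) with hFs
  set box := Bx A0 B0 A X with hbox
  have hcardb : (box.card : ℝ) = ∏ i, ((A i : ℝ) * X i) := by
    rw [hbox]
    unfold Bx
    rw [Fintype.card_piFinset]
    push_cast
    refine prod_congr rfl fun i _ => ?_
    rw [card_product, Int.card_Ioc, Int.card_Ioc]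
    simp
  have hprod : 0 ≤ ∏ i, ((A i : ℝ) * X i) := prod_nonneg fun i _ => by positivity
  -- second moment
  have hsec : ∀ y ≤ K, ∑ p ∈ box, ‖Fs y p‖ ^ 2 ≤
      (∏ i, ((A i : ℝ) * X i)) * (K : ℝ) ^ 2 / L ^ (3 * V) := by
    intro y hy
    have e1 := S10_swap (P := fun _ => ℤ × ℤ)
      (fun i => Ioc (A0 i) (A0 i + A i) ×ˢ Ioc (B0 i) (B0 i + X i)) k
      (fun p => ‖Fs y p‖ ^ 2)
    have e2 : ∀ p : Fin r → ℤ × ℤ, ∑ q ∈ Ioc (A0 k) (A0 k + A k) ×ˢ Ioc (B0 k) (B0 k + X k),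
        ‖Fs y (Function.update p k q)‖ ^ 2 ≤ A k * (K : ℝ) ^ 2 * x / L ^ (3 * V + C) := by
      intro p
      set W : ℕ → ℂ := fun n => (if n ≤ y then w n else 0) *
        ∏ i ∈ univ.erase k, g i (T i n + (p i).1 * (n : ℤ) ^ (j i) + (p i).2) with hW
      have hWn : ∀ n, ‖W n‖ ≤ 1 := by
        intro n
        rw [hW]
        dsimp only
        rw [norm_mul, norm_prod]
        have e3 : ‖(if n ≤ y then w n else 0)‖ ≤ 1 := by
          split_ifs
          · exact hw n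
          · simp
        have e4 : ∏ i ∈ univ.erase k, ‖g i (T i n + (p i).1 * (n : ℤ) ^ (j i) + (p i).2)‖ ≤ 1 :=
          prod_le_one (fun _ _ => norm_nonneg _) (fun i _ => hg i _)
        have e5 : 0 ≤ ∏ i ∈ univ.erase k, ‖g i (T i n + (p i).1 * (n : ℤ) ^ (j i) + (p i).2)‖ :=
          prod_nonneg fun _ _ => norm_nonneg _
        calc _ ≤ (1 : ℝ) * 1 := mul_le_mul e3 e4 e5 zero_le_one
          _ = 1 := one_mul 1
      have e6 := hst' (A0 k) (T k) (Ioc (B0 k) (B0 k + X k)) W hWn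
      rw [sum_product]
      refine le_trans (le_of_eq ?_) e6
      refine sum_congr rfl fun a _ => sum_congr rfl fun b _ => ?_
      congr 2
      rw [hFs]
      dsimp only
      have e7 : Icc 1 y = (Icc 1 K).filter (fun n => n ≤ y) := by
        ext n
        rw [mem_filter, mem_Icc, mem_Icc]
        omega
      rw [e7, sum_filter]
      refine sum_congr rfl fun n _ => ?_
      rw [hW]
      dsimp only
      have e8 : ∏ i ∈ univ.erase k, g i (T i n + (Function.update p k (a, b) i).1 * (n : ℤ) ^ (j i) +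
          (Function.update p k (a, b) i).2) =
          ∏ i ∈ univ.erase k, g i (T i n + (p i).1 * (n : ℤ) ^ (j i) + (p i).2) := by
        refine prod_congr rfl fun i hi => ?_
        rw [Function.update_of_ne (ne_of_mem_erase hi)]
      by_cases hn : n ≤ y
      · rw [if_pos hn, if_pos hn, e8, Function.update_self]
        ring
      · rw [if_neg hn, if_neg hn, zero_mul, zero_mul]
    have e3 : (((Ioc (A0 k) (A0 k + A k) ×ˢ Ioc (B0 k) (B0 k + X k)).card : ℕ) : ℝ) =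
        (A k : ℝ) * X k := by
      rw [card_product, Int.card_Ioc, Int.card_Ioc]
      simp
    rw [e3] at e1
    have e4 : (A k : ℝ) * X k * ∑ p ∈ box, ‖Fs y p‖ ^ 2 ≤
        (box.card : ℝ) * (A k * (K : ℝ) ^ 2 * x / L ^ (3 * V + C)) := by
      rw [hbox]
      unfold Bx
      rw [e1]
      refine (sum_le_sum fun p _ => e2 p).trans (le_of_eq ?_)
      rw [sum_const, nsmul_eq_mul]
    have e5 : (box.card : ℝ) * (A k * (K : ℝ) ^ 2 * x / L ^ (3 * V + C)) ≤
        (A k : ℝ) * X k * ((box.card : ℝ) * (K : ℝ) ^ 2 / L ^ (3 * V)) := by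
      have e6 : A k * (K : ℝ) ^ 2 * x / L ^ (3 * V + C) ≤
          A k * (K : ℝ) ^ 2 * (X k * L ^ C) / L ^ (3 * V + C) := by
        refine div_le_div_of_nonneg_right ?_ (by positivity)
        exact mul_le_mul_of_nonneg_left hXk (by positivity)
      calc (box.card : ℝ) * (A k * (K : ℝ) ^ 2 * x / L ^ (3 * V + C))
          ≤ (box.card : ℝ) * (A k * (K : ℝ) ^ 2 * (X k * L ^ C) / L ^ (3 * V + C)) :=
            mul_le_mul_of_nonneg_left e6 (Nat.cast_nonneg _)
        _ = (A k : ℝ) * X k * ((box.card : ℝ) * (K : ℝ) ^ 2 / L ^ (3 * V)) := by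
            rw [pow_add]
            field_simp
    have e7 := le_of_mul_le_mul_left (e4.trans e5) (by positivity)
    rw [hcardb] at e7
    exact e7
  -- the step
  set s : ℕ := ⌊(K : ℝ) / L ^ (U + 3)⌋₊ with hs
  have hs0 : L ≤ K / L ^ (U + 3) := by
    rw [le_div_iff₀ (by positivity)]
    calc L * L ^ (U + 3) = L ^ (U + 4) := by ring
      _ ≤ K := hK2
  have hs1 : (1 : ℝ) ≤ s := by
    have : 1 ≤ s := Nat.le_floor (by push_cast; linarith)
    exact_mod_cast this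
  have hs2 : (s : ℝ) ≤ K / L ^ (U + 3) := Nat.floor_le (by positivity)
  have hs3 : K / L ^ (U + 3) ≤ 2 * s := by
    have := Nat.lt_floor_add_one ((K : ℝ) / L ^ (U + 3))
    rw [← hs] at this
    linarith
  set Q : ℕ := K / s with hQ
  have hspos : 0 < s := by exact_mod_cast (by linarith : (0 : ℝ) < s)
  have hQle : (Q : ℝ) + 1 ≤ 4 * L ^ (U + 3) := by
    have e1 : (Q : ℝ) ≤ K / s := Nat.cast_div_le
    have e2 : (K : ℝ) / s ≤ 2 * L ^ (U + 3) := by
      rw [div_le_iff₀ (by linarith)]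
      rw [div_le_iff₀ (by positivity)] at hs3
      linarith
    have e3 : (1 : ℝ) ≤ L ^ (U + 3) := one_le_pow₀ hL.le
    linarith
  set Ex : Finset (Fin r → ℤ × ℤ) := (range (Q + 1)).biUnion (fun t => box.filter
    (fun p => K / L ^ V < |‖Fs (t * s) p‖|)) with hEx
  have hQK : ∀ t ∈ range (Q + 1), t * s ≤ K := by
    intro t ht
    rw [mem_range] at ht
    calc t * s ≤ Q * s := Nat.mul_le_mul_right _ (by omega)
      _ ≤ K := Nat.div_mul_le_self K s
  refine ⟨Ex, ?_, ?_⟩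
  · have e1 : (Ex.card : ℝ) ≤ ∑ t ∈ range (Q + 1), ((box.filter
        (fun p => K / L ^ V < |‖Fs (t * s) p‖|)).card : ℝ) := by
      exact_mod_cast card_biUnion_le
    have e2 : ∀ t ∈ range (Q + 1), ((box.filter
        (fun p => K / L ^ V < |‖Fs (t * s) p‖|)).card : ℝ) ≤
        (∏ i, ((A i : ℝ) * X i)) / L ^ V := by
      intro t ht
      have e3 := cheb box (fun p => ‖Fs (t * s) p‖) _ (K / L ^ V) (by positivity)
        (hsec (t * s) (hQK t ht))
      have e4 : (0 : ℝ) < (K / L ^ V) ^ 2 := by positivity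
      rw [← le_div_iff₀ e4] at e3
      refine e3.trans (le_of_eq ?_)
      have hKne : (K : ℝ) ≠ 0 := hKpos.ne'
      rw [show 3 * V = V + V + V by ring, pow_add, pow_add]
      field_simp
    refine (e1.trans (sum_le_sum e2)).trans ?_
    rw [sum_const, card_range, nsmul_eq_mul]
    have e3 : ((Q + 1 : ℕ) : ℝ) ≤ 4 * L ^ (U + 3) := by push_cast; exact hQle
    calc ((Q + 1 : ℕ) : ℝ) * ((∏ i, ((A i : ℝ) * X i)) / L ^ V)
        ≤ (4 * L ^ (U + 3)) * ((∏ i, ((A i : ℝ) * X i)) / L ^ V) :=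
          mul_le_mul_of_nonneg_right e3 (by positivity)
      _ = (∏ i, ((A i : ℝ) * X i)) / L ^ U * (4 / L ^ 2) := by
          have e21 : L ^ V = L ^ U * L ^ (U + 3) * L ^ 2 := by
            rw [← pow_add, ← pow_add, hV]
            congr 1
            ring
          have e22 : L ^ (U + 3) ≠ 0 := by positivity
          rw [e21]
          generalize L ^ (U + 3) = w at e22 ⊢
          field_simp
      _ ≤ (∏ i, ((A i : ℝ) * X i)) / L ^ U * 1 := by
          refine mul_le_mul_of_nonneg_left ?_ (by positivity)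
          rw [div_le_one (by positivity)]
          nlinarith
      _ = (∏ i, ((A i : ℝ) * X i)) / L ^ U := mul_one _
  intro p hp hpE y hy
  have hpk : ∀ t ≤ Q, ‖Fs (t * s) p‖ ≤ K / L ^ V := by
    intro t ht
    by_contra hcon
    push Not at hcon
    apply hpE
    rw [hEx, mem_biUnion]
    exact ⟨t, mem_range.2 (by omega), mem_filter.2 ⟨hp, by rw [abs_norm]; exact hcon⟩⟩
  set t := y / s with ht
  have htQ : t ≤ Q := Nat.div_le_div_right hy
  have ht1 : t * s ≤ y := Nat.div_mul_le_self y s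
  have ht2 : y < t * s + s := by
    have e1 := Nat.div_add_mod y s
    have e2 := Nat.mod_lt y hspos
    have e3 : t * s = s * (y / s) := by rw [ht, mul_comm]
    omega
  have e1 : Fs y p - Fs (t * s) p = ∑ n ∈ Ioc (t * s) y,
      w n * mux x (T k n + (p k).1 * (n : ℤ) ^ (j k) + (p k).2) *
          ∏ i ∈ univ.erase k, g i (T i n + (p i).1 * (n : ℤ) ^ (j i) + (p i).2) := by
    rw [hFs]
    dsimp only
    rw [sub_eq_iff_eq_add, add_comm, ← sum_union]
    · refine sum_congr ?_ fun n _ => rfl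
      ext n
      simp only [mem_union, mem_Icc, mem_Ioc]
      omega
    · rw [disjoint_left]
      intro n hn hn'
      rw [mem_Icc] at hn
      rw [mem_Ioc] at hn'
      omega
  have e2 : ‖Fs y p - Fs (t * s) p‖ ≤ s := by
    rw [e1]
    refine (norm_sum_le _ _).trans ?_
    have e3 : ∀ n ∈ Ioc (t * s) y, ‖w n * mux x (T k n + (p k).1 * (n : ℤ) ^ (j k) + (p k).2) *
          ∏ i ∈ univ.erase k, g i (T i n + (p i).1 * (n : ℤ) ^ (j i) + (p i).2)‖ ≤ 1 := by
      intro n _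
      rw [norm_mul, norm_mul, norm_prod]
      have e4 : ∏ i ∈ univ.erase k, ‖g i (T i n + (p i).1 * (n : ℤ) ^ (j i) + (p i).2)‖ ≤ 1 :=
        prod_le_one (fun _ _ => norm_nonneg _) (fun i _ => hg i _)
      have e5 : 0 ≤ ∏ i ∈ univ.erase k, ‖g i (T i n + (p i).1 * (n : ℤ) ^ (j i) + (p i).2)‖ :=
        prod_nonneg fun _ _ => norm_nonneg _
      have e6 : ‖w n‖ * ‖mux x (T k n + (p k).1 * (n : ℤ) ^ (j k) + (p k).2)‖ ≤ 1 * 1 :=
        mul_le_mul (hw n) (mux_norm x _) (norm_nonneg _) zero_le_one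
      rw [one_mul] at e6
      calc _ ≤ (1 : ℝ) * 1 := mul_le_mul e6 e4 e5 zero_le_one
        _ = 1 := one_mul 1
    refine (sum_le_sum e3).trans ?_
    rw [sum_const, nsmul_eq_mul, mul_one, Nat.card_Ioc]
    exact_mod_cast (by omega : y - t * s ≤ s)
  have e6 : (s : ℝ) ≤ K / L ^ U / 2 := by
    calc (s : ℝ) ≤ K / L ^ (U + 3) := hs2
      _ = K / L ^ U / L ^ 3 := by rw [pow_add, div_mul_eq_div_div]
      _ ≤ K / L ^ U / 2 := by
          refine div_le_div_of_nonneg_left (by positivity) (by norm_num) ?_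
          calc (2 : ℝ) ≤ L ^ 1 := by rw [pow_one]; linarith
            _ ≤ L ^ 3 := pow_le_pow_right₀ hL.le (by norm_num)
  have e7 : (K : ℝ) / L ^ V ≤ K / L ^ U / 2 := by
    rw [hV, show 2 * U + 5 = U + (U + 5) by ring, pow_add, div_mul_eq_div_div]
    refine div_le_div_of_nonneg_left (by positivity) (by norm_num) ?_
    calc (2 : ℝ) ≤ L ^ 1 := by rw [pow_one]; linarith
      _ ≤ L ^ (U + 5) := pow_le_pow_right₀ hL.le (by omega)
  have e8 := hpk t htQ
  have e9 : ‖Fs y p‖ ≤ ‖Fs y p - Fs (t * s) p‖ + ‖Fs (t * s) p‖ := by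
    have := norm_add_le (Fs y p - Fs (t * s) p) (Fs (t * s) p)
    simpa using this
  linarith

end Pool.Agent.H300R2.NB
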