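import Pool.Agent.H300R2.NB.Mob

/-!
Chowla sums of products of powers of the Möbius function at pairs of linear forms in the full boxes.
-/

namespace Pool.Agent.H300R2.NB

open Finset
open Pool.Agent.H300R2.BH

/-- the exponents `0, 1, 2` suffice -/
def redE (e : ℕ) : Fin 3 := if e = 0 then 0 else if Odd e then 1 else 2

lemma mu_cases (m : ℕ) : ArithmeticFunction.moebius m = 0 ∨ ArithmeticFunction.moebius m = 1 ∨
    ArithmeticFunction.moebius m = -1 := by
  have h2 := ArithmeticFunction.abs_moebius_le_one (n := m)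
  rw [abs_le] at h2
  omega

lemma mu_redE (m e : ℕ) :
    (ArithmeticFunction.moebius m) ^ e = (ArithmeticFunction.moebius m) ^ (redE e : ℕ) := by
  unfold redE
  by_cases h0 : e = 0
  · rw [if_pos h0, h0]; rfl
  · rw [if_neg h0]
    have h1 := mu_cases m
    by_cases h3 : Odd e
    · rw [if_pos h3]
      rcases h1 with h | h | h
      · rw [h, zero_pow h0]; rfl
      · rw [h, one_pow]; rfl
      · rw [h, h3.neg_one_pow]; rfl
    · rw [if_neg h3]
      have h4 : Even e := Nat.not_odd_iff_even.1 h3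
      rcases h1 with h | h | h
      · rw [h, zero_pow h0]; rfl
      · rw [h, one_pow]; rfl
      · rw [h, h4.neg_one_pow]; rfl

lemma redE_odd {e : ℕ} (h : Odd e) : ((redE e : Fin 3) : ℕ) = 1 := by
  unfold redE
  rw [if_neg (by rintro rfl; simp at h), if_pos h]
  rfl

lemma mux_eq {x : ℕ} {v : ℤ} (h : v ≤ x) :
    mux x v = ((ArithmeticFunction.moebius v.toNat : ℤ) : ℂ) := by
  unfold mux
  by_cases h1 : 1 ≤ v
  · rw [if_pos ⟨h1, h⟩]
  · rw [if_neg (fun h2 => h1 h2.1), Int.toNat_of_nonpos (by omega)]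
    simp

lemma mu_pow_norm (m c : ℕ) : ‖(((ArithmeticFunction.moebius m) ^ c : ℤ) : ℂ)‖ ≤ 1 := by
  rw [Complex.norm_intCast]
  have : |(ArithmeticFunction.moebius m) ^ c| ≤ 1 := by
    rw [abs_pow]
    exact pow_le_one₀ (abs_nonneg _) ArithmeticFunction.abs_moebius_le_one
  exact_mod_cast this

/-- Chowla's conjecture for almost all tuples of linear forms -/
theorem mobius_lin (r U : ℕ) : ∃ B x0 : ℕ, ∀ x : ℕ, x0 ≤ x → ∀ K : ℕ, Real.log x ^ B ≤ K →
    (K : ℝ) * Real.log x ^ B ≤ x →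
    ∃ Ex : Finset (Fin r → ℤ × ℤ), (Ex.card : ℝ) ≤ ((x : ℝ) ^ 2 / K) ^ r / Real.log x ^ U ∧
      ∀ p : Fin r → ℤ × ℤ, p ∉ Ex → (∀ i, |(p i).1| * K ≤ x) → (∀ i, |(p i).2| ≤ x) →
        ∀ e : Fin r → ℕ, (∃ k, Odd (e k)) → ∀ y : ℕ, y ≤ K →
          |((∑ n ∈ Icc 1 y, ∏ i, ArithmeticFunction.moebius
            ((p i).1 * (n : ℤ) + (p i).2).toNat ^ e i : ℤ) : ℝ)| ≤ K / Real.log x ^ U := by
  classical
  obtain ⟨B, x1, h1⟩ := mobius r 1 1 (U + 1)
  obtain ⟨x2, h2⟩ := ev_log_ge (r * 3 ^ r * 9 ^ r + 4)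
  refine ⟨2 * B, max (max x1 x2) 3, fun x hx K hK hKx => ?_⟩
  simp only [max_le_iff] at hx
  obtain ⟨⟨hx1, hx2⟩, hx3⟩ := hx
  have hL := log_gt_one hx3
  have hL4 := h2 x hx2
  have h39 : (0 : ℝ) ≤ r * 3 ^ r * 9 ^ r := by positivity
  have hx0 : (0 : ℝ) < x := by exact_mod_cast (by omega : 0 < x)
  have hlog2 : Real.log ((2 * x : ℕ) : ℝ) ≤ Real.log x ^ 2 := by
    push_cast
    rw [Real.log_mul (by norm_num) hx0.ne']
    have h3 : Real.log 2 ≤ 1 := by
      have := Real.log_two_lt_d9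
      linarith
    nlinarith
  have hlog1 : Real.log x ≤ Real.log ((2 * x : ℕ) : ℝ) :=
    Real.log_le_log hx0 (by push_cast; linarith)
  have hL2 : 1 < Real.log ((2 * x : ℕ) : ℝ) := by linarith
  have hBB : Real.log ((2 * x : ℕ) : ℝ) ^ B ≤ Real.log x ^ (2 * B) := by
    rw [pow_mul]
    exact pow_le_pow_left₀ (by linarith) hlog2 B
  have hK1 : (1 : ℝ) ≤ K := (one_le_pow₀ hL.le).trans hK
  have hK0 : (0 : ℝ) < K := by linarith
  have hKn : 0 < K := by exact_mod_cast hK0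
  have hKlx : (K : ℝ) ≤ x := by
    have := one_le_pow₀ hL.le (n := 2 * B)
    nlinarith
  set q : ℕ := x / K with hq
  have hq1n : x < (q + 1) * K := by
    have h3 := Nat.div_add_mod x K
    have h4 := Nat.mod_lt x hKn
    have h5 : (q + 1) * K = K * (x / K) + K := by rw [hq]; ring
    omega
  have hq1 : (x : ℝ) < (q + 1) * K := by exact_mod_cast hq1n
  have hq2n : q * K ≤ x := Nat.div_mul_le_self x K
  have hq2 : (q : ℝ) ≤ x / K := by
    rw [le_div_iff₀ hK0]
    exact_mod_cast hq2n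
  have hA : Real.log ((2 * x : ℕ) : ℝ) ^ B ≤ ((2 * q + 1 : ℕ) : ℝ) := by
    have h3 : Real.log x ^ (2 * B) ≤ x / K := by
      rw [le_div_iff₀ hK0]
      linarith
    have h4 : (x : ℝ) / K < q + 1 := by
      rw [div_lt_iff₀ hK0]
      exact hq1
    refine hBB.trans ?_
    push_cast
    have h5 : (0 : ℝ) ≤ q := Nat.cast_nonneg q
    linarith
  have hAK : ((2 * x : ℕ) : ℝ) ≤ ((2 * q + 1 : ℕ) : ℝ) * (K : ℝ) ^ 1 *
      Real.log ((2 * x : ℕ) : ℝ) ^ 1 := by
    rw [pow_one, pow_one]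
    have h5 : (0 : ℝ) ≤ q := Nat.cast_nonneg q
    have h3 : (x : ℝ) ≤ ((2 * q + 1 : ℕ) : ℝ) * K := by
      push_cast
      nlinarith
    have h4 : (2 : ℝ) ≤ Real.log ((2 * x : ℕ) : ℝ) := by linarith
    calc ((2 * x : ℕ) : ℝ) = x * 2 := by push_cast; ring
      _ ≤ (((2 * q + 1 : ℕ) : ℝ) * K) * Real.log ((2 * x : ℕ) : ℝ) :=
        mul_le_mul h3 h4 (by norm_num) (by positivity)
  have hXk : ((2 * x : ℕ) : ℝ) ≤ ((2 * x + 1 : ℕ) : ℝ) * Real.log ((2 * x : ℕ) : ℝ) ^ 1 := by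
    rw [pow_one]
    have h3 : ((2 * x : ℕ) : ℝ) ≤ ((2 * x + 1 : ℕ) : ℝ) := by push_cast; linarith
    exact h3.trans (le_mul_of_one_le_right (by positivity) hL2.le)
  have h4 := fun (k : Fin r) (c : Fin r → Fin 3) => h1 (2 * x) (by omega) K (hBB.trans hK)
    (fun _ => 1) (fun _ => 2 * q + 1) (fun _ => 2 * x + 1) k le_rfl le_rfl hA hAK hXk
    (fun _ => -(q : ℤ) - 1) (fun _ => -(x : ℤ) - 1) (fun _ _ => 0) (fun _ => 1)
    (fun i m => (((ArithmeticFunction.moebius m.toNat) ^ (c i : ℕ) : ℤ) : ℂ))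
    (fun _ => by simp) (fun i m => mu_pow_norm _ _)
  choose Exf hcard hall using h4
  refine ⟨(univ : Finset (Fin r)).biUnion fun k => (univ : Finset (Fin r → Fin 3)).biUnion
    fun c => Exf k c, ?_, ?_⟩
  · have e1 : ((((univ : Finset (Fin r)).biUnion fun k => (univ : Finset (Fin r → Fin 3)).biUnion
        fun c => Exf k c).card : ℕ) : ℝ) ≤ ∑ k : Fin r, ∑ c : Fin r → Fin 3, ((Exf k c).card : ℝ) := by
      have e2 : ((univ : Finset (Fin r)).biUnion fun k => (univ : Finset (Fin r → Fin 3)).biUnion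
        fun c => Exf k c).card ≤ ∑ k : Fin r, ∑ c : Fin r → Fin 3, (Exf k c).card :=
        card_biUnion_le.trans (sum_le_sum fun k _ => card_biUnion_le)
      exact_mod_cast e2
    have e3 : ∀ k c, ((Exf k c).card : ℝ) ≤ 9 ^ r * ((x : ℝ) ^ 2 / K) ^ r / Real.log x ^ (U + 1) := by
      intro k c
      refine (hcard k c).trans ?_
      rw [prod_const, card_univ, Fintype.card_fin]
      have e4 : (((2 * q + 1 : ℕ) : ℝ)) * ((2 * x + 1 : ℕ) : ℝ) ≤ 9 * ((x : ℝ) ^ 2 / K) := by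
        have e5 : (1 : ℝ) ≤ x / K := by rw [le_div_iff₀ hK0]; linarith
        have e6 : (((2 * q + 1 : ℕ) : ℝ)) ≤ 3 * (x / K) := by push_cast; linarith
        have e7 : ((2 * x + 1 : ℕ) : ℝ) ≤ 3 * x := by push_cast; linarith
        calc _ ≤ (3 * ((x : ℝ) / K)) * (3 * x) := mul_le_mul e6 e7 (by positivity) (by positivity)
          _ = 9 * ((x : ℝ) ^ 2 / K) := by ring
      have e8 : ((((2 * q + 1 : ℕ) : ℝ)) * ((2 * x + 1 : ℕ) : ℝ)) ^ r ≤
          9 ^ r * ((x : ℝ) ^ 2 / K) ^ r := by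
        rw [← mul_pow]
        exact pow_le_pow_left₀ (by positivity) e4 r
      exact div_le_div₀ (by positivity) e8 (by positivity) (pow_le_pow_left₀ (by linarith) hlog1 _)
    refine e1.trans ((sum_le_sum fun k _ => sum_le_sum fun c _ => e3 k c).trans ?_)
    rw [sum_const, sum_const, card_univ, card_univ, Fintype.card_fin, Fintype.card_pi, prod_const,
      card_univ, Fintype.card_fin, Fintype.card_fin, nsmul_eq_mul, nsmul_eq_mul]
    push_cast
    have e9 : (r : ℝ) * 3 ^ r * 9 ^ r ≤ Real.log x := by linarith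
    have e10 : (0 : ℝ) ≤ ((x : ℝ) ^ 2 / K) ^ r / Real.log x ^ U := by positivity
    have hL0 : Real.log x ≠ 0 := by linarith
    calc (r : ℝ) * (3 ^ r * (9 ^ r * ((x : ℝ) ^ 2 / K) ^ r / Real.log x ^ (U + 1)))
        = ((x : ℝ) ^ 2 / K) ^ r / Real.log x ^ U * ((r : ℝ) * 3 ^ r * 9 ^ r / Real.log x) := by
          rw [pow_succ (Real.log (x : ℝ)) U]
          generalize Real.log (x : ℝ) = L at hL0
          have : L ^ U ≠ 0 := pow_ne_zero _ hL0
          rw [div_mul_div_comm, mul_div_assoc', mul_div_assoc']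
          congr 1
          ring
      _ ≤ ((x : ℝ) ^ 2 / K) ^ r / Real.log x ^ U * 1 := by
          refine mul_le_mul_of_nonneg_left ?_ e10
          rw [div_le_one (by linarith)]
          exact e9
      _ = _ := mul_one _
  intro p hp hpa hpb e ⟨k, hk⟩ y hy
  have hpE : p ∉ Exf k (fun i => redE (e i)) := fun h => hp (mem_biUnion.2 ⟨k, mem_univ _,
    mem_biUnion.2 ⟨fun i => redE (e i), mem_univ _, h⟩⟩)
  have hpB : p ∈ Bx (fun _ => -(q : ℤ) - 1) (fun _ => -(x : ℤ) - 1) (fun _ : Fin r => 2 * q + 1)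
      (fun _ => 2 * x + 1) := by
    unfold Bx
    rw [Fintype.mem_piFinset]
    intro i
    rw [mem_product, mem_Ioc, mem_Ioc]
    have e1 : |(p i).1| ≤ q := by
      by_contra hcon
      push Not at hcon
      have e2 : ((q : ℤ) + 1) * K ≤ |(p i).1| * K :=
        mul_le_mul_of_nonneg_right (by omega) (Int.natCast_nonneg K)
      have e3 : (x : ℤ) < ((q : ℤ) + 1) * K := by exact_mod_cast hq1n
      have e4 := hpa i
      omega
    have e5 := hpb i
    rw [abs_le] at e1 e5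
    push_cast
    constructor
    · constructor <;> omega
    · constructor <;> omega
  have e1 := hall k (fun i => redE (e i)) p hpB hpE y hy
  have e2 : ∑ n ∈ Icc 1 y, (1 : ℂ) * mux (2 * x) (0 + (p k).1 * (n : ℤ) ^ 1 + (p k).2) *
      ∏ i ∈ univ.erase k, (((ArithmeticFunction.moebius
        (0 + (p i).1 * (n : ℤ) ^ 1 + (p i).2).toNat) ^ ((redE (e i) : Fin 3) : ℕ) : ℤ) : ℂ) =
      (((∑ n ∈ Icc 1 y, ∏ i, ArithmeticFunction.moebius
            ((p i).1 * (n : ℤ) + (p i).2).toNat ^ e i : ℤ)) : ℂ) := by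
    push_cast
    refine sum_congr rfl fun n hn => ?_
    rw [mem_Icc] at hn
    rw [← mul_prod_erase univ _ (mem_univ k)]
    have e3 : (p k).1 * (n : ℤ) + (p k).2 ≤ ((2 * x : ℕ) : ℤ) := by
      have e4 : (p k).1 * (n : ℤ) ≤ |(p k).1| * K := by
        refine mul_le_mul (le_abs_self _) ?_ (Int.natCast_nonneg n) (abs_nonneg _)
        exact_mod_cast (by omega : n ≤ K)
      have e5 := hpa k
      have e6 := hpb k
      have e7 := le_abs_self (p k).2
      push_cast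
      linarith
    have e8 : mux (2 * x) (0 + (p k).1 * (n : ℤ) ^ 1 + (p k).2) =
        ((ArithmeticFunction.moebius ((p k).1 * (n : ℤ) + (p k).2).toNat : ℤ) : ℂ) ^ e k := by
      rw [zero_add, pow_one, mux_eq e3, ← Int.cast_pow, mu_redE _ (e k), redE_odd hk, pow_one]
    rw [one_mul, e8]
    congr 1
    refine prod_congr rfl fun i _ => ?_
    rw [zero_add, pow_one, ← Int.cast_pow, ← Int.cast_pow, ← mu_redE]
  beta_reduce at e1
  rw [e2, Complex.norm_intCast] at e1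
  refine e1.trans ?_
  refine div_le_div_of_nonneg_left hK0.le (by positivity) ?_
  calc Real.log x ^ U ≤ Real.log x ^ (U + 1) := pow_le_pow_right₀ hL.le (by omega)
    _ ≤ _ := pow_le_pow_left₀ (by linarith) hlog1 _

end Pool.Agent.H300R2.NB
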