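import Pool.Agent.H300R2.NB.Defs
import Pool.Agent.Helper256.KM.Mertens

/-!
S19: lower bounds for the truncated singular series (helper338).
-/

namespace Pool.Agent.H300R2.NB

open Finset Polynomial
open Pool.Agent.H469R2.NK (e)
open Pool.Agent.H442R2.EHI (nint lis)
open Pool.Agent.H300R2.BH

namespace ProdLow

theorem roots_le (g : ℤ[X]) (D p : ℕ) (hp : p.Prime) (hD : g.natDegree ≤ D)
    (hne : ∃ n : ℕ, ¬ (p : ℤ) ∣ g.eval (n : ℤ)) :
    ((range p).filter (fun n : ℕ => (p : ℤ) ∣ g.eval (n : ℤ))).card ≤ D := by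
  classical
  have : Fact p.Prime := ⟨hp⟩
  set h : (ZMod p)[X] := g.map (Int.castRingHom (ZMod p)) with hh
  have hev : ∀ n : ℕ, h.eval ((n : ℕ) : ZMod p) = ((g.eval (n : ℤ) : ℤ) : ZMod p) := by
    intro n
    rw [hh, eval_natCast_map]
    rfl
  have hiff : ∀ n : ℕ, (p : ℤ) ∣ g.eval (n : ℤ) ↔ h.eval ((n : ℕ) : ZMod p) = 0 := by
    intro n
    rw [hev, ZMod.intCast_zmod_eq_zero_iff_dvd]
  have h0 : h ≠ 0 := by
    intro h0
    obtain ⟨n, hn⟩ := hne
    apply hn
    rw [hiff, h0, eval_zero]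
  have h1 : ((range p).filter (fun n : ℕ => (p : ℤ) ∣ g.eval (n : ℤ))).card ≤
      h.roots.toFinset.card := by
    apply card_le_card_of_injOn (fun n : ℕ => ((n : ℕ) : ZMod p))
    · intro n hn
      rw [mem_coe, mem_filter] at hn
      rw [mem_coe, Multiset.mem_toFinset, mem_roots h0]
      exact (hiff n).1 hn.2
    · intro n hn m hm hnm
      rw [mem_coe, mem_filter, mem_range] at hn hm
      have := (ZMod.natCast_eq_natCast_iff' n m p).1 hnm
      rwa [Nat.mod_eq_of_lt hn.1, Nat.mod_eq_of_lt hm.1] at this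
  refine h1.trans ((Multiset.toFinset_card_le _).trans ((card_roots' h).trans ?_))
  exact (natDegree_map_le).trans hD

theorem om_le {r : ℕ} (G : Fin r → ℤ[X]) (D p : ℕ) (hp : p.Prime)
    (hD : ∀ i, (G i).natDegree ≤ D) (h : om G p < p) : om G p ≤ r * D := by
  classical
  have hne : ∀ i, ∃ n : ℕ, ¬ (p : ℤ) ∣ (G i).eval (n : ℤ) := by
    intro i
    by_contra hcon
    push Not at hcon
    have : om G p = p := by
      unfold om
      rw [filter_true_of_mem (fun n _ => ⟨i, hcon n⟩), card_range]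
    omega
  have hsub : (range p).filter (fun n : ℕ => ∃ i, (p : ℤ) ∣ (G i).eval (n : ℤ)) ⊆
      (univ : Finset (Fin r)).biUnion
        (fun i => (range p).filter (fun n : ℕ => (p : ℤ) ∣ (G i).eval (n : ℤ))) := by
    intro n hn
    rw [mem_filter] at hn
    obtain ⟨h1, i, hi⟩ := hn
    rw [mem_biUnion]
    exact ⟨i, mem_univ _, mem_filter.2 ⟨h1, hi⟩⟩
  unfold om
  refine (card_le_card hsub).trans (card_biUnion_le.trans ?_)
  calc ∑ i : Fin r, ((range p).filter (fun n : ℕ => (p : ℤ) ∣ (G i).eval (n : ℤ))).card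
      ≤ ∑ _i : Fin r, D := sum_le_sum fun i _ => roots_le (G i) D p hp (hD i) (hne i)
    _ = r * D := by simp

theorem omp_le {r : ℕ} (G : Fin r → ℤ[X]) (D p : ℕ) (hp : p.Prime)
    (hD : ∀ i, (G i).natDegree ≤ D) (h : omp G p < p - 1) : omp G p ≤ r * D := by
  classical
  have hne : ∀ i, ∃ n : ℕ, ¬ (p : ℤ) ∣ (G i).eval (n : ℤ) := by
    intro i
    by_contra hcon
    push Not at hcon
    have : omp G p = p - 1 := by
      unfold omp
      rw [filter_true_of_mem (fun n _ => ⟨i, hcon n⟩), Nat.card_Ico]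
    omega
  have hsub : (Ico 1 p).filter (fun n : ℕ => ∃ i, (p : ℤ) ∣ (G i).eval (n : ℤ)) ⊆
      (univ : Finset (Fin r)).biUnion
        (fun i => (range p).filter (fun n : ℕ => (p : ℤ) ∣ (G i).eval (n : ℤ))) := by
    intro n hn
    rw [mem_filter, mem_Ico] at hn
    obtain ⟨h1, i, hi⟩ := hn
    rw [mem_biUnion]
    exact ⟨i, mem_univ _, mem_filter.2 ⟨mem_range.2 h1.2, hi⟩⟩
  unfold omp
  refine (card_le_card hsub).trans (card_biUnion_le.trans ?_)
  calc ∑ i : Fin r, ((range p).filter (fun n : ℕ => (p : ℤ) ∣ (G i).eval (n : ℤ))).card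
      ≤ ∑ _i : Fin r, D := sum_le_sum fun i _ => roots_le (G i) D p hp (hD i) (hne i)
    _ = r * D := by simp

theorem exp_le_one_sub {t : ℝ} (h0 : 0 ≤ t) (h1 : t ≤ 1 / 2) : Real.exp (-(2 * t)) ≤ 1 - t := by
  have h2 := Real.add_one_le_exp (2 * t)
  have h3 : 0 < Real.exp (2 * t) := Real.exp_pos _
  rw [Real.exp_neg, inv_le_iff_one_le_mul₀ h3]
  nlinarith

/-- `1 - v / m ≥ exp(-c/p)` -/
theorem factor (k v m p : ℕ) (hm : 1 ≤ m) (hmp : m ≤ p) (hpm : p ≤ 2 * m) (hv : v < m)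
    (hvk : v ≤ k) :
    Real.exp (-((8 * (k + 1) ^ 2 : ℕ) : ℝ) / p) ≤ 1 - (v : ℝ) / m := by
  have hm0 : (0 : ℝ) < m := by exact_mod_cast hm
  have hp0 : (0 : ℝ) < p := by
    have : (m : ℝ) ≤ p := by exact_mod_cast hmp
    linarith
  rcases le_or_gt m (2 * k + 1) with h | h
  · -- small
    have h1 : (1 : ℝ) / m ≤ 1 - (v : ℝ) / m := by
      rw [le_sub_iff_add_le, ← add_div, div_le_one hm0]
      have : (v : ℝ) + 1 ≤ m := by exact_mod_cast hv
      linarith
    refine le_trans ?_ h1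
    have h2 : (m : ℝ) ≤ ((8 * (k + 1) ^ 2 : ℕ) : ℝ) / p := by
      rw [le_div_iff₀ hp0]
      have h3 : m * p ≤ 8 * (k + 1) ^ 2 := by
        calc m * p ≤ m * (2 * m) := Nat.mul_le_mul_left _ hpm
          _ ≤ _ := by nlinarith
      exact_mod_cast h3
    have h4 : Real.exp (-((8 * (k + 1) ^ 2 : ℕ) : ℝ) / p) ≤ Real.exp (-(m : ℝ)) := by
      apply Real.exp_le_exp.2
      rw [neg_div]
      linarith
    refine h4.trans ?_
    rw [Real.exp_neg, one_div]
    apply inv_anti₀ hm0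
    have := Real.add_one_le_exp (m : ℝ)
    linarith
  · have h1 : (k : ℝ) / m ≤ 1 / 2 := by
      rw [div_le_iff₀ hm0]
      have : (2 * k + 1 : ℝ) < m := by exact_mod_cast h
      linarith
    have h2 := exp_le_one_sub (by positivity) h1
    have h3 : (v : ℝ) / m ≤ (k : ℝ) / m := by
      apply div_le_div_of_nonneg_right _ hm0.le
      exact_mod_cast hvk
    refine le_trans ?_ (h2.trans (by linarith))
    apply Real.exp_le_exp.2
    rw [neg_div, neg_le_neg_iff, le_div_iff₀ hp0]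
    have h5 : (p : ℝ) ≤ 2 * m := by exact_mod_cast hpm
    have h6 : 2 * ((k : ℝ) / m) * p ≤ 2 * ((k : ℝ) / m) * (2 * m) :=
      mul_le_mul_of_nonneg_left h5 (by positivity)
    have h7 : 2 * ((k : ℝ) / m) * (2 * m) = 4 * k := by field_simp; ring
    rw [h7] at h6
    refine h6.trans ?_
    have h8 : 4 * k ≤ 8 * (k + 1) ^ 2 := by nlinarith
    exact_mod_cast h8

theorem core (c E : ℕ) : ∃ C x0 : ℕ, ∀ x : ℕ, x0 ≤ x → ∀ z : ℕ, (z : ℝ) ≤ Real.log x ^ E →
    ∀ f : ℕ → ℝ, (∀ p : ℕ, p.Prime → p ≤ z → Real.exp (-(c : ℝ) / p) ≤ f p) →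
    1 / Real.log (Real.log x) ^ C ≤ ∏ p ∈ (Icc 1 z).filter Nat.Prime, f p := by
  obtain ⟨C₁, hC₁⟩ := Pool.Agent.Helper256.KM.mertens_inv
  set B : ℝ := ((E : ℝ) + 2) ^ c * Real.exp (c * |C₁|) with hB
  have htend : Filter.Tendsto (fun x : ℕ => Real.log (Real.log (x : ℝ))) Filter.atTop
      Filter.atTop :=
    (Real.tendsto_log_atTop.comp Real.tendsto_log_atTop).comp tendsto_natCast_atTop_atTop
  obtain ⟨x0, hx0⟩ := (htend.eventually_ge_atTop (max 1 B)).exists_forall_of_atTop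
  refine ⟨c + 1, x0 + 3, fun x hx z hz f hf => ?_⟩
  have hl := hx0 x (by omega)
  set l : ℝ := Real.log (Real.log x) with hldef
  have hl1 : 1 ≤ l := (le_max_left _ _).trans hl
  have hlB : B ≤ l := (le_max_right _ _).trans hl
  have hlx : 0 < Real.log x := by
    apply Real.log_pos
    have : 1 < x := by omega
    exact_mod_cast this
  set z' : ℕ := max z 3 with hz'
  have hz3 : 3 ≤ z' := le_max_right _ _
  have hz3r : (3 : ℝ) ≤ z' := by exact_mod_cast hz3
  have hlogz1 : 1 ≤ Real.log z' := by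
    rw [Real.le_log_iff_exp_le (by linarith)]
    have := Real.exp_one_lt_d9
    linarith
  have hlogz : Real.log z' ≤ ((E : ℝ) + 2) * l := by
    rcases le_total z 3 with h | h
    · have e : z' = 3 := max_eq_right h
      rw [e]
      have h1 := Real.log_le_sub_one_of_pos (x := (3 : ℝ)) (by norm_num)
      have h2 : (0 : ℝ) ≤ E * l := by positivity
      push_cast
      nlinarith
    · have e : z' = z := max_eq_left h
      rw [e]
      have hz0 : (0 : ℝ) < z := by
        have : 0 < z := by omega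
        exact_mod_cast this
      have h1 := Real.log_le_log hz0 hz
      rw [Real.log_pow] at h1
      have h2 : (0 : ℝ) ≤ 2 * l := by linarith
      nlinarith
  have hS : ∑ p ∈ (Icc 1 z).filter Nat.Prime, (1 : ℝ) / p ≤
      Real.log (((E : ℝ) + 2) * l) + |C₁| := by
    have h1 : ∑ p ∈ (Icc 1 z).filter Nat.Prime, (1 : ℝ) / p ≤
        ∑ p ∈ (Icc 1 z').filter Nat.Prime, (1 : ℝ) / p := by
      apply sum_le_sum_of_subset_of_nonneg
      · apply filter_subset_filter
        exact Icc_subset_Icc_right (le_max_left _ _)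
      · intro p _ _
        positivity
    have h2 := (abs_le.1 (hC₁ z' hz3)).2
    have h3 : Real.log (Real.log z') ≤ Real.log (((E : ℝ) + 2) * l) :=
      Real.log_le_log (by linarith) hlogz
    have h4 := le_abs_self C₁
    linarith
  have hprod : Real.exp (-((c : ℝ) * ∑ p ∈ (Icc 1 z).filter Nat.Prime, (1 : ℝ) / p)) ≤
      ∏ p ∈ (Icc 1 z).filter Nat.Prime, f p := by
    rw [mul_sum, ← sum_neg_distrib, Real.exp_sum]
    apply prod_le_prod
    · intro p _
      exact (Real.exp_pos _).le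
    · intro p hp
      rw [mem_filter, mem_Icc] at hp
      refine le_trans (le_of_eq ?_) (hf p hp.2 hp.1.2)
      congr 1
      ring
  refine le_trans ?_ hprod
  have hy : 0 < ((E : ℝ) + 2) * l := by positivity
  have h5 : Real.exp (-((c : ℝ) * (Real.log (((E : ℝ) + 2) * l) + |C₁|))) ≤
      Real.exp (-((c : ℝ) * ∑ p ∈ (Icc 1 z).filter Nat.Prime, (1 : ℝ) / p)) := by
    apply Real.exp_le_exp.2
    apply neg_le_neg
    exact mul_le_mul_of_nonneg_left hS (Nat.cast_nonneg _)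
  refine le_trans ?_ h5
  have h6 : Real.exp (-((c : ℝ) * (Real.log (((E : ℝ) + 2) * l) + |C₁|))) =
      1 / (B * l ^ c) := by
    rw [mul_add, neg_add, Real.exp_add, Real.exp_neg, Real.exp_neg, hB]
    have h7 : Real.exp ((c : ℝ) * Real.log (((E : ℝ) + 2) * l)) = (((E : ℝ) + 2) * l) ^ c := by
      rw [← Real.log_pow, Real.exp_log (by positivity)]
    rw [h7, mul_pow, one_div, mul_inv, mul_inv, mul_inv]
    ring
  rw [h6]
  apply one_div_le_one_div_of_le
  · positivity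
  · rw [pow_succ, mul_comm B]
    exact mul_le_mul_of_nonneg_left hlB (by positivity)

end ProdLow

/-- S19. Lower bound for the truncated singular series. -/
theorem prod_lower (r D E : ℕ) : ∃ C x0 : ℕ, ∀ x : ℕ, x0 ≤ x → ∀ z : ℕ,
    (z : ℝ) ≤ Real.log x ^ E → ∀ G : Fin r → ℤ[X], (∀ i, (G i).natDegree ≤ D) →
    (∀ p : ℕ, p.Prime → p ≤ z → om G p < p) →
    1 / Real.log (Real.log x) ^ C ≤
      ∏ p ∈ (Icc 1 z).filter Nat.Prime, (1 - (om G p : ℝ) / p) := by
  obtain ⟨C, x0, h⟩ := ProdLow.core (8 * (r * D + 1) ^ 2) E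
  refine ⟨C, x0, fun x hx z hz G hG hom => h x hx z hz _ fun p hp hpz => ?_⟩
  exact ProdLow.factor (r * D) (om G p) p p hp.one_le le_rfl (by omega) (hom p hp hpz)
    (ProdLow.om_le G D p hp hG (hom p hp hpz))

/-- S19p. The same for primes. -/
theorem prod_lower_prime (r D E : ℕ) : ∃ C x0 : ℕ, ∀ x : ℕ, x0 ≤ x → ∀ z : ℕ,
    (z : ℝ) ≤ Real.log x ^ E → ∀ G : Fin r → ℤ[X], (∀ i, (G i).natDegree ≤ D) →
    (∀ p : ℕ, p.Prime → p ≤ z → omp G p < p - 1) →
    1 / Real.log (Real.log x) ^ C ≤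
      ∏ p ∈ (Icc 1 z).filter Nat.Prime, (1 - (omp G p : ℝ) / ((p : ℝ) - 1)) := by
  obtain ⟨C, x0, h⟩ := ProdLow.core (8 * (r * D + 1) ^ 2) E
  refine ⟨C, x0, fun x hx z hz G hG hom => h x hx z hz _ fun p hp hpz => ?_⟩
  have h2 := hp.two_le
  have h1 := ProdLow.factor (r * D) (omp G p) (p - 1) p (by omega) (by omega) (by omega)
    (hom p hp hpz) (ProdLow.omp_le G D p hp hG (hom p hp hpz))
  have e : ((p - 1 : ℕ) : ℝ) = (p : ℝ) - 1 := by
    rw [Nat.cast_sub hp.one_le, Nat.cast_one]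
  rw [e] at h1
  exact h1

end Pool.Agent.H300R2.NB
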