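import Pool.Agent.H300R2.NB.Sets
import Pool.Agent.H300R2.NB.EvalMainI
import Pool.Agent.H300R2.NB.ProdLow

/-!
Bateman-Horn for almost all polynomials in every pencil `F + a X^j + b`.
-/

namespace Pool.Agent.H300R2.NB

open Finset Polynomial

lemma one_div_log_ge {x : ℕ} {m : ℤ} (h2 : 2 ≤ m) (hx : m ≤ x) :
    1 / Real.log x ≤ 1 / Real.log (m : ℝ) := by
  have h3 : (2 : ℝ) ≤ m := by exact_mod_cast h2
  have h4 : (m : ℝ) ≤ x := by exact_mod_cast hx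
  exact one_div_le_one_div_of_le (Real.log_pos (by linarith)) (Real.log_le_log (by linarith) h4)

/-- lower bound for the smooth part of the main term -/
lemma sum_log_ge {r : ℕ} (x : ℕ) (hx : 3 ≤ x) (S : Finset ℕ) (v : Fin r → ℕ → ℤ) :
    ((S.filter (fun n => ∀ i, 2 ≤ v i n ∧ v i n ≤ x)).card : ℝ) / Real.log x ^ r ≤
      ∑ n ∈ S.filter (fun n => ∀ i, 2 ≤ v i n ∧ v i n ≤ x), ∏ i, 1 / Real.log (v i n) := by
  have hL := log_gt_one hx
  rw [div_eq_mul_inv, ← nsmul_eq_mul, ← sum_const]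
  refine sum_le_sum fun n hn => ?_
  rw [mem_filter] at hn
  calc (Real.log x ^ r)⁻¹ = ∏ _i : Fin r, 1 / Real.log x := by
        rw [prod_const, card_univ, Fintype.card_fin, one_div, inv_pow]
    _ ≤ ∏ i, 1 / Real.log (v i n) := prod_le_prod (fun i _ => by positivity)
        (fun i _ => one_div_log_ge (hn.2 i).1 (hn.2 i).2)

/-- the same when all `2 ≤ v` : the sum over `S` is at least ... in terms of a bound -/
lemma pencil_deg {D j : ℕ} (hj : j ≤ D) (F : ℤ[X]) (hF : F.natDegree ≤ D) (a b : ℤ) :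
    (F + C a * X ^ j + C b).natDegree ≤ D := by
  refine (natDegree_add_le _ _).trans (max_le ((natDegree_add_le _ _).trans (max_le hF ?_)) ?_)
  · exact (natDegree_C_mul_X_pow_le a j).trans hj
  · rw [natDegree_C]
    exact Nat.zero_le _

lemma pencil_eval (F : ℤ[X]) (j : ℕ) (a b : ℤ) (n : ℕ) :
    (F + C a * X ^ j + C b).eval (n : ℤ) = F.eval (n : ℤ) + a * (n : ℤ) ^ j + b := by
  simp

open Classical in
theorem polys (r D C U : ℕ) : ∃ B : ℕ, ∀ E : ℕ, ∃ x0 : ℕ, ∀ x : ℕ, x0 ≤ x → ∀ z K : ℕ,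
    Real.log x ^ B ≤ z → (z : ℝ) ≤ Real.log x ^ E →
    Real.exp (Real.log (Real.log x) ^ 3) ≤ K →
    ∀ j A X : Fin r → ℕ, (∀ i, 1 ≤ j i ∧ j i ≤ D ∧ Real.log x ^ B ≤ A i ∧
      (x : ℝ) ≤ A i * (K : ℝ) ^ (j i) * Real.log x ^ C ∧ (x : ℝ) ≤ X i * Real.log x ^ C) →
    ∀ (A0 B0 : Fin r → ℤ) (F : Fin r → ℤ[X]), (∀ i, (F i).natDegree ≤ D) →
    ∃ Ex : Finset (Fin r → ℤ × ℤ),
      (Ex.card : ℝ) ≤ (∏ i, ((A i : ℝ) * X i)) / Real.log x ^ U ∧
      ∀ p ∈ Fintype.piFinset (fun i => Ioc (A0 i) (A0 i + A i) ×ˢ Ioc (B0 i) (B0 i + X i)),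
      p ∉ Ex →
      |(((Icc 1 K).filter (fun n : ℕ => ∀ i,
          (F i).eval (n : ℤ) + (p i).1 * (n : ℤ) ^ (j i) + (p i).2 ≤ x ∧
          ((F i).eval (n : ℤ) + (p i).1 * (n : ℤ) ^ (j i) + (p i).2).toNat.Prime)).card : ℝ) -
        (Vi z ^ r * ∏ q ∈ (Icc 1 z).filter Nat.Prime, (1 - (om (fun i =>
          F i + Polynomial.C (p i).1 * Polynomial.X ^ (j i) + Polynomial.C (p i).2) q : ℝ) / q)) *
        ∑ n ∈ (Icc 1 K).filter (fun n : ℕ => ∀ i,
          2 ≤ (F i).eval (n : ℤ) + (p i).1 * (n : ℤ) ^ (j i) + (p i).2 ∧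
          (F i).eval (n : ℤ) + (p i).1 * (n : ℤ) ^ (j i) + (p i).2 ≤ x),
          ∏ i, 1 / Real.log (((F i).eval (n : ℤ) + (p i).1 * (n : ℤ) ^ (j i) + (p i).2 : ℤ) : ℝ)| ≤
        K / Real.log x ^ U ∧
      ((∀ q : ℕ, q.Prime → q ≤ z → om (fun i =>
          F i + Polynomial.C (p i).1 * Polynomial.X ^ (j i) + Polynomial.C (p i).2) q < q) →
        (K : ℝ) / Real.log x ^ C ≤ (((Icc 1 K).filter (fun n : ℕ => ∀ i,
          2 ≤ (F i).eval (n : ℤ) + (p i).1 * (n : ℤ) ^ (j i) + (p i).2 ∧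
          (F i).eval (n : ℤ) + (p i).1 * (n : ℤ) ^ (j i) + (p i).2 ≤ x)).card : ℝ) →
        (K : ℝ) / Real.log x ^ (C + r + 1) ≤ (((Icc 1 K).filter (fun n : ℕ => ∀ i,
          (F i).eval (n : ℤ) + (p i).1 * (n : ℤ) ^ (j i) + (p i).2 ≤ x ∧
          ((F i).eval (n : ℤ) + (p i).1 * (n : ℤ) ^ (j i) + (p i).2).toNat.Prime)).card : ℝ)) := by
  set V : ℕ := U + C + r + 2 with hV
  obtain ⟨B1, Z, h⟩ := exc r D C (V + 1)
  refine ⟨max B1 Z, fun E => ?_⟩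
  obtain ⟨x1, h1⟩ := h E
  obtain ⟨x2, h2⟩ := eval_main r D E (V + 1)
  obtain ⟨C1, x3, h3⟩ := prod_lower r D E
  obtain ⟨x4, h4⟩ := ev_log_ge 2
  obtain ⟨x5, h5⟩ := ev_loglog_pow C1
  obtain ⟨x6, h6⟩ := Vi_upper E
  obtain ⟨x7, h7⟩ : ∃ x7 : ℕ, ∀ x : ℕ, x7 ≤ x →
      Real.log x ^ B1 ≤ Real.exp (Real.log (Real.log x) ^ 3) := by
    obtain ⟨y1, hy1⟩ := ev_loglog_pow 0
    obtain ⟨y2, hy2⟩ := ev_log_ge (Real.exp (B1 + 1))
    refine ⟨max y2 3, fun x hx => ?_⟩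
    have e1 := hy2 x ((le_max_left _ _).trans hx)
    have e2 := log_gt_one ((le_max_right _ _).trans hx)
    have e3 : (B1 : ℝ) + 1 ≤ Real.log (Real.log x) := (Real.le_log_iff_exp_le (by linarith)).2 e1
    have e4 : (0 : ℝ) ≤ B1 := Nat.cast_nonneg _
    calc Real.log x ^ B1 = Real.exp (B1 * Real.log (Real.log x)) := by
          rw [mul_comm, Real.exp_mul, Real.exp_log (by linarith), Real.rpow_natCast]
      _ ≤ Real.exp (Real.log (Real.log x) ^ 3) := by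
          apply Real.exp_le_exp.2
          have e5 : (B1 : ℝ) ≤ Real.log (Real.log x) ^ 2 := by nlinarith
          nlinarith
  refine ⟨max (max (max x1 x2) (max x3 x4)) (max (max x5 x6) (max x7 3)), ?_⟩
  intro x hx z K hz1 hz2 hK j A X hA A0 B0 F hF
  simp only [max_le_iff] at hx
  obtain ⟨⟨⟨hx1, hx2⟩, hx3, hx4⟩, ⟨hx5, hx6⟩, hx7, hx8⟩ := hx
  have hL : 1 < Real.log x := log_gt_one hx8
  have hL2 : 2 ≤ Real.log x := h4 x hx4
  have hL0 : 0 < Real.log x := by linarith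
  have hKpos : (0 : ℝ) < K := lt_of_lt_of_le (Real.exp_pos _) hK
  have hz1' : ⌊Real.log x ^ Z⌋₊ ≤ z := by
    have : (⌊Real.log x ^ Z⌋₊ : ℝ) ≤ z := (Nat.floor_le (by positivity)).trans
      ((pow_le_pow_right₀ hL.le (le_max_right _ _)).trans hz1)
    exact_mod_cast this
  have hcard := h1 x hx1 z hz1' hz2 K ((h7 x hx7).trans hK) j
    (fun i => ⟨(hA i).1, (hA i).2.1⟩) A X
    (fun i => ⟨(pow_le_pow_right₀ hL.le (le_max_left _ _)).trans (hA i).2.2.1,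
      (hA i).2.2.2.1, (hA i).2.2.2.2⟩) A0 B0 (fun i n => (F i).eval (n : ℤ)) (Icc 1 K)
    (Finset.Subset.refl _)
  refine ⟨_, hcard.trans ?_, ?_⟩
  · have : 0 ≤ ∏ i, ((A i : ℝ) * X i) := prod_nonneg fun i _ => by positivity
    exact div_le_div_of_nonneg_left this (by positivity) (pow_le_pow_right₀ hL.le (by omega))
  intro p hp hpE
  rw [mem_filter, not_and] at hpE
  have e1 := not_lt.1 (hpE hp)
  set v : Fin r → ℕ → ℤ := fun i n => (F i).eval (n : ℤ) + (p i).1 * (n : ℤ) ^ (j i) + (p i).2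
    with hv
  set G : Fin r → ℤ[X] := fun i =>
    F i + Polynomial.C (p i).1 * Polynomial.X ^ (j i) + Polynomial.C (p i).2 with hG
  have hGd : ∀ i, (G i).natDegree ≤ D := fun i => pencil_deg (hA i).2.1 (F i) (hF i) _ _
  have e2 := h2 x hx2 z hz2 K hK G hGd
  have hGe : ∀ i (n : ℕ), (G i).eval (n : ℤ) = v i n := fun i n => pencil_eval _ _ _ _ _
  simp only [hGe] at e2
  rw [sum_ip x (Icc 1 K) v] at e1
  rw [sum_lg x (Icc 1 K) v] at e2
  set N1 : ℝ := (((Icc 1 K).filter (fun n : ℕ => ∀ i, v i n ≤ x ∧ (v i n).toNat.Prime)).card : ℝ)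
    with hN1
  set S1 : ℝ := ∑ n ∈ (Icc 1 K).filter (fun n : ℕ => ∀ i, 2 ≤ v i n ∧ v i n ≤ x),
    ∏ i, 1 / Real.log (v i n) with hS1
  set P1 : ℝ := Vi z ^ r * ∏ q ∈ (Icc 1 z).filter Nat.Prime, (1 - (om G q : ℝ) / q) with hP1
  have e3 : |N1 - P1 * S1| ≤ K / Real.log x ^ V := by
    have e4 : |N1 - P1 * S1| ≤ K / Real.log x ^ (V + 1) + K / Real.log x ^ (V + 1) := by
      refine (abs_sub_le _ _ _).trans (add_le_add e1 e2)
    refine e4.trans ?_
    rw [pow_succ, ← two_mul, div_mul_eq_div_div, ← mul_div_assoc, div_le_iff₀ hL0]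
    have : 0 ≤ K / Real.log x ^ V := by positivity
    nlinarith
  refine ⟨e3.trans (div_le_div_of_nonneg_left hKpos.le (by positivity)
    (pow_le_pow_right₀ hL.le (by omega))), fun hloc hnum => ?_⟩
  have e5 := h3 x hx3 z hz2 G hGd hloc
  have e6 : 1 ≤ Vi z := (h6 x hx6 z hz2).1
  have hll0 : 0 ≤ Real.log (Real.log x) := Real.log_nonneg hL.le
  have hll1 : 0 < Real.log (Real.log x) := Real.log_pos hL
  have e7 : 2 / Real.log x ≤ P1 := by
    have e8 : 1 / Real.log (Real.log x) ^ C1 ≤ P1 := by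
      have e9 : (1 : ℝ) ≤ Vi z ^ r := one_le_pow₀ e6
      have e10 : 0 ≤ 1 / Real.log (Real.log x) ^ C1 := by positivity
      calc 1 / Real.log (Real.log x) ^ C1 ≤ ∏ q ∈ (Icc 1 z).filter Nat.Prime,
            (1 - (om G q : ℝ) / q) := e5
        _ ≤ P1 := by
            rw [hP1]
            exact le_mul_of_one_le_left (e10.trans e5) e9
    refine le_trans ?_ e8
    rw [div_le_div_iff₀ hL0 (by positivity)]
    linarith [h5 x hx5]
  have e11 : (K : ℝ) / Real.log x ^ (C + r) ≤ S1 := by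
    refine le_trans ?_ (sum_log_ge x hx8 (Icc 1 K) v)
    rw [pow_add, div_mul_eq_div_div]
    exact div_le_div_of_nonneg_right hnum (by positivity)
  have e12 : 2 * (K / Real.log x ^ (C + r + 1)) ≤ P1 * S1 := by
    calc 2 * (K / Real.log x ^ (C + r + 1)) = 2 / Real.log x * (K / Real.log x ^ (C + r)) := by
          rw [pow_succ]
          field_simp
      _ ≤ P1 * S1 := mul_le_mul e7 e11 (by positivity) (le_trans (by positivity) e7)
  have e13 : (K : ℝ) / Real.log x ^ V ≤ K / Real.log x ^ (C + r + 1) :=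
    div_le_div_of_nonneg_left hKpos.le (by positivity) (pow_le_pow_right₀ hL.le (by omega))
  have e14 := (abs_le.1 e3).1
  linarith

end Pool.Agent.H300R2.NB
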