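import Pool.Agent.H300R2.NB.Poly

/-!
Polynomials in every pencil `F + a X^j + b` at prime arguments.
-/

namespace Pool.Agent.H300R2.NB

open Finset Polynomial

lemma ev_log_pow_le (N : ℕ) (ε : ℝ) (hε : 0 < ε) : ∃ x0 : ℕ, ∀ x : ℕ, x0 ≤ x →
    Real.log x ^ N ≤ (x : ℝ) ^ ε := by
  have h := (isLittleO_log_rpow_atTop (show (0 : ℝ) < ε / (N + 1 : ℕ) by positivity)).def
    (show (0 : ℝ) < 1 by norm_num)
  have h' := tendsto_natCast_atTop_atTop.eventually h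
  rw [Filter.eventually_atTop] at h'
  obtain ⟨x1, hx1⟩ := h'
  refine ⟨max x1 3, fun x hx => ?_⟩
  have e1 := hx1 x ((le_max_left _ _).trans hx)
  have e2 := log_gt_one ((le_max_right _ _).trans hx)
  have hx0 : (0 : ℝ) ≤ x := Nat.cast_nonneg _
  rw [one_mul, Real.norm_of_nonneg (by linarith), Real.norm_of_nonneg (by positivity)] at e1
  calc Real.log x ^ N ≤ Real.log x ^ (N + 1) := pow_le_pow_right₀ e2.le (by omega)
    _ ≤ ((x : ℝ) ^ (ε / ((N + 1 : ℕ) : ℝ))) ^ (N + 1) := pow_le_pow_left₀ (by linarith) e1 _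
    _ = (x : ℝ) ^ ε := by
        rw [← Real.rpow_natCast, ← Real.rpow_mul hx0]
        congr 1
        field_simp

open Classical in
theorem polysP (r D C U : ℕ) (ε : ℝ) (hε : 0 < ε) : ∃ B : ℕ, ∀ E : ℕ, ∃ x0 : ℕ, ∀ x : ℕ, x0 ≤ x → ∀ z K : ℕ,
    Real.log x ^ B ≤ z → (z : ℝ) ≤ Real.log x ^ E →
    (x : ℝ) ^ ε ≤ K → K ≤ x →
    ∀ j A X : Fin r → ℕ, (∀ i, 1 ≤ j i ∧ j i ≤ D ∧ Real.log x ^ B ≤ A i ∧
      (x : ℝ) ≤ A i * (K : ℝ) ^ (j i) * Real.log x ^ C ∧ (x : ℝ) ≤ X i * Real.log x ^ C) →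
    ∀ (A0 B0 : Fin r → ℤ) (F : Fin r → ℤ[X]), (∀ i, (F i).natDegree ≤ D) →
    ∃ Ex : Finset (Fin r → ℤ × ℤ),
      (Ex.card : ℝ) ≤ (∏ i, ((A i : ℝ) * X i)) / Real.log x ^ U ∧
      ∀ p ∈ Fintype.piFinset (fun i => Ioc (A0 i) (A0 i + A i) ×ˢ Ioc (B0 i) (B0 i + X i)),
      p ∉ Ex →
      |(((Icc 1 K).filter (fun n : ℕ => n.Prime ∧ ∀ i,
          (F i).eval (n : ℤ) + (p i).1 * (n : ℤ) ^ (j i) + (p i).2 ≤ x ∧
          ((F i).eval (n : ℤ) + (p i).1 * (n : ℤ) ^ (j i) + (p i).2).toNat.Prime)).card : ℝ) -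
        (Vi z ^ r * ∏ q ∈ (Icc 1 z).filter Nat.Prime, (1 - (omp (fun i =>
          F i + Polynomial.C (p i).1 * Polynomial.X ^ (j i) + Polynomial.C (p i).2) q : ℝ) / ((q : ℝ) - 1))) *
        ∑ n ∈ (Icc 1 K).filter (fun n : ℕ => n.Prime ∧ ∀ i,
          2 ≤ (F i).eval (n : ℤ) + (p i).1 * (n : ℤ) ^ (j i) + (p i).2 ∧
          (F i).eval (n : ℤ) + (p i).1 * (n : ℤ) ^ (j i) + (p i).2 ≤ x),
          ∏ i, 1 / Real.log (((F i).eval (n : ℤ) + (p i).1 * (n : ℤ) ^ (j i) + (p i).2 : ℤ) : ℝ)| ≤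
        K / Real.log x ^ U ∧
      ((∀ q : ℕ, q.Prime → q ≤ z → omp (fun i =>
          F i + Polynomial.C (p i).1 * Polynomial.X ^ (j i) + Polynomial.C (p i).2) q < q - 1) →
        (K : ℝ) / Real.log x ^ C ≤ (((Icc 1 K).filter (fun n : ℕ => n.Prime ∧ ∀ i,
          2 ≤ (F i).eval (n : ℤ) + (p i).1 * (n : ℤ) ^ (j i) + (p i).2 ∧
          (F i).eval (n : ℤ) + (p i).1 * (n : ℤ) ^ (j i) + (p i).2 ≤ x)).card : ℝ) →
        (K : ℝ) / Real.log x ^ (C + r + 1) ≤ (((Icc 1 K).filter (fun n : ℕ => n.Prime ∧ ∀ i,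
          (F i).eval (n : ℤ) + (p i).1 * (n : ℤ) ^ (j i) + (p i).2 ≤ x ∧
          ((F i).eval (n : ℤ) + (p i).1 * (n : ℤ) ^ (j i) + (p i).2).toNat.Prime)).card : ℝ)) := by
  set V : ℕ := U + C + r + 2 with hV
  obtain ⟨B1, Z, h⟩ := exc r D C (V + 1)
  refine ⟨max B1 Z, fun E => ?_⟩
  obtain ⟨x1, h1⟩ := h E
  obtain ⟨x2, h2⟩ := eval_main_prime r D E (V + 1) ε hε
  obtain ⟨C1, x3, h3⟩ := prod_lower_prime r D E
  obtain ⟨x4, h4⟩ := ev_log_ge 2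
  obtain ⟨x5, h5⟩ := ev_loglog_pow C1
  obtain ⟨x6, h6⟩ := Vi_upper E
  obtain ⟨x7, h7⟩ := ev_log_pow_le B1 ε hε
  refine ⟨max (max (max x1 x2) (max x3 x4)) (max (max x5 x6) (max x7 3)), ?_⟩
  intro x hx z K hz1 hz2 hK hKx j A X hA A0 B0 F hF
  simp only [max_le_iff] at hx
  obtain ⟨⟨⟨hx1, hx2⟩, hx3, hx4⟩, ⟨hx5, hx6⟩, hx7, hx8⟩ := hx
  have hL : 1 < Real.log x := log_gt_one hx8
  have hL2 : 2 ≤ Real.log x := h4 x hx4
  have hL0 : 0 < Real.log x := by linarith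
  have hx00 : (0 : ℝ) < x := by exact_mod_cast (by omega : 0 < x)
  have hKpos : (0 : ℝ) < K := lt_of_lt_of_le (by positivity) hK
  have hz1' : ⌊Real.log x ^ Z⌋₊ ≤ z := by
    have : (⌊Real.log x ^ Z⌋₊ : ℝ) ≤ z := (Nat.floor_le (by positivity)).trans
      ((pow_le_pow_right₀ hL.le (le_max_right _ _)).trans hz1)
    exact_mod_cast this
  have hcard := h1 x hx1 z hz1' hz2 K ((h7 x hx7).trans hK) j
    (fun i => ⟨(hA i).1, (hA i).2.1⟩) A X
    (fun i => ⟨(pow_le_pow_right₀ hL.le (le_max_left _ _)).trans (hA i).2.2.1,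
      (hA i).2.2.2.1, (hA i).2.2.2.2⟩) A0 B0 (fun i n => (F i).eval (n : ℤ))
    ((Icc 1 K).filter Nat.Prime) (filter_subset _ _)
  refine ⟨_, hcard.trans ?_, ?_⟩
  · have : 0 ≤ ∏ i, ((A i : ℝ) * X i) := prod_nonneg fun i _ => by positivity
    exact div_le_div_of_nonneg_left this (by positivity) (pow_le_pow_right₀ hL.le (by omega))
  intro p hp hpE
  rw [mem_filter, not_and] at hpE
  have e1 := not_lt.1 (hpE hp)
  set v : Fin r → ℕ → ℤ := fun i n => (F i).eval (n : ℤ) + (p i).1 * (n : ℤ) ^ (j i) + (p i).2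
    with hv
  set G : Fin r → ℤ[X] := fun i =>
    F i + Polynomial.C (p i).1 * Polynomial.X ^ (j i) + Polynomial.C (p i).2 with hG
  have hGd : ∀ i, (G i).natDegree ≤ D := fun i => pencil_deg (hA i).2.1 (F i) (hF i) _ _
  have e2 := h2 x hx2 z hz2 K hK hKx G hGd
  have hGe : ∀ i (n : ℕ), (G i).eval (n : ℤ) = v i n := fun i n => pencil_eval _ _ _ _ _
  simp only [hGe] at e2
  rw [sum_ip x ((Icc 1 K).filter Nat.Prime) v, filter_filter] at e1
  rw [sum_lg x ((Icc 1 K).filter Nat.Prime) v, filter_filter] at e2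
  set N1 : ℝ := (((Icc 1 K).filter (fun n : ℕ => n.Prime ∧ ∀ i, v i n ≤ x ∧ (v i n).toNat.Prime)).card : ℝ)
    with hN1
  set S1 : ℝ := ∑ n ∈ (Icc 1 K).filter (fun n : ℕ => n.Prime ∧ ∀ i, 2 ≤ v i n ∧ v i n ≤ x),
    ∏ i, 1 / Real.log (v i n) with hS1
  set P1 : ℝ := Vi z ^ r * ∏ q ∈ (Icc 1 z).filter Nat.Prime, (1 - (omp G q : ℝ) / ((q : ℝ) - 1)) with hP1
  have e3 : |N1 - P1 * S1| ≤ K / Real.log x ^ V := by
    have e4 : |N1 - P1 * S1| ≤ K / Real.log x ^ (V + 1) + K / Real.log x ^ (V + 1) := by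
      refine (abs_sub_le _ _ _).trans (add_le_add e1 e2)
    refine e4.trans ?_
    rw [pow_succ, ← two_mul, div_mul_eq_div_div, ← mul_div_assoc, div_le_iff₀ hL0]
    have : 0 ≤ K / Real.log x ^ V := by positivity
    nlinarith
  refine ⟨e3.trans (div_le_div_of_nonneg_left hKpos.le (by positivity)
    (pow_le_pow_right₀ hL.le (by omega))), fun hloc hnum => ?_⟩
  have e5 := h3 x hx3 z hz2 G hGd hloc
  have e6 : 1 ≤ Vi z := (h6 x hx6 z hz2).1
  have hll0 : 0 ≤ Real.log (Real.log x) := Real.log_nonneg hL.le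
  have hll1 : 0 < Real.log (Real.log x) := Real.log_pos hL
  have e7 : 2 / Real.log x ≤ P1 := by
    have e8 : 1 / Real.log (Real.log x) ^ C1 ≤ P1 := by
      have e9 : (1 : ℝ) ≤ Vi z ^ r := one_le_pow₀ e6
      have e10 : 0 ≤ 1 / Real.log (Real.log x) ^ C1 := by positivity
      calc 1 / Real.log (Real.log x) ^ C1 ≤ ∏ q ∈ (Icc 1 z).filter Nat.Prime,
            (1 - (omp G q : ℝ) / ((q : ℝ) - 1)) := e5
        _ ≤ P1 := by
            rw [hP1]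
            exact le_mul_of_one_le_left (e10.trans e5) e9
    refine le_trans ?_ e8
    rw [div_le_div_iff₀ hL0 (by positivity)]
    linarith [h5 x hx5]
  have e11 : (K : ℝ) / Real.log x ^ (C + r) ≤ S1 := by
    have e15 := sum_log_ge x hx8 ((Icc 1 K).filter Nat.Prime) v
    rw [filter_filter] at e15
    refine le_trans ?_ e15
    rw [pow_add, div_mul_eq_div_div]
    exact div_le_div_of_nonneg_right hnum (by positivity)
  have e12 : 2 * (K / Real.log x ^ (C + r + 1)) ≤ P1 * S1 := by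
    calc 2 * (K / Real.log x ^ (C + r + 1)) = 2 / Real.log x * (K / Real.log x ^ (C + r)) := by
          rw [pow_succ]
          field_simp
      _ ≤ P1 * S1 := mul_le_mul e7 e11 (by positivity) (le_trans (by positivity) e7)
  have e13 : (K : ℝ) / Real.log x ^ V ≤ K / Real.log x ^ (C + r + 1) :=
    div_le_div_of_nonneg_left hKpos.le (by positivity) (pow_le_pow_right₀ hL.le (by omega))
  have e14 := (abs_le.1 e3).1
  linarith

end Pool.Agent.H300R2.NB
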