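import Pool.Agent.H300R2.NB.Dickson
import Pool.Agent.H300R2.NB.PolyP

/-!
Polynomials in the pencils `F_i + a X^{j_i} + b` at prime arguments, uniformly for all initial
segments.
-/

namespace Pool.Agent.H300R2.NB

open Finset Polynomial

lemma singp_eq {r : ℕ} (G : Fin r → ℤ[X]) (z : ℕ) :
    singp G z = Vi z ^ r * ∏ q ∈ (Icc 1 z).filter Nat.Prime,
      (1 - (omp G q : ℝ) / ((q : ℝ) - 1)) := by
  unfold singp Vi
  rw [prod_mul_distrib, prod_pow]

theorem bhp (r D C U : ℕ) (ε : ℝ) (hε : 0 < ε) : ∃ B : ℕ, ∀ E : ℕ, ∃ x0 : ℕ, ∀ x : ℕ, x0 ≤ x →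
    ∀ z K : ℕ, Real.log x ^ B ≤ z → (z : ℝ) ≤ Real.log x ^ E →
    (x : ℝ) ^ ε ≤ K → K ≤ x →
    ∀ j A X : Fin r → ℕ, (∀ i, 1 ≤ j i ∧ j i ≤ D ∧ Real.log x ^ B ≤ A i ∧
      (x : ℝ) ≤ A i * (K : ℝ) ^ (j i) * Real.log x ^ C ∧ (x : ℝ) ≤ X i * Real.log x ^ C) →
    ∀ (A0 B0 : Fin r → ℤ) (F : Fin r → ℤ[X]), (∀ i, (F i).natDegree ≤ D) →
    ∃ Ex : Finset (Fin r → ℤ × ℤ),
      (Ex.card : ℝ) ≤ (∏ i, ((A i : ℝ) * X i)) / Real.log x ^ U ∧
      ∀ p ∈ Bx A0 B0 A X, p ∉ Ex → ∀ y : ℕ, y ≤ K →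
      |cntP x ((Icc 1 y).filter Nat.Prime) (vals (pen F j p)) -
        singp (pen F j p) z * logS x ((Icc 1 y).filter Nat.Prime) (vals (pen F j p))| ≤
        K / Real.log x ^ U ∧
      ((∀ q : ℕ, q.Prime → q ≤ z → omp (pen F j p) q < q - 1) →
        (K : ℝ) / Real.log x ^ C ≤ cntI x ((Icc 1 y).filter Nat.Prime) (vals (pen F j p)) →
        (K : ℝ) / Real.log x ^ (C + r + 1) ≤
          cntP x ((Icc 1 y).filter Nat.Prime) (vals (pen F j p))) := by
  classical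
  set V : ℕ := U + C + r + 2 with hV
  obtain ⟨B1, Z, h⟩ := exc_unif r D C (V + 1)
  obtain ⟨W, xw, hw⟩ := few_small r C (V + 1)
  refine ⟨max B1 Z, fun E => ?_⟩
  obtain ⟨x1, h1⟩ := h E
  obtain ⟨x2, h2⟩ := eval_main_prime_y r D E (V + 1) ε hε
  obtain ⟨C1, x3, h3⟩ := prod_lower_prime r D E
  obtain ⟨x4, h4⟩ := ev_log_ge 4
  obtain ⟨x5, h5⟩ := ev_loglog_pow C1
  obtain ⟨x6, h6⟩ := Vi_upper E
  obtain ⟨x7, h7⟩ := ev_log_pow_le B1 ε hε
  obtain ⟨x8, h8⟩ := ev_log_pow_le W 1 one_pos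
  refine ⟨max (max (max x1 x2) (max x3 x4)) (max (max x5 x6) (max x7 (max x8 (max xw 3)))), ?_⟩
  intro x hx z K hz1 hz2 hK hKx j A X hA A0 B0 F hF
  simp only [max_le_iff] at hx
  obtain ⟨⟨⟨hx1, hx2⟩, hx3, hx4⟩, ⟨hx5, hx6⟩, hx7, hx8, hxw, hx9⟩ := hx
  have hL : 1 < Real.log x := log_gt_one hx9
  have hL2 : 4 ≤ Real.log x := h4 x hx4
  have hL0 : 0 < Real.log x := by linarith
  have hx00 : (0 : ℝ) < x := by exact_mod_cast (by omega : 0 < x)
  have hKpos : (0 : ℝ) < K := lt_of_lt_of_le (by positivity) hK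
  have hz1' : ⌊Real.log x ^ Z⌋₊ ≤ z := by
    have : (⌊Real.log x ^ Z⌋₊ : ℝ) ≤ z := (Nat.floor_le (by positivity)).trans
      ((pow_le_pow_right₀ hL.le (le_max_right _ _)).trans hz1)
    exact_mod_cast this
  obtain ⟨Ex1, hcard, hEx1⟩ := h1 x hx1 z hz1' hz2 K ((h7 x hx7).trans hK) j
    (fun i => ⟨(hA i).1, (hA i).2.1⟩) A X
    (fun i => ⟨(pow_le_pow_right₀ hL.le (le_max_left _ _)).trans (hA i).2.2.1,
      (hA i).2.2.2.1, (hA i).2.2.2.2⟩) A0 B0 (fun i n => (F i).eval (n : ℤ))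
      ((Icc 1 K).filter Nat.Prime) (filter_subset _ _)
  have hcard2 := hw x hxw K j A X A0 B0 (fun i n => (F i).eval (n : ℤ))
    (fun i => (hA i).2.2.2.2)
  set Ex2 := (Fintype.piFinset (fun i => Ioc (A0 i) (A0 i + A i) ×ˢ
      Ioc (B0 i) (B0 i + X i))).filter
      (fun p => (K : ℝ) / Real.log x ^ (V + 1) < (((Icc 1 K).filter (fun n : ℕ => ∃ i,
        0 < (F i).eval (n : ℤ) + (p i).1 * (n : ℤ) ^ (j i) + (p i).2 ∧
        (F i).eval (n : ℤ) + (p i).1 * (n : ℤ) ^ (j i) + (p i).2 ≤ ⌊x / Real.log x ^ W⌋)).card : ℝ))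
    with hEx2
  have hprod : 0 ≤ ∏ i, ((A i : ℝ) * X i) := prod_nonneg fun i _ => by positivity
  refine ⟨Ex1 ∪ Ex2, ?_, ?_⟩
  · have e1 : ((Ex1 ∪ Ex2).card : ℝ) ≤ (∏ i, ((A i : ℝ) * X i)) / Real.log x ^ (V + 1) +
        (∏ i, ((A i : ℝ) * X i)) / Real.log x ^ (V + 1) := by
      have : ((Ex1 ∪ Ex2).card : ℝ) ≤ Ex1.card + Ex2.card := by exact_mod_cast card_union_le _ _
      exact this.trans (add_le_add hcard hcard2)
    refine e1.trans ?_
    rw [← two_mul]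
    have e2 : (∏ i, ((A i : ℝ) * X i)) / Real.log x ^ (V + 1) =
        (∏ i, ((A i : ℝ) * X i)) / Real.log x ^ U * (1 / Real.log x ^ (C + r + 3)) := by
      rw [hV, show U + C + r + 2 + 1 = U + (C + r + 3) by ring, pow_add]
      field_simp
    rw [e2]
    have e3 : 1 / Real.log x ^ (C + r + 3) ≤ 1 / 2 := by
      refine one_div_le_one_div_of_le (by norm_num) ?_
      calc (2 : ℝ) ≤ Real.log x ^ 1 := by rw [pow_one]; linarith
        _ ≤ Real.log x ^ (C + r + 3) := pow_le_pow_right₀ hL.le (by omega)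
    have e4 : 0 ≤ (∏ i, ((A i : ℝ) * X i)) / Real.log x ^ U := by positivity
    exact sa_half e4 e3
  intro p hp hpE y hy
  rw [mem_union, not_or, hEx2, mem_filter, not_and] at hpE
  have e1 := hEx1 p hp hpE.1 y
  have e1' := not_lt.1 (hpE.2 hp)
  have hIy : ((Icc 1 K).filter Nat.Prime).filter (fun n => n ≤ y) = (Icc 1 y).filter Nat.Prime := by
    ext n
    rw [mem_filter, mem_filter, mem_filter, mem_Icc, mem_Icc]
    constructor
    · rintro ⟨⟨⟨h10, h11⟩, h12⟩, h13⟩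
      exact ⟨⟨h10, h13⟩, h12⟩
    · rintro ⟨⟨h10, h11⟩, h12⟩
      exact ⟨⟨⟨h10, by omega⟩, h12⟩, h11⟩
  rw [hIy] at e1
  set G : Fin r → ℤ[X] := pen F j p with hG
  set v : Fin r → ℕ → ℤ := vals G with hv
  have hGd : ∀ i, (G i).natDegree ≤ D := fun i => pencil_deg (hA i).2.1 (F i) (hF i) _ _
  have hGe : ∀ i (n : ℕ), (G i).eval (n : ℤ) = v i n := fun i n => rfl
  have hGe' : ∀ i (n : ℕ), (F i).eval (n : ℤ) + (p i).1 * (n : ℤ) ^ (j i) + (p i).2 = v i n :=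
    fun i n => (pencil_eval _ _ _ _ _).symm
  simp only [hGe'] at e1 e1'
  have e2 := h2 x hx2 z hz2 K hK hKx G hGd y hy
  simp only [hGe] at e2
  rw [sum_ip x ((Icc 1 y).filter Nat.Prime) v] at e1
  rw [sum_lg x ((Icc 1 y).filter Nat.Prime) v, ← singp_eq] at e2
  have e3 : |cntP x ((Icc 1 y).filter Nat.Prime) v -
      singp G z * logS x ((Icc 1 y).filter Nat.Prime) v| ≤ K / Real.log x ^ V := by
    have e4 := (abs_sub_le _ _ _).trans (add_le_add e1 e2)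
    refine e4.trans ?_
    rw [pow_succ, ← two_mul, div_mul_eq_div_div, ← mul_div_assoc, div_le_iff₀ hL0]
    have : 0 ≤ K / Real.log x ^ V := by positivity
    nlinarith
  refine ⟨e3.trans (div_le_div_of_nonneg_left hKpos.le (by positivity)
    (pow_le_pow_right₀ hL.le (by omega))), fun hloc hnum => ?_⟩
  have e5 := h3 x hx3 z hz2 G hGd hloc
  have e6 : 1 ≤ Vi z := (h6 x hx6 z hz2).1
  have hll0 : 0 ≤ Real.log (Real.log x) := Real.log_nonneg hL.le
  have hll1 : 0 < Real.log (Real.log x) := Real.log_pos hL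
  have e7 : 2 / Real.log x ≤ singp G z := by
    have e8 : 1 / Real.log (Real.log x) ^ C1 ≤ singp G z := by
      have e9 : (1 : ℝ) ≤ Vi z ^ r := one_le_pow₀ e6
      have e10 : 0 ≤ 1 / Real.log (Real.log x) ^ C1 := by positivity
      rw [singp_eq]
      exact e5.trans (le_mul_of_one_le_left (e10.trans e5) e9)
    refine le_trans ?_ e8
    rw [div_le_div_iff₀ hL0 (by positivity)]
    linarith [h5 x hx5]
  -- values `≥ 2`
  set S1 : ℝ := logS x ((Icc 1 y).filter Nat.Prime) v with hS1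
  have hcnt : (K : ℝ) / Real.log x ^ C * (3 / 4) ≤
      ((((Icc 1 y).filter Nat.Prime).filter (fun n : ℕ => ∀ i, 2 ≤ v i n ∧ v i n ≤ x)).card : ℝ) := by
    have hY1 : (1 : ℤ) ≤ ⌊x / Real.log x ^ W⌋ := by
      have e8 := h8 x hx8
      rw [Real.rpow_one] at e8
      refine Int.le_floor.2 ?_
      rw [Int.cast_one, le_div_iff₀ (by positivity)]
      linarith
    have e8 : ((Icc 1 y).filter Nat.Prime).filter (fun n : ℕ => ∀ i, 0 < v i n ∧ v i n ≤ x) ⊆
        ((Icc 1 y).filter Nat.Prime).filter (fun n : ℕ => ∀ i, 2 ≤ v i n ∧ v i n ≤ x) ∪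
        (Icc 1 K).filter (fun n : ℕ => ∃ i, 0 < v i n ∧ v i n ≤ ⌊x / Real.log x ^ W⌋) := by
      intro n hn
      rw [mem_filter, mem_filter, mem_Icc] at hn
      rw [mem_union, mem_filter, mem_filter, mem_filter, mem_Icc, mem_Icc]
      by_cases hall : ∀ i, 2 ≤ v i n
      · exact Or.inl ⟨hn.1, fun i => ⟨hall i, (hn.2 i).2⟩⟩
      · push Not at hall
        obtain ⟨i, hi⟩ := hall
        exact Or.inr ⟨⟨hn.1.1.1, by omega⟩, i, (hn.2 i).1, by omega⟩
    have e9 : cntI x ((Icc 1 y).filter Nat.Prime) v ≤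
        ((((Icc 1 y).filter Nat.Prime).filter
          (fun n : ℕ => ∀ i, 2 ≤ v i n ∧ v i n ≤ x)).card : ℝ) + K / Real.log x ^ (V + 1) := by
      have e10 := (card_le_card e8).trans (card_union_le _ _)
      have e11 : (cntI x ((Icc 1 y).filter Nat.Prime) v) ≤
          ((((Icc 1 y).filter Nat.Prime).filter
          (fun n : ℕ => ∀ i, 2 ≤ v i n ∧ v i n ≤ x)).card : ℝ) +
          (((Icc 1 K).filter (fun n : ℕ => ∃ i, 0 < v i n ∧ v i n ≤ ⌊x / Real.log x ^ W⌋)).card : ℝ)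
          := by
        unfold cntI
        exact_mod_cast e10
      linarith
    have e12 : (K : ℝ) / Real.log x ^ (V + 1) ≤ K / Real.log x ^ C * (1 / 4) := by
      rw [hV, show U + C + r + 2 + 1 = C + (U + r + 3) by ring, pow_add, div_mul_eq_div_div,
        div_eq_mul_one_div (K / Real.log x ^ C)]
      refine mul_le_mul_of_nonneg_left (one_div_le_one_div_of_le (by norm_num) ?_) (by positivity)
      calc (4 : ℝ) ≤ Real.log x ^ 1 := by rw [pow_one]; linarith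
        _ ≤ Real.log x ^ (U + r + 3) := pow_le_pow_right₀ hL.le (by omega)
    linarith
  have e11 : (K : ℝ) / Real.log x ^ (C + r) * (3 / 4) ≤ S1 := by
    have e15 := sum_log_ge x hx9 ((Icc 1 y).filter Nat.Prime) v
    refine le_trans ?_ e15
    rw [le_div_iff₀ (by positivity)]
    refine le_trans (le_of_eq ?_) hcnt
    rw [pow_add]
    field_simp
  have e12 : 2 * (K / Real.log x ^ (C + r + 1)) * (3 / 4) ≤ singp G z * S1 := by
    calc 2 * (K / Real.log x ^ (C + r + 1)) * (3 / 4) =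
          2 / Real.log x * (K / Real.log x ^ (C + r) * (3 / 4)) := by
          rw [pow_succ]
          field_simp
      _ ≤ singp G z * S1 := mul_le_mul e7 e11 (by positivity) (le_trans (by positivity) e7)
  have e13 : (K : ℝ) / Real.log x ^ V ≤ K / Real.log x ^ (C + r + 1) * (1 / 4) := by
    rw [hV, show U + C + r + 2 = (C + r + 1) + (U + 1) by ring, pow_add, div_mul_eq_div_div,
      div_eq_mul_one_div (K / Real.log x ^ (C + r + 1))]
    refine mul_le_mul_of_nonneg_left (one_div_le_one_div_of_le (by norm_num) ?_) (by positivity)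
    calc (4 : ℝ) ≤ Real.log x ^ 1 := by rw [pow_one]; linarith
      _ ≤ Real.log x ^ (U + 1) := pow_le_pow_right₀ hL.le (by omega)
  have e14 := (abs_le.1 e3).1
  have e16 : 0 ≤ (K : ℝ) / Real.log x ^ (C + r + 1) := by positivity
  linarith

end Pool.Agent.H300R2.NB
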