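import Pool.Agent.H300R2.NB.Defs

/-!
Sums over `ip` and `lz` in plain form.
-/

namespace Pool.Agent.H300R2.NB

open Finset

lemma ip_eq (x : ℕ) (m : ℤ) : ip x m = if m ≤ x ∧ m.toNat.Prime then 1 else 0 := rfl

lemma lg_eq (x : ℕ) (m : ℤ) : lg x m = if 2 ≤ m ∧ m ≤ x then 1 / Real.log m else 0 := rfl

open Classical in
lemma lz_eq (x z : ℕ) (m : ℤ) :
    lz x z m = Vi z * if 2 ≤ m ∧ m ≤ x ∧ Rough z m then 1 / Real.log m else 0 := by
  unfold lz
  by_cases h : 2 ≤ m ∧ m ≤ x ∧ Rough z m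
  · rw [if_pos h, if_pos h, mul_one_div]
  · rw [if_neg h, if_neg h, mul_zero]

lemma sum_ip {r : ℕ} (x : ℕ) (S : Finset ℕ) (v : Fin r → ℕ → ℤ) :
    ∑ n ∈ S, ∏ i, ip x (v i n) =
      ((S.filter (fun n => ∀ i, v i n ≤ x ∧ (v i n).toNat.Prime)).card : ℝ) := by
  have h : ∀ n ∈ S, ∏ i, ip x (v i n) =
      if ∀ i, v i n ≤ x ∧ (v i n).toNat.Prime then (1 : ℝ) else 0 := by
    intro n _
    simp only [ip_eq]
    by_cases hall : ∀ i, v i n ≤ x ∧ (v i n).toNat.Prime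
    · rw [if_pos hall]
      exact prod_eq_one fun i _ => if_pos (hall i)
    · rw [if_neg hall]
      push Not at hall
      obtain ⟨i, hi⟩ := hall
      refine prod_eq_zero (mem_univ i) (if_neg ?_)
      tauto
  rw [sum_congr rfl h, ← sum_filter, sum_const, nsmul_eq_mul, mul_one]

lemma sum_lg {r : ℕ} (x : ℕ) (S : Finset ℕ) (v : Fin r → ℕ → ℤ) :
    ∑ n ∈ S, ∏ i, lg x (v i n) =
      ∑ n ∈ S.filter (fun n => ∀ i, 2 ≤ v i n ∧ v i n ≤ x), ∏ i, 1 / Real.log (v i n) := by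
  have h : ∀ n ∈ S, ∏ i, lg x (v i n) =
      if ∀ i, 2 ≤ v i n ∧ v i n ≤ x then ∏ i, 1 / Real.log (v i n) else 0 := by
    intro n _
    simp only [lg_eq]
    by_cases hall : ∀ i, 2 ≤ v i n ∧ v i n ≤ x
    · rw [if_pos hall]
      exact prod_congr rfl fun i _ => if_pos (hall i)
    · rw [if_neg hall]
      push Not at hall
      obtain ⟨i, hi⟩ := hall
      refine prod_eq_zero (mem_univ i) (if_neg ?_)
      intro h2
      have := hi h2.1
      omega
  rw [sum_congr rfl h, ← sum_filter]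

open Classical in
lemma sum_lz {r : ℕ} (x z : ℕ) (S : Finset ℕ) (v : Fin r → ℕ → ℤ) :
    ∑ n ∈ S, ∏ i, lz x z (v i n) =
      Vi z ^ r * ∑ n ∈ S.filter (fun n => ∀ i, 2 ≤ v i n ∧ v i n ≤ x ∧ Rough z (v i n)),
        ∏ i, 1 / Real.log (v i n) := by
  have h : ∀ n ∈ S, ∏ i, lz x z (v i n) = Vi z ^ r *
      if ∀ i, 2 ≤ v i n ∧ v i n ≤ x ∧ Rough z (v i n) then ∏ i, 1 / Real.log (v i n) else 0 := by
    intro n _
    simp only [lz_eq]
    rw [prod_mul_distrib, prod_const, card_univ, Fintype.card_fin]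
    congr 1
    by_cases hall : ∀ i, 2 ≤ v i n ∧ v i n ≤ x ∧ Rough z (v i n)
    · rw [if_pos hall]
      exact prod_congr rfl fun i _ => if_pos (hall i)
    · rw [if_neg hall]
      push Not at hall
      obtain ⟨i, hi⟩ := hall
      refine prod_eq_zero (mem_univ i) (if_neg ?_)
      intro h2
      exact hi h2.1 h2.2.1 h2.2.2
  rw [sum_congr rfl h, ← mul_sum, ← sum_filter]

end Pool.Agent.H300R2.NB
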