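import Pool.Agent.H300R2.NB.Exc
import Pool.Agent.H300R2.NB.Sums
import Pool.Agent.H300R2.NB.EvLog

/-!
Primes `T_i(n) + c (a_i n^{j_i} + b_i)` along arbitrary sets of `n`.
-/

namespace Pool.Agent.H300R2.NB

open Finset

open Classical in
theorem sets (r J C U : ℕ) : ∃ B Z : ℕ, ∀ E : ℕ, ∃ x0 : ℕ, ∀ x : ℕ, x0 ≤ x → ∀ z K c : ℕ,
    Real.log x ^ Z ≤ z → (z : ℝ) ≤ Real.log x ^ E → Real.log x ^ B ≤ K →
    1 ≤ c → (c : ℝ) ≤ Real.log x ^ C →
    ∀ j A X : Fin r → ℕ, (∀ i, 1 ≤ j i ∧ j i ≤ J ∧ Real.log x ^ B ≤ A i ∧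
      (x : ℝ) ≤ A i * (K : ℝ) ^ (j i) * Real.log x ^ C ∧ (x : ℝ) ≤ X i * Real.log x ^ C) →
    ∀ (A0 B0 : Fin r → ℤ) (T : Fin r → ℕ → ℤ) (S : Finset ℕ), S ⊆ Icc 1 K →
    (((Fintype.piFinset (fun i => Ioc (A0 i) (A0 i + A i) ×ˢ Ioc (B0 i) (B0 i + X i))).filter
      (fun p => ¬ |((S.filter (fun n => ∀ i,
          T i n + c * ((p i).1 * (n : ℤ) ^ (j i) + (p i).2) ≤ x ∧
          (T i n + c * ((p i).1 * (n : ℤ) ^ (j i) + (p i).2)).toNat.Prime)).card : ℝ) -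
        Vi z ^ r * ∑ n ∈ S.filter (fun n => ∀ i,
          2 ≤ T i n + c * ((p i).1 * (n : ℤ) ^ (j i) + (p i).2) ∧
          T i n + c * ((p i).1 * (n : ℤ) ^ (j i) + (p i).2) ≤ x ∧
          Rough z (T i n + c * ((p i).1 * (n : ℤ) ^ (j i) + (p i).2))),
          ∏ i, 1 / Real.log ((T i n + c * ((p i).1 * (n : ℤ) ^ (j i) + (p i).2) : ℤ) : ℝ)| ≤
        K / Real.log x ^ U)).card : ℝ) ≤
    (∏ i, ((A i : ℝ) * X i)) / Real.log x ^ U := by
  obtain ⟨B, Z, h⟩ := exc r J C (U + 2 * r * C)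
  refine ⟨B, Z, fun E => ?_⟩
  obtain ⟨x0, h0⟩ := h E
  refine ⟨max x0 3, fun x hx z K c hz1 hz2 hK hc1 hc2 j A X hA A0 B0 T S hS => ?_⟩
  have hx0 : x0 ≤ x := (le_max_left _ _).trans hx
  have hx3 : 3 ≤ x := (le_max_right _ _).trans hx
  have hL : 1 < Real.log x := log_gt_one hx3
  have hL0 : 0 < Real.log x := by linarith
  have hcR : (1 : ℝ) ≤ c := by exact_mod_cast hc1
  have hcZ : (0 : ℤ) < c := by exact_mod_cast hc1
  have hKpos : (0 : ℝ) < K := lt_of_lt_of_le (by positivity) hK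
  have hz1' : ⌊Real.log x ^ Z⌋₊ ≤ z := by
    have : (⌊Real.log x ^ Z⌋₊ : ℝ) ≤ z := (Nat.floor_le (by positivity)).trans hz1
    exact_mod_cast this
  have h1 := h0 x hx0 z hz1' hz2 K hK j (fun i => ⟨(hA i).1, (hA i).2.1⟩)
    (fun i => c * A i) (fun i => c * X i) (fun i => by
      obtain ⟨-, -, h3, h4, h5⟩ := hA i
      have hA0 : (0 : ℝ) ≤ A i := Nat.cast_nonneg _
      have hX0 : (0 : ℝ) ≤ X i := Nat.cast_nonneg _
      have e1 : (A i : ℝ) ≤ c * A i := le_mul_of_one_le_left hA0 hcR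
      have e2 : (X i : ℝ) ≤ c * X i := le_mul_of_one_le_left hX0 hcR
      push_cast
      refine ⟨h3.trans e1, h4.trans ?_, h5.trans ?_⟩
      · gcongr
      · gcongr)
    (fun i => c * A0 i) (fun i => c * B0 i) T S hS
  -- the map `(a, b) ↦ (c a, c b)`
  set φ : (Fin r → ℤ × ℤ) → (Fin r → ℤ × ℤ) := fun p i => ((c : ℤ) * (p i).1, (c : ℤ) * (p i).2)
    with hφ
  have hinj : Function.Injective φ := by
    intro p p' hpp
    funext i
    have h2 := congrFun hpp i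
    simp only [hφ, Prod.mk.injEq, mul_eq_mul_left_iff] at h2
    have hc0 : (c : ℤ) ≠ 0 := hcZ.ne'
    refine Prod.ext ?_ ?_
    · exact h2.1.resolve_right hc0
    · exact h2.2.resolve_right hc0
  have hle : (((Fintype.piFinset (fun i => Ioc (A0 i) (A0 i + A i) ×ˢ
      Ioc (B0 i) (B0 i + X i))).filter
      (fun p => ¬ |((S.filter (fun n => ∀ i,
          T i n + c * ((p i).1 * (n : ℤ) ^ (j i) + (p i).2) ≤ x ∧
          (T i n + c * ((p i).1 * (n : ℤ) ^ (j i) + (p i).2)).toNat.Prime)).card : ℝ) -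
        Vi z ^ r * ∑ n ∈ S.filter (fun n => ∀ i,
          2 ≤ T i n + c * ((p i).1 * (n : ℤ) ^ (j i) + (p i).2) ∧
          T i n + c * ((p i).1 * (n : ℤ) ^ (j i) + (p i).2) ≤ x ∧
          Rough z (T i n + c * ((p i).1 * (n : ℤ) ^ (j i) + (p i).2))),
          ∏ i, 1 / Real.log ((T i n + c * ((p i).1 * (n : ℤ) ^ (j i) + (p i).2) : ℤ) : ℝ)| ≤
        K / Real.log x ^ U)).card : ℝ) ≤
      ((Fintype.piFinset (fun i => Ioc ((c : ℤ) * A0 i) ((c : ℤ) * A0 i + (c * A i : ℕ)) ×ˢ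
        Ioc ((c : ℤ) * B0 i) ((c : ℤ) * B0 i + (c * X i : ℕ)))).filter
      (fun p => K / Real.log x ^ (U + 2 * r * C) <
        |∑ n ∈ S, ∏ i, ip x (T i n + (p i).1 * (n : ℤ) ^ (j i) + (p i).2) -
        ∑ n ∈ S, ∏ i, lz x z (T i n + (p i).1 * (n : ℤ) ^ (j i) + (p i).2)|)).card := by
    rw [← card_image_of_injective _ hinj]
    refine Nat.cast_le.2 (card_le_card ?_)
    intro p' hp'
    rw [mem_image] at hp'
    obtain ⟨p, hp, rfl⟩ := hp'
    rw [mem_filter, Fintype.mem_piFinset] at hp ⊢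
    refine ⟨fun i => ?_, ?_⟩
    · have h3 := hp.1 i
      rw [mem_product, mem_Ioc, mem_Ioc] at h3 ⊢
      simp only [hφ]
      obtain ⟨⟨h4, h5⟩, h6, h7⟩ := h3
      push_cast
      refine ⟨⟨by nlinarith, by nlinarith⟩, by nlinarith, by nlinarith⟩
    · have h3 := hp.2
      rw [not_le] at h3
      have e0 : ∀ i (n : ℕ), T i n + (φ p i).1 * (n : ℤ) ^ (j i) + (φ p i).2 =
          T i n + c * ((p i).1 * (n : ℤ) ^ (j i) + (p i).2) := by
        intro i n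
        simp only [hφ]
        ring
      simp only [e0]
      rw [sum_ip x S (fun i n => T i n + c * ((p i).1 * (n : ℤ) ^ (j i) + (p i).2)),
        sum_lz x z S (fun i n => T i n + c * ((p i).1 * (n : ℤ) ^ (j i) + (p i).2))]
      refine lt_of_le_of_lt ?_ h3
      exact div_le_div_of_nonneg_left hKpos.le (by positivity)
        (pow_le_pow_right₀ hL.le (by omega))
  refine hle.trans (h1.trans ?_)
  have e1 : ∏ i, (((c * A i : ℕ) : ℝ) * ((c * X i : ℕ) : ℝ)) =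
      (c : ℝ) ^ (2 * r) * ∏ i, ((A i : ℝ) * X i) := by
    have : ∀ i, (((c * A i : ℕ) : ℝ) * ((c * X i : ℕ) : ℝ)) = (c : ℝ) ^ 2 * ((A i : ℝ) * X i) := by
      intro i
      push_cast
      ring
    simp only [this]
    rw [prod_mul_distrib, prod_const, card_univ, Fintype.card_fin, ← pow_mul]
  rw [e1, div_le_div_iff₀ (by positivity) (by positivity)]
  have e2 : (c : ℝ) ^ (2 * r) ≤ Real.log x ^ (2 * r * C) := by
    calc (c : ℝ) ^ (2 * r) ≤ (Real.log x ^ C) ^ (2 * r) := pow_le_pow_left₀ (by positivity) hc2 _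
      _ = Real.log x ^ (2 * r * C) := by rw [← pow_mul]; ring_nf
  have e3 : 0 ≤ ∏ i, ((A i : ℝ) * X i) := prod_nonneg fun i _ => by positivity
  calc (c : ℝ) ^ (2 * r) * (∏ i, ((A i : ℝ) * X i)) * Real.log x ^ U
      ≤ Real.log x ^ (2 * r * C) * (∏ i, ((A i : ℝ) * X i)) * Real.log x ^ U := by gcongr
    _ = (∏ i, ((A i : ℝ) * X i)) * Real.log x ^ (U + 2 * r * C) := by rw [pow_add]; ring

end Pool.Agent.H300R2.NB
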