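import Pool.Agent.H300R2.NB.Exc
import Pool.Agent.H300R2.NB.Sums
import Pool.Agent.H300R2.NB.Fd

/-!
Primes `T_i(n) + c (a_i n^{j_i} + b_i)` along arbitrary sets of `n`.
-/

namespace Pool.Agent.H300R2.NB

open Finset

open Classical in
/-- the sieve model: `∏_{q ≤ z} (1 - 1/q)^{-r} ∑ ∏_i 1/log v_i(n)`, the sum over the `n ∈ S` for
which all `v_i(n)` lie in `[2, x]` and have no prime factor `≤ z` -/
noncomputable def model {r : ℕ} (x z : ℕ) (S : Finset ℕ) (v : Fin r → ℕ → ℤ) : ℝ :=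
  Vi z ^ r * ∑ n ∈ S.filter (fun n => ∀ i, 2 ≤ v i n ∧ v i n ≤ x ∧ Rough z (v i n)),
    ∏ i, 1 / Real.log (v i n)

/-- the functions `T_i(n) + c (a_i n^{j_i} + b_i)` -/
def fam {r : ℕ} (T : Fin r → ℕ → ℤ) (c : ℕ) (j : Fin r → ℕ) (p : Fin r → ℤ × ℤ) :
    Fin r → ℕ → ℤ :=
  fun i n => T i n + c * ((p i).1 * (n : ℤ) ^ (j i) + (p i).2)

theorem setsU (r J C U : ℕ) : ∃ B : ℕ, ∀ E : ℕ, ∃ x0 : ℕ, ∀ x : ℕ, x0 ≤ x → ∀ z K c : ℕ,
    Real.log x ^ B ≤ z → (z : ℝ) ≤ Real.log x ^ E → Real.log x ^ B ≤ K →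
    1 ≤ c → (c : ℝ) ≤ Real.log x ^ C →
    ∀ j A X : Fin r → ℕ, (∀ i, 1 ≤ j i ∧ j i ≤ J ∧ Real.log x ^ B ≤ A i ∧
      (x : ℝ) ≤ A i * (K : ℝ) ^ (j i) * Real.log x ^ C ∧ (x : ℝ) ≤ X i * Real.log x ^ C) →
    ∀ (A0 B0 : Fin r → ℤ) (T : Fin r → ℕ → ℤ) (S : Finset ℕ), S ⊆ Icc 1 K →
    ∃ Ex : Finset (Fin r → ℤ × ℤ), (Ex.card : ℝ) ≤ (∏ i, ((A i : ℝ) * X i)) / Real.log x ^ U ∧
      ∀ p ∈ Bx A0 B0 A X, p ∉ Ex → ∀ y : ℕ,
        |cntP x (S.filter (fun n => n ≤ y)) (fam T c j p) -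
          model x z (S.filter (fun n => n ≤ y)) (fam T c j p)| ≤ K / Real.log x ^ U := by
  classical
  obtain ⟨B, Z, h⟩ := exc_unif r J C (U + 2 * r * C)
  refine ⟨max B Z, fun E => ?_⟩
  obtain ⟨x0, h0⟩ := h E
  refine ⟨max x0 3, fun x hx z K c hz1 hz2 hK hc1 hc2 j A X hA A0 B0 T S hS => ?_⟩
  have hx0 : x0 ≤ x := (le_max_left _ _).trans hx
  have hx3 : 3 ≤ x := (le_max_right _ _).trans hx
  have hL : 1 < Real.log x := log_gt_one hx3
  have hL0 : 0 < Real.log x := by linarith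
  have hcR : (1 : ℝ) ≤ c := by exact_mod_cast hc1
  have hcZ : (0 : ℤ) < c := by exact_mod_cast hc1
  have hKB : Real.log x ^ B ≤ K := (pow_le_pow_right₀ hL.le (le_max_left _ _)).trans hK
  have hKpos : (0 : ℝ) < K := lt_of_lt_of_le (by positivity) hK
  have hz1' : ⌊Real.log x ^ Z⌋₊ ≤ z := by
    have : (⌊Real.log x ^ Z⌋₊ : ℝ) ≤ z := (Nat.floor_le (by positivity)).trans
      ((pow_le_pow_right₀ hL.le (le_max_right _ _)).trans hz1)
    exact_mod_cast this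
  obtain ⟨Ex', hEx', hE'⟩ := h0 x hx0 z hz1' hz2 K hKB j (fun i => ⟨(hA i).1, (hA i).2.1⟩)
    (fun i => c * A i) (fun i => c * X i) (fun i => by
      obtain ⟨-, -, h3, h4, h5⟩ := hA i
      have hA0 : (0 : ℝ) ≤ A i := Nat.cast_nonneg _
      have hX0 : (0 : ℝ) ≤ X i := Nat.cast_nonneg _
      have e1 : (A i : ℝ) ≤ c * A i := le_mul_of_one_le_left hA0 hcR
      have e2 : (X i : ℝ) ≤ c * X i := le_mul_of_one_le_left hX0 hcR
      push_cast
      refine ⟨(pow_le_pow_right₀ hL.le (le_max_left _ _)).trans (h3.trans e1), h4.trans ?_,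
        h5.trans ?_⟩
      · gcongr
      · gcongr)
    (fun i => c * A0 i) (fun i => c * B0 i) T S hS
  -- the map `(a, b) ↦ (c a, c b)`
  set φ : (Fin r → ℤ × ℤ) → (Fin r → ℤ × ℤ) := fun p i => ((c : ℤ) * (p i).1, (c : ℤ) * (p i).2)
    with hφ
  have hinj : Function.Injective φ := by
    intro p p' hpp
    funext i
    have h2 := congrFun hpp i
    simp only [hφ, Prod.mk.injEq, mul_eq_mul_left_iff] at h2
    have hc0 : (c : ℤ) ≠ 0 := hcZ.ne'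
    refine Prod.ext ?_ ?_
    · exact h2.1.resolve_right hc0
    · exact h2.2.resolve_right hc0
  refine ⟨(Bx A0 B0 A X).filter (fun p => φ p ∈ Ex'), ?_, ?_⟩
  · have e0 : (((Bx A0 B0 A X).filter (fun p => φ p ∈ Ex')).card : ℝ) ≤ Ex'.card := by
      rw [← card_image_of_injective _ hinj]
      refine Nat.cast_le.2 (card_le_card ?_)
      intro p' hp'
      rw [mem_image] at hp'
      obtain ⟨p, hp, rfl⟩ := hp'
      exact (mem_filter.1 hp).2
    refine e0.trans (hEx'.trans ?_)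
    have e1 : ∏ i, (((c * A i : ℕ) : ℝ) * ((c * X i : ℕ) : ℝ)) =
        (c : ℝ) ^ (2 * r) * ∏ i, ((A i : ℝ) * X i) := by
      have : ∀ i, (((c * A i : ℕ) : ℝ) * ((c * X i : ℕ) : ℝ)) = (c : ℝ) ^ 2 * ((A i : ℝ) * X i) := by
        intro i
        push_cast
        ring
      simp only [this]
      rw [prod_mul_distrib, prod_const, card_univ, Fintype.card_fin, ← pow_mul]
    rw [e1, div_le_div_iff₀ (by positivity) (by positivity)]
    have e2 : (c : ℝ) ^ (2 * r) ≤ Real.log x ^ (2 * r * C) := by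
      calc (c : ℝ) ^ (2 * r) ≤ (Real.log x ^ C) ^ (2 * r) := pow_le_pow_left₀ (by positivity) hc2 _
        _ = Real.log x ^ (2 * r * C) := by rw [← pow_mul]; ring_nf
    have e3 : 0 ≤ ∏ i, ((A i : ℝ) * X i) := prod_nonneg fun i _ => by positivity
    calc (c : ℝ) ^ (2 * r) * (∏ i, ((A i : ℝ) * X i)) * Real.log x ^ U
        ≤ Real.log x ^ (2 * r * C) * (∏ i, ((A i : ℝ) * X i)) * Real.log x ^ U := by gcongr
      _ = (∏ i, ((A i : ℝ) * X i)) * Real.log x ^ (U + 2 * r * C) := by rw [pow_add]; ring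
  intro p hp hpE y
  have hpE' : φ p ∉ Ex' := fun h2 => hpE (mem_filter.2 ⟨hp, h2⟩)
  have hbox : φ p ∈ Fintype.piFinset (fun i => Ioc ((c : ℤ) * A0 i)
      ((c : ℤ) * A0 i + (c * A i : ℕ)) ×ˢ Ioc ((c : ℤ) * B0 i)
      ((c : ℤ) * B0 i + (c * X i : ℕ))) := by
    unfold Bx at hp
    rw [Fintype.mem_piFinset] at hp ⊢
    intro i
    have h3 := hp i
    rw [mem_product, mem_Ioc, mem_Ioc] at h3 ⊢
    simp only [hφ]
    obtain ⟨⟨h4, h5⟩, h6, h7⟩ := h3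
    push_cast
    refine ⟨⟨by nlinarith, by nlinarith⟩, by nlinarith, by nlinarith⟩
  have h3 := hE' (φ p) hbox hpE' y
  have e0 : ∀ i (n : ℕ), T i n + (φ p i).1 * (n : ℤ) ^ (j i) + (φ p i).2 = fam T c j p i n := by
    intro i n
    simp only [hφ, fam]
    ring
  simp only [e0] at h3
  rw [sum_ip x (S.filter (fun n => n ≤ y)) (fam T c j p),
    sum_lz x z (S.filter (fun n => n ≤ y)) (fam T c j p)] at h3
  refine le_trans h3 ?_
  exact div_le_div_of_nonneg_left hKpos.le (by positivity) (pow_le_pow_right₀ hL.le (by omega))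

end Pool.Agent.H300R2.NB
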